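import Pool.Agent.Y753.NL.Uni4
import Pool.Agent.Y755.Gn1

set_option autoImplicit false

/-! Preparations for the moments of all orders. -/

namespace Pool.Agent.Y753.NL

open Finset Filter MeasureTheory MonoidAlgebra Topology
open Pool.Agent.Y755
open Pool.Agent.W184.NZ
open Pool.Agent.W184 (zn zn_nonneg zn_cont zn_le')
open Pool.Agent.H306R2 (lc lc_zero lc_nonneg lc_pos lc_summable)

/-- the size of the polynomial over the small primes, for nearby exponents, with a uniform radius -/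
lemma near_size_u {z : ℕ} {ε : ℝ} (hε : 0 < ε) (hε1 : ε ≤ 1 / 10) :
    ∃ ρ : ℝ, 0 < ρ ∧ ∀ α0 : ℝ, 0 < α0 → ∃ K0 : ℕ, ∀ K : ℕ, K0 ≤ K → ∀ α : ℝ, |α - α0| ≤ ρ → ∀ s : ℂ, 1 / 2 ≤ s.re →
      1 - ε ≤ ‖es s (Pz z)‖ ^ (2 * α) * ‖es s (Az α0 K z)‖ ^ 2 ∧
      ‖es s (Pz z)‖ ^ (2 * α) * ‖es s (Az α0 K z)‖ ^ 2 ≤ 1 + ε := by
  obtain ⟨M0, hM0, hM⟩ := Pz_range (z := z)
  refine ⟨ε / (16 * (M0 + 1)), by positivity, fun α0 h0 => ?_⟩
  obtain ⟨K0, hK0⟩ := Az_size (ε := ε / 4) h0 z (by positivity)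
  refine ⟨K0, fun K hK α hα s hs => ?_⟩
  have h1 := hK0 K hK s hs
  have h2 := hM s hs
  have hP := es_Pz_pos z hs
  set P := ‖es s (Pz z)‖
  set A := ‖es s (Az α0 K z)‖
  have e1 : P ^ (2 * α) * A ^ 2 = Real.exp (2 * (α - α0) * Real.log P) * (P ^ α0 * A) ^ 2 := by
    have : Real.exp (2 * (α - α0) * Real.log P) = P ^ (2 * (α - α0)) := by
      rw [Real.rpow_def_of_pos hP]; congr 1; ring
    rw [this, mul_pow, ← Real.rpow_natCast (P ^ α0), ← Real.rpow_mul hP.le, ← mul_assoc, ← Real.rpow_add hP]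
    congr 2
    push_cast; ring
  rw [e1]
  have h3 : |2 * (α - α0) * Real.log P| ≤ ε / 8 := by
    rw [abs_mul, abs_mul, abs_two]
    calc 2 * |α - α0| * |Real.log P| ≤ 2 * (ε / (16 * (M0 + 1))) * (M0 + 1) := by
          gcongr
          linarith
      _ = ε / 8 := by field_simp; ring
  have h4 := exp_near (h3.trans (by linarith))
  set X := Real.exp (2 * (α - α0) * Real.log P)
  have h5 : |X - 1| ≤ ε / 4 := by linarith
  set u := P ^ α0 * A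
  obtain ⟨a1, a2⟩ := abs_le.mp h5
  obtain ⟨b1, b2⟩ := abs_le.mp h1
  have hu : (1 - ε / 4) ^ 2 ≤ u ^ 2 := pow_le_pow_left₀ (by linarith) (by linarith) 2
  have hu2 : u ^ 2 ≤ (1 + ε / 4) ^ 2 := pow_le_pow_left₀ (by linarith) (by linarith) 2
  constructor
  · have h6 : (1 - ε / 4) * (1 - ε / 4) ^ 2 ≤ X * u ^ 2 := mul_le_mul (by linarith) hu (by positivity) (by linarith)
    nlinarith [sq_nonneg ε]
  · have h6 : X * u ^ 2 ≤ (1 + ε / 4) * (1 + ε / 4) ^ 2 := mul_le_mul (by linarith) hu2 (by positivity) (by linarith)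
    have e2 : ε ^ 2 ≤ ε / 10 := by nlinarith
    have e3 : ε ^ 3 ≤ ε / 100 := by nlinarith
    nlinarith

/-- the choice of the polynomial over the small primes -/
lemma A0_u {ε : ℝ} (hε : 0 < ε) (hε1 : ε ≤ 1 / 10) (z : ℕ) :
    ∃ ρ : ℝ, 0 < ρ ∧ ∀ α0 : ℝ, 0 < α0 → ∀ h k : ℕ, h ≠ 0 → k ≠ 0 → h.Coprime k → (∀ p, p.Prime → p ∣ h * k → p < z) →
    ∃ (A0 : P1) (m δr : ℝ), Bd1 m A0 ∧ A0 ∈ SA1 (M1 (S0 z)) ∧ 0 < δr ∧ (∀ δ, 1 ≤ ip δ A0 A0) ∧
      (∀ δ : ℝ, 0 ≤ δ → δ < δr → |((h * k : ℕ) : ℝ) ^ (1 / 2 + δ) * ip δ (single h 1 * A0) (single k 1 * A0) /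
        ip δ A0 A0 - Nu α0 h k| ≤ ε) ∧
      ∀ α : ℝ, |α - α0| ≤ ρ → ∀ s : ℂ, 1 / 2 ≤ s.re →
        1 - ε ≤ ‖es s (Pz z)‖ ^ (2 * α) * ‖es s A0‖ ^ 2 ∧
        ‖es s (Pz z)‖ ^ (2 * α) * ‖es s A0‖ ^ 2 ≤ 1 + ε := by
  obtain ⟨ρ, hρ, hN⟩ := near_size_u (z := z) hε hε1
  refine ⟨ρ, hρ, fun α0 h0 h k hh hk hc hpz => ?_⟩
  obtain ⟨K1, hK1⟩ := hN α0 h0
  have hrat := (Metric.tendsto_nhds.mp (ratio_lim h0 hh hk hc hpz) ε hε).curry
  obtain ⟨Kz, hKz1, hKz2⟩ := (hrat.and (eventually_ge_atTop K1)).exists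
  rw [eventually_nhdsWithin_iff, Metric.eventually_nhds_iff] at hKz1
  obtain ⟨δr, hδr, hKr⟩ := hKz1
  obtain ⟨m0, hA'⟩ := Az_Bd α0 Kz z
  refine ⟨Az α0 Kz z, m0, δr, hA', Az_mem α0 Kz z, hδr, fun δ => Az_ip_ge h0 Kz z, fun δ hd1 hd2 => ?_, hK1 Kz hKz2⟩
  have h1 := hKr (by rw [Real.dist_eq, sub_zero, abs_of_nonneg hd1]; exact hd2 : dist δ 0 < δr) hd1
  rw [Real.dist_eq] at h1
  exact h1.le

lemma lc_mono {a b : ℝ} (ha : 0 ≤ a) (hab : a ≤ b) (j : ℕ) : lc a j ≤ lc b j := by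
  unfold lc
  exact prod_le_prod (fun i _ => by positivity) fun i _ => by gcongr

lemma lc_cont (j : ℕ) : Continuous fun a : ℝ => lc a j := by
  unfold lc
  fun_prop

/-- the local coefficients depend continuously on the exponent -/
lemma nu_cont {α0 : ℝ} (h0 : 0 < α0) {p : ℕ} (hp : p.Prime) (c : ℕ) : ContinuousAt (fun a => nu a p c) α0 := by
  unfold nu
  have hp1 : (1:ℝ) < p := by exact_mod_cast hp.one_lt
  have hM : 0 < α0 + 1 := by linarith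
  have hev : ∀ᶠ a in 𝓝 α0, 0 < a ∧ a ≤ α0 + 1 := (lt_mem_nhds h0).and (ge_mem_nhds (by linarith))
  have hD0 : (∑' i : ℕ, lc α0 i ^ 2 * (1 / (p:ℝ)) ^ i) ≠ 0 := (lt_of_lt_of_le one_pos (den_pos h0 hp)).ne'
  refine ContinuousAt.div (continuousAt_const.mul ?_) ?_ hD0
  · refine tendsto_tsum_of_dominated_convergence (bound := fun i : ℕ => lc (α0 + 1) i * lc (α0 + 1) (i + c) * (1 / (p:ℝ)) ^ (i + c))
      (loc_bound hM hp c) (fun i => ?_) ?_
    · exact (((lc_cont i).tendsto α0).mul ((lc_cont (i + c)).tendsto α0)).mul_const _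
    · filter_upwards [hev] with a ha i
      rw [Real.norm_of_nonneg (mul_nonneg (mul_nonneg (lc_nonneg ha.1.le _) (lc_nonneg ha.1.le _)) (by positivity))]
      have h1 := lc_mono ha.1.le ha.2 i
      have h2 := lc_mono ha.1.le ha.2 (i + c)
      have h3 := lc_nonneg ha.1.le (i + c)
      have h4 := lc_nonneg hM.le i
      gcongr
  · have hs : Summable fun i : ℕ => lc (α0 + 1) i ^ 2 * (1 / (p:ℝ)) ^ i := by
      have := loc_bound hM hp 0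
      simpa [pow_two] using this
    refine tendsto_tsum_of_dominated_convergence (bound := fun i : ℕ => lc (α0 + 1) i ^ 2 * (1 / (p:ℝ)) ^ i)
      hs (fun i => ?_) ?_
    · exact (((lc_cont i).tendsto α0).pow 2).mul_const _
    · filter_upwards [hev] with a ha i
      rw [Real.norm_of_nonneg (by positivity)]
      have h1 := lc_mono ha.1.le ha.2 i
      have h3 := lc_nonneg ha.1.le i
      gcongr

lemma Nu_cont {α0 : ℝ} (h0 : 0 < α0) (h k : ℕ) : ContinuousAt (fun a => Nu a h k) α0 := by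
  unfold Nu
  refine tendsto_finsetProd _ fun p hp => ?_
  exact nu_cont h0 (Nat.prime_of_mem_primeFactors hp) _

end Pool.Agent.Y753.NL
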