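import Pool.Agent.Y753.NL.All0

set_option autoImplicit false

/-! The estimate off the good set, for all orders. -/

namespace Pool.Agent.Y753.NL

open Finset Filter MeasureTheory MonoidAlgebra Topology
open Pool.Agent.Y755
open Pool.Agent.W184.NZ
open Pool.Agent.W184 (zn zn_nonneg zn_cont zn_le')
open Pool.Agent.H306R2.SM (cl)

/-- the conditions on the number of blocks -/
def PJ (c : ℝ) (z : ℕ) (η : ℝ) (Rs : ℕ) (d T : ℝ) (J : ℕ) : Prop :=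
  Sy c z (yT η T) J Rs (NT T) (KT T) ∧
    |∑ i ∈ range J, vI (IZ z (yT η T) i) - Real.log (Real.log T)| ≤ d ∧ vd 0 (Rst (NT T) (yT η T)) ≤ d

/-- a choice of the parameters -/
structure Pk (M z Rs : ℕ) (ε e1 c η d x0 : ℝ) : Prop where
  M1 : 1 ≤ M
  e0 : 0 < ε
  e01 : ε ≤ 1 / 10
  e10 : 0 < e1
  e11 : e1 < 1
  p1 : (1 + e1) ^ (2 * (M:ℝ)) ≤ 1 + ε
  p2 : 1 - ε ≤ (1 - e1) ^ (2 * (M:ℝ))
  c0 : 0 ≤ c
  zM : 40000 * M ^ 6 ≤ z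
  z1 : 40000 * 1 ^ 6 ≤ z
  ET1 : ∀ (y : ℝ) (J : ℕ), Rg c J (IZ z y) (bb y) → ETM M c z y J Rs ≤ ε * e1 ^ 2 / 600
  ET2 : ∀ (y : ℝ) (J : ℕ), Rg c J (IZ z y) (bb y) → ETM 1 c z y J Rs ≤ ε * e1 ^ 2 / 600
  x00 : 0 < x0
  cm : ∀ α : ℝ, 0 < α → α ≤ M → ∀ y δ : ℝ, (z:ℝ) ≤ y → 0 < δ → x0 ≤ δ * Real.log y → ∀ J : ℕ, bb y J < 144 →
    Real.exp (-ε) * DD α δ ≤ (∏ p ∈ S0 z, Ed α δ p) * Real.exp (α ^ 2 * Vd δ z y J) ∧
    (∏ p ∈ S0 z, Ed α δ p) * Real.exp (α ^ 2 * Vd δ z y J) ≤ Real.exp ε * DD α δ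
  rok : Rok c Rs
  h4a : 4 * Real.exp (-(2 * (Rs:ℝ))) ≤ ε / 4
  h4b : 4 * Real.exp (-(2 * (Rs:ℝ))) ≤ e1 / 8
  η0 : 0 < η
  η1 : η * (M * ((Rs:ℝ) + 1)) ≤ 1 / 16000
  d0 : 0 ≤ d
  par : ∀ᶠ T : ℝ in atTop, ∃ J : ℕ, PJ c z η Rs d T J
  on : ∃ C : ℝ, 0 < C ∧ ∀ᶠ T : ℝ in atTop, ∀ (J : ℕ) (I : ℕ → Finset ℕ),
      Rg c J I (bb (yT η T)) → |∑ i ∈ range J, vI (I i) - Real.log (Real.log T)| ≤ d →
      ∀ (M' : ℕ) (a : ℝ), (M' = 1 ∧ |a| ≤ 1) ∨ (M' = M ∧ 0 ≤ a ∧ a ≤ M) →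
      ∫ t in (T ^ ((3:ℝ)/4))..T, ‖riemannZeta (cl t)‖ ^ 2 * gM J M' a Rs I t ≤
        C * (T * Real.log T ^ ((1 + a) ^ 2))

/-- the parameters exist -/
theorem Pk_ex {M : ℕ} (hM : 1 ≤ M) {ε : ℝ} (hε : 0 < ε) (hε1 : ε ≤ 1 / 10) (z0 : ℕ) :
    ∃ (z Rs : ℕ) (e1 c η d x0 : ℝ), z0 ≤ z ∧ Pk M z Rs ε e1 c η d x0 := by
  have hM1 : (1:ℝ) ≤ M := by exact_mod_cast hM
  have hM0 : (0:ℝ) < M := by linarith
  obtain ⟨e1, he1, he11, hp1, hp2⟩ := e1_ex hM hε hε1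
  set e := ε * e1 ^ 2 / 600 with he
  have he0 : 0 < e := by positivity
  obtain ⟨c, hc, hpar⟩ := par_ex
  obtain ⟨z1, R1, hET1⟩ := ETM_small M hc he0
  obtain ⟨z2, R2, hET2⟩ := ETM_small 1 hc he0
  obtain ⟨z3, x0, hx0, hcmp⟩ := cmp_u (Mx := M) hM0 hε
  obtain ⟨z, hzz0, hzz1, hzz2, hzz3, hzM, hz1000, hz40⟩ : ∃ z : ℕ, z0 ≤ z ∧ z1 ≤ z ∧ z2 ≤ z ∧ z3 ≤ z ∧ 40000 * M ^ 6 ≤ z ∧ 1000 ≤ z ∧
      40000 * 1 ^ 6 ≤ z := by
    have h1 : 1 ≤ M ^ 6 := Nat.one_le_pow _ _ (by omega)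
    refine ⟨z0 + z1 + z2 + z3 + 40000 * M ^ 6, by omega, by omega, by omega, by omega, by omega, by omega, by omega⟩
  obtain ⟨Rs, hRok, hRRm, h4, _⟩ := Rs_exists (c := c) (ε := min (ε / 4) (e1 / 8)) (by positivity) (max R1 R2)
  have hR1 : R1 ≤ Rs := (le_max_left _ _).trans hRRm
  have hR2 : R2 ≤ Rs := (le_max_right _ _).trans hRRm
  have hRs1 : 1 ≤ Rs := hRok.1
  obtain ⟨ηm, hηm, hmono⟩ := mono_moment
  have hq0 : 0 < min ηm (1 / 4) := lt_min hηm (by norm_num)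
  have hq1 : min ηm (1 / 4) ≤ 1 / 4 := min_le_right _ _
  have hRp : (0:ℝ) < M * ((Rs:ℝ) + 1) := by positivity
  set η : ℝ := min ηm (1 / 4) / 4000 / (M * ((Rs:ℝ) + 1)) with hηd
  have hη : 0 < η := by positivity
  have hη1 : η * (M * ((Rs:ℝ) + 1)) = min ηm (1 / 4) / 4000 := by rw [hηd]; field_simp
  have hη2 : η * (M * ((Rs:ℝ) + 1)) ≤ 1 / 16000 := by rw [hη1]; linarith
  have hη16 : η ≤ 1 / 16 := by
    have : η * 1 ≤ η * (M * ((Rs:ℝ) + 1)) := mul_le_mul_of_nonneg_left (by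
      have : (0:ℝ) ≤ Rs := Nat.cast_nonneg _
      nlinarith) hη.le
    linarith
  obtain ⟨d, hd, hpar2⟩ := hpar z Rs hz1000 hRs1 η hη hη16
  refine ⟨z, Rs, e1, c, η, d, x0, hzz0, hM, hε, hε1, he1, he11, hp1, hp2, hc, hzM, hz40,
    fun y J hJ => hET1 z hzz1 Rs hR1 y J hJ, fun y J hJ => hET2 z hzz2 Rs hR2 y J hJ, hx0,
    fun α h1 h2 y δ h3 h4 h5 J h6 => hcmp α h1 h2 z hzz3 hz1000 y δ h3 h4 h5 J h6, hRok,
    h4.trans (min_le_left _ _), h4.trans (min_le_right _ _), hη, hη2, hd, hpar2,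
    onl_all (M := M) hM hc hηm hmono hη hη1.le hRok hd⟩

/-- the estimate off the good set -/
theorem key {M z Rs : ℕ} {ε e1 c η d x0 : ℝ} (P : Pk M z Rs ε e1 c η d x0) {m l c2 : ℝ} (hm1 : 1 ≤ m) (hl1 : 1 ≤ l)
    (hc2 : 0 < c2) :
    ∃ lam : ℝ, 1 ≤ lam ∧ x0 / η ≤ lam ∧ ∀ᶠ T : ℝ in atTop, ∀ δ : ℝ, lam / Real.log T ≤ δ → δ ≤ 1 / 16 →
      ∀ J : ℕ, PJ c z η Rs d T J → ∀ (M' : ℕ) (κ : ℝ) (A0 : P1) (D : ℝ),
      ((M' = 1 ∧ |κ - 1| ≤ 1) ∨ (M' = M ∧ 0 ≤ κ - 1 ∧ κ - 1 ≤ M)) →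
      0 ≤ κ → κ ≤ M → Bd1 m A0 → A0 ∈ SA1 (M1 (S0 z)) → l1' A0 ≤ l → 9 / 10 ≤ ip δ A0 A0 →
      T / 2 * (ip δ A0 A0 * Real.exp (κ ^ 2 * Vd δ z (yT η T) J)) ≤ 2 * (T / 2 * D) → c2 * δ ^ (-(κ ^ 2)) ≤ D → 1 ≤ D →
      1 ≤ M' ∧ |κ - 1| ≤ M' ∧ 40000 * M' ^ 6 ≤ z ∧ ETM M' c z (yT η T) J Rs ≤ ε * e1 ^ 2 / 600 ∧
      Real.exp (Real.log (yT η T) * (180 * (M' * ((Rs:ℝ) + 1)))) ≤ T ^ ((1:ℝ) / 50) ∧
      4 * (m * T ^ ((1:ℝ) / 50)) * (l1' A0 ^ 2 * T ^ ((1:ℝ) / 50)) ≤ ε * e1 ^ 2 / 600 * (T / 2 * D) ∧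
      ∫ t in Set.Ioc (T ^ ((4:ℝ)/5)) (T / 2) \ Gh z (yT η T) J Rs e1 δ,
        ‖es (1 / 2 + δ + t * Complex.I) (A0 * Bm M' κ z (yT η T) J Rs)‖ ^ 2 ≤ ε * (T / 2 * D) := by
  have hM := P.M1
  have hM1 : (1:ℝ) ≤ M := by exact_mod_cast hM
  have hM0 : (0:ℝ) < M := by linarith
  have he1 := P.e10
  have he11 := P.e11
  have hε := P.e0
  have hε1 := P.e01
  obtain ⟨e, he⟩ : ∃ e, e = ε * e1 ^ 2 / 600 := ⟨_, rfl⟩
  have he0 : 0 < e := by rw [he]; positivity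
  have he600 : e ≤ ε / 600 := by
    have h1 : e1 ^ 2 ≤ 1 := pow_le_one₀ he1.le he11.le
    have : ε * e1 ^ 2 ≤ ε * 1 := mul_le_mul_of_nonneg_left h1 hε.le
    rw [he]; linarith
  have he100 : e ≤ 1 / 100 := by linarith
  have hc := P.c0
  have hRok := P.rok
  have h4a := P.h4a
  have h4b := P.h4b
  have hRs1 : 1 ≤ Rs := hRok.1
  have hm0 : 0 ≤ m := by linarith
  have hl0 : 0 ≤ l := by linarith
  set LP : ℝ := l1' (Pz z) * l with hLP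
  have hLP0 : 0 ≤ LP := mul_nonneg (l1'_nonneg _) hl0
  have hη := P.η0
  have hη2 := P.η1
  have hd := P.d0
  obtain ⟨Con, hCon, hon⟩ := P.on
  set sz : ℝ := (2 ^ (S0 z).card * l) ^ 2 with hsz
  have hsz0 : 0 ≤ sz := sq_nonneg _
  set A1 : ℝ := (l ^ 2 + sz) * Real.exp ((M:ℝ) ^ 2 * d + 2 * d + 1) with hA1
  have hA10 : 0 ≤ A1 := by positivity
  set Cq : ℝ := 32 * (2 * (LP ^ 2 * Con) + 2 * (A1 + 1) + 1) with hCq
  have hCq0 : 0 < Cq := by positivity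
  obtain ⟨l2, hl2, hQs⟩ := Pool.Agent.Y755.Q_small M hCq0 hc2 he0
  obtain ⟨l3, hl3⟩ := exp_ex (C := 2 * d) hη he0
  set lam : ℝ := max l2 (max l3 (x0 / η)) with hlam
  have hlaml2 : l2 ≤ lam := le_max_left _ _
  have hlaml3 : l3 ≤ lam := (le_max_left _ _).trans (le_max_right _ _)
  have hlamx : x0 / η ≤ lam := (le_max_right _ _).trans (le_max_right _ _)
  have hlam1 : 1 ≤ lam := hl2.trans hlaml2
  refine ⟨lam, hlam1, hlamx, ?_⟩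
  set K0 : ℝ := 8 * (LP ^ 2 + l ^ 2) + 4 * m * l ^ 2 with hK0
  filter_upwards [hon, hpa_gen LP, windows_ev, eventually_ge_atTop (10 ^ 10),
    NT_ev (max 1 (max m (sz / (e * (9 / 10))))),
    rpow_ev (p := 1 / 50) (q := 1 / 9) (by norm_num) m,
    rpow_ev (p := 1 / 2) (q := 1) (by norm_num) (2 * K0 / e),
    Real.tendsto_log_atTop.eventually_ge_atTop 1] with T ton thp t3 t4 t5 t6 t7 t9 δ hδ1 hδ2 J hPJ
  obtain ⟨hS, hV, hWd⟩ := hPJ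
  have hT0 : 0 < T := by linarith
  have hT1 : 1 ≤ T := by linarith
  have hL0 : 0 < Real.log T := by linarith
  have hx : lam ≤ δ * Real.log T := by rwa [div_le_iff₀ hL0] at hδ1
  have hδ0 : 0 < δ := lt_of_lt_of_le (div_pos (lt_of_lt_of_le one_pos hlam1) hL0) hδ1
  have hδL : 1 / Real.log T ≤ δ := le_trans (div_le_div_of_nonneg_right hlam1 hL0.le) hδ1
  have hAT : T ^ ((3:ℝ)/4) ≤ T := by linarith [Real.rpow_nonneg hT0.le (1/4), t3.2.1, t3.1, t3.2.2]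
  set y := yT η T with hy
  set N := NT T with hN
  set K := KT T with hK
  have hly : Real.log y = η * Real.log T := Real.log_exp _
  have hNr : (1:ℝ) ≤ N := (le_max_left _ _).trans t5.1
  have hmN : m ≤ N := ((le_max_left _ _).trans (le_max_right _ _)).trans t5.1
  have hszN : sz / (e * (9 / 10)) ≤ N := ((le_max_right _ _).trans (le_max_right _ _)).trans t5.1
  have hNK : (N:ℝ) < 2 ^ (K + 1) := by
    have : ((N : ℕ) : ℝ) < ((2 ^ (K + 1) : ℕ) : ℝ) := by exact_mod_cast hS.NK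
    push_cast at this
    exact this
  have hmK : m < 2 ^ (K + 1) := by linarith only [hmN, hNK]
  have hX2 : (0:ℝ) ≤ T / 2 := by linarith only [hT0]
  have hX1 : 0 ≤ T ^ ((4:ℝ)/5) := by positivity
  -- the tail
  have hv : 2 * vd δ (Rst N y) ≤ e := by
    have h1 := vd_rst hδ0.le hS.y1 (P := Rst N y) fun p hp => ⟨Rst_prime p hp, (mem_Rst.mp hp).2⟩
    rw [hly] at h1
    have h2 := hl3 (δ * Real.log T) (hlaml3.trans hx)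
    have h3 : Real.exp (-(2 * (δ * (η * Real.log T)))) * vd 0 (Rst N y) ≤ Real.exp (-(2 * (δ * (η * Real.log T)))) * d :=
      mul_le_mul_of_nonneg_left hWd (Real.exp_pos _).le
    have e1 : δ * (η * Real.log T) = δ * Real.log T * η := by ring
    rw [e1] at h1 h3
    linarith only [h1, h2, h3]
  set W := T ^ ((1:ℝ) / 50) with hWdef
  have hW0 : 0 < W := Real.rpow_pos_of_pos hT0 _
  have hWM : Real.exp (Real.log y * (180 * (M * ((Rs:ℝ) + 1)))) ≤ W := by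
    rw [hly, hWdef, Real.rpow_def_of_pos hT0]
    refine Real.exp_le_exp.mpr ?_
    have e : η * Real.log T * (180 * (M * ((Rs:ℝ) + 1))) = 180 * (η * (M * ((Rs:ℝ) + 1))) * Real.log T := by ring
    rw [e, mul_comm (Real.log T)]
    exact mul_le_mul_of_nonneg_right (by linarith only [hη2]) hL0.le
  have hW1 : Real.exp (Real.log y * (180 * (((1:ℕ):ℝ) * ((Rs:ℝ) + 1)))) ≤ W := by
    rw [Nat.cast_one, one_mul]; exact W_of hM hS hWM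
  have hmW : m * W ≤ N := t6.trans t5.2
  intro M' κ A0 D hcase hκ0 hκM hA hAm hlA hip9 hMX hDlow hD1
  have hM' : 1 ≤ M' := by rcases hcase with ⟨h, _⟩ | ⟨h, _⟩ <;> omega
  have hκ1 : |κ - 1| ≤ M' := by
    rcases hcase with ⟨h, h2⟩ | ⟨h, h2, h3⟩
    · rw [h, Nat.cast_one]; exact h2
    · rw [h, abs_of_nonneg h2]; exact h3
  have hzM' : 40000 * M' ^ 6 ≤ z := by
    rcases hcase with ⟨h, _⟩ | ⟨h, _⟩
    · rw [h]; exact P.z1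
    · rw [h]; exact P.zM
  have hET : ETM M' c z y J Rs ≤ e := by
    rw [he]
    rcases hcase with ⟨h, _⟩ | ⟨h, _⟩
    · rw [h]; exact P.ET2 y J hS.rg
    · rw [h]; exact P.ET1 y J hS.rg
  have hWM' : Real.exp (Real.log y * (180 * (M' * ((Rs:ℝ) + 1)))) ≤ W := by
    rcases hcase with ⟨h, _⟩ | ⟨h, _⟩
    · rw [h]; exact hW1
    · rw [h]; exact hWM
  have hl1A : l1' (Pz z * A0) ≤ LP :=
    (l1'_mul _ _).trans (mul_le_mul_of_nonneg_left hlA (l1'_nonneg _))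
  have hlA0 := l1'_nonneg A0
  have hlP0 := l1'_nonneg (Pz z * A0)
  -- on the line
  have o1 := ton J (IZ z y) hS.rg hV M' (κ - 1) (by
    rcases hcase with ⟨h, h2⟩ | ⟨h, h2, h3⟩
    · exact Or.inl ⟨h, h2⟩
    · exact Or.inr ⟨h, h2, h3⟩)
  have e0 : 1 + (κ - 1) = κ := by ring
  rw [e0] at o1
  have o2 := line_f hS hA hl1A hAT o1
  have o3 := N1_lineM hM' hzM' hS hV hWd (hET.trans (by linarith only [he100])) hκ1 hκ0 hκM hA hAm hlA hmN hd t9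
  have hP1 : 1 ≤ Real.log T ^ (κ ^ 2) := Real.one_le_rpow t9 (sq_nonneg _)
  have k0 := (k_absM hM' hκ1).1
  have hf2 : l1' (Pz z * A0 * Bm M' (κ - 1) z y J Rs) ^ 2 ≤ LP ^ 2 * W := by
    refine (PBm_l1 hS k0 hWM').trans ?_
    gcongr
  have hQ0 := thp (Pz z * A0 * Bm M' (κ - 1) z y J Rs) _ (LP ^ 2 * Con) A1 (Real.log T ^ (κ ^ 2))
    (PBm_Bd hS hA) hf2 (by positivity) hA10 hP1 o2 o3 δ hδL hδ2
  have hQ1 := hQs T κ δ D hT1 t9 t5.2 hκ0 hκM hδ0 (hlaml2.trans hx) hDlow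
  have hQ2 := hQ0.trans hQ1
  have hY0 : 0 ≤ T / 2 * D := mul_nonneg hX2 (zero_le_one.trans hD1)
  -- small primes
  have hsm : (2 ^ (S0 z).card * l1' A0) ^ 2 / 2 ^ (K + 1) ≤ e * ip δ A0 A0 := by
    have hN0 : (0:ℝ) < N := lt_of_lt_of_le one_pos hNr
    have h0 : (2 ^ (S0 z).card * l1' A0) ^ 2 ≤ sz := by rw [hsz]; gcongr
    have h1 : (2 ^ (S0 z).card * l1' A0) ^ 2 / 2 ^ (K + 1) ≤ sz / N := by
      refine le_trans (div_le_div_of_nonneg_right h0 (by positivity)) ?_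
      exact div_le_div_of_nonneg_left hsz0 hN0 hNK.le
    have h2 : sz / N ≤ e * (9 / 10) := by
      rw [div_le_iff₀ hN0]
      rw [div_le_iff₀ (mul_pos he0 (by norm_num))] at hszN
      rwa [mul_comm]
    exact h1.trans (h2.trans (mul_le_mul_of_nonneg_left hip9 he0.le))
  -- errors
  have hK0T : K0 * T ^ ((1:ℝ) / 2) ≤ e * (T / 2 * D) := by
    rw [Real.rpow_one] at t7
    have h1 : K0 * T ^ ((1:ℝ) / 2) ≤ e * (T / 2) := by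
      have h2 := mul_le_mul_of_nonneg_left t7 (half_pos he0).le
      calc K0 * T ^ ((1:ℝ) / 2) = e / 2 * (2 * K0 / e * T ^ ((1:ℝ) / 2)) := by field_simp
        _ ≤ e / 2 * T := h2
        _ = e * (T / 2) := by ring
    have h3 : e * (T / 2) ≤ e * (T / 2) * D := le_mul_of_one_le_right (mul_nonneg he0.le hX2) hD1
    calc K0 * T ^ ((1:ℝ) / 2) ≤ e * (T / 2) * D := h1.trans h3
      _ = _ := by ring
  obtain ⟨f1, f2, f4, f5⟩ := errs (LP := LP) (l := l) hT1 hm0 hK0T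
  have f2' : 4 * (m * W) * (l1' A0 ^ 2 * W) ≤ e * (T / 2 * D) := by
    refine le_trans ?_ f2
    gcongr
  have f4' : 8 * (N:ℝ) * ((N:ℝ) ^ 2 * (l1' (Pz z * A0) ^ 2 * W) + l1' A0 ^ 2 * W) ≤ e * (T / 2 * D) := by
    refine le_trans ?_ f4
    gcongr
  have f5' : 4 * m * l1' A0 ^ 2 * W ^ 6 ≤ e * (T / 2 * D) := by
    refine le_trans ?_ f5
    gcongr
  rw [← he]
  refine ⟨hM', hκ1, hzM', hET, hWM', f2', ?_⟩
  exact inst_off hM' hzM' hS hA hAm hm0 hmK hmW hδ0.le hδ2 hκ1 he1 he11.le hε he he100 h4b hET hX1 t3.1 hWM' hQ2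
    hsm hv hY0 hMX f4' f5'

end Pool.Agent.Y753.NL
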