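import Pool.Agent.Y753.NL.All1

set_option autoImplicit false

/-! The moments on the good set, for one set of parameters. -/

namespace Pool.Agent.Y753.NL

open Finset Filter MeasureTheory MonoidAlgebra Topology
open Pool.Agent.Y755
open Pool.Agent.W184.NZ
open Pool.Agent.W184 (zn zn_nonneg zn_cont zn_le')

lemma mean_near {ε Y Xd X2 B EV b : ℝ} (hε : 0 < ε) (hε1 : ε ≤ 1 / 10) (hB : 0 < B) (hEV : 0 < EV)
    (hX12 : (1 - ε) * X2 ≤ Xd) (hXd : Xd ≤ X2) (hX2 : 0 ≤ X2) (hY : X2 * (B * EV) = Y)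
    (hb1 : (1 - ε) * EV ≤ b) (hb2 : b ≤ (1 + ε) * EV) : |Xd * (B * b) - Y| ≤ 2 * ε * Y := by
  have hM0 : 0 < B * EV := by positivity
  have hXd0 : 0 ≤ Xd := le_trans (mul_nonneg (by linarith) hX2) hX12
  have hY0 : 0 ≤ Y := by rw [← hY]; positivity
  have hb0 : 0 ≤ b := le_trans (mul_nonneg (by linarith) hEV.le) hb1
  have hBb : 0 ≤ B * b := mul_nonneg hB.le hb0
  have h1 : Xd * (B * b) ≤ (1 + ε) * Y := by
    calc Xd * (B * b) ≤ X2 * (B * ((1 + ε) * EV)) := by gcongr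
      _ = (1 + ε) * (X2 * (B * EV)) := by ring
      _ = _ := by rw [hY]
  have h2 : (1 - ε) * (1 - ε) * Y ≤ Xd * (B * b) := by
    calc (1 - ε) * (1 - ε) * Y = (1 - ε) * X2 * (B * ((1 - ε) * EV)) := by rw [← hY]; ring
      _ ≤ Xd * (B * b) := by
          refine mul_le_mul hX12 (mul_le_mul_of_nonneg_left hb1 hB.le) ?_ hXd0
          exact mul_nonneg hB.le (mul_nonneg (by linarith) hEV.le)
  have h4 : (1 - 2 * ε) ≤ (1 - ε) * (1 - ε) := by nlinarith [sq_nonneg ε]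
  have h5 := mul_le_mul_of_nonneg_right h4 hY0
  have h6 : 0 ≤ ε * Y := by positivity
  rw [abs_le]
  constructor <;> linarith

lemma twist_near2 {ε Y x B R ν c : ℝ} (hε : 0 < ε) (hε1 : ε ≤ 1 / 10) (hY0 : 0 ≤ Y)
    (h1 : |x - Y| ≤ 2 * ε * Y) (hc : c = R / B * x) (hR : |R / B - ν| ≤ ε) :
    |c - Y * ν| ≤ 4 * ε * (1 + |ν|) * Y := by
  have hx2 : |x| ≤ 2 * Y := by
    have := abs_le.mp h1
    have h3 : 2 * ε * Y ≤ Y := by nlinarith
    rw [abs_le]; constructor <;> linarith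
  have e2 : c - Y * ν = (R / B - ν) * x + ν * (x - Y) := by rw [hc]; ring
  rw [e2]
  refine (abs_add_le _ _).trans ?_
  rw [abs_mul, abs_mul]
  have h4 : |R / B - ν| * |x| ≤ ε * (2 * Y) := mul_le_mul hR hx2 (abs_nonneg _) hε.le
  have h5 : |ν| * |x - Y| ≤ |ν| * (2 * ε * Y) := mul_le_mul_of_nonneg_left h1 (abs_nonneg _)
  have h6 : 0 ≤ ε * Y := by positivity
  have h7 : 0 ≤ |ν| * (ε * Y) := by positivity
  nlinarith

/-- a choice of all parameters -/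
structure Cg (M M' : ℕ) (c y δ α ε e1 e X1 X2 W m Y B V : ℝ) (z J Rs N K : ℕ) (A0 : P1) : Prop where
  iM : 1 ≤ M'
  iz : 40000 * M' ^ 6 ≤ z
  iS : Sy c z y J Rs N K
  iA : Bd1 m A0
  iAm : A0 ∈ SA1 (M1 (S0 z))
  im0 : 0 ≤ m
  id0 : 0 ≤ δ
  id1 : δ ≤ 1 / 16
  ia0 : 0 < α
  iaM : α ≤ M
  ia1 : |α - 1| ≤ M'
  ie0 : 0 < ε
  ie1 : ε ≤ 1 / 10
  ie10 : 0 < e1
  ie11 : e1 < 1
  ip1 : (1 + e1) ^ (2 * (M:ℝ)) ≤ 1 + ε
  ip2 : 1 - ε ≤ (1 - e1) ^ (2 * (M:ℝ))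
  iPA : ∀ s : ℂ, 1 / 2 ≤ s.re → 1 - ε ≤ ‖es s (Pz z)‖ ^ (2 * α) * ‖es s A0‖ ^ 2 ∧
      ‖es s (Pz z)‖ ^ (2 * α) * ‖es s A0‖ ^ 2 ≤ 1 + ε
  ih4 : 4 * Real.exp (-(2 * (Rs:ℝ))) ≤ ε / 4
  iE : ETM M' c z y J Rs ≤ e
  ie : e ≤ ε / 100
  iX1 : 0 ≤ X1
  iX12 : X1 ≤ X2
  iX : (1 - ε) * X2 ≤ X2 - X1
  iW : Real.exp (Real.log y * (180 * (M' * ((Rs:ℝ) + 1)))) ≤ W
  iW0 : 0 ≤ W
  iB : B = ip δ A0 A0
  iV : V = Vd δ z y J
  iB1 : 0 < B
  iY : X2 * (B * Real.exp (α ^ 2 * V)) = Y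
  if2 : 4 * (m * W) * (l1' A0 ^ 2 * W) ≤ e * Y
  ioff : ∫ t in Set.Ioc X1 X2 \ Gh z y J Rs e1 δ,
        ‖es (1 / 2 + δ + t * Complex.I) (A0 * Bm M' α z y J Rs)‖ ^ 2 ≤ ε * Y

namespace Cg

variable {M M' : ℕ} {c y δ α ε e1 e X1 X2 W m Y B V : ℝ} {z J Rs N K : ℕ} {A0 : P1}

lemma X20 (H : Cg M M' c y δ α ε e1 e X1 X2 W m Y B V z J Rs N K A0) : 0 ≤ X2 := H.iX1.trans H.iX12

lemma Y0 (H : Cg M M' c y δ α ε e1 e X1 X2 W m Y B V z J Rs N K A0) : 0 ≤ Y := by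
  rw [← H.iY]
  exact mul_nonneg H.X20 (mul_nonneg H.iB1.le (Real.exp_pos _).le)

lemma e_le (H : Cg M M' c y δ α ε e1 e X1 X2 W m Y B V z J Rs N K A0) : e ≤ 1 / 1000 := by
  have := H.ie
  have := H.ie1
  linarith

lemma ak (H : Cg M M' c y δ α ε e1 e X1 X2 W m Y B V z J Rs N K A0) : |α| ≤ 2 * M' := by
  have h := (k_absM H.iM H.ia1).2.1
  have e0 : 1 + (α - 1) = α := by ring
  rwa [e0] at h

lemma wc (H : Cg M M' c y δ α ε e1 e X1 X2 W m Y B V z J Rs N K A0) :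
    Continuous fun t : ℝ => ‖es (1 / 2 + δ + t * Complex.I) (A0 * Bm M' α z y J Rs)‖ ^ 2 :=
  es_cont0 δ (ABm_Bd (a := α) H.iS H.iA H.im0 H.iW)

lemma zc (H : Cg M M' c y δ α ε e1 e X1 X2 W m Y B V z J Rs N K A0) : Continuous fun t => zn (1 / 2 + δ) t ^ (2 * α) :=
  znp_cont (by have := H.id1; linarith) (by have := H.ia0; linarith)

lemma Gm (H : Cg M M' c y δ α ε e1 e X1 X2 W m Y B V z J Rs N K A0) : MeasurableSet (Gh z y J Rs e1 δ) :=
  Gh_meas H.iS H.id1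

/-- closeness at a point of the good set -/
lemma pt (H : Cg M M' c y δ α ε e1 e X1 X2 W m Y B V z J Rs N K A0) {t : ℝ} (ht : t ∈ Gh z y J Rs e1 δ) :
    |zn (1 / 2 + δ) t ^ (2 * α) - ‖es (1 / 2 + δ + t * Complex.I) (A0 * Bm M' α z y J Rs)‖ ^ 2| ≤
      5 * ε * ‖es (1 / 2 + δ + t * Complex.I) (A0 * Bm M' α z y J Rs)‖ ^ 2 := by
  have hre : (1:ℝ) / 2 ≤ (1 / 2 + (δ:ℂ) + t * Complex.I).re := by
    rw [half_re]; have := H.id0; linarith
  have hPAt := H.iPA _ hre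
  have h1 := on_good (J := J) (Rs := Rs) (K := fun i => 20 * (M' * RR Rs i)) H.ia0.le H.iaM H.ie10 H.ie11 H.ie0 H.ie1
    H.ip1 H.ip2 (fun i => cl_M H.iM (hRR H.iS i) H.ak) H.ih4 (riemannZeta (1 / 2 + δ + t * Complex.I))
    (es (1 / 2 + δ + t * Complex.I) (Pz z)) (es (1 / 2 + δ + t * Complex.I) A0)
    (fun i => PI (IZ z y i) (1 / 2 + δ + t * Complex.I)) ht hPAt.1 hPAt.2
  rw [← es_Bm, ← map_mul] at h1
  have e3 : zn (1 / 2 + δ) t = ‖riemannZeta (1 / 2 + δ + t * Complex.I)‖ := by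
    unfold zn; rw [s_eq]
  rw [e3, abs_le]
  constructor <;> linarith [h1.1, h1.2]

/-- the mean of the comparison function -/
lemma mw (H : Cg M M' c y δ α ε e1 e X1 X2 W m Y B V z J Rs N K A0) :
    |(∫ t in X1..X2, ‖es (1 / 2 + δ + t * Complex.I) (A0 * Bm M' α z y J Rs)‖ ^ 2) - Y| ≤ 3 * ε * Y := by
  have n45 := N45M (c := c) H.iM H.iz H.iS H.id0 H.ia1 H.iAm (by have := H.iE; have := H.e_le; linarith)
  have e0 : 1 + (α - 1) = α := by ring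
  rw [e0, Real.exp_add, ← H.iB, ← H.iV] at n45
  have hwin := ABm_win (X1 := X1) (X2 := X2) H.iS H.iA H.im0 H.ak H.id0 H.iW H.iW0
  set b := ip δ (A0 * Bm M' α z y J Rs) (A0 * Bm M' α z y J Rs)
  have hEV0 : 0 < Real.exp (α ^ 2 * V) := Real.exp_pos _
  set EV := Real.exp (α ^ 2 * V)
  have hB0 := H.iB1
  have hbe : b = B * (b / B) := by field_simp
  have het := H.iE
  have het0 := ETM_nonneg M' c z y J Rs
  set et := ETM M' c z y J Rs
  have he := H.ie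
  have hexp : Real.exp et ≤ 1 + 2 * et := exp_le_two het0 (by have := H.e_le; linarith)
  have hε := H.ie0
  have hb1' : (1 - ε) * EV ≤ b / B := by
    rw [le_div_iff₀ hB0]
    have h1 : (1 - ε) * (B * EV) ≤ (1 - et) * (B * EV) := mul_le_mul_of_nonneg_right (by linarith) (by positivity)
    linarith [n45.1]
  have hb2' : b / B ≤ (1 + ε) * EV := by
    rw [div_le_iff₀ hB0]
    have h1 : B * (EV * Real.exp et) ≤ B * (EV * (1 + ε)) := by
      gcongr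
      linarith
    linarith [n45.2]
  have hmn := mean_near H.ie0 H.ie1 hB0 hEV0 H.iX (by have := H.iX1; linarith only [this]) H.X20 H.iY hb1' hb2'
  rw [← hbe] at hmn
  have hY := H.Y0
  have h5 : 4 * (m * W) * (l1' A0 ^ 2 * W) ≤ ε * Y := H.if2.trans (mul_le_mul_of_nonneg_right (by linarith) hY)
  have h6 := abs_sub_le (∫ t in X1..X2, ‖es (1 / 2 + δ + t * Complex.I) (A0 * Bm M' α z y J Rs)‖ ^ 2) ((X2 - X1) * b) Y
  linarith

/-- the twisted mean of the comparison function -/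
lemma mt {h k : ℕ} {ν : ℝ} (H : Cg M M' c y δ α ε e1 e X1 X2 W m Y B V z J Rs N K A0) (hh : h ≠ 0) (hk : k ≠ 0)
    (hpz : ∀ p, p.Prime → p ∣ h * k → p < z)
    (hrt : |((h * k : ℕ) : ℝ) ^ (1 / 2 + δ) * ip δ (single h 1 * A0) (single k 1 * A0) / B - ν| ≤ ε)
    (f7 : 2 * ((h * k : ℕ) : ℝ) ^ 2 * (m * W) * (l1' A0 ^ 2 * W) ≤ ε * Y) :
    ‖(∫ t in X1..X2, ((‖es (1 / 2 + δ + t * Complex.I) (A0 * Bm M' α z y J Rs)‖ ^ 2 : ℝ) : ℂ) * tw h k t) -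
      ((Y * ν : ℝ) : ℂ)‖ ≤ 5 * ε * (1 + |ν|) * Y := by
  have n45 := N45M (c := c) (A0 := 1) H.iM H.iz H.iS H.id0 H.ia1 (Subalgebra.one_mem _)
    (by have := H.iE; have := H.e_le; linarith)
  have e0 : 1 + (α - 1) = α := by ring
  rw [e0, Real.exp_add, ip_one, one_mul, one_mul, one_mul, ← H.iV] at n45
  set w := A0 * Bm M' α z y J Rs with hw
  have huv0 : h * k ≠ 0 := mul_ne_zero hh hk
  have huz : ∀ p, p.Prime → p ∣ h → p < z := fun p hp hd => hpz p hp (hd.mul_right k)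
  have hvz : ∀ p, p.Prime → p ∣ k → p < z := fun p hp hd => hpz p hp (hd.mul_left h)
  have hu1 : h ∈ M1 (S0 z) := mem_M1.mpr ⟨hh, fun p hp hd => mem_S0.mpr ⟨huz p hp hd, hp⟩⟩
  have hv1 : k ∈ M1 (S0 z) := mem_M1.mpr ⟨hk, fun p hp hd => mem_S0.mpr ⟨hvz p hp hd, hp⟩⟩
  set q : ℝ := ((h * k : ℕ) : ℝ) with hq
  have hq1 : 1 ≤ q := by rw [hq]; exact_mod_cast Nat.pos_of_ne_zero huv0
  have huq : (h:ℝ) ≤ q := by rw [hq]; exact_mod_cast Nat.le_mul_of_pos_right h (Nat.pos_of_ne_zero hk)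
  have hvq : (k:ℝ) ≤ q := by rw [hq]; exact_mod_cast Nat.le_mul_of_pos_left k (Nat.pos_of_ne_zero hh)
  have hmW : 0 ≤ m * W := mul_nonneg H.im0 H.iW0
  have hwB : Bd1 (m * W) w := ABm_Bd (a := α) H.iS H.iA H.im0 H.iW
  have hf : Bd1 (q * (m * W)) (single h 1 * w) := (Bd1.single ⟨hh, huq⟩ 1).mul hwB
  have hg : Bd1 (q * (m * W)) (single k 1 * w) := (Bd1.single ⟨hk, hvq⟩ 1).mul hwB
  have h1 := mvt2 (δ := δ) H.id0 (by positivity) hf hg X1 X2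
  set b := ip δ (Bm M' α z y J Rs) (Bm M' α z y J Rs) with hb
  set R := q ^ (1 / 2 + δ) * ip δ (single h 1 * A0) (single k 1 * A0) with hR
  have e1 : ip δ (single h 1 * w) (single k 1 * w) = ip δ (single h 1 * A0) (single k 1 * A0) * b := by
    rw [hw, ← mul_assoc, ← mul_assoc]
    exact Pool.Agent.Y755.ip2 (Subalgebra.mul_mem _ (single_mem_SA1 hu1 1) H.iAm) Bm_mem
      (Subalgebra.mul_mem _ (single_mem_SA1 hv1 1) H.iAm) Bm_mem
  have e2 : ∫ t in X1..X2, ((‖es (1 / 2 + δ + t * Complex.I) w‖ ^ 2 : ℝ) : ℂ) * tw h k t =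
      ((q ^ (1 / 2 + δ) : ℝ) : ℂ) * ∫ t in X1..X2, (es (1 / 2 + δ + t * Complex.I) (single h 1 * w) *
        starRingEnd ℂ (es (1 / 2 + δ + t * Complex.I) (single k 1 * w))) := by
    rw [← intervalIntegral.integral_const_mul]
    refine intervalIntegral.integral_congr fun t _ => ?_
    exact tw_eq hh hk t w
  have hst : ‖(∫ t in X1..X2, ((‖es (1 / 2 + δ + t * Complex.I) w‖ ^ 2 : ℝ) : ℂ) * tw h k t) -
      (((X2 - X1) * (R * b) : ℝ) : ℂ)‖ ≤ ε * Y := by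
    rw [e2]
    have e3 : (((X2 - X1) * (R * b) : ℝ) : ℂ) =
        ((q ^ (1 / 2 + δ) : ℝ) : ℂ) * (((X2 - X1) * ip δ (single h 1 * w) (single k 1 * w) : ℝ) : ℂ) := by
      rw [e1, hR]; push_cast; ring
    rw [e3, ← mul_sub, norm_mul, Complex.norm_real, Real.norm_of_nonneg (by positivity)]
    have h2 : q ^ (1 / 2 + δ) ≤ q := by
      calc q ^ (1 / 2 + δ) ≤ q ^ (1:ℝ) := Real.rpow_le_rpow_of_exponent_le hq1 (by have := H.id1; linarith)
        _ = q := Real.rpow_one q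
    have h3 : l1' (single h 1 * w) * l1' (single k 1 * w) ≤ l1' A0 ^ 2 * W := by
      calc l1' (single h 1 * w) * l1' (single k 1 * w) ≤ l1' w * l1' w :=
            mul_le_mul (l1'_single_mul h w) (l1'_single_mul k w) (l1'_nonneg _) (l1'_nonneg _)
        _ = l1' w ^ 2 := by ring
        _ ≤ _ := ABm_l1 (A0 := A0) H.iS H.ak H.iW
    refine le_trans ?_ f7
    calc q ^ (1 / 2 + δ) * _ ≤ q * (2 * (q * (m * W)) * (l1' A0 ^ 2 * W)) := by
          refine mul_le_mul h2 (h1.trans (mul_le_mul_of_nonneg_left h3 (by positivity))) (norm_nonneg _) (by positivity)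
      _ = _ := by ring
  have hEV0 : 0 < Real.exp (α ^ 2 * V) := Real.exp_pos _
  set EV := Real.exp (α ^ 2 * V)
  have hB0 := H.iB1
  have het := H.iE
  have het0 := ETM_nonneg M' c z y J Rs
  set et := ETM M' c z y J Rs
  have he := H.ie
  have hexp : Real.exp et ≤ 1 + 2 * et := exp_le_two het0 (by have := H.e_le; linarith)
  have hε := H.ie0
  have hb1' : (1 - ε) * EV ≤ b := by
    have h1 : (1 - ε) * EV ≤ (1 - et) * EV := mul_le_mul_of_nonneg_right (by linarith) (by positivity)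
    linarith [n45.1]
  have hb2' : b ≤ (1 + ε) * EV := by
    have h1 : EV * Real.exp et ≤ EV * (1 + ε) := by
      gcongr
      linarith
    linarith [n45.2]
  have hmn := mean_near H.ie0 H.ie1 hB0 hEV0 H.iX (by have := H.iX1; linarith only [this]) H.X20 H.iY hb1' hb2'
  have htn := twist_near2 (c := (X2 - X1) * (R * b)) H.ie0 H.ie1 H.Y0 hmn (by field_simp) hrt
  have e5 : (∫ t in X1..X2, ((‖es (1 / 2 + δ + t * Complex.I) w‖ ^ 2 : ℝ) : ℂ) * tw h k t) - ((Y * ν : ℝ) : ℂ) =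
      ((∫ t in X1..X2, ((‖es (1 / 2 + δ + t * Complex.I) w‖ ^ 2 : ℝ) : ℂ) * tw h k t) - (((X2 - X1) * (R * b) : ℝ) : ℂ)) +
        (((X2 - X1) * (R * b) - Y * ν : ℝ) : ℂ) := by push_cast; ring
  rw [e5]
  refine (norm_add_le _ _).trans ((add_le_add hst ?_).trans (le_of_eq_of_le (b := ε * Y + 4 * ε * (1 + |ν|) * Y) rfl ?_))
  · rw [Complex.norm_real, Real.norm_eq_abs]; exact htn
  · have := mul_nonneg (abs_nonneg ν) (mul_nonneg hε.le H.Y0)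
    linarith

/-- closeness in the mean -/
lemma cl (H : Cg M M' c y δ α ε e1 e X1 X2 W m Y B V z J Rs N K A0) :
    IntegrableOn (fun t => (Gh z y J Rs e1 δ).indicator (fun t => zn (1 / 2 + δ) t ^ (2 * α)) t) (Set.Ioc X1 X2) ∧
    ∫ t in X1..X2, |(Gh z y J Rs e1 δ).indicator (fun t => zn (1 / 2 + δ) t ^ (2 * α)) t -
      ‖es (1 / 2 + δ + t * Complex.I) (A0 * Bm M' α z y J Rs)‖ ^ 2| ≤ 8 * ε * Y := by
  set G := Gh z y J Rs e1 δ with hG
  have hGm : MeasurableSet G := H.Gm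
  obtain ⟨w, hw⟩ : ∃ w : ℝ → ℝ, w = fun t : ℝ => ‖es (1 / 2 + δ + t * Complex.I) (A0 * Bm M' α z y J Rs)‖ ^ 2 := ⟨_, rfl⟩
  have hwc : Continuous w := by rw [hw]; exact H.wc
  have hzc := H.zc
  have hw0 : ∀ t, 0 ≤ w t := fun t => by rw [hw]; positivity
  have hzi : IntegrableOn (fun t => zn (1 / 2 + δ) t ^ (2 * α)) (Set.Ioc X1 X2) := by
    rw [← intervalIntegrable_iff_integrableOn_Ioc_of_le H.iX12]; exact hzc.intervalIntegrable _ _
  have hwi : IntegrableOn w (Set.Ioc X1 X2) := by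
    rw [← intervalIntegrable_iff_integrableOn_Ioc_of_le H.iX12]; exact hwc.intervalIntegrable _ _
  have hgi : IntegrableOn (fun t => G.indicator (fun t => zn (1 / 2 + δ) t ^ (2 * α)) t) (Set.Ioc X1 X2) :=
    hzi.indicator hGm
  refine ⟨hgi, ?_⟩
  have hmw := H.mw
  have hoff := H.ioff
  have hpt := fun t ht => H.pt (t := t) ht
  have ew : ∀ t : ℝ, ‖es (1 / 2 + δ + t * Complex.I) (A0 * Bm M' α z y J Rs)‖ ^ 2 = w t := fun t => by rw [hw]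
  simp_rw [ew] at hmw hoff hpt ⊢
  rw [intervalIntegral.integral_of_le H.iX12] at hmw ⊢
  have habs : IntegrableOn (fun t => |G.indicator (fun t => zn (1 / 2 + δ) t ^ (2 * α)) t - w t|) (Set.Ioc X1 X2) :=
    (hgi.sub hwi).abs
  have hsplit := integral_inter_add_sdiff hGm habs
  have hpl := integral_inter_add_sdiff hGm hwi
  have h1 : ∫ t in Set.Ioc X1 X2 ∩ G, |G.indicator (fun t => zn (1 / 2 + δ) t ^ (2 * α)) t - w t| ≤
      5 * ε * ∫ t in Set.Ioc X1 X2 ∩ G, w t := by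
    rw [← integral_const_mul]
    refine setIntegral_mono_on (habs.mono_set Set.inter_subset_left)
      ((hwi.mono_set Set.inter_subset_left).const_mul _) (measurableSet_Ioc.inter hGm) fun t ht => ?_
    rw [Set.indicator_of_mem ht.2]
    exact hpt t ht.2
  have h2 : ∫ t in Set.Ioc X1 X2 \ G, |G.indicator (fun t => zn (1 / 2 + δ) t ^ (2 * α)) t - w t| =
      ∫ t in Set.Ioc X1 X2 \ G, w t := by
    refine setIntegral_congr_fun (measurableSet_Ioc.diff hGm) fun t ht => ?_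
    show |G.indicator (fun t => zn (1 / 2 + δ) t ^ (2 * α)) t - w t| = w t
    rw [Set.indicator_of_notMem ht.2, zero_sub, abs_neg, abs_of_nonneg (hw0 t)]
  have h3 : 0 ≤ ∫ t in Set.Ioc X1 X2 \ G, w t := setIntegral_nonneg (measurableSet_Ioc.diff hGm) fun t _ => hw0 t
  have hY := H.Y0
  have hε := H.ie0
  have hε1 := H.ie1
  have h4 : ∫ t in Set.Ioc X1 X2 ∩ G, w t ≤ (1 + 3 * ε) * Y := by
    have := (abs_le.mp hmw).2
    linarith
  have h5 := mul_le_mul_of_nonneg_left h4 (by positivity : 0 ≤ 5 * ε)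
  have e6 : ∫ t in Set.Ioc X1 X2, |G.indicator (fun t => zn (1 / 2 + δ) t ^ (2 * α)) t - w t| =
      (∫ t in Set.Ioc X1 X2 ∩ G, |G.indicator (fun t => zn (1 / 2 + δ) t ^ (2 * α)) t - w t|) +
      ∫ t in Set.Ioc X1 X2 \ G, |G.indicator (fun t => zn (1 / 2 + δ) t ^ (2 * α)) t - w t| := hsplit.symm
  rw [e6, h2]
  have h7 : 0 ≤ ε * Y := by positivity
  nlinarith

/-- the moment -/
lemma fa (H : Cg M M' c y δ α ε e1 e X1 X2 W m Y B V z J Rs N K A0) :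
    |(∫ t in X1..X2, (Gh z y J Rs e1 δ).indicator (fun t => zn (1 / 2 + δ) t ^ (2 * α)) t) - Y| ≤ 20 * ε * Y := by
  obtain ⟨hgi, hcl⟩ := H.cl
  have hmw := H.mw
  have hg : IntervalIntegrable (fun t => (Gh z y J Rs e1 δ).indicator (fun t => zn (1 / 2 + δ) t ^ (2 * α)) t) volume X1 X2 := by
    rwa [intervalIntegrable_iff_integrableOn_Ioc_of_le H.iX12]
  have hw := H.wc.intervalIntegrable (μ := volume) X1 X2
  have h1 := intervalIntegral.abs_integral_le_integral_abs (μ := volume) (f := fun t =>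
    (Gh z y J Rs e1 δ).indicator (fun t => zn (1 / 2 + δ) t ^ (2 * α)) t -
      ‖es (1 / 2 + δ + t * Complex.I) (A0 * Bm M' α z y J Rs)‖ ^ 2) H.iX12
  rw [intervalIntegral.integral_sub hg hw] at h1
  have h2 := abs_sub_le (∫ t in X1..X2, (Gh z y J Rs e1 δ).indicator (fun t => zn (1 / 2 + δ) t ^ (2 * α)) t)
    (∫ t in X1..X2, ‖es (1 / 2 + δ + t * Complex.I) (A0 * Bm M' α z y J Rs)‖ ^ 2) Y
  have hY := mul_nonneg H.ie0.le H.Y0
  linarith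

/-- the twisted moment -/
lemma fb {h k : ℕ} {ν : ℝ} (H : Cg M M' c y δ α ε e1 e X1 X2 W m Y B V z J Rs N K A0) (hh : h ≠ 0) (hk : k ≠ 0)
    (hpz : ∀ p, p.Prime → p ∣ h * k → p < z)
    (hrt : |((h * k : ℕ) : ℝ) ^ (1 / 2 + δ) * ip δ (single h 1 * A0) (single k 1 * A0) / B - ν| ≤ ε)
    (f7 : 2 * ((h * k : ℕ) : ℝ) ^ 2 * (m * W) * (l1' A0 ^ 2 * W) ≤ ε * Y) :
    ‖(∫ t in X1..X2, (((Gh z y J Rs e1 δ).indicator (fun t => zn (1 / 2 + δ) t ^ (2 * α)) t : ℝ) : ℂ) * tw h k t) -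
      ((Y * ν : ℝ) : ℂ)‖ ≤ 20 * ε * (1 + |ν|) * Y := by
  obtain ⟨hgi, hcl⟩ := H.cl
  have hmt := H.mt hh hk hpz hrt f7
  have hg : IntervalIntegrable (fun t => (Gh z y J Rs e1 δ).indicator (fun t => zn (1 / 2 + δ) t ^ (2 * α)) t) volume X1 X2 := by
    rwa [intervalIntegrable_iff_integrableOn_Ioc_of_le H.iX12]
  have hg2 : IntervalIntegrable (fun t => (((Gh z y J Rs e1 δ).indicator (fun t => zn (1 / 2 + δ) t ^ (2 * α)) t : ℝ) : ℂ) *
      tw h k t) volume X1 X2 := by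
    have h1 : IntervalIntegrable (fun t => (((Gh z y J Rs e1 δ).indicator (fun t => zn (1 / 2 + δ) t ^ (2 * α)) t : ℝ) : ℂ))
      volume X1 X2 := ⟨hg.1.ofReal, hg.2.ofReal⟩
    exact h1.mul_continuousOn (tw_cont h k).continuousOn
  have hw2 : IntervalIntegrable (fun t => ((‖es (1 / 2 + δ + t * Complex.I) (A0 * Bm M' α z y J Rs)‖ ^ 2 : ℝ) : ℂ) *
      tw h k t) volume X1 X2 := ((Complex.continuous_ofReal.comp H.wc).mul (tw_cont h k)).intervalIntegrable _ _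
  have h1 : ‖(∫ t in X1..X2, (((Gh z y J Rs e1 δ).indicator (fun t => zn (1 / 2 + δ) t ^ (2 * α)) t : ℝ) : ℂ) * tw h k t) -
      ∫ t in X1..X2, ((‖es (1 / 2 + δ + t * Complex.I) (A0 * Bm M' α z y J Rs)‖ ^ 2 : ℝ) : ℂ) * tw h k t‖ ≤ 8 * ε * Y := by
    rw [← intervalIntegral.integral_sub hg2 hw2]
    refine (intervalIntegral.norm_integral_le_integral_norm H.iX12).trans (le_trans (le_of_eq ?_) hcl)
    refine intervalIntegral.integral_congr fun t _ => ?_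
    show ‖(((Gh z y J Rs e1 δ).indicator (fun t => zn (1 / 2 + δ) t ^ (2 * α)) t : ℝ) : ℂ) * tw h k t -
      ((‖es (1 / 2 + δ + t * Complex.I) (A0 * Bm M' α z y J Rs)‖ ^ 2 : ℝ) : ℂ) * tw h k t‖ = _
    rw [← sub_mul, norm_mul, tw_norm, mul_one, ← Complex.ofReal_sub, Complex.norm_real, Real.norm_eq_abs]
  have e5 : (∫ t in X1..X2, (((Gh z y J Rs e1 δ).indicator (fun t => zn (1 / 2 + δ) t ^ (2 * α)) t : ℝ) : ℂ) * tw h k t) -
      ((Y * ν : ℝ) : ℂ) = ((∫ t in X1..X2, (((Gh z y J Rs e1 δ).indicator (fun t => zn (1 / 2 + δ) t ^ (2 * α)) t : ℝ) : ℂ) * tw h k t) -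
      ∫ t in X1..X2, ((‖es (1 / 2 + δ + t * Complex.I) (A0 * Bm M' α z y J Rs)‖ ^ 2 : ℝ) : ℂ) * tw h k t) +
      ((∫ t in X1..X2, ((‖es (1 / 2 + δ + t * Complex.I) (A0 * Bm M' α z y J Rs)‖ ^ 2 : ℝ) : ℂ) * tw h k t) -
      ((Y * ν : ℝ) : ℂ)) := by ring
  rw [e5]
  refine (norm_add_le _ _).trans ((add_le_add h1 hmt).trans ?_)
  have h6 := mul_nonneg H.ie0.le H.Y0
  have h7 := mul_nonneg (abs_nonneg ν) h6
  nlinarith

end Cg

end Pool.Agent.Y753.NL
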