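import Pool.Agent.Y753.NL.All2

set_option autoImplicit false

/-! The estimates over a window, all orders. -/

namespace Pool.Agent.Y753.NL

open Finset Filter MeasureTheory MonoidAlgebra Topology
open Pool.Agent.Y755
open Pool.Agent.W184.NZ
open Pool.Agent.W184 (zn zn_nonneg zn_cont zn_le')

/-- measure of the complement of the good set and the mass -/
theorem win1 {M z Rs : ℕ} {ε e1 c η d x0 : ℝ} (P : Pk M z Rs ε e1 c η d x0) :
    ∃ lam : ℝ, 1 ≤ lam ∧ ∀ᶠ T : ℝ in atTop, ∀ δ : ℝ, lam / Real.log T ≤ δ → δ ≤ 1 / 16 →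
      ∀ J : ℕ, PJ c z η Rs d T J → MeasurableSet (Gh z (yT η T) J Rs e1 δ) ∧
      (volume (Set.Ioc (T ^ ((4:ℝ)/5)) (T / 2) \ Gh z (yT η T) J Rs e1 δ)).toReal ≤ ε * T ∧
      ∀ α : ℝ, 0 < α → α ≤ M →
        |(∫ t in Set.Ioc (T ^ ((4:ℝ)/5)) (T / 2) ∩ Gh z (yT η T) J Rs e1 δ, zn (1 / 2 + δ) t ^ (2 * α)) - T / 2 * DD α δ| ≤
          14 * ε * (T / 2 * DD α δ) := by
  have hM1 : (1:ℝ) ≤ M := by exact_mod_cast P.M1
  have hM0 : (0:ℝ) < M := by linarith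
  have hε := P.e0
  have hε1 := P.e01
  have he1 := P.e10
  have he11 := P.e11
  obtain ⟨m0, l0, hl00, hex⟩ := small_ex_u (M := (M:ℝ)) hM0 z hε
  obtain ⟨m, hm⟩ : ∃ m : ℝ, m = max m0 1 := ⟨_, rfl⟩
  obtain ⟨l, hl⟩ : ∃ l : ℝ, l = max l0 1 := ⟨_, rfl⟩
  have hm1 : 1 ≤ m := by rw [hm]; exact le_max_right _ _
  have hm0 : 0 ≤ m := by linarith
  have hl1 : 1 ≤ l := by rw [hl]; exact le_max_right _ _
  obtain ⟨c20, hc20, hDD⟩ := DD_low_u (M := (M:ℝ)) hM0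
  obtain ⟨lam, hlam1, hlamx, hkey⟩ := key P (m := m) (l := l) (c2 := min c20 1) hm1 hl1 (lt_min hc20 one_pos)
  refine ⟨lam, hlam1, ?_⟩
  filter_upwards [hkey, windows_ev, eventually_ge_atTop (10 ^ 10),
    rpow_ev (p := 4 / 5) (q := 1) (by norm_num) (2 / ε),
    Real.tendsto_log_atTop.eventually_ge_atTop 1] with T tk t3 t4 t8 t9 δ hδ1 hδ2 J hPJ
  have hT0 : 0 < T := by linarith
  have hT1 : 1 ≤ T := by linarith
  have hL0 : 0 < Real.log T := by linarith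
  have hx : lam ≤ δ * Real.log T := by rwa [div_le_iff₀ hL0] at hδ1
  have hδ0 : 0 < δ := lt_of_lt_of_le (div_pos (lt_of_lt_of_le one_pos hlam1) hL0) hδ1
  have hkk := tk δ hδ1 hδ2 J hPJ
  have hS := hPJ.1
  have hη := P.η0
  obtain ⟨y, hy⟩ : ∃ y, y = yT η T := ⟨_, rfl⟩
  have hly : Real.log (yT η T) = η * Real.log T := Real.log_exp _
  have hX2 : (0:ℝ) ≤ T / 2 := by linarith only [hT0]
  have hX1 : 0 ≤ T ^ ((4:ℝ)/5) := by positivity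
  obtain ⟨e, he⟩ : ∃ e, e = ε * e1 ^ 2 / 600 := ⟨_, rfl⟩
  have he0 : 0 < e := by rw [he]; positivity
  have he600 : e ≤ ε / 600 := by
    have h1 : e1 ^ 2 ≤ 1 := pow_le_one₀ he1.le he11.le
    have : ε * e1 ^ 2 ≤ ε * 1 := mul_le_mul_of_nonneg_left h1 hε.le
    rw [he]; linarith
  rw [← hy] at hly hS hkk
  rw [← he] at hkk
  rw [← hy]
  refine ⟨Gh_meas hS hδ2, ?_, ?_⟩
  · -- the measure
    have hk := (hkk 1 0 1 1 (Or.inl ⟨rfl, by norm_num⟩) le_rfl hM0.le (Bd1.one.mono hm1) (Subalgebra.one_mem _)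
      (by rw [l1'_one]; exact hl1) (by rw [ip_one]; norm_num) (by rw [ip_one]; simp; linarith) (by
        have : (-(0 ^ 2) : ℝ) = 0 := by norm_num
        rw [this, Real.rpow_zero, mul_one]; exact min_le_right _ _) le_rfl).2.2.2.2.2.2
    have e2 : ∀ t : ℝ, ‖es (1 / 2 + δ + t * Complex.I) (1 * Bm 1 0 z y J Rs)‖ ^ 2 = 1 := by
      intro t
      rw [Bm_zero, mul_one, map_one, norm_one, one_pow]
    simp_rw [e2] at hk
    rw [setIntegral_const, smul_eq_mul, mul_one] at hk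
    have hk2 : (volume (Set.Ioc (T ^ ((4:ℝ)/5)) (T / 2) \ Gh z y J Rs e1 δ)).toReal ≤ ε * (T / 2 * 1) := hk
    refine hk2.trans ?_
    nlinarith
  · intro α hα hαM
    obtain ⟨A0, hA', hAm, hlA', hPA, hip⟩ := hex α hα hαM
    have hA : Bd1 m A0 := hA'.mono (by rw [hm]; exact le_max_left _ _)
    have hlA : l1' A0 ≤ l := hlA'.trans (by rw [hl]; exact le_max_left _ _)
    obtain ⟨hi1, hi2⟩ := hip δ hδ0.le
    set ip0 := ip δ A0 A0 with hip0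
    set P0 := ∏ p ∈ S0 z, Ed α δ p with hP0
    have hP01 : 1 ≤ P0 := by
      have := prod_le_prod (s := S0 z) (f := fun _ => (1:ℝ)) (g := fun p => Ed α δ p) (fun _ _ => zero_le_one)
        (fun p hp => Ed_ge_one hδ0.le (mem_S0.mp hp).2)
      simpa using this
    have hip9 : 9 / 10 ≤ ip0 := ax9 hε hε1 hP01 hi1
    have hcm := P.cm α hα hαM y δ hS.zy hδ0 (by
      rw [hly]
      have h1 : x0 ≤ lam * η := by rwa [div_le_iff₀ hη] at hlamx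
      calc x0 ≤ lam * η := h1
        _ ≤ (δ * Real.log T) * η := mul_le_mul_of_nonneg_right hx hη.le
        _ = _ := by ring) J hS.J1
    set EV := Real.exp (α ^ 2 * Vd δ z y J) with hEV
    have hEV0 : 0 < EV := Real.exp_pos _
    have hDD1 : 1 ≤ DD α δ := DD_ge_one hα hδ0
    set D := DD α δ with hD
    have hMup : ip0 * EV ≤ (1 + 2 * ε) * D := by
      calc ip0 * EV ≤ P0 * EV := mul_le_mul_of_nonneg_right hi2 hEV0.le
        _ ≤ Real.exp ε * D := hcm.2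
        _ ≤ (1 + 2 * ε) * D := mul_le_mul_of_nonneg_right (exp_le_two hε.le (hε1.trans (by norm_num)))
            (zero_le_one.trans hDD1)
    have hMlo : (1 - 2 * ε) * D ≤ ip0 * EV := by
      have h1 : (1 - ε) * (Real.exp (-ε) * D) ≤ ip0 * EV := by
        calc (1 - ε) * (Real.exp (-ε) * D) ≤ (1 - ε) * (P0 * EV) := mul_le_mul_of_nonneg_left hcm.1 (by linarith)
          _ = ((1 - ε) * P0) * EV := by ring
          _ ≤ ip0 * EV := mul_le_mul_of_nonneg_right hi1 hEV0.le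
      exact (low_two hε.le (hε1.trans (by norm_num)) (zero_le_one.trans hDD1)).trans h1
    set Y := T / 2 * D with hYd
    have hY0 : 0 ≤ Y := mul_nonneg hX2 (zero_le_one.trans hDD1)
    have hMX : T / 2 * (ip0 * EV) ≤ (1 + 2 * ε) * Y := by
      calc _ ≤ T / 2 * ((1 + 2 * ε) * D) := mul_le_mul_of_nonneg_left hMup hX2
        _ = _ := by rw [hYd]; ring
    have hMX' : (1 - 2 * ε) * Y ≤ T / 2 * (ip0 * EV) := by
      calc (1 - 2 * ε) * Y = T / 2 * ((1 - 2 * ε) * D) := by rw [hYd]; ring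
        _ ≤ _ := mul_le_mul_of_nonneg_left hMlo hX2
    have hMX2 : T / 2 * (ip0 * EV) ≤ 2 * Y := hMX.trans (mul_le_mul_of_nonneg_right (by linarith) hY0)
    have hDlow : min c20 1 * δ ^ (-(α ^ 2)) ≤ D := by
      refine le_trans ?_ (hDD α hα hαM δ hδ0 (hδ2.trans (by norm_num)))
      exact mul_le_mul_of_nonneg_right (min_le_left _ _) (Real.rpow_nonneg hδ0.le _)
    obtain ⟨M', hcase⟩ : ∃ M' : ℕ, ((M' = 1 ∧ |α - 1| ≤ 1) ∨ (M' = M ∧ 0 ≤ α - 1 ∧ α - 1 ≤ M)) := by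
      rcases le_or_gt α 1 with h | h
      · exact ⟨1, Or.inl ⟨rfl, by rw [abs_le]; constructor <;> linarith⟩⟩
      · exact ⟨M, Or.inr ⟨rfl, by linarith, by linarith⟩⟩
    obtain ⟨hM', hκ1, hzM', hET, hWM', hE2, hoff⟩ := hkk M' α A0 D hcase hα.le hαM hA hAm hlA hip9 hMX2 hDlow hDD1
    obtain ⟨W, hW⟩ : ∃ W, W = T ^ ((1:ℝ) / 50) := ⟨_, rfl⟩
    rw [← hW] at hWM' hE2
    have hW0 : 0 < W := by rw [hW]; positivity
    obtain ⟨k0, k1, _⟩ := k_absM hM' hκ1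
    have e0 : 1 + (α - 1) = α := by ring
    rw [e0] at k1
    set w : ℝ → ℝ := fun t => ‖es (1 / 2 + δ + t * Complex.I) (A0 * Bm M' α z y J Rs)‖ ^ 2 with hw
    have hwc : Continuous w := es_cont0 δ (ABm_Bd (a := α) hS hA hm0 hWM')
    have hwi : IntegrableOn w (Set.Ioc (T ^ ((4:ℝ)/5)) (T / 2)) := by
      rw [← intervalIntegrable_iff_integrableOn_Ioc_of_le t3.1]; exact hwc.intervalIntegrable _ _
    have hzc : Continuous fun t => zn (1 / 2 + δ) t ^ (2 * α) := znp_cont (by linarith) (by linarith)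
    have hzi : IntegrableOn (fun t => zn (1 / 2 + δ) t ^ (2 * α)) (Set.Ioc (T ^ ((4:ℝ)/5)) (T / 2)) := by
      rw [← intervalIntegrable_iff_integrableOn_Ioc_of_le t3.1]; exact hzc.intervalIntegrable _ _
    have hGm : MeasurableSet (Gh z y J Rs e1 δ) := Gh_meas hS hδ2
    have hsplit := integral_inter_add_sdiff hGm hwi
    have hsub : Set.Ioc (T ^ ((4:ℝ)/5)) (T / 2) ∩ Gh z y J Rs e1 δ ⊆ Set.Ioc (T ^ ((4:ℝ)/5)) (T / 2) := Set.inter_subset_left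
    have hpt : ∀ t ∈ Gh z y J Rs e1 δ, (1 - 5 * ε) * w t ≤ zn (1 / 2 + δ) t ^ (2 * α) ∧
        zn (1 / 2 + δ) t ^ (2 * α) ≤ (1 + 5 * ε) * w t := by
      intro t ht
      have hre : (1:ℝ) / 2 ≤ (1 / 2 + (δ:ℂ) + t * Complex.I).re := by
        rw [half_re]; linarith only [hδ0]
      have hPAt := hPA _ hre
      have h1 := on_good (J := J) (Rs := Rs) (K := fun i => 20 * (M' * RR Rs i)) hα.le hαM he1 he11 hε hε1 P.p1 P.p2
        (fun i => cl_M hM' (hRR hS i) k1) P.h4a (riemannZeta (1 / 2 + δ + t * Complex.I))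
        (es (1 / 2 + δ + t * Complex.I) (Pz z)) (es (1 / 2 + δ + t * Complex.I) A0)
        (fun i => PI (IZ z y i) (1 / 2 + δ + t * Complex.I)) ht hPAt.1 hPAt.2
      rw [← es_Bm, ← map_mul] at h1
      have e3 : zn (1 / 2 + δ) t = ‖riemannZeta (1 / 2 + δ + t * Complex.I)‖ := by
        unfold zn; rw [s_eq]
      rw [e3]
      exact h1
    have hlow : (1 - 5 * ε) * (∫ t in Set.Ioc (T ^ ((4:ℝ)/5)) (T / 2) ∩ Gh z y J Rs e1 δ, w t) ≤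
        ∫ t in Set.Ioc (T ^ ((4:ℝ)/5)) (T / 2) ∩ Gh z y J Rs e1 δ, zn (1 / 2 + δ) t ^ (2 * α) := by
      rw [← integral_const_mul]
      exact setIntegral_mono_on ((hwi.mono_set hsub).const_mul _) (hzi.mono_set hsub) (measurableSet_Ioc.inter hGm)
        fun t ht => (hpt t ht.2).1
    have hupp : ∫ t in Set.Ioc (T ^ ((4:ℝ)/5)) (T / 2) ∩ Gh z y J Rs e1 δ, zn (1 / 2 + δ) t ^ (2 * α) ≤
        (1 + 5 * ε) * (∫ t in Set.Ioc (T ^ ((4:ℝ)/5)) (T / 2) ∩ Gh z y J Rs e1 δ, w t) := by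
      rw [← integral_const_mul]
      exact setIntegral_mono_on (hzi.mono_set hsub) ((hwi.mono_set hsub).const_mul _) (measurableSet_Ioc.inter hGm)
        fun t ht => (hpt t ht.2).2
    have n45 := N45M (c := c) hM' hzM' hS hδ0.le hκ1 hAm (hET.trans (by linarith))
    rw [e0, Real.exp_add] at n45
    have hwin := ABm_win (X1 := T ^ ((4:ℝ)/5)) (X2 := T / 2) hS hA hm0 k1 hδ0.le hWM' hW0.le
    rw [intervalIntegral.integral_of_le t3.1] at hwin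
    refine arith_main (e := e) (X1 := T ^ ((4:ℝ)/5)) (X2 := T / 2) (M0 := ip0 * EV) (et := ETM M' c z y J Rs)
      (E2 := 4 * (m * W) * (l1' A0 ^ 2 * W)) hε hε1 he0.le (by linarith) hY0 ?_ hX1 hX2 (by positivity) hMX hMX'
      (ETM_nonneg _ _ _ _ _ _) hET n45.1 ?_ hE2 hwin ?_ hoff hsplit hlow hupp
    · rw [Real.rpow_one] at t8
      have h8 := mul_le_mul_of_nonneg_left t8 (half_pos hε).le
      have e8 : ε / 2 * (2 / ε * T ^ ((4:ℝ) / 5)) = T ^ ((4:ℝ) / 5) := by field_simp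
      rw [e8] at h8
      linarith only [h8]
    · refine n45.2.trans (le_of_eq ?_)
      ring
    · exact setIntegral_nonneg (measurableSet_Ioc.diff hGm) fun t _ => sq_nonneg _

/-- the moments and the twisted moments near a given exponent -/
theorem win2 {M z Rs : ℕ} {ε e1 c η d x0 : ℝ} (P : Pk M z Rs ε e1 c η d x0) {α0 ρ m' δr : ℝ} {A0 : P1} {h k : ℕ}
    (hh : h ≠ 0) (hk : k ≠ 0) (hpz : ∀ p, p.Prime → p ∣ h * k → p < z) (hA' : Bd1 m' A0) (hAm : A0 ∈ SA1 (M1 (S0 z)))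
    (hδr : 0 < δr) (hge : ∀ δ, 1 ≤ ip δ A0 A0)
    (hrat : ∀ δ : ℝ, 0 ≤ δ → δ < δr → |((h * k : ℕ) : ℝ) ^ (1 / 2 + δ) * ip δ (single h 1 * A0) (single k 1 * A0) /
        ip δ A0 A0 - Nu α0 h k| ≤ ε)
    (hsize : ∀ α : ℝ, |α - α0| ≤ ρ → ∀ s : ℂ, 1 / 2 ≤ s.re →
        1 - ε ≤ ‖es s (Pz z)‖ ^ (2 * α) * ‖es s A0‖ ^ 2 ∧ ‖es s (Pz z)‖ ^ (2 * α) * ‖es s A0‖ ^ 2 ≤ 1 + ε) :
    ∃ lam δ0 C0 : ℝ, 1 ≤ lam ∧ 0 < δ0 ∧ 0 ≤ C0 ∧ ∀ᶠ T : ℝ in atTop, ∀ δ : ℝ, lam / Real.log T ≤ δ → δ ≤ δ0 →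
      ∀ J : ℕ, PJ c z η Rs d T J → ∃ V B : ℝ, 0 < B ∧ |V - Real.log (1 / δ)| ≤ C0 ∧
      ∀ α : ℝ, 0 < α → α ≤ M → |α - α0| ≤ ρ →
        |(∫ t in (T ^ ((4:ℝ)/5))..(T / 2), (Gh z (yT η T) J Rs e1 δ).indicator (fun t => zn (1 / 2 + δ) t ^ (2 * α)) t) -
          T / 2 * (B * Real.exp (α ^ 2 * V))| ≤ 20 * ε * (T / 2 * (B * Real.exp (α ^ 2 * V))) ∧
        ‖(∫ t in (T ^ ((4:ℝ)/5))..(T / 2), (((Gh z (yT η T) J Rs e1 δ).indicator
            (fun t => zn (1 / 2 + δ) t ^ (2 * α)) t : ℝ) : ℂ) * tw h k t) -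
          ((T / 2 * (B * Real.exp (α ^ 2 * V)) * Nu α0 h k : ℝ) : ℂ)‖ ≤
          20 * ε * (1 + |Nu α0 h k|) * (T / 2 * (B * Real.exp (α ^ 2 * V))) := by
  have hM1 : (1:ℝ) ≤ M := by exact_mod_cast P.M1
  have hM0 : (0:ℝ) < M := by linarith
  have hε := P.e0
  have hε1 := P.e01
  have he1 := P.e10
  have he11 := P.e11
  obtain ⟨m, hm⟩ : ∃ m : ℝ, m = max m' 1 := ⟨_, rfl⟩
  obtain ⟨l, hl⟩ : ∃ l : ℝ, l = max (l1' A0) 1 := ⟨_, rfl⟩
  have hm1 : 1 ≤ m := by rw [hm]; exact le_max_right _ _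
  have hm0 : 0 ≤ m := by linarith
  have hl1 : 1 ≤ l := by rw [hl]; exact le_max_right _ _
  have hA : Bd1 m A0 := hA'.mono (by rw [hm]; exact le_max_left _ _)
  have hlA : l1' A0 ≤ l := by rw [hl]; exact le_max_left _ _
  obtain ⟨δv, Cv, hδv, hδv2, hCv, hVn⟩ := V_near one_pos hε z
  obtain ⟨lam, hlam1, hlamx, hkey⟩ := key P (m := m) (l := l) (c2 := Real.exp (-((M:ℝ) ^ 2 * Cv))) hm1 hl1 (Real.exp_pos _)
  obtain ⟨δ0, hδ00, hδ016, hδ0v, hδ0r⟩ : ∃ δ0 : ℝ, 0 < δ0 ∧ δ0 ≤ 1 / 16 ∧ δ0 ≤ δv ∧ δ0 < δr :=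
    ⟨min (1 / 16) (min δv (δr / 2)), by positivity, min_le_left _ _, (min_le_right _ _).trans (min_le_left _ _),
      lt_of_le_of_lt ((min_le_right _ _).trans (min_le_right _ _)) (by linarith only [hδr])⟩
  refine ⟨lam, δ0, Cv, hlam1, hδ00, hCv, ?_⟩
  obtain ⟨K0, hK0⟩ : ∃ K0 : ℝ, K0 = 2 * ((h * k : ℕ) : ℝ) ^ 2 * m * l1' A0 ^ 2 := ⟨_, rfl⟩
  filter_upwards [hkey, windows_ev, eventually_ge_atTop (10 ^ 10),
    rpow_ev (p := 4 / 5) (q := 1) (by norm_num) (2 / ε), rpow_ev (p := 1 / 25) (q := 1) (by norm_num) (2 * K0 / ε),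
    Real.tendsto_log_atTop.eventually_ge_atTop 1] with T tk t3 t4 t8 t7 t9 δ hδ1 hδ2 J hPJ
  have hT0 : 0 < T := by linarith
  have hT1 : 1 ≤ T := by linarith
  have hL0 : 0 < Real.log T := by linarith
  have hx : lam ≤ δ * Real.log T := by rwa [div_le_iff₀ hL0] at hδ1
  have hδ0 : 0 < δ := lt_of_lt_of_le (div_pos (lt_of_lt_of_le one_pos hlam1) hL0) hδ1
  have hδ16 := hδ2.trans hδ016
  have hkk := tk δ hδ1 hδ16 J hPJ
  have hS := hPJ.1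
  have hη := P.η0
  obtain ⟨y, hy⟩ : ∃ y, y = yT η T := ⟨_, rfl⟩
  have hly : Real.log (yT η T) = η * Real.log T := Real.log_exp _
  have hX2 : (0:ℝ) ≤ T / 2 := by linarith only [hT0]
  have hX1 : 0 ≤ T ^ ((4:ℝ)/5) := by positivity
  obtain ⟨e, he⟩ : ∃ e, e = ε * e1 ^ 2 / 600 := ⟨_, rfl⟩
  have he0 : 0 < e := by rw [he]; positivity
  have he600 : e ≤ ε / 600 := by
    have h1 : e1 ^ 2 ≤ 1 := pow_le_one₀ he1.le he11.le
    have : ε * e1 ^ 2 ≤ ε * 1 := mul_le_mul_of_nonneg_left h1 hε.le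
    rw [he]; linarith
  rw [← hy] at hly hS hkk
  rw [← he] at hkk
  rw [← hy]
  have hcm := P.cm 1 one_pos hM1 y δ hS.zy hδ0 (by
    rw [hly]
    have h1 : x0 ≤ lam * η := by rwa [div_le_iff₀ hη] at hlamx
    calc x0 ≤ lam * η := h1
      _ ≤ (δ * Real.log T) * η := mul_le_mul_of_nonneg_right hx hη.le
      _ = _ := by ring) J hS.J1
  have hVc := hVn δ (Vd δ z y J) hδ0 (hδ2.trans hδ0v) hcm.1 hcm.2
  have hB1 := hge δ
  have hrt := hrat δ hδ0.le (lt_of_le_of_lt hδ2 hδ0r)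
  have hVd0 : 0 ≤ Vd δ z y J := sum_nonneg fun _ _ => vd_nonneg _ _
  have hX12 : (1 - ε) * (T / 2) ≤ T / 2 - T ^ ((4:ℝ)/5) := by
    rw [Real.rpow_one] at t8
    have h8 := mul_le_mul_of_nonneg_left t8 (by positivity : 0 ≤ ε / 2)
    have e8 : ε / 2 * (2 / ε * T ^ ((4:ℝ) / 5)) = T ^ ((4:ℝ) / 5) := by field_simp
    rw [e8] at h8
    linarith only [h8]
  obtain ⟨V, hV⟩ : ∃ V, V = Vd δ z y J := ⟨_, rfl⟩
  obtain ⟨B, hB⟩ : ∃ B, B = ip δ A0 A0 := ⟨_, rfl⟩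
  rw [← hV] at hVc hVd0
  rw [← hB] at hB1 hrt
  refine ⟨V, B, by linarith, hVc, fun α hα hαM hαρ => ?_⟩
  have hEV1 : 1 ≤ Real.exp (α ^ 2 * V) := Real.one_le_exp (mul_nonneg (sq_nonneg _) hVd0)
  have hD1 : 1 ≤ B * Real.exp (α ^ 2 * V) := one_le_mul_of_one_le_of_one_le hB1 hEV1
  obtain ⟨M', hcase⟩ : ∃ M' : ℕ, ((M' = 1 ∧ |α - 1| ≤ 1) ∨ (M' = M ∧ 0 ≤ α - 1 ∧ α - 1 ≤ M)) := by
    rcases le_or_gt α 1 with h | h
    · exact ⟨1, Or.inl ⟨rfl, by rw [abs_le]; constructor <;> linarith⟩⟩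
    · exact ⟨M, Or.inr ⟨rfl, by linarith, by linarith⟩⟩
  have hDlow : Real.exp (-((M:ℝ) ^ 2 * Cv)) * δ ^ (-(α ^ 2)) ≤ B * Real.exp (α ^ 2 * V) := by
    have h1 : δ ^ (-(α ^ 2)) = Real.exp (α ^ 2 * Real.log (1 / δ)) := by
      rw [Real.rpow_def_of_pos hδ0, one_div, Real.log_inv]; congr 1; ring
    rw [h1, ← Real.exp_add]
    refine le_trans (Real.exp_le_exp.mpr ?_) (le_mul_of_one_le_left (Real.exp_pos _).le hB1)
    have h2 : α ^ 2 ≤ (M:ℝ) ^ 2 := pow_le_pow_left₀ hα.le hαM 2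
    have h3 : α ^ 2 * (Real.log (1 / δ) - Cv) ≤ α ^ 2 * V := mul_le_mul_of_nonneg_left (by
      have := (abs_le.mp hVc).1; linarith) (sq_nonneg _)
    have h4 : α ^ 2 * Cv ≤ (M:ℝ) ^ 2 * Cv := mul_le_mul_of_nonneg_right h2 hCv
    linarith
  have hY0 : 0 ≤ T / 2 * (B * Real.exp (α ^ 2 * V)) := by positivity
  obtain ⟨hM', hκ1, hzM', hET, hWM', hE2, hoff⟩ := hkk M' α A0 (B * Real.exp (α ^ 2 * V)) hcase hα.le hαM hA hAm hlA
    (by rw [← hB]; linarith) (by rw [← hV, ← hB]; linarith) hDlow hD1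
  have hK0T : K0 * T ^ ((1:ℝ) / 25) ≤ ε * (T / 2 * (B * Real.exp (α ^ 2 * V))) := by
    rw [Real.rpow_one] at t7
    have h2 := mul_le_mul_of_nonneg_left t7 (by positivity : 0 ≤ ε / 2)
    calc K0 * T ^ ((1:ℝ) / 25) = ε / 2 * (2 * K0 / ε * T ^ ((1:ℝ) / 25)) := by field_simp
      _ ≤ ε / 2 * T := h2
      _ = ε * (T / 2) := by ring
      _ ≤ ε * (T / 2) * (B * Real.exp (α ^ 2 * V)) := le_mul_of_one_le_right (by positivity) hD1
      _ = _ := by ring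
  have f7 : 2 * ((h * k : ℕ) : ℝ) ^ 2 * (m * T ^ ((1:ℝ) / 50)) * (l1' A0 ^ 2 * T ^ ((1:ℝ) / 50)) ≤
      ε * (T / 2 * (B * Real.exp (α ^ 2 * V))) := by
    refine le_trans (le_of_eq ?_) hK0T
    have h5 : T ^ ((1:ℝ) / 25) = T ^ ((1:ℝ) / 50) * T ^ ((1:ℝ) / 50) := by
      rw [← Real.rpow_add hT0]; norm_num
    rw [hK0, h5]; ring
  have H : Cg M M' c y δ α ε e1 e (T ^ ((4:ℝ)/5)) (T / 2) (T ^ ((1:ℝ) / 50)) m
      (T / 2 * (B * Real.exp (α ^ 2 * V))) B V z J Rs (NT T) (KT T) A0 :=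
    { iM := hM', iz := hzM', iS := hS, iA := hA, iAm := hAm, im0 := hm0, id0 := hδ0.le, id1 := hδ16, ia0 := hα,
      iaM := hαM, ia1 := hκ1, ie0 := hε, ie1 := hε1, ie10 := he1, ie11 := he11, ip1 := P.p1, ip2 := P.p2,
      iPA := hsize α hαρ, ih4 := P.h4a, iE := hET, ie := by linarith only [he600, hε], iX1 := hX1, iX12 := t3.1,
      iX := hX12, iW := hWM', iW0 := Real.rpow_nonneg hT0.le _, iB := hB, iV := hV, iB1 := by linarith only [hB1],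
      iY := rfl, if2 := hE2, ioff := hoff }
  exact ⟨H.fa, H.fb hh hk hpz hrt f7⟩

end Pool.Agent.Y753.NL
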