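import Pool.Agent.Y753.NL.Full

set_option autoImplicit false

/-! Ratios of moments along a path. -/

namespace Pool.Agent.Y753.NL

open Finset Filter MeasureTheory MonoidAlgebra Topology
open Pool.Agent.Y755
open Pool.Agent.W184.NZ
open Pool.Agent.W184 (zn zn_nonneg zn_cont zn_le')

/-- the variable measuring the distance to the critical line -/
noncomputable def ell (δ : ℝ) : ℝ := Real.log (1 / (2 * δ))

/-- the standard deviation -/
noncomputable def sg (δ : ℝ) : ℝ := √(ell δ / 2)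

lemma ell_tendsto {δ : ℝ → ℝ} (hpos : ∀ᶠ T in atTop, 0 < δ T) (h : Tendsto δ atTop (𝓝 0)) :
    Tendsto (fun T => ell (δ T)) atTop atTop := by
  unfold ell
  refine Real.tendsto_log_atTop.comp ?_
  have h1 : Tendsto (fun T => 2 * δ T) atTop (𝓝[>] 0) := by
    rw [tendsto_nhdsWithin_iff]
    refine ⟨by simpa using h.const_mul 2, ?_⟩
    filter_upwards [hpos] with T hT
    show 0 < 2 * δ T
    linarith
  refine (h1.inv_tendsto_nhdsGT_zero).congr fun T => ?_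
  simp [one_div]

lemma sg_tendsto {δ : ℝ → ℝ} (hpos : ∀ᶠ T in atTop, 0 < δ T) (h : Tendsto δ atTop (𝓝 0)) :
    Tendsto (fun T => sg (δ T)) atTop atTop := by
  unfold sg
  exact Real.tendsto_sqrt_atTop.comp ((ell_tendsto hpos h).atTop_div_const (by norm_num))

lemma quot_near {P0 P1 I c ν ε E : ℝ} {J : ℂ} (hε : 0 < ε) (hε1 : 600 * ε ≤ 1) (hP0 : 0 < P0) (hP1 : 0 < P1)
    (hc : 0 < c) (h1 : |I - P0| ≤ 300 * ε * P0) (h2 : ‖J - ((P1 * ν : ℝ) : ℂ)‖ ≤ 300 * ε * (1 + |ν|) * P1)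
    (hE : P1 * c / P0 = E) : ‖J * (c:ℂ) / (I:ℂ) - ((E * ν : ℝ) : ℂ)‖ ≤ 1200 * ε * (1 + |ν|) * E := by
  have hI : P0 / 2 ≤ I := by
    have := (abs_le.mp h1).1
    nlinarith
  have hI0 : 0 < I := by linarith
  have hIc : (I:ℂ) ≠ 0 := by exact_mod_cast hI0.ne'
  have hE0 : 0 < E := by rw [← hE]; positivity
  have e1 : J * (c:ℂ) / (I:ℂ) - ((E * ν : ℝ) : ℂ) = (c / I : ℝ) * (J - ((P1 * ν : ℝ) : ℂ)) +
      ((c * P1 * ν * (P0 - I) / (I * P0) : ℝ) : ℂ) := by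
    rw [← hE]
    have hP0c : (P0:ℂ) ≠ 0 := by exact_mod_cast hP0.ne'
    push_cast
    field_simp
    ring
  rw [e1]
  refine (norm_add_le _ _).trans ?_
  rw [norm_mul, Complex.norm_real, Complex.norm_real, Real.norm_of_nonneg (by positivity), Real.norm_eq_abs]
  have e2 : |c * P1 * ν * (P0 - I) / (I * P0)| = c * P1 / (I * P0) * (|ν| * |P0 - I|) := by
    rw [abs_div, abs_mul, abs_mul, abs_of_pos (by positivity : 0 < c * P1), abs_of_pos (by positivity : 0 < I * P0)]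
    ring
  rw [e2, abs_sub_comm P0 I]
  have h3 : c / I ≤ 2 * (c / P0) := by
    rw [div_le_iff₀ hI0]
    have : 2 * (c / P0) * I = c * (I / (P0 / 2)) := by field_simp
    rw [this]
    refine le_mul_of_one_le_right hc.le ?_
    rw [le_div_iff₀ (by positivity)]
    linarith
  have h4 : c / I * ‖J - ((P1 * ν : ℝ) : ℂ)‖ ≤ 2 * (c / P0) * (300 * ε * (1 + |ν|) * P1) :=
    mul_le_mul h3 h2 (norm_nonneg _) (by positivity)
  have h5 : c * P1 / (I * P0) * (|ν| * |I - P0|) ≤ 2 * (c / P0) * P1 / P0 * (|ν| * (300 * ε * P0)) := by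
    have e3 : c * P1 / (I * P0) = c / I * (P1 / P0) := by field_simp
    rw [e3]
    have e4 : 2 * (c / P0) * P1 / P0 = 2 * (c / P0) * (P1 / P0) := by ring
    rw [e4]
    gcongr
  refine (add_le_add h4 h5).trans ?_
  have e5 : 2 * (c / P0) * (300 * ε * (1 + |ν|) * P1) + 2 * (c / P0) * P1 / P0 * (|ν| * (300 * ε * P0)) =
      600 * ε * (1 + 2 * |ν|) * E := by
    rw [← hE]; field_simp; ring
  rw [e5]
  have := abs_nonneg ν
  have h6 : 0 ≤ ε * E := by positivity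
  nlinarith [mul_nonneg (abs_nonneg ν) h6]

/-- the exponent -/
lemma expo {α0 s V δ C1 : ℝ} (h0 : 0 < α0) (hl : 0 < ell δ) (hV : |V - ell δ| ≤ C1) :
    |(((α0 + s / (2 * sg δ)) ^ 2 - α0 ^ 2) * V - s * α0 * ell δ / sg δ) - s ^ 2 / 2| ≤
      α0 * |s| * C1 / sg δ + s ^ 2 * C1 / (2 * ell δ) := by
  have hs2 : sg δ ^ 2 = ell δ / 2 := by unfold sg; exact Real.sq_sqrt (by linarith)
  have hs0 : 0 < sg δ := by unfold sg; exact Real.sqrt_pos.mpr (by linarith)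
  set σ := sg δ
  set l := ell δ
  have hl2 : l = 2 * σ ^ 2 := by linarith
  have e1 : (((α0 + s / (2 * σ)) ^ 2 - α0 ^ 2) * V - s * α0 * l / σ) - s ^ 2 / 2 =
      α0 * s / σ * (V - l) + s ^ 2 / (2 * l) * (V - l) := by
    rw [hl2]; field_simp; ring
  rw [e1]
  refine (abs_add_le _ _).trans ?_
  rw [abs_mul, abs_mul, abs_div, abs_mul, abs_of_pos h0, abs_of_pos hs0, abs_of_nonneg (by positivity : 0 ≤ s ^ 2 / (2 * l))]
  refine add_le_add ?_ ?_
  · calc α0 * |s| / σ * |V - l| ≤ α0 * |s| / σ * C1 := mul_le_mul_of_nonneg_left hV (by positivity)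
      _ = _ := by ring
  · calc s ^ 2 / (2 * l) * |V - l| ≤ s ^ 2 / (2 * l) * C1 := mul_le_mul_of_nonneg_left hV (by positivity)
      _ = _ := by ring

/-- the ratios -/
theorem ratio_path {α0 : ℝ} (h0 : 0 < α0) (h2 : α0 < 2) {h k : ℕ} (hh : h ≠ 0) (hk : k ≠ 0) (hc : h.Coprime k)
    {δ : ℝ → ℝ} (hδ0 : Tendsto δ atTop (𝓝 0)) (hδL : Tendsto (fun T => δ T * Real.log T) atTop atTop) (s : ℝ) :
    Tendsto (fun T => (∫ t in (0:ℝ)..T, ((zn (1 / 2 + δ T) t ^ (2 * (α0 + s / (2 * sg (δ T)))) : ℝ) : ℂ) * tw h k t) *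
      ((Real.exp (-(s * α0 * ell (δ T) / sg (δ T))) : ℝ) : ℂ) /
      ((∫ t in (0:ℝ)..T, zn (1 / 2 + δ T) t ^ (2 * α0) : ℝ) : ℂ)) atTop
      (𝓝 ((Real.exp (s ^ 2 / 2) * Nu α0 h k : ℝ) : ℂ)) := by
  have hpos : ∀ᶠ T in atTop, 0 < δ T := by
    filter_upwards [hδL.eventually_gt_atTop 0, eventually_gt_atTop 1] with T hT hT1
    exact (pos_iff_pos_of_mul_pos hT).mpr (Real.log_pos hT1)
  have hel := ell_tendsto hpos hδ0
  have hsg := sg_tendsto hpos hδ0
  obtain ⟨ν, hν⟩ : ∃ ν, ν = Nu α0 h k := ⟨_, rfl⟩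
  obtain ⟨S, hS⟩ : ∃ S, S = Real.exp (s ^ 2 / 2) := ⟨_, rfl⟩
  have hS0 : 0 < S := by rw [hS]; exact Real.exp_pos _
  rw [← hν, ← hS, Metric.tendsto_nhds]
  intro η hη
  have hν1 : 0 < 1 + |ν| := by positivity
  obtain ⟨ε, hε, hε1, hε2⟩ : ∃ ε : ℝ, 0 < ε ∧ 600 * ε ≤ 1 ∧ 3600 * ε * (1 + |ν|) * S ≤ η / 2 := by
    refine ⟨min (1 / 600) (η / (8000 * ((1 + |ν|) * S))), by positivity, ?_, ?_⟩
    · have := min_le_left (1 / 600) (η / (8000 * ((1 + |ν|) * S)))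
      linarith
    · have h1 := min_le_right (1 / 600) (η / (8000 * ((1 + |ν|) * S)))
      have h3 := mul_le_mul_of_nonneg_left h1 (by positivity : 0 ≤ 3600 * ((1 + |ν|) * S))
      have e1 : 3600 * ((1 + |ν|) * S) * (η / (8000 * ((1 + |ν|) * S))) = 3600 / 8000 * η := by
        field_simp
      rw [e1] at h3
      nlinarith
  obtain ⟨ρ, lam, δ0, C0, hρ, hlam, hδ00, hδ016, hC0, hev⟩ := full h0 h2 hh hk hc hε (by linarith : ε ≤ 1 / 10)
  obtain ⟨C1, hC1⟩ : ∃ C1, C1 = C0 + Real.log 2 := ⟨_, rfl⟩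
  have hl2 := Real.log_pos one_lt_two
  have hC10 : 0 ≤ C1 := by rw [hC1]; linarith
  have hb : Tendsto (fun T => α0 * |s| * C1 / sg (δ T) + s ^ 2 * C1 / (2 * ell (δ T))) atTop (𝓝 (0 + 0)) :=
    (tendsto_const_nhds.div_atTop hsg).add (tendsto_const_nhds.div_atTop (hel.const_mul_atTop (by norm_num)))
  rw [add_zero] at hb
  have hb2 := (hb.const_mul (2 * S * |ν|))
  rw [mul_zero] at hb2
  have hsr : Tendsto (fun T => |s| / (2 * sg (δ T))) atTop (𝓝 0) :=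
    tendsto_const_nhds.div_atTop (hsg.const_mul_atTop (by norm_num))
  filter_upwards [hev, hδL.eventually_ge_atTop lam, hpos, hδ0.eventually (gt_mem_nhds hδ00), eventually_gt_atTop 1,
    hb.eventually (gt_mem_nhds one_pos), hb2.eventually (gt_mem_nhds (half_pos hη)), hsr.eventually (gt_mem_nhds hρ),
    hel.eventually_gt_atTop 0, hsg.eventually_gt_atTop 0] with T t1 t2 t3 t4 t5 t6 t7 t8 t9 t10
  have hL := Real.log_pos t5
  obtain ⟨V, B, hB, hV, hall⟩ := t1 (δ T) (by rw [div_le_iff₀ hL]; exact t2) t4.le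
  obtain ⟨g1, -⟩ := hall α0 (by rw [sub_self, abs_zero]; exact hρ.le)
  obtain ⟨-, g2⟩ := hall (α0 + s / (2 * sg (δ T))) (by
    rw [add_sub_cancel_left, abs_div, abs_of_pos (by linarith : 0 < 2 * sg (δ T))]; exact t8.le)
  have hVl : |V - ell (δ T)| ≤ C1 := by
    have e1 : ell (δ T) = Real.log (1 / δ T) - Real.log 2 := by
      unfold ell
      rw [one_div, one_div, Real.log_inv, Real.log_inv, Real.log_mul (by norm_num) t3.ne']
      ring
    rw [e1, hC1]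
    rw [abs_le] at hV ⊢
    constructor <;> linarith
  have hexp := expo (s := s) h0 t9 hVl
  obtain ⟨b, hbd⟩ : ∃ b, b = α0 * |s| * C1 / sg (δ T) + s ^ 2 * C1 / (2 * ell (δ T)) := ⟨_, rfl⟩
  rw [← hbd] at hexp t6 t7
  obtain ⟨D, hD⟩ : ∃ D, D = ((α0 + s / (2 * sg (δ T))) ^ 2 - α0 ^ 2) * V - s * α0 * ell (δ T) / sg (δ T) := ⟨_, rfl⟩
  rw [← hD] at hexp
  have hX0 : 0 < T := by linarith
  have hP : ∀ α : ℝ, 0 < T * (B * Real.exp (α ^ 2 * V)) := fun α => by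
    have := Real.exp_pos (α ^ 2 * V)
    positivity
  rw [← hν] at g2
  have hq := quot_near (E := Real.exp D) hε hε1 (hP α0) (hP (α0 + s / (2 * sg (δ T))))
    (Real.exp_pos (-(s * α0 * ell (δ T) / sg (δ T)))) g1 g2 (by
      rw [div_eq_iff (hP α0).ne', hD]
      have : Real.exp (((α0 + s / (2 * sg (δ T))) ^ 2 - α0 ^ 2) * V - s * α0 * ell (δ T) / sg (δ T)) =
          Real.exp ((α0 + s / (2 * sg (δ T))) ^ 2 * V) * Real.exp (-(s * α0 * ell (δ T) / sg (δ T))) *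
            (Real.exp (α0 ^ 2 * V))⁻¹ := by
        rw [← Real.exp_neg, ← Real.exp_add, ← Real.exp_add]
        congr 1; ring
      rw [this]
      have := (Real.exp_pos (α0 ^ 2 * V)).ne'
      field_simp)
  have hDn : |Real.exp D - S| ≤ 2 * S * b := by
    have e1 : Real.exp D - S = S * (Real.exp (D - s ^ 2 / 2) - 1) := by
      rw [hS, mul_sub, ← Real.exp_add, mul_one]
      congr 2; ring
    rw [e1, abs_mul, abs_of_pos hS0]
    have h5 := exp_near (hexp.trans t6.le)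
    calc S * |Real.exp (D - s ^ 2 / 2) - 1| ≤ S * (2 * b) :=
          mul_le_mul_of_nonneg_left (h5.trans (by linarith)) hS0.le
      _ = _ := by ring
  have hE3 : Real.exp D ≤ 3 * S := by
    have := (abs_le.mp hDn).2
    nlinarith
  rw [dist_eq_norm]
  have e3 : ∀ z : ℂ, z - ((S * ν : ℝ) : ℂ) = (z - ((Real.exp D * ν : ℝ) : ℂ)) + (((Real.exp D - S) * ν : ℝ) : ℂ) := by
    intro z; push_cast; ring
  rw [e3]
  refine lt_of_le_of_lt (norm_add_le _ _) ?_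
  have h7 : ‖(((Real.exp D - S) * ν : ℝ) : ℂ)‖ < η / 2 := by
    rw [Complex.norm_real, Real.norm_eq_abs, abs_mul]
    refine lt_of_le_of_lt (mul_le_mul_of_nonneg_right hDn (abs_nonneg ν)) ?_
    have : 2 * S * b * |ν| = 2 * S * |ν| * b := by ring
    rw [this]; exact t7
  have h8 : 1200 * ε * (1 + |ν|) * Real.exp D ≤ η / 2 := by
    refine le_trans ?_ hε2
    calc 1200 * ε * (1 + |ν|) * Real.exp D ≤ 1200 * ε * (1 + |ν|) * (3 * S) :=
          mul_le_mul_of_nonneg_left hE3 (by positivity)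
      _ = _ := by ring
  linarith [hq.trans h8]

end Pool.Agent.Y753.NL
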