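import Pool.Agent.Y753.NL.All3
import Pool.Agent.Y753.NL.Rat
import Pool.Agent.Y755.Fin

set_option autoImplicit false

/-! One stage of the construction. -/

namespace Pool.Agent.Y753.NL

open Finset Filter MeasureTheory MonoidAlgebra Topology
open Pool.Agent.Y755
open Pool.Agent.W184.NZ
open Pool.Agent.W184 (zn zn_nonneg zn_cont zn_le')

lemma ind_r {f : ℝ → ℝ} {a b : ℝ} (hab : a ≤ b) {G : Set ℝ} (hG : MeasurableSet G) :
    ∫ t in a..b, G.indicator f t = ∫ t in Set.Ioc a b ∩ G, f t := by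
  rw [intervalIntegral.integral_of_le hab, setIntegral_indicator hG]

lemma ind_c {f : ℝ → ℝ} {g : ℝ → ℂ} {a b : ℝ} (hab : a ≤ b) {G : Set ℝ} (hG : MeasurableSet G) :
    ∫ t in a..b, ((G.indicator f t : ℝ) : ℂ) * g t = ∫ t in Set.Ioc a b ∩ G, ((f t : ℝ) : ℂ) * g t := by
  rw [intervalIntegral.integral_of_le hab, ← setIntegral_indicator hG]
  refine integral_congr_ae (Eventually.of_forall fun t => ?_)
  show ((G.indicator f t : ℝ) : ℂ) * g t = G.indicator (fun t => ((f t : ℝ) : ℂ) * g t) t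
  by_cases h : t ∈ G
  · rw [Set.indicator_of_mem h, Set.indicator_of_mem h]
  · rw [Set.indicator_of_notMem h, Set.indicator_of_notMem h]; simp

/-- the moments and twisted moments near an exponent, along a path -/
theorem trip {M z Rs : ℕ} {ε e1 c η d x0 : ℝ} (P : Pk M z Rs ε e1 c η d x0) {α0 ρ m' δr : ℝ} {A0 : P1} {h k : ℕ}
    (hh : h ≠ 0) (hk : k ≠ 0) (hpz : ∀ p, p.Prime → p ∣ h * k → p < z) (hA' : Bd1 m' A0) (hAm : A0 ∈ SA1 (M1 (S0 z)))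
    (hδr : 0 < δr) (hge : ∀ δ, 1 ≤ ip δ A0 A0)
    (hrat : ∀ δ : ℝ, 0 ≤ δ → δ < δr → |((h * k : ℕ) : ℝ) ^ (1 / 2 + δ) * ip δ (single h 1 * A0) (single k 1 * A0) /
        ip δ A0 A0 - Nu α0 h k| ≤ ε)
    (hsize : ∀ α : ℝ, |α - α0| ≤ ρ → ∀ s : ℂ, 1 / 2 ≤ s.re →
        1 - ε ≤ ‖es s (Pz z)‖ ^ (2 * α) * ‖es s A0‖ ^ 2 ∧ ‖es s (Pz z)‖ ^ (2 * α) * ‖es s A0‖ ^ 2 ≤ 1 + ε)
    {δ : ℝ → ℝ} (hδ0 : Tendsto δ atTop (𝓝 0)) (hδL : Tendsto (fun T => δ T * Real.log T) atTop atTop)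
    {κ : ℝ} (hκ : 0 < κ) :
    ∀ᶠ X : ℝ in atTop, ∀ J : ℕ, PJ c z η Rs d (2 * X) J → ∃ V B : ℝ, 0 < B ∧ |V - ell (δ X)| ≤ κ * sg (δ X) ∧
      ∀ α : ℝ, 0 < α → α ≤ M → |α - α0| ≤ ρ →
        |(∫ t in Set.Ioc ((2 * X) ^ ((4:ℝ)/5)) X ∩ Gh z (yT η (2 * X)) J Rs e1 (δ X), zn (1 / 2 + δ X) t ^ (2 * α)) -
          X * (B * Real.exp (α ^ 2 * V))| ≤ 20 * ε * (X * (B * Real.exp (α ^ 2 * V))) ∧
        ‖(∫ t in Set.Ioc ((2 * X) ^ ((4:ℝ)/5)) X ∩ Gh z (yT η (2 * X)) J Rs e1 (δ X),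
            ((zn (1 / 2 + δ X) t ^ (2 * α) : ℝ) : ℂ) * tw h k t) -
          ((X * (B * Real.exp (α ^ 2 * V)) * Nu α0 h k : ℝ) : ℂ)‖ ≤
          20 * ε * (1 + |Nu α0 h k|) * (X * (B * Real.exp (α ^ 2 * V))) := by
  have hpos : ∀ᶠ T in atTop, 0 < δ T := by
    filter_upwards [hδL.eventually_gt_atTop 0, eventually_gt_atTop 1] with T hT hT1
    exact (pos_iff_pos_of_mul_pos hT).mpr (Real.log_pos hT1)
  have hsg := sg_tendsto hpos hδ0
  obtain ⟨lam, δ0, C0, hlam, hδ00, hC0, hev⟩ := win2 P hh hk hpz hA' hAm hδr hge hrat hsize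
  have hl2 := Real.log_pos one_lt_two
  filter_upwards [two_mul_tendsto.eventually hev, two_mul_tendsto.eventually windows_ev, hδL.eventually_ge_atTop lam, hpos,
    hδ0.eventually (gt_mem_nhds hδ00), hδ0.eventually (gt_mem_nhds (show (0:ℝ) < 1 / 16 by norm_num)), eventually_gt_atTop 1,
    (hsg.const_mul_atTop hκ).eventually_ge_atTop (C0 + Real.log 2)] with X t1 tw' t2 t3 t4 t4' t5 t6 J hJ
  have hL := Real.log_pos t5
  have hX0 : 0 < X := by linarith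
  have hLL : Real.log X ≤ Real.log (2 * X) := Real.log_le_log hX0 (by linarith)
  obtain ⟨V, B, hB, hV, hall⟩ := t1 (δ X) (by
    rw [div_le_iff₀ (hL.trans_le hLL)]
    exact t2.trans (mul_le_mul_of_nonneg_left hLL t3.le)) t4.le J hJ
  have e2 : 2 * X / 2 = X := by ring
  rw [e2] at hall
  have hw := tw'.1
  rw [e2] at hw
  have hGm : MeasurableSet (Gh z (yT η (2 * X)) J Rs e1 (δ X)) := Gh_meas hJ.1 t4'.le
  refine ⟨V, B, hB, ?_, fun α h1 h2 h3 => ?_⟩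
  · refine le_trans ?_ t6
    have e1 : ell (δ X) = Real.log (1 / δ X) - Real.log 2 := by
      unfold ell
      rw [one_div, one_div, Real.log_inv, Real.log_inv, Real.log_mul (by norm_num) t3.ne']
      ring
    rw [e1]
    rw [abs_le] at hV ⊢
    constructor <;> linarith
  · have h4 := hall α h1 h2 h3
    rw [ind_r hw hGm, ind_c hw hGm] at h4
    exact h4

/-- a stage -/
def Stg (n : ℕ) (X δ : ℝ) (U : Set ℝ) : Prop :=
  (MeasurableSet U ∧ U ⊆ Set.Icc 0 X ∧ volume.real (Set.Icc 0 X \ U) ≤ X / (n + 1)) ∧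
  (∀ α : ℝ, 0 < α → α ≤ n + 1 → |(∫ t in U, zn (1 / 2 + δ) t ^ (2 * α)) - X * DD α δ| ≤ 1 / (n + 1) * (X * DD α δ)) ∧
  ∀ h k : ℕ, h ≠ 0 → k ≠ 0 → h.Coprime k → h * k ≤ n + 1 → ∀ α0 : ℝ, 1 / ((n:ℝ) + 1) ≤ α0 → α0 ≤ n →
    ∃ αc V B : ℝ, |αc - α0| ≤ 1 / ((n:ℝ) + 1) ∧ 0 < B ∧ |V - ell δ| ≤ 1 / ((n:ℝ) + 1) * sg δ ∧
    ∀ α : ℝ, |α - α0| ≤ (n + 1) / sg δ →
      |(∫ t in U, zn (1 / 2 + δ) t ^ (2 * α)) - X * (B * Real.exp (α ^ 2 * V))| ≤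
        300 * (1 / (600 * ((n:ℝ) + 1))) * (X * (B * Real.exp (α ^ 2 * V))) ∧
      ‖(∫ t in U, ((zn (1 / 2 + δ) t ^ (2 * α) : ℝ) : ℂ) * tw h k t) -
        ((X * (B * Real.exp (α ^ 2 * V)) * Nu αc h k : ℝ) : ℂ)‖ ≤
        300 * (1 / (600 * ((n:ℝ) + 1))) * (1 + |Nu αc h k|) * (X * (B * Real.exp (α ^ 2 * V)))

/-- the stages exist -/
theorem stage {δ : ℝ → ℝ} (hδ0 : Tendsto δ atTop (𝓝 0)) (hδL : Tendsto (fun T => δ T * Real.log T) atTop atTop) (n : ℕ) :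
    ∀ᶠ X : ℝ in atTop, ∃ U : Set ℝ, Stg n X (δ X) U := by
  have hpos : ∀ᶠ T in atTop, 0 < δ T := by
    filter_upwards [hδL.eventually_gt_atTop 0, eventually_gt_atTop 1] with T hT hT1
    exact (pos_iff_pos_of_mul_pos hT).mpr (Real.log_pos hT1)
  have hsg := sg_tendsto hpos hδ0
  have hn0 : (0:ℝ) < (n:ℝ) + 1 := by positivity
  have hn1 : (1:ℝ) ≤ (n:ℝ) + 1 := by have : (0:ℝ) ≤ n := Nat.cast_nonneg n; linarith
  obtain ⟨ε, hεd⟩ : ∃ ε : ℝ, ε = 1 / (600 * ((n:ℝ) + 1)) := ⟨_, rfl⟩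
  have hε : 0 < ε := by rw [hεd]; positivity
  have hεn : ε * (600 * ((n:ℝ) + 1)) = 1 := by rw [hεd]; field_simp
  have hε1 : ε ≤ 1 / 600 := by nlinarith
  obtain ⟨z, Rs, e1, c, η, d, x0, hz, P⟩ := Pk_ex (M := n + 1) (by omega) hε (by linarith) (n + 2)
  obtain ⟨ρ0, hρ0, hA⟩ := A0_u hε (by linarith) z
  obtain ⟨ρ, hρ, hρρ, hρn⟩ : ∃ ρ : ℝ, 0 < ρ ∧ ρ ≤ ρ0 ∧ ρ ≤ 1 / ((n:ℝ) + 1) :=
    ⟨min ρ0 (1 / ((n:ℝ) + 1)), lt_min hρ0 (by positivity), min_le_left _ _, min_le_right _ _⟩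
  obtain ⟨L, hL⟩ : ∃ L : ℕ, L = ⌈(n:ℝ) / (ρ / 2)⌉₊ := ⟨_, rfl⟩
  obtain ⟨Q, hQ⟩ : ∃ Q : ℝ → ℕ → ℕ → ℕ → Prop, ∀ X j h k, Q X j h k ↔ (∀ J : ℕ, PJ c z η Rs d (2 * X) J →
      ∃ V B : ℝ, 0 < B ∧ |V - ell (δ X)| ≤ 1 / ((n:ℝ) + 1) * sg (δ X) ∧
      ∀ α : ℝ, 0 < α → α ≤ (n + 1 : ℕ) → |α - j * (ρ / 2)| ≤ ρ →
        |(∫ t in Set.Ioc ((2 * X) ^ ((4:ℝ)/5)) X ∩ Gh z (yT η (2 * X)) J Rs e1 (δ X), zn (1 / 2 + δ X) t ^ (2 * α)) -
          X * (B * Real.exp (α ^ 2 * V))| ≤ 20 * ε * (X * (B * Real.exp (α ^ 2 * V))) ∧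
        ‖(∫ t in Set.Ioc ((2 * X) ^ ((4:ℝ)/5)) X ∩ Gh z (yT η (2 * X)) J Rs e1 (δ X),
            ((zn (1 / 2 + δ X) t ^ (2 * α) : ℝ) : ℂ) * tw h k t) -
          ((X * (B * Real.exp (α ^ 2 * V)) * Nu (j * (ρ / 2)) h k : ℝ) : ℂ)‖ ≤
          20 * ε * (1 + |Nu (j * (ρ / 2)) h k|) * (X * (B * Real.exp (α ^ 2 * V)))) := ⟨_, fun _ _ _ _ => Iff.rfl⟩
  have hall : ∀ᶠ X : ℝ in atTop, ∀ j ∈ range (L + 1), ∀ h ∈ range (n + 2), ∀ k ∈ range (n + 2),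
      j ≠ 0 → h ≠ 0 → k ≠ 0 → h.Coprime k → h * k ≤ n + 1 → Q X j h k := by
    rw [eventually_all_finset]
    intro j _
    rw [eventually_all_finset]
    intro h _
    rw [eventually_all_finset]
    intro k _
    by_cases hcond : j ≠ 0 ∧ h ≠ 0 ∧ k ≠ 0 ∧ h.Coprime k ∧ h * k ≤ n + 1
    · obtain ⟨c1, c2, c3, c4, c5⟩ := hcond
      have hj0 : 0 < (j:ℝ) * (ρ / 2) := by
        have : (0:ℝ) < j := by exact_mod_cast Nat.pos_of_ne_zero c1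
        positivity
      have hpz : ∀ p, p.Prime → p ∣ h * k → p < z := fun p _ hd => by
        have := Nat.le_of_dvd (Nat.pos_of_ne_zero (mul_ne_zero c2 c3)) hd
        omega
      obtain ⟨A0, m, δr, g1, g2, g3, g4, g5, g6⟩ := hA _ hj0 h k c2 c3 c4 hpz
      have := trip P c2 c3 hpz g1 g2 g3 g4 g5 (ρ := ρ) (fun α hα => g6 α (hα.trans hρρ)) hδ0 hδL
        (κ := 1 / ((n:ℝ) + 1)) (by positivity)
      filter_upwards [this] with X hX _ _ _ _ _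
      rw [hQ]
      exact hX
    · refine Eventually.of_forall fun X c1 c2 c3 c4 c5 => absurd ⟨c1, c2, c3, c4, c5⟩ hcond
  obtain ⟨lam, hlam, hw1⟩ := win1 P
  filter_upwards [hall, two_mul_tendsto.eventually hw1, two_mul_tendsto.eventually P.par,
    two_mul_tendsto.eventually windows_ev, hδL.eventually_ge_atTop lam, hpos,
    hδ0.eventually (gt_mem_nhds (show (0:ℝ) < 1 / 16 by norm_num)), eventually_gt_atTop 1,
    (hsg.const_mul_atTop (show 0 < ρ / (2 * ((n:ℝ) + 1)) by positivity)).eventually_ge_atTop 1, hsg.eventually_gt_atTop 0,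
    (two_mul_tendsto.eventually (rpow_ev (p := 4 / 5) (q := 1) (by norm_num) (1 / ε)))] with
    X t1 t2 t3 t4 t5 t6 t7 t8 t9 t10 t11
  obtain ⟨J, hJ⟩ := t3
  have hLg := Real.log_pos t8
  have hX0 : 0 < X := by linarith
  have hLL : Real.log X ≤ Real.log (2 * X) := Real.log_le_log hX0 (by linarith)
  obtain ⟨hGm, hvol, hmass⟩ := t2 (δ X) (by
    rw [div_le_iff₀ (hLg.trans_le hLL)]
    exact t5.trans (mul_le_mul_of_nonneg_left hLL t6.le)) t7.le J hJ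
  have e2 : 2 * X / 2 = X := by ring
  rw [e2] at hvol hmass
  have hw := t4.1
  rw [e2] at hw
  set G := Gh z (yT η (2 * X)) J Rs e1 (δ X) with hG
  set w := (2 * X) ^ ((4:ℝ)/5) with hwd
  have hw0 : 0 ≤ w := by rw [hwd]; positivity
  have hwX : w ≤ 2 * ε * X := by
    rw [Real.rpow_one] at t11
    have := mul_le_mul_of_nonneg_left t11 hε.le
    have e3 : ε * (1 / ε * w) = w := by field_simp
    rw [e3] at this
    linarith
  have hUm : MeasurableSet (Set.Ioc w X ∩ G) := measurableSet_Ioc.inter hGm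
  have hUX : Set.Ioc w X ∩ G ⊆ Set.Icc 0 X := fun t ht => ⟨hw0.trans ht.1.1.le, ht.1.2⟩
  have hs0 : 0 < sg (δ X) := t10
  have hsρ : (n + 1) / sg (δ X) ≤ ρ / 2 := by
    rw [div_le_iff₀ hs0]
    have := mul_le_mul_of_nonneg_left t9 hn0.le
    have e3 : ((n:ℝ) + 1) * (ρ / (2 * ((n:ℝ) + 1)) * sg (δ X)) = ρ / 2 * sg (δ X) := by field_simp
    linarith
  refine ⟨Set.Ioc w X ∩ G, ⟨hUm, hUX, ?_⟩, ?_, ?_⟩
  · have h1 : Set.Icc 0 X \ (Set.Ioc w X ∩ G) ⊆ Set.Icc 0 w ∪ (Set.Ioc w X \ G) := by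
      intro t ht
      by_cases h2 : t ≤ w
      · exact Or.inl ⟨ht.1.1, h2⟩
      · exact Or.inr ⟨⟨not_le.mp h2, ht.1.2⟩, fun h3 => ht.2 ⟨⟨not_le.mp h2, ht.1.2⟩, h3⟩⟩
    have h2 : volume.real (Set.Icc 0 w ∪ (Set.Ioc w X \ G)) ≤ w + ε * (2 * X) := by
      refine (measureReal_union_le _ _).trans (add_le_add ?_ hvol)
      rw [Real.volume_real_Icc_of_le hw0, sub_zero]
    have h3 : volume.real (Set.Icc 0 X \ (Set.Ioc w X ∩ G)) ≤ volume.real (Set.Icc 0 w ∪ (Set.Ioc w X \ G)) :=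
      measureReal_mono h1 (by
        refine ((measure_union_le _ _).trans_lt ?_).ne
        refine ENNReal.add_lt_top.mpr ⟨by simp, (measure_mono Set.sdiff_subset).trans_lt (by simp)⟩)
    refine h3.trans (h2.trans ?_)
    rw [le_div_iff₀ hn0]
    have h4 : w + ε * (2 * X) ≤ 4 * ε * X := by linarith
    calc (w + ε * (2 * X)) * (n + 1) ≤ 4 * ε * X * (n + 1) := mul_le_mul_of_nonneg_right h4 hn0.le
      _ = (4 / 600) * X * (ε * (600 * ((n:ℝ) + 1))) := by ring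
      _ ≤ X := by rw [hεn]; linarith
  · intro α hα hα1
    have hD := DD_ge_one hα t6
    refine (hmass α hα (by push_cast; exact hα1)).trans (mul_le_mul_of_nonneg_right ?_ (by positivity))
    rw [le_div_iff₀ hn0]
    nlinarith
  · intro h k hh hk hc hhk α0 h1 h2
    obtain ⟨j, hjd⟩ : ∃ j : ℕ, j = ⌈α0 / (ρ / 2)⌉₊ := ⟨_, rfl⟩
    have hα00 : 0 < α0 := lt_of_lt_of_le (by positivity) h1
    have hr2 : 0 < ρ / 2 := by positivity
    have hj1 : α0 / (ρ / 2) ≤ j := by rw [hjd]; exact Nat.le_ceil _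
    have hj2 : (j:ℝ) < α0 / (ρ / 2) + 1 := by rw [hjd]; exact Nat.ceil_lt_add_one (by positivity)
    have hj0 : j ≠ 0 := by
      rintro rfl
      have : 0 < α0 / (ρ / 2) := by positivity
      push_cast at hj1
      linarith
    have hjL : j ∈ range (L + 1) := by
      rw [mem_range, Nat.lt_succ_iff, hjd, hL]
      exact Nat.ceil_mono (div_le_div_of_nonneg_right h2 hr2.le)
    rw [div_le_iff₀ hr2] at hj1
    have hj3 : (j:ℝ) * (ρ / 2) < α0 + ρ / 2 := by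
      have := mul_lt_mul_of_pos_right hj2 hr2
      rwa [add_mul, div_mul_cancel₀ _ hr2.ne', one_mul] at this
    have hh1 : 1 ≤ h := Nat.pos_of_ne_zero hh
    have hk1 : 1 ≤ k := Nat.pos_of_ne_zero hk
    have hhr : h ∈ range (n + 2) := by
      rw [mem_range]
      have : h * 1 ≤ h * k := Nat.mul_le_mul_left h hk1
      omega
    have hkr : k ∈ range (n + 2) := by
      rw [mem_range]
      have : 1 * k ≤ h * k := Nat.mul_le_mul_right k hh1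
      omega
    have hq := t1 j hjL h hhr k hkr hj0 hh hk hc hhk
    rw [hQ] at hq
    obtain ⟨V, B, hB, hV, hest⟩ := hq J hJ
    refine ⟨j * (ρ / 2), V, B, ?_, hB, hV, fun α hα => ?_⟩
    · rw [abs_le]; constructor <;> linarith
    · have ha := abs_le.mp (hα.trans hsρ)
      have hρn2 : ρ / 2 ≤ 1 / ((n:ℝ) + 1) / 2 := by linarith
      have hp1 : 0 < 1 / ((n:ℝ) + 1) := by positivity
      have hp2 : 1 / ((n:ℝ) + 1) ≤ 1 := by rw [div_le_one hn0]; exact hn1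
      obtain ⟨a1, a2⟩ := hest α (by linarith only [ha.1, h1, hρn2, hp1]) (by push_cast; linarith only [ha.2, h2, hρn2, hp2])
        (by rw [abs_le]; constructor <;> linarith only [ha.1, ha.2, hj1, hj3])
      have hY : 0 ≤ X * (B * Real.exp (α ^ 2 * V)) := by positivity
      rw [← hεd]
      refine ⟨a1.trans (mul_le_mul_of_nonneg_right (by linarith) hY), a2.trans (mul_le_mul_of_nonneg_right ?_ hY)⟩
      exact mul_le_mul_of_nonneg_right (by linarith) (by positivity)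

end Pool.Agent.Y753.NL
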