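import Pool.Agent.Y753.NL.All4
import Pool.Agent.Y755.Gn3

set_option autoImplicit false

/-! Ratios of moments off one small set. -/

namespace Pool.Agent.Y753.NL

open Finset Filter MeasureTheory MonoidAlgebra Topology
open Pool.Agent.Y755
open Pool.Agent.W184.NZ
open Pool.Agent.W184 (zn zn_nonneg zn_cont zn_le')
open Pool.Agent.H306R2 (aF)

/-- the sets along a path -/
theorem path_U {δ : ℝ → ℝ} (hδ0 : Tendsto δ atTop (𝓝 0)) (hδL : Tendsto (fun T => δ T * Real.log T) atTop atTop) :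
    ∃ (U : ℝ → Set ℝ) (N : ℝ → ℕ), Tendsto N atTop atTop ∧ (∀ T, MeasurableSet (U T)) ∧
      ∀ᶠ T in atTop, Stg (N T) T (δ T) (U T) := by
  have h : ∀ n : ℕ, ∀ᶠ T in atTop, ∃ U : {U : Set ℝ // MeasurableSet U}, Stg n T (δ T) (U : Set ℝ) := by
    intro n
    filter_upwards [stage hδ0 hδL n] with T hT
    obtain ⟨U, hU⟩ := hT
    exact ⟨⟨U, hU.1.1⟩, hU⟩
  have : Nonempty {U : Set ℝ // MeasurableSet U} := ⟨⟨∅, MeasurableSet.empty⟩⟩
  obtain ⟨U, N, hN, hU⟩ := diag h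
  exact ⟨fun T => U T, N, hN, fun T => (U T).2, hU⟩

section

variable {δ : ℝ → ℝ} (hδ0 : Tendsto δ atTop (𝓝 0)) (hδL : Tendsto (fun T => δ T * Real.log T) atTop atTop)
  {U : ℝ → Set ℝ} {N : ℝ → ℕ} (hN : Tendsto N atTop atTop) (hU : ∀ᶠ T in atTop, Stg (N T) T (δ T) (U T))

include hN in
lemma inv_N : Tendsto (fun T => 1 / ((N T : ℝ) + 1)) atTop (𝓝 0) :=
  (tendsto_one_div_add_atTop_nhds_zero_nat (𝕜 := ℝ)).comp hN

include hδ0 hδL hN hU in
/-- the mass -/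
theorem mass_U {α : ℝ} (hα : 0 < α) :
    Tendsto (fun T => (2 * δ T) ^ (α ^ 2) * ((∫ t in U T, zn (1 / 2 + δ T) t ^ (2 * α)) / T)) atTop (𝓝 (aF α)) := by
  have hpos : ∀ᶠ T in atTop, 0 < δ T := by
    filter_upwards [hδL.eventually_gt_atTop 0, eventually_gt_atTop 1] with T hT hT1
    exact (pos_iff_pos_of_mul_pos hT).mpr (Real.log_pos hT1)
  have hD := DD_asym hα hpos hδ0
  set I : ℝ → ℝ := fun T => (∫ t in U T, zn (1 / 2 + δ T) t ^ (2 * α)) / T with hI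
  have hr : Tendsto (fun T => I T / DD α (δ T)) atTop (nhds 1) := by
    rw [tendsto_iff_norm_sub_tendsto_zero]
    refine squeeze_zero' (Eventually.of_forall fun T => norm_nonneg _) ?_ (inv_N hN)
    obtain ⟨k, hk⟩ := exists_nat_ge α
    filter_upwards [hU, hpos, hN.eventually_ge_atTop k, eventually_gt_atTop 0] with T hT hT0 hNk hTp
    have hNk' : (k:ℝ) ≤ N T := by exact_mod_cast hNk
    have g1 := hT.2.1 α hα (by linarith)
    have hD1 := DD_ge_one hα hT0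
    have hD0 : 0 < DD α (δ T) := by linarith
    rw [Real.norm_eq_abs]
    have e1 : I T / DD α (δ T) - 1 = ((∫ t in U T, zn (1 / 2 + δ T) t ^ (2 * α)) - T * DD α (δ T)) / (T * DD α (δ T)) := by
      rw [hI]; field_simp
    rw [e1, abs_div, abs_of_pos (by positivity : 0 < T * DD α (δ T)), div_le_iff₀ (by positivity)]
    exact g1
  have h3 := hD.mul hr
  rw [mul_one] at h3
  refine h3.congr' ?_
  filter_upwards [hpos] with T hT
  have hD1 := DD_ge_one hα hT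
  have : DD α (δ T) ≠ 0 := by linarith
  show _ = (2 * δ T) ^ (α ^ 2) * I T
  field_simp

include hδ0 hδL hN hU in
/-- the ratios -/
theorem ratio_U {α0 : ℝ} (h0 : 0 < α0) {h k : ℕ} (hh : h ≠ 0) (hk : k ≠ 0) (hc : h.Coprime k) (s : ℝ) :
    Tendsto (fun T => (∫ t in U T, ((zn (1 / 2 + δ T) t ^ (2 * (α0 + s / (2 * sg (δ T)))) : ℝ) : ℂ) * tw h k t) *
      ((Real.exp (-(s * α0 * ell (δ T) / sg (δ T))) : ℝ) : ℂ) /
      ((∫ t in U T, zn (1 / 2 + δ T) t ^ (2 * α0) : ℝ) : ℂ)) atTop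
      (𝓝 ((Real.exp (s ^ 2 / 2) * Nu α0 h k : ℝ) : ℂ)) := by
  have hpos : ∀ᶠ T in atTop, 0 < δ T := by
    filter_upwards [hδL.eventually_gt_atTop 0, eventually_gt_atTop 1] with T hT hT1
    exact (pos_iff_pos_of_mul_pos hT).mpr (Real.log_pos hT1)
  have hel := ell_tendsto hpos hδ0
  have hsg := sg_tendsto hpos hδ0
  have hi := inv_N hN
  obtain ⟨ν, hν⟩ : ∃ ν, ν = Nu α0 h k := ⟨_, rfl⟩
  obtain ⟨S, hS⟩ : ∃ S, S = Real.exp (s ^ 2 / 2) := ⟨_, rfl⟩
  have hS0 : 0 < S := by rw [hS]; exact Real.exp_pos _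
  have hcont := Nu_cont h0 h k
  rw [← hν, ← hS, Metric.tendsto_nhds]
  intro η hη
  have hν1 : 0 < 1 + |ν| := by positivity
  have hη3 : 0 < η / 4 / S := by positivity
  obtain ⟨r, hr, hrc⟩ := Metric.continuousAt_iff.mp hcont (min 1 (η / 4 / S)) (lt_min one_pos hη3)
  rw [← hν] at hrc
  have hb : Tendsto (fun T => α0 * |s| * (1 / ((N T : ℝ) + 1)) + s ^ 2 / 4 * (1 / ((N T : ℝ) + 1)) * (1 / sg (δ T)))
      atTop (𝓝 (α0 * |s| * 0 + s ^ 2 / 4 * 0 * 0)) :=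
    (hi.const_mul _).add ((hi.const_mul _).mul (tendsto_const_nhds.div_atTop hsg))
  rw [mul_zero, mul_zero, add_zero] at hb
  have hb2 := hb.const_mul (2 * S * (1 + |ν|))
  rw [mul_zero] at hb2
  have hx1 := hi.const_mul (6 * (2 + |ν|) * S)
  rw [mul_zero] at hx1
  obtain ⟨n0, hn0⟩ := exists_nat_ge (max (max (1 / α0) α0) (max ((h * k : ℕ) : ℝ) |s|))
  filter_upwards [hU, hN.eventually_ge_atTop n0, hpos, eventually_gt_atTop 1, hb.eventually (gt_mem_nhds one_pos),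
    hb2.eventually (gt_mem_nhds (show 0 < η / 4 by positivity)), hx1.eventually (gt_mem_nhds (show 0 < η / 4 by positivity)),
    hi.eventually (gt_mem_nhds hr), hel.eventually_gt_atTop 0, hsg.eventually_gt_atTop 0] with
    T t1 t2 t3 t5 t6 t7 t8 t9 t10 t11
  have hNr : (n0:ℝ) ≤ N T := by exact_mod_cast t2
  have hm1 : 1 / α0 ≤ N T := ((le_max_left _ _).trans (le_max_left _ _)).trans (hn0.trans hNr)
  have hm2 : α0 ≤ N T := ((le_max_right _ _).trans (le_max_left _ _)).trans (hn0.trans hNr)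
  have hm3 : ((h * k : ℕ) : ℝ) ≤ N T := ((le_max_left _ _).trans (le_max_right _ _)).trans (hn0.trans hNr)
  have hm4 : |s| ≤ N T := ((le_max_right _ _).trans (le_max_right _ _)).trans (hn0.trans hNr)
  have hm3' : h * k ≤ N T + 1 := by
    have : h * k ≤ N T := by exact_mod_cast hm3
    omega
  have hNp : (0:ℝ) < (N T : ℝ) + 1 := by positivity
  obtain ⟨αc, V, B, hαc, hB, hV, hall⟩ := t1.2.2 h k hh hk hc hm3' α0 (by
    rw [div_le_iff₀ hNp]
    rw [div_le_iff₀ h0] at hm1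
    nlinarith) hm2
  obtain ⟨g1, -⟩ := hall α0 (by rw [sub_self, abs_zero]; positivity)
  obtain ⟨-, g2⟩ := hall (α0 + s / (2 * sg (δ T))) (by
    rw [add_sub_cancel_left, abs_div, abs_of_pos (by linarith : 0 < 2 * sg (δ T))]
    refine (div_le_div_of_nonneg_left (abs_nonneg s) t11 (by linarith)).trans ?_
    exact div_le_div_of_nonneg_right (by linarith) t11.le)
  obtain ⟨νc, hνc⟩ : ∃ νc, νc = Nu αc h k := ⟨_, rfl⟩
  have hd := hrc (show dist αc α0 < r by rw [Real.dist_eq]; exact lt_of_le_of_lt hαc t9)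
  rw [← hνc, Real.dist_eq] at hd
  have hd1 : |νc - ν| < 1 := lt_of_lt_of_le hd (min_le_left _ _)
  have hd2 : |νc - ν| < η / 4 / S := lt_of_lt_of_le hd (min_le_right _ _)
  have hνc1 : |νc| ≤ 1 + |ν| := by
    have := abs_sub_abs_le_abs_sub νc ν
    linarith
  rw [← hνc] at g2
  have hexp := expo (s := s) h0 t10 hV
  have hsq : ell (δ T) = 2 * sg (δ T) ^ 2 := by
    unfold sg
    rw [Real.sq_sqrt (by linarith)]
    ring
  obtain ⟨b, hbd⟩ : ∃ b, b = α0 * |s| * (1 / ((N T : ℝ) + 1)) + s ^ 2 / 4 * (1 / ((N T : ℝ) + 1)) * (1 / sg (δ T)) := ⟨_, rfl⟩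
  have hbe : α0 * |s| * (1 / ((N T : ℝ) + 1) * sg (δ T)) / sg (δ T) +
      s ^ 2 * (1 / ((N T : ℝ) + 1) * sg (δ T)) / (2 * ell (δ T)) = b := by
    rw [hbd, hsq]
    field_simp
    ring
  rw [hbe] at hexp
  rw [← hbd] at t6 t7
  obtain ⟨D, hD⟩ : ∃ D, D = ((α0 + s / (2 * sg (δ T))) ^ 2 - α0 ^ 2) * V - s * α0 * ell (δ T) / sg (δ T) := ⟨_, rfl⟩
  rw [← hD] at hexp
  have hX0 : 0 < T := by linarith
  have hP : ∀ α : ℝ, 0 < T * (B * Real.exp (α ^ 2 * V)) := fun α => by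
    have := Real.exp_pos (α ^ 2 * V)
    positivity
  have hε : 0 < 1 / (600 * ((N T : ℝ) + 1)) := by positivity
  have hεn : 1 / (600 * ((N T : ℝ) + 1)) = 1 / ((N T : ℝ) + 1) / 600 := by field_simp
  have hin1 : 1 / ((N T : ℝ) + 1) ≤ 1 := by
    rw [div_le_one hNp]
    have : (0:ℝ) ≤ N T := Nat.cast_nonneg _
    linarith
  have hε1 : 600 * (1 / (600 * ((N T : ℝ) + 1))) ≤ 1 := by rw [hεn]; linarith
  have hq := quot_near (E := Real.exp D) hε hε1 (hP α0) (hP (α0 + s / (2 * sg (δ T))))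
    (Real.exp_pos (-(s * α0 * ell (δ T) / sg (δ T)))) g1 g2 (by
      rw [div_eq_iff (hP α0).ne', hD]
      have : Real.exp (((α0 + s / (2 * sg (δ T))) ^ 2 - α0 ^ 2) * V - s * α0 * ell (δ T) / sg (δ T)) =
          Real.exp ((α0 + s / (2 * sg (δ T))) ^ 2 * V) * Real.exp (-(s * α0 * ell (δ T) / sg (δ T))) *
            (Real.exp (α0 ^ 2 * V))⁻¹ := by
        rw [← Real.exp_neg, ← Real.exp_add, ← Real.exp_add]
        congr 1; ring
      rw [this]
      have := (Real.exp_pos (α0 ^ 2 * V)).ne'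
      field_simp)
  have hDn : |Real.exp D - S| ≤ 2 * S * b := by
    have e1 : Real.exp D - S = S * (Real.exp (D - s ^ 2 / 2) - 1) := by
      rw [hS, mul_sub, ← Real.exp_add, mul_one]
      congr 2; ring
    rw [e1, abs_mul, abs_of_pos hS0]
    have h5 := exp_near (hexp.trans t6.le)
    calc S * |Real.exp (D - s ^ 2 / 2) - 1| ≤ S * (2 * b) :=
          mul_le_mul_of_nonneg_left (h5.trans (by linarith)) hS0.le
      _ = _ := by ring
  have hb0 : 0 ≤ b := by rw [hbd]; positivity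
  have hE3 : Real.exp D ≤ 3 * S := by
    have := (abs_le.mp hDn).2
    nlinarith
  rw [dist_eq_norm]
  have e3 : ∀ z : ℂ, z - ((S * ν : ℝ) : ℂ) = (z - ((Real.exp D * νc : ℝ) : ℂ)) +
      (((Real.exp D - S) * νc + S * (νc - ν) : ℝ) : ℂ) := by
    intro z; push_cast; ring
  rw [e3]
  refine lt_of_le_of_lt (norm_add_le _ _) ?_
  have h7 : ‖(((Real.exp D - S) * νc + S * (νc - ν) : ℝ) : ℂ)‖ < η / 4 + η / 4 := by
    rw [Complex.norm_real, Real.norm_eq_abs]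
    refine lt_of_le_of_lt (abs_add_le _ _) (add_lt_add ?_ ?_)
    · rw [abs_mul]
      refine lt_of_le_of_lt (mul_le_mul hDn hνc1 (abs_nonneg _) (by positivity)) ?_
      have : 2 * S * b * (1 + |ν|) = 2 * S * (1 + |ν|) * b := by ring
      rw [this]; exact t7
    · rw [abs_mul, abs_of_pos hS0, mul_comm]
      exact (lt_div_iff₀ hS0).mp hd2
  have h8 : 1200 * (1 / (600 * ((N T : ℝ) + 1))) * (1 + |νc|) * Real.exp D < η / 4 := by
    refine lt_of_le_of_lt ?_ t8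
    calc 1200 * (1 / (600 * ((N T : ℝ) + 1))) * (1 + |νc|) * Real.exp D
        = 2 * (1 / ((N T : ℝ) + 1)) * (1 + |νc|) * Real.exp D := by rw [hεn]; ring
      _ ≤ 2 * (1 / ((N T : ℝ) + 1)) * (2 + |ν|) * (3 * S) := by
          have : 1 + |νc| ≤ 2 + |ν| := by linarith
          gcongr
      _ = 6 * (2 + |ν|) * S * (1 / ((N T : ℝ) + 1)) := by ring
  linarith [hq]

end

end Pool.Agent.Y753.NL
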