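import Pool.Agent.Y753.NL.Clt

set_option autoImplicit false

/-! A limit theorem for weighted averages with respect to general measures. -/

namespace Pool.Agent.Y753.NL

open MeasureTheory Filter Topology ProbabilityTheory

/-- the law of `Y` under the density `p` with respect to `m` -/
noncomputable def wg (p Y : ℝ → ℝ) (m : Measure ℝ) : Measure ℝ :=
  (m.withDensity fun t => ENNReal.ofReal (p t)).map Y

lemma wg_integral {p Y : ℝ → ℝ} {m : Measure ℝ} (hp : Measurable p) (h0 : ∀ t, 0 ≤ p t) (hY : Measurable Y)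
    {g : ℝ → ℝ} (hg : Continuous g) : ∫ x, g x ∂(wg p Y m) = ∫ t, p t * g (Y t) ∂m := by
  have hz : Measurable fun t => ENNReal.ofReal (p t) := ENNReal.measurable_ofReal.comp hp
  unfold wg
  rw [integral_map hY.aemeasurable hg.aestronglyMeasurable,
    integral_withDensity_eq_integral_toReal_smul hz
      (Eventually.of_forall fun _ => ENNReal.ofReal_lt_top)]
  refine integral_congr_ae (Eventually.of_forall fun t => ?_)
  show (ENNReal.ofReal (p t)).toReal • g (Y t) = p t * g (Y t)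
  rw [ENNReal.toReal_ofReal (h0 t), smul_eq_mul]

lemma wg_integrable {p Y : ℝ → ℝ} {m : Measure ℝ} (hp : Measurable p) (h0 : ∀ t, 0 ≤ p t) (hY : Measurable Y)
    {g : ℝ → ℝ} (hg : Continuous g) (hi : Integrable (fun t => p t * g (Y t)) m) :
    Integrable g (wg p Y m) := by
  have hz : Measurable fun t => ENNReal.ofReal (p t) := ENNReal.measurable_ofReal.comp hp
  unfold wg
  rw [integrable_map_measure hg.aestronglyMeasurable hY.aemeasurable,
    integrable_withDensity_iff_integrable_smul' hz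
      (Eventually.of_forall fun _ => ENNReal.ofReal_lt_top)]
  refine hi.congr (Eventually.of_forall fun t => ?_)
  show p t * g (Y t) = (ENNReal.ofReal (p t)).toReal • (g ∘ Y) t
  rw [ENNReal.toReal_ofReal (h0 t), smul_eq_mul, Function.comp]

lemma wg_prob {p Y : ℝ → ℝ} {m : Measure ℝ} (h0 : ∀ t, 0 ≤ p t) (hi : Integrable p m) (hY : Measurable Y)
    (h1 : ∫ t, p t ∂m = 1) : IsProbabilityMeasure (wg p Y m) := by
  constructor
  unfold wg
  rw [Measure.map_apply hY MeasurableSet.univ, Set.preimage_univ, withDensity_apply _ MeasurableSet.univ,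
    Measure.restrict_univ, ← ofReal_integral_eq_lintegral_ofReal hi (Eventually.of_forall h0), h1, ENNReal.ofReal_one]

/-- the limit theorem -/
theorem clt2 {p Y : ℝ → ℝ → ℝ} {ms : ℝ → Measure ℝ} (hp : ∀ᶠ T : ℝ in atTop, Measurable (p T) ∧ ∀ t, 0 ≤ p T t)
    (hY : ∀ᶠ T : ℝ in atTop, Measurable (Y T))
    (hint : ∀ s : ℝ, ∀ᶠ T : ℝ in atTop, Integrable (fun t => p T t * Real.exp (s * Y T t)) (ms T))
    {c : ℝ} (hc : 0 < c)
    (hm : ∀ s : ℝ, Tendsto (fun T : ℝ => ∫ t, p T t * Real.exp (s * Y T t) ∂(ms T)) atTop (𝓝 (c * Real.exp (s ^ 2 / 2))))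
    (F : BoundedContinuousFunction ℝ ℝ) :
    Tendsto (fun T : ℝ => ∫ t, p T t * F (Y T t) ∂(ms T)) atTop (𝓝 (c * ∫ x, F x ∂(gaussianReal 0 1))) := by
  classical
  obtain ⟨m, hmd⟩ : ∃ m : ℝ → ℝ, ∀ T, m T = ∫ t, p T t ∂(ms T) := ⟨_, fun _ => rfl⟩
  have hm0 : Tendsto m atTop (𝓝 c) := by
    have h0 := hm 0
    simp only [zero_mul, Real.exp_zero, mul_one, ne_eq, OfNat.ofNat_ne_zero, not_false_eq_true, zero_pow, zero_div] at h0
    refine h0.congr fun T => (hmd T).symm
  have hmp : ∀ᶠ T in atTop, 0 < m T := hm0.eventually (lt_mem_nhds hc)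
  obtain ⟨q, hq⟩ : ∃ q : ℝ → ℝ → ℝ, ∀ T t, q T t = p T t / m T := ⟨_, fun _ _ => rfl⟩
  have hq1 : ∀ᶠ T : ℝ in atTop, Measurable (q T) ∧ (∀ t, 0 ≤ q T t) ∧ Integrable (q T) (ms T) ∧ ∫ t, q T t ∂(ms T) = 1 := by
    filter_upwards [hp, hmp, hint 0] with T h1 h2 h3
    have e : q T = fun t => p T t / m T := funext (hq T)
    simp only [zero_mul, Real.exp_zero, mul_one] at h3
    rw [e]
    refine ⟨h1.1.div_const _, fun t => div_nonneg (h1.2 t) h2.le, h3.div_const _, ?_⟩
    rw [integral_div, ← hmd, div_self h2.ne']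
  obtain ⟨γ, hγ⟩ : ∃ γ : ProbabilityMeasure ℝ, (γ : Measure ℝ) = gaussianReal 0 1 := ⟨⟨gaussianReal 0 1, inferInstance⟩, rfl⟩
  obtain ⟨μ, hμ⟩ : ∃ μ : ℝ → ProbabilityMeasure ℝ, ∀ᶠ T : ℝ in atTop, (μ T : Measure ℝ) = wg (q T) (Y T) (ms T) := by
    have hex : ∀ T : ℝ, ∃ μT : ProbabilityMeasure ℝ, IsProbabilityMeasure (wg (q T) (Y T) (ms T)) →
        (μT : Measure ℝ) = wg (q T) (Y T) (ms T) := by
      intro T
      by_cases h : IsProbabilityMeasure (wg (q T) (Y T) (ms T))
      · exact ⟨⟨wg (q T) (Y T) (ms T), h⟩, fun _ => rfl⟩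
      · exact ⟨γ, fun h1 => absurd h1 h⟩
    choose μ hμ using hex
    refine ⟨μ, ?_⟩
    filter_upwards [hq1, hY] with T h1 h2
    exact hμ T (wg_prob h1.2.1 h1.2.2.1 h2 h1.2.2.2)
  have hT : Tendsto μ atTop (𝓝 γ) := by
    refine curtiss (fun s => ?_) fun s => ?_
    · filter_upwards [hint s, hq1, hY, hμ] with T h1 h2 h3 h4
      rw [h4]
      refine wg_integrable h2.1 h2.2.1 h3 (by fun_prop) ?_
      have h6 := h1.div_const (m T)
      refine h6.congr (Eventually.of_forall fun t => ?_)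
      show p T t * Real.exp (s * Y T t) / m T = q T t * Real.exp (s * Y T t)
      rw [hq]; ring
    · rw [hγ, gauss_mgf]
      have h1 := (hm s).div hm0 hc.ne'
      rw [mul_div_cancel_left₀ _ hc.ne'] at h1
      refine h1.congr' ?_
      filter_upwards [hq1, hY, hμ] with T h2 h3 h4
      rw [h4, wg_integral h2.1 h2.2.1 h3 (by fun_prop : Continuous fun x => Real.exp (s * x))]
      show (∫ t, p T t * Real.exp (s * Y T t) ∂(ms T)) / m T = _
      rw [← integral_div]
      refine integral_congr_ae (Eventually.of_forall fun t => ?_)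
      show p T t * Real.exp (s * Y T t) / m T = q T t * Real.exp (s * Y T t)
      rw [hq]; ring
  have h1 := ProbabilityMeasure.tendsto_iff_forall_integral_tendsto.mp hT F
  rw [hγ] at h1
  have h2 := h1.mul hm0
  rw [mul_comm] at h2
  refine h2.congr' ?_
  filter_upwards [hq1, hY, hμ, hmp] with T h3 h4 h5 h7
  rw [h5, wg_integral h3.1 h3.2.1 h4 F.continuous, ← integral_mul_const]
  refine integral_congr_ae (Eventually.of_forall fun t => ?_)
  show q T t * F (Y T t) * m T = p T t * F (Y T t)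
  rw [hq]
  field_simp

end Pool.Agent.Y753.NL
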