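import Pool.Agent.Y753.NL.Cur

set_option autoImplicit false

/-! A limit theorem for weighted averages. -/

namespace Pool.Agent.Y753.NL

open MeasureTheory Filter Topology ProbabilityTheory

/-- the law of `Y` under the density `p` on `(0, T]` -/
noncomputable def wm (p Y : ℝ → ℝ) (T : ℝ) : Measure ℝ :=
  ((volume.restrict (Set.Ioc 0 T)).withDensity fun t => ENNReal.ofReal (p t)).map Y

lemma wm_integral {p Y : ℝ → ℝ} {T : ℝ} (hp : Continuous p) (h0 : ∀ t, 0 ≤ p t) (hY : Measurable Y) (hT : 0 ≤ T)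
    {g : ℝ → ℝ} (hg : Continuous g) : ∫ x, g x ∂(wm p Y T) = ∫ t in (0:ℝ)..T, p t * g (Y t) := by
  have hz : Measurable fun t => ENNReal.ofReal (p t) := ENNReal.measurable_ofReal.comp hp.measurable
  unfold wm
  rw [integral_map hY.aemeasurable hg.aestronglyMeasurable,
    integral_withDensity_eq_integral_toReal_smul hz
      (Eventually.of_forall fun _ => ENNReal.ofReal_lt_top), intervalIntegral.integral_of_le hT]
  refine integral_congr_ae (Eventually.of_forall fun t => ?_)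
  show (ENNReal.ofReal (p t)).toReal • g (Y t) = p t * g (Y t)
  rw [ENNReal.toReal_ofReal (h0 t), smul_eq_mul]

lemma wm_integrable {p Y : ℝ → ℝ} {T : ℝ} (hp : Continuous p) (h0 : ∀ t, 0 ≤ p t) (hY : Measurable Y) (hT : 0 ≤ T)
    {g : ℝ → ℝ} (hg : Continuous g) (hi : IntervalIntegrable (fun t => p t * g (Y t)) volume 0 T) :
    Integrable g (wm p Y T) := by
  have hz : Measurable fun t => ENNReal.ofReal (p t) := ENNReal.measurable_ofReal.comp hp.measurable
  unfold wm
  rw [integrable_map_measure hg.aestronglyMeasurable hY.aemeasurable,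
    integrable_withDensity_iff_integrable_smul' hz
      (Eventually.of_forall fun _ => ENNReal.ofReal_lt_top)]
  rw [intervalIntegrable_iff_integrableOn_Ioc_of_le hT] at hi
  refine hi.congr (Eventually.of_forall fun t => ?_)
  show p t * g (Y t) = (ENNReal.ofReal (p t)).toReal • (g ∘ Y) t
  rw [ENNReal.toReal_ofReal (h0 t), smul_eq_mul, Function.comp]

lemma wm_prob {p Y : ℝ → ℝ} {T : ℝ} (hp : Continuous p) (h0 : ∀ t, 0 ≤ p t) (hY : Measurable Y) (hT : 0 ≤ T)
    (h1 : ∫ t in (0:ℝ)..T, p t = 1) : IsProbabilityMeasure (wm p Y T) := by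
  constructor
  unfold wm
  rw [Measure.map_apply hY MeasurableSet.univ, Set.preimage_univ, withDensity_apply _ MeasurableSet.univ,
    Measure.restrict_univ, ← ofReal_integral_eq_lintegral_ofReal, ← intervalIntegral.integral_of_le hT, h1, ENNReal.ofReal_one]
  · have := hp.intervalIntegrable (μ := volume) 0 T
    rwa [intervalIntegrable_iff_integrableOn_Ioc_of_le hT] at this
  · exact Eventually.of_forall h0

/-- the standard Gaussian integral -/
lemma gauss_mgf (s : ℝ) : ∫ x, Real.exp (s * x) ∂(gaussianReal 0 1) = Real.exp (s ^ 2 / 2) := by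
  have h := congrFun (mgf_id_gaussianReal (μ := 0) (v := 1)) s
  unfold mgf at h
  simp only [id] at h
  rw [h]
  congr 1
  push_cast
  ring

/-- the limit theorem -/
theorem clt {p Y : ℝ → ℝ → ℝ} (hp : ∀ᶠ T : ℝ in atTop, Continuous (p T) ∧ ∀ t, 0 ≤ p T t)
    (hY : ∀ᶠ T : ℝ in atTop, Measurable (Y T))
    (hint : ∀ s : ℝ, ∀ᶠ T : ℝ in atTop, IntervalIntegrable (fun t => p T t * Real.exp (s * Y T t)) volume 0 T)
    {c : ℝ} (hc : 0 < c)
    (hm : ∀ s : ℝ, Tendsto (fun T : ℝ => ∫ t in (0:ℝ)..T, p T t * Real.exp (s * Y T t)) atTop (𝓝 (c * Real.exp (s ^ 2 / 2))))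
    (F : BoundedContinuousFunction ℝ ℝ) :
    Tendsto (fun T : ℝ => ∫ t in (0:ℝ)..T, p T t * F (Y T t)) atTop (𝓝 (c * ∫ x, F x ∂(gaussianReal 0 1))) := by
  classical
  obtain ⟨m, hmd⟩ : ∃ m : ℝ → ℝ, ∀ T, m T = ∫ t in (0:ℝ)..T, p T t := ⟨_, fun _ => rfl⟩
  have hm0 : Tendsto m atTop (𝓝 c) := by
    have h0 := hm 0
    simp only [zero_mul, Real.exp_zero, mul_one, ne_eq, OfNat.ofNat_ne_zero, not_false_eq_true, zero_pow, zero_div] at h0
    refine h0.congr fun T => (hmd T).symm
  have hmp : ∀ᶠ T in atTop, 0 < m T := hm0.eventually (lt_mem_nhds hc)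
  obtain ⟨q, hq⟩ : ∃ q : ℝ → ℝ → ℝ, ∀ T t, q T t = p T t / m T := ⟨_, fun _ _ => rfl⟩
  have hq1 : ∀ᶠ T : ℝ in atTop, Continuous (q T) ∧ (∀ t, 0 ≤ q T t) ∧ ∫ t in (0:ℝ)..T, q T t = 1 := by
    filter_upwards [hp, hmp] with T h1 h2
    have e : q T = fun t => p T t / m T := funext (hq T)
    rw [e]
    refine ⟨h1.1.div_const _, fun t => div_nonneg (h1.2 t) h2.le, ?_⟩
    rw [intervalIntegral.integral_div, ← hmd, div_self h2.ne']
  obtain ⟨γ, hγ⟩ : ∃ γ : ProbabilityMeasure ℝ, (γ : Measure ℝ) = gaussianReal 0 1 := ⟨⟨gaussianReal 0 1, inferInstance⟩, rfl⟩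
  obtain ⟨μ, hμ⟩ : ∃ μ : ℝ → ProbabilityMeasure ℝ, ∀ᶠ T : ℝ in atTop, (μ T : Measure ℝ) = wm (q T) (Y T) T := by
    have hex : ∀ T : ℝ, ∃ μT : ProbabilityMeasure ℝ, IsProbabilityMeasure (wm (q T) (Y T) T) →
        (μT : Measure ℝ) = wm (q T) (Y T) T := by
      intro T
      by_cases h : IsProbabilityMeasure (wm (q T) (Y T) T)
      · exact ⟨⟨wm (q T) (Y T) T, h⟩, fun _ => rfl⟩
      · exact ⟨γ, fun h1 => absurd h1 h⟩
    choose μ hμ using hex
    refine ⟨μ, ?_⟩
    filter_upwards [hq1, hY, eventually_ge_atTop 0] with T h1 h2 h3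
    exact hμ T (wm_prob h1.1 h1.2.1 h2 h3 h1.2.2)
  have hT : Tendsto μ atTop (𝓝 γ) := by
    refine curtiss (fun s => ?_) fun s => ?_
    · filter_upwards [hint s, hq1, hY, hμ, eventually_ge_atTop 0] with T h1 h2 h3 h4 h5
      rw [h4]
      refine wm_integrable h2.1 h2.2.1 h3 h5 (by fun_prop) ?_
      have h6 := h1.div_const (m T)
      refine h6.congr fun t _ => ?_
      show p T t * Real.exp (s * Y T t) / m T = q T t * Real.exp (s * Y T t)
      rw [hq]; ring
    · rw [hγ, gauss_mgf]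
      have h1 := (hm s).div hm0 hc.ne'
      rw [mul_div_cancel_left₀ _ hc.ne'] at h1
      refine h1.congr' ?_
      filter_upwards [hq1, hY, hμ, eventually_ge_atTop 0] with T h2 h3 h4 h5
      rw [h4, wm_integral h2.1 h2.2.1 h3 h5 (by fun_prop : Continuous fun x => Real.exp (s * x))]
      show (∫ t in (0:ℝ)..T, p T t * Real.exp (s * Y T t)) / m T = _
      rw [← intervalIntegral.integral_div]
      refine intervalIntegral.integral_congr fun t _ => ?_
      show p T t * Real.exp (s * Y T t) / m T = q T t * Real.exp (s * Y T t)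
      rw [hq]; ring
  have hF := (ProbabilityMeasure.tendsto_iff_forall_integral_tendsto.mp hT F).mul hm0
  rw [hγ, mul_comm] at hF
  refine hF.congr' ?_
  filter_upwards [hq1, hY, hμ, hmp, eventually_ge_atTop 0] with T h2 h3 h4 h5 h6
  rw [h4, wm_integral h2.1 h2.2.1 h3 h6 F.continuous, ← intervalIntegral.integral_mul_const]
  refine intervalIntegral.integral_congr fun t _ => ?_
  show q T t * F (Y T t) * m T = p T t * F (Y T t)
  rw [hq]; field_simp

end Pool.Agent.Y753.NL
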