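import Pool.Agent.Y753.NL.All5
import Pool.Agent.Y753.NL.Clt2
import Pool.Agent.Y753.NL.Tilt

set_option autoImplicit false

/-! The limit theorem for the moment measures of all orders, off one small set. -/

namespace Pool.Agent.Y753.NL

open Finset Filter MeasureTheory MonoidAlgebra Topology ProbabilityTheory
open Pool.Agent.Y755
open Pool.Agent.W184.NZ
open Pool.Agent.W184 (zn zn_nonneg zn_cont zn_le')
open Pool.Agent.H306R2 (aF)

lemma wsplit2 {f : ℝ → ℝ} {h k : ℕ} {u : ℂ} {m : Measure ℝ} (hf : Integrable f m) :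
    ∫ t, f t * (2 + (u * tw h k t).re) ∂m =
      2 * (∫ t, f t ∂m) + (u * ∫ t, ((f t : ℝ) : ℂ) * tw h k t ∂m).re := by
  have h1 : Integrable (fun t => ((f t : ℝ) : ℂ) * tw h k t) m := by
    have h0 : Integrable (fun t => ((f t : ℝ) : ℂ)) m := hf.ofReal
    refine h0.mul_bdd (c := 1) (tw_cont h k).aestronglyMeasurable (Eventually.of_forall fun t => ?_)
    rw [tw_norm]
  have h2 := h1.const_mul u
  have h3 : (∫ t, u * (((f t : ℝ) : ℂ) * tw h k t) ∂m).re = ∫ t, (u * (((f t : ℝ) : ℂ) * tw h k t)).re ∂m :=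
    (integral_re h2).symm
  rw [integral_const_mul] at h3
  have h4 : Integrable (fun t => (u * (((f t : ℝ) : ℂ) * tw h k t)).re) m := h2.re
  rw [← integral_const_mul, h3, ← integral_add (hf.const_mul 2) h4]
  refine integral_congr_ae (Eventually.of_forall fun t => ?_)
  show f t * (2 + (u * tw h k t).re) = 2 * f t + (u * (((f t : ℝ) : ℂ) * tw h k t)).re
  have e1 : u * (((f t : ℝ) : ℂ) * tw h k t) = ((f t : ℝ) : ℂ) * (u * tw h k t) := by ring
  rw [e1, Complex.re_ofReal_mul]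
  ring

/-- integrability on a bounded set -/
lemma int_U {f : ℝ → ℝ} (hf : Continuous f) {U : Set ℝ} {T : ℝ} (hU : U ⊆ Set.Icc 0 T) : Integrable f (volume.restrict U) :=
  (hf.integrableOn_Icc (a := 0) (b := T)).mono_set hU

lemma FY_U {δ α0 l σ T : ℝ} {U : Set ℝ} (hU : U ⊆ Set.Icc 0 T) (hδ : 1 / 2 + δ < 1) (h0 : 0 ≤ α0) (F : BoundedContinuousFunction ℝ ℝ) :
    Integrable (fun t => zn (1 / 2 + δ) t ^ (2 * α0) * F ((Real.log (zn (1 / 2 + δ) t) - α0 * l) / σ)) (volume.restrict U) := by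
  have hc : Continuous fun t => zn (1 / 2 + δ) t ^ (2 * α0) := znp_cont hδ (by positivity)
  have hz : Continuous fun t => zn (1 / 2 + δ) t := by
    have := znp_cont (σ := 1 / 2 + δ) (p := 1) hδ zero_le_one
    simpa using this
  have hm : Measurable fun t => F ((Real.log (zn (1 / 2 + δ) t) - α0 * l) / σ) :=
    F.continuous.measurable.comp (((Real.measurable_log.comp hz.measurable).sub_const _).div_const _)
  exact (int_U hc hU).mul_bdd (c := ‖F‖) hm.aestronglyMeasurable (Eventually.of_forall fun t => F.norm_coe_le_norm _)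

/-- the limit theorem -/
theorem tilt_U {δ : ℝ → ℝ} (hδ0 : Tendsto δ atTop (𝓝 0)) (hδL : Tendsto (fun T => δ T * Real.log T) atTop atTop)
    {U : ℝ → Set ℝ} {N : ℝ → ℕ} (hN : Tendsto N atTop atTop) (hU : ∀ᶠ T in atTop, Stg (N T) T (δ T) (U T))
    {α0 : ℝ} (h0 : 0 < α0) {h k : ℕ} (hh : h ≠ 0) (hk : k ≠ 0) (hc : h.Coprime k)
    (F : BoundedContinuousFunction ℝ ℝ) :
    Tendsto (fun T => (∫ t in U T, ((zn (1 / 2 + δ T) t ^ (2 * α0) *
        F ((Real.log (zn (1 / 2 + δ T) t) - α0 * ell (δ T)) / sg (δ T)) : ℝ) : ℂ) * tw h k t) /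
      ((∫ t in U T, zn (1 / 2 + δ T) t ^ (2 * α0) : ℝ) : ℂ)) atTop
      (𝓝 ((Nu α0 h k * ∫ x, F x ∂(gaussianReal 0 1) : ℝ) : ℂ)) := by
  have hpos : ∀ᶠ T in atTop, 0 < δ T := by
    filter_upwards [hδL.eventually_gt_atTop 0, eventually_gt_atTop 1] with T hT hT1
    exact (pos_iff_pos_of_mul_pos hT).mpr (Real.log_pos hT1)
  have hlt : ∀ᶠ T in atTop, 1 / 2 + δ T < 1 := by
    filter_upwards [hδ0.eventually (gt_mem_nhds (show (0:ℝ) < 1 / 2 by norm_num))] with T hT
    linarith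
  have hUs : ∀ᶠ T in atTop, U T ⊆ Set.Icc 0 T := hU.mono fun T hT => hT.1.2.1
  have hsg := sg_tendsto hpos hδ0
  have hα : ∀ s : ℝ, ∀ᶠ T in atTop, 0 < α0 + s / (2 * sg (δ T)) := by
    intro s
    have h1 : Tendsto (fun T => α0 + s / (2 * sg (δ T))) atTop (𝓝 (α0 + 0)) :=
      tendsto_const_nhds.add (tendsto_const_nhds.div_atTop (hsg.const_mul_atTop (by norm_num)))
    rw [add_zero] at h1
    exact h1.eventually (lt_mem_nhds h0)
  obtain ⟨I0, hI0⟩ : ∃ I0 : ℝ → ℝ, ∀ T, I0 T = ∫ t in U T, zn (1 / 2 + δ T) t ^ (2 * α0) := ⟨_, fun _ => rfl⟩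
  simp_rw [← hI0]
  obtain ⟨ν, hν⟩ : ∃ ν, ν = Nu α0 h k := ⟨_, rfl⟩
  rw [← hν]
  -- the two ratios
  have hR2 := fun s => ratio_U hδ0 hδL hN hU h0 hh hk hc s
  have hR1 := fun s => ratio_U hδ0 hδL hN hU h0 one_ne_zero one_ne_zero (Nat.coprime_one_left 1) s
  simp_rw [← hI0, ← hν] at hR2
  simp_rw [← hI0, tw_one, Nu_one, mul_one] at hR1
  have hI0n : ∀ T, 0 ≤ I0 T := by
    intro T
    rw [hI0]
    exact integral_nonneg fun _ => Real.rpow_nonneg (zn_nonneg _ _) _
  -- the bound for the limit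
  have hν1 : |ν| ≤ 1 := by
    have h1 := (hR2 0).norm
    have e1 : ‖((Real.exp (0 ^ 2 / 2) * ν : ℝ) : ℂ)‖ = |ν| := by
      rw [Complex.norm_real, Real.norm_eq_abs]; simp
    rw [e1] at h1
    refine le_of_tendsto h1 (Eventually.of_forall fun T => ?_)
    have g1 := hI0n T
    have e2 : Real.exp (-(0 * α0 * ell (δ T) / sg (δ T))) = 1 := by simp
    rw [e2, Complex.ofReal_one, mul_one, norm_div, Complex.norm_real, Real.norm_of_nonneg g1]
    refine div_le_one_of_le₀ ?_ g1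
    refine (norm_integral_le_integral_norm _).trans (le_of_eq ?_)
    rw [hI0]
    refine integral_congr_ae (Eventually.of_forall fun t => ?_)
    show ‖((zn (1 / 2 + δ T) t ^ (2 * (α0 + 0 / (2 * sg (δ T)))) : ℝ) : ℂ) * tw h k t‖ = zn (1 / 2 + δ T) t ^ (2 * α0)
    rw [norm_mul, tw_norm, mul_one, Complex.norm_real, Real.norm_of_nonneg (Real.rpow_nonneg (zn_nonneg _ _) _),
      zero_div, add_zero]
  -- the weighted limits
  have key : ∀ u : ℂ, ‖u‖ ≤ 1 → Tendsto (fun T : ℝ => ∫ t in U T,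
      (zn (1 / 2 + δ T) t ^ (2 * α0) * (2 + (u * tw h k t).re) / I0 T) *
        F ((Real.log (zn (1 / 2 + δ T) t) - α0 * ell (δ T)) / sg (δ T))) atTop
      (𝓝 ((2 + u.re * ν) * ∫ x, F x ∂(gaussianReal 0 1))) := by
    intro u hu
    have hid : ∀ s : ℝ, ∀ᶠ T in atTop, ∀ t : ℝ, (zn (1 / 2 + δ T) t ^ (2 * α0) * (2 + (u * tw h k t).re) / I0 T) *
        Real.exp (s * ((Real.log (zn (1 / 2 + δ T) t) - α0 * ell (δ T)) / sg (δ T))) =
        (zn (1 / 2 + δ T) t ^ (2 * (α0 + s / (2 * sg (δ T)))) * (2 + (u * tw h k t).re)) *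
          (Real.exp (-(s * α0 * ell (δ T) / sg (δ T))) / I0 T) := by
      intro s
      filter_upwards [hα s] with T g1 t
      have g2 := tilt_id (l := ell (δ T)) (zn_nonneg (1 / 2 + δ T) t) h0 g1
      calc _ = (zn (1 / 2 + δ T) t ^ (2 * α0) *
            Real.exp (s * ((Real.log (zn (1 / 2 + δ T) t) - α0 * ell (δ T)) / sg (δ T)))) *
            (2 + (u * tw h k t).re) / I0 T := by ring
        _ = _ := by rw [g2]; ring
    have hwc : Continuous fun t => 2 + (u * tw h k t).re :=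
      continuous_const.add (Complex.continuous_re.comp (continuous_const.mul (tw_cont h k)))
    refine clt2 (p := fun T t => zn (1 / 2 + δ T) t ^ (2 * α0) * (2 + (u * tw h k t).re) / I0 T)
      (Y := fun T t => (Real.log (zn (1 / 2 + δ T) t) - α0 * ell (δ T)) / sg (δ T))
      (ms := fun T => volume.restrict (U T)) ?_ ?_ ?_ ?_ ?_ F
    · filter_upwards [hlt] with T g2
      refine ⟨(((znp_cont g2 (by positivity)).mul hwc).div_const _).measurable, fun t => div_nonneg (mul_nonneg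
        (Real.rpow_nonneg (zn_nonneg _ _) _) (w_pos hu t)) (hI0n T)⟩
    · filter_upwards [hlt] with T g2
      have hz : Continuous fun t => zn (1 / 2 + δ T) t := by
        have := znp_cont (σ := 1 / 2 + δ T) (p := 1) g2 zero_le_one
        simpa using this
      exact ((Real.measurable_log.comp hz.measurable).sub_const _).div_const _
    · intro s
      filter_upwards [hid s, hα s, hlt, hUs] with T g1 g2 g3 g4
      have e1 : (fun t => zn (1 / 2 + δ T) t ^ (2 * α0) * (2 + (u * tw h k t).re) / I0 T *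
          Real.exp (s * ((Real.log (zn (1 / 2 + δ T) t) - α0 * ell (δ T)) / sg (δ T)))) =
          fun t => (zn (1 / 2 + δ T) t ^ (2 * (α0 + s / (2 * sg (δ T)))) * (2 + (u * tw h k t).re)) *
          (Real.exp (-(s * α0 * ell (δ T) / sg (δ T))) / I0 T) := funext g1
      rw [e1]
      exact int_U (((znp_cont g3 (by positivity)).mul hwc).mul continuous_const) g4
    · have h1 : |u.re| ≤ 1 := (Complex.abs_re_le_norm u).trans hu
      have h3 : |u.re * ν| ≤ 1 := by
        rw [abs_mul]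
        calc |u.re| * |ν| ≤ 1 * 1 := mul_le_mul h1 hν1 (abs_nonneg _) zero_le_one
          _ = 1 := one_mul 1
      have := (abs_le.mp h3).1
      linarith
    · intro s
      have a1 := (Complex.continuous_re.tendsto _).comp (hR1 s)
      have a2 := (Complex.continuous_re.tendsto _).comp ((hR2 s).const_mul u)
      have a3 := (a1.const_mul 2).add a2
      have e2 : 2 * (((Real.exp (s ^ 2 / 2) : ℝ) : ℂ)).re + (u * ((Real.exp (s ^ 2 / 2) * ν : ℝ) : ℂ)).re =
          (2 + u.re * ν) * Real.exp (s ^ 2 / 2) := by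
        rw [Complex.ofReal_re, Complex.re_mul_ofReal]; ring
      rw [e2] at a3
      refine a3.congr' ?_
      filter_upwards [hid s, hα s, hlt, hUs] with T g1 g2 g3 g4
      have hf : Integrable (fun t => zn (1 / 2 + δ T) t ^ (2 * (α0 + s / (2 * sg (δ T))))) (volume.restrict (U T)) :=
        int_U (znp_cont g3 (by positivity)) g4
      simp_rw [g1]
      rw [integral_mul_const, wsplit2 hf]
      simp only [Function.comp]
      set A := ∫ t in U T, zn (1 / 2 + δ T) t ^ (2 * (α0 + s / (2 * sg (δ T)))) with hA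
      set D := ∫ t in U T, ((zn (1 / 2 + δ T) t ^ (2 * (α0 + s / (2 * sg (δ T)))) : ℝ) : ℂ) * tw h k t with hD
      set E := Real.exp (-(s * α0 * ell (δ T) / sg (δ T))) with hE
      have e3 : ∫ t in U T, ((zn (1 / 2 + δ T) t ^ (2 * (α0 + s / (2 * sg (δ T)))) : ℝ) : ℂ) = (A : ℂ) :=
        integral_ofReal
      rw [e3]
      have e4 : ((A:ℂ) * (E:ℂ) / (I0 T : ℂ)).re = A * E / I0 T := by
        rw [← Complex.ofReal_mul, ← Complex.ofReal_div, Complex.ofReal_re]
      have e5 : (u * (D * (E:ℂ) / (I0 T : ℂ))).re = (u * D).re * (E / I0 T) := by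
        have : u * (D * (E:ℂ) / (I0 T : ℂ)) = u * D * ((E / I0 T : ℝ) : ℂ) := by push_cast; ring
        rw [this, Complex.re_mul_ofReal]
      rw [e4, e5]
      ring
  -- conclusion
  obtain ⟨m, hm⟩ : ∃ m : ℝ, m = ∫ x, F x ∂(gaussianReal 0 1) := ⟨_, rfl⟩
  simp_rw [← hm] at key ⊢
  obtain ⟨G, hG⟩ : ∃ G : ℝ → ℝ, ∀ T, G T = (∫ t in U T, zn (1 / 2 + δ T) t ^ (2 * α0) *
      F ((Real.log (zn (1 / 2 + δ T) t) - α0 * ell (δ T)) / sg (δ T))) / I0 T := ⟨_, fun _ => rfl⟩
  obtain ⟨H, hH⟩ : ∃ H : ℝ → ℂ, ∀ T, H T = (∫ t in U T, ((zn (1 / 2 + δ T) t ^ (2 * α0) *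
      F ((Real.log (zn (1 / 2 + δ T) t) - α0 * ell (δ T)) / sg (δ T)) : ℝ) : ℂ) * tw h k t) / (I0 T : ℂ) := ⟨_, fun _ => rfl⟩
  simp_rw [← hH]
  have key2 : ∀ u : ℂ, ‖u‖ ≤ 1 → Tendsto (fun T : ℝ => 2 * G T + (u * H T).re) atTop (𝓝 ((2 + u.re * ν) * m)) := by
    intro u hu
    refine (key u hu).congr' ?_
    filter_upwards [hlt, hUs] with T g1 g4
    have hf := FY_U (l := ell (δ T)) (σ := sg (δ T)) g4 g1 h0.le F
    have g2 := wsplit2 (h := h) (k := k) (u := u) hf
    rw [hG, hH]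
    have e1 : u * ((∫ t in U T, ((zn (1 / 2 + δ T) t ^ (2 * α0) *
      F ((Real.log (zn (1 / 2 + δ T) t) - α0 * ell (δ T)) / sg (δ T)) : ℝ) : ℂ) * tw h k t) / (I0 T : ℂ)) =
      (u * (∫ t in U T, ((zn (1 / 2 + δ T) t ^ (2 * α0) *
      F ((Real.log (zn (1 / 2 + δ T) t) - α0 * ell (δ T)) / sg (δ T)) : ℝ) : ℂ) * tw h k t)) * (((I0 T)⁻¹ : ℝ) : ℂ) := by
      rw [Complex.ofReal_inv]; ring
    rw [e1, Complex.re_mul_ofReal, ← div_eq_mul_inv, mul_div_assoc', ← add_div, ← g2, ← integral_div]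
    refine integral_congr_ae (Eventually.of_forall fun t => ?_)
    show zn (1 / 2 + δ T) t ^ (2 * α0) * (2 + (u * tw h k t).re) / I0 T * F _ =
      zn (1 / 2 + δ T) t ^ (2 * α0) * F _ * (2 + (u * tw h k t).re) / I0 T
    ring
  have k0 := key2 0 (by simp)
  have k1 := key2 1 (by simp)
  have k2 := key2 (-Complex.I) (by simp)
  simp only [zero_mul, Complex.zero_re, add_zero] at k0
  simp only [one_mul, Complex.one_re] at k1
  have r1 : Tendsto (fun T => (H T).re) atTop (𝓝 (ν * m)) := by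
    have := k1.sub k0
    have e : (2 + ν) * m - 2 * m = ν * m := by ring
    rw [e] at this
    refine this.congr fun T => ?_
    ring
  have r2 : Tendsto (fun T => (H T).im) atTop (𝓝 0) := by
    have := k2.sub k0
    have e : (2 + (-Complex.I).re * ν) * m - 2 * m = 0 := by simp
    rw [e] at this
    refine this.congr fun T => ?_
    simp
  have r3 := ((Complex.continuous_ofReal.tendsto _).comp r1).add
    (((Complex.continuous_ofReal.tendsto _).comp r2).mul_const Complex.I)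
  simp only [Complex.ofReal_zero, zero_mul, add_zero] at r3
  refine r3.congr fun T => ?_
  simp only [Function.comp]
  exact Complex.re_add_im (H T)

/-- the limit theorem, with the mass -/
theorem tilt_mass {δ : ℝ → ℝ} (hδ0 : Tendsto δ atTop (𝓝 0)) (hδL : Tendsto (fun T => δ T * Real.log T) atTop atTop)
    {U : ℝ → Set ℝ} {N : ℝ → ℕ} (hN : Tendsto N atTop atTop) (hU : ∀ᶠ T in atTop, Stg (N T) T (δ T) (U T))
    {α0 : ℝ} (h0 : 0 < α0) {h k : ℕ} (hh : h ≠ 0) (hk : k ≠ 0) (hc : h.Coprime k)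
    (F : BoundedContinuousFunction ℝ ℝ) :
    Tendsto (fun T => (((2 * δ T) ^ (α0 ^ 2) / T : ℝ) : ℂ) * ∫ t in U T, ((zn (1 / 2 + δ T) t ^ (2 * α0) *
        F ((Real.log (zn (1 / 2 + δ T) t) - α0 * ell (δ T)) / sg (δ T)) : ℝ) : ℂ) * tw h k t) atTop
      (𝓝 ((aF α0 * (Nu α0 h k * ∫ x, F x ∂(gaussianReal 0 1)) : ℝ) : ℂ)) := by
  have h1 := tilt_U hδ0 hδL hN hU h0 hh hk hc F
  have h2 := (Complex.continuous_ofReal.tendsto _).comp (mass_U hδ0 hδL hN hU h0)
  have h3 := h2.mul h1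
  rw [← Complex.ofReal_mul] at h3
  refine h3.congr' ?_
  have hne := (mass_U hδ0 hδL hN hU h0).eventually (lt_mem_nhds (Pool.Agent.H306R2.aF_pos h0))
  filter_upwards [hne] with T hT
  have hI : (∫ t in U T, zn (1 / 2 + δ T) t ^ (2 * α0)) ≠ 0 := by
    intro h4
    rw [h4] at hT
    simp at hT
  have hI' : ((∫ t in U T, zn (1 / 2 + δ T) t ^ (2 * α0) : ℝ) : ℂ) ≠ 0 := by exact_mod_cast hI
  simp only [Function.comp]
  set A := ∫ t in U T, zn (1 / 2 + δ T) t ^ (2 * α0)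
  push_cast
  field_simp

end Pool.Agent.Y753.NL
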