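import Mathlib

set_option autoImplicit false

/-! Convergence of moment generating functions implies weak convergence. -/

namespace Pool.Agent.Y753.NL

open MeasureTheory Filter Topology ProbabilityTheory BoundedContinuousFunction

/-- the truncated exponential -/
noncomputable def te (s R : ℝ) (hR : 0 ≤ R) : BoundedContinuousFunction ℝ ℝ :=
  BoundedContinuousFunction.ofNormedAddCommGroup (fun x => min (Real.exp (s * x)) R)
    (by fun_prop) R (fun x => by
      rw [Real.norm_eq_abs, abs_of_nonneg (le_min (Real.exp_pos _).le hR)]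
      exact min_le_right _ _)

lemma te_apply (s R : ℝ) (hR : 0 ≤ R) (x : ℝ) : te s R hR x = min (Real.exp (s * x)) R := rfl

lemma te_near {μ : Measure ℝ} [IsProbabilityMeasure μ] {s R : ℝ} (hR : 0 < R)
    (h1 : Integrable (fun x => Real.exp (s * x)) μ) (h2 : Integrable (fun x => Real.exp (2 * s * x)) μ) :
    |∫ x, te s R hR.le x ∂μ - ∫ x, Real.exp (s * x) ∂μ| ≤ (∫ x, Real.exp (2 * s * x) ∂μ) / R := by
  have h3 : Integrable (te s R hR.le) μ := (te s R hR.le).integrable μ
  rw [← integral_sub h3 h1, div_eq_mul_inv, ← integral_mul_const]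
  refine (abs_integral_le_integral_abs).trans (integral_mono (h3.sub h1).abs (h2.mul_const _) fun x => ?_)
  show |te s R hR.le x - Real.exp (s * x)| ≤ Real.exp (2 * s * x) * R⁻¹
  rw [te_apply]
  have e1 : Real.exp (2 * s * x) = Real.exp (s * x) * Real.exp (s * x) := by rw [← Real.exp_add]; ring_nf
  set E := Real.exp (s * x)
  have hE : 0 < E := Real.exp_pos _
  rw [e1, ← div_eq_mul_inv]
  rcases le_total E R with h | h
  · rw [min_eq_left h, sub_self, abs_zero]; positivity
  · rw [min_eq_right h, abs_of_nonpos (by linarith), le_div_iff₀ hR]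
    nlinarith

lemma tight_exp (C : ℝ) : IsTightMeasureSet {((μ : ProbabilityMeasure ℝ) : Measure ℝ) | μ ∈
    {μ : ProbabilityMeasure ℝ | Integrable (fun x => Real.exp (1 * x)) (μ : Measure ℝ) ∧
      Integrable (fun x => Real.exp ((-1) * x)) (μ : Measure ℝ) ∧
      ∫ x, Real.exp (1 * x) ∂(μ : Measure ℝ) ≤ C ∧ ∫ x, Real.exp ((-1) * x) ∂(μ : Measure ℝ) ≤ C}} := by
  rw [isTightMeasureSet_iff_exists_isCompact_measure_compl_le]
  intro ε hε
  obtain ⟨r, hr⟩ : ∃ r : ℝ, ENNReal.ofReal (2 * C * Real.exp (-r)) ≤ ε := by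
    have h1 : Tendsto (fun r : ℝ => ENNReal.ofReal (2 * C * Real.exp (-r))) atTop (𝓝 (ENNReal.ofReal (2 * C * 0))) :=
      ENNReal.tendsto_ofReal (Real.tendsto_exp_neg_atTop_nhds_zero.const_mul _)
    rw [mul_zero, ENNReal.ofReal_zero] at h1
    exact ((h1.eventually (gt_mem_nhds hε)).exists).imp fun r hr => hr.le
  refine ⟨Metric.closedBall 0 r, isCompact_closedBall 0 r, ?_⟩
  rintro _ ⟨μ, ⟨h1, h2, h3, h4⟩, rfl⟩
  refine le_trans ?_ hr
  have h5 : (μ : Measure ℝ).real (Metric.closedBall 0 r)ᶜ ≤ 2 * C * Real.exp (-r) := by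
    have hm : MeasurableSet (Metric.closedBall (0:ℝ) r)ᶜ := Metric.isClosed_closedBall.measurableSet.compl
    rw [← integral_indicator_one hm]
    have h6 : ∫ x, (Metric.closedBall (0:ℝ) r)ᶜ.indicator 1 x ∂(μ : Measure ℝ) ≤
        ∫ x, (Real.exp (1 * x) + Real.exp ((-1) * x)) * Real.exp (-r) ∂(μ : Measure ℝ) := by
      refine integral_mono ?_ ((h1.add h2).mul_const _) fun x => ?_
      · exact (integrable_const (1:ℝ)).indicator hm
      · by_cases hx : x ∈ (Metric.closedBall (0:ℝ) r)ᶜ
        · rw [Set.indicator_of_mem hx]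
          rw [Set.mem_compl_iff, Metric.mem_closedBall, Real.dist_eq, sub_zero, not_le] at hx
          show (1:ℝ) ≤ (Real.exp (1 * x) + Real.exp ((-1) * x)) * Real.exp (-r)
          rcases le_or_gt 0 x with h0 | h0
          · rw [abs_of_nonneg h0] at hx
            have : 1 ≤ Real.exp (1 * x) * Real.exp (-r) := by
              rw [← Real.exp_add]; exact Real.one_le_exp (by linarith)
            nlinarith [Real.exp_pos ((-1) * x), Real.exp_pos (-r), mul_pos (Real.exp_pos ((-1) * x)) (Real.exp_pos (-r))]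
          · rw [abs_of_neg h0] at hx
            have : 1 ≤ Real.exp ((-1) * x) * Real.exp (-r) := by
              rw [← Real.exp_add]; exact Real.one_le_exp (by linarith)
            nlinarith [mul_pos (Real.exp_pos (1 * x)) (Real.exp_pos (-r))]
        · rw [Set.indicator_of_notMem hx]
          positivity
    refine h6.trans ?_
    rw [integral_mul_const, integral_add h1 h2]
    exact mul_le_mul_of_nonneg_right (by linarith) (Real.exp_pos _).le
  rw [measureReal_def] at h5
  exact ENNReal.le_ofReal_iff_toReal_le (measure_ne_top _ _) (le_trans ENNReal.toReal_nonneg h5) |>.mpr h5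

/-- monotone convergence for the truncated exponentials -/
lemma te_lim {μ : Measure ℝ} [IsProbabilityMeasure μ] {s C : ℝ}
    (h : ∀ R : ℝ, ∀ hR : 0 < R, ∫ x, te s R hR.le x ∂μ ≤ C) : Integrable (fun x => Real.exp (s * x)) μ := by
  refine ⟨(by fun_prop : Continuous fun x : ℝ => Real.exp (s * x)).aestronglyMeasurable, ?_⟩
  rw [hasFiniteIntegral_iff_norm]
  have h1 : ∀ x : ℝ, ENNReal.ofReal ‖Real.exp (s * x)‖ = ⨆ n : ℕ, ENNReal.ofReal (te s (n + 1) (by positivity) x) := by
    intro x
    rw [Real.norm_of_nonneg (Real.exp_pos _).le]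
    apply le_antisymm
    · obtain ⟨n, hn⟩ := exists_nat_gt (Real.exp (s * x))
      refine le_iSup_of_le n (ENNReal.ofReal_le_ofReal ?_)
      rw [te_apply, min_eq_left (by linarith)]
    · refine iSup_le fun n => ENNReal.ofReal_le_ofReal ?_
      rw [te_apply]; exact min_le_left _ _
  simp_rw [h1]
  rw [lintegral_iSup]
  · refine lt_of_le_of_lt (iSup_le fun n => ?_) (ENNReal.ofReal_lt_top (r := C))
    rw [← ofReal_integral_eq_lintegral_ofReal ((te s (n + 1) (by positivity)).integrable μ)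
      (Eventually.of_forall fun x => by
        show 0 ≤ te s (n + 1) (by positivity) x
        rw [te_apply]; exact le_min (Real.exp_pos _).le (by positivity))]
    exact ENNReal.ofReal_le_ofReal (h _ (by positivity))
  · intro n
    exact ENNReal.measurable_ofReal.comp (te s (n + 1) (by positivity)).continuous.measurable
  · intro a b hab x
    refine ENNReal.ofReal_le_ofReal ?_
    rw [te_apply, te_apply]
    refine min_le_min le_rfl ?_
    have : (a:ℝ) ≤ b := by exact_mod_cast hab
    linarith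

/-- the theorem of Curtiss -/
theorem curtiss {ι : Type*} {l : Filter ι} {μ : ι → ProbabilityMeasure ℝ} {ν : ProbabilityMeasure ℝ}
    (hi : ∀ s : ℝ, ∀ᶠ i in l, Integrable (fun x => Real.exp (s * x)) (μ i : Measure ℝ))
    (h : ∀ s : ℝ, Tendsto (fun i => ∫ x, Real.exp (s * x) ∂(μ i : Measure ℝ)) l (𝓝 (∫ x, Real.exp (s * x) ∂(ν : Measure ℝ)))) :
    Tendsto μ l (𝓝 ν) := by
  rw [tendsto_iff_ultrafilter]
  intro g hg
  obtain ⟨m, hm⟩ : ∃ m : ℝ → ℝ, ∀ s, m s = ∫ x, Real.exp (s * x) ∂(ν : Measure ℝ) := ⟨_, fun _ => rfl⟩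
  simp_rw [← hm] at h
  have hb : ∀ s : ℝ, ∀ᶠ i in (g : Filter ι), ∫ x, Real.exp (s * x) ∂(μ i : Measure ℝ) ≤ m s + 1 := fun s =>
    hg ((h s).eventually (ge_mem_nhds (by linarith)))
  set C := max (m 1 + 1) (m (-1) + 1) with hC
  set S : Set (ProbabilityMeasure ℝ) := {μ : ProbabilityMeasure ℝ | Integrable (fun x => Real.exp (1 * x)) (μ : Measure ℝ) ∧
      Integrable (fun x => Real.exp ((-1) * x)) (μ : Measure ℝ) ∧
      ∫ x, Real.exp (1 * x) ∂(μ : Measure ℝ) ≤ C ∧ ∫ x, Real.exp ((-1) * x) ∂(μ : Measure ℝ) ≤ C} with hS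
  have hcomp : IsCompact (closure S) := isCompact_closure_of_isTightMeasureSet (tight_exp C)
  have hmem : ∀ᶠ i in (g : Filter ι), μ i ∈ S := by
    filter_upwards [hg (hi 1), hg (hi (-1)), hb 1, hb (-1)] with i a1 a2 a3 a4
    exact ⟨a1, a2, a3.trans (le_max_left _ _), a4.trans (le_max_right _ _)⟩
  obtain ⟨ρ, -, hρ⟩ := isCompact_iff_ultrafilter_le_nhds.mp hcomp (g.map μ) (by
    rw [Ultrafilter.coe_map, le_principal_iff, mem_map]
    filter_upwards [hmem] with i hi
    exact subset_closure hi)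
  have hT : Tendsto μ g (𝓝 ρ) := hρ
  have hF := ProbabilityMeasure.tendsto_iff_forall_integral_tendsto.mp hT
  have key : ∀ s R : ℝ, ∀ hR : 0 < R, |∫ x, te s R hR.le x ∂(ρ : Measure ℝ) - m s| ≤ (m (2 * s) + 1) / R := by
    intro s R hR
    have h1 := (hF (te s R hR.le)).sub ((h s).mono_left hg)
    refine le_of_tendsto h1.abs ?_
    filter_upwards [hg (hi s), hg (hi (2 * s)), hb (2 * s)] with i a1 a2 a3
    refine (te_near hR a1 a2).trans ?_
    exact div_le_div_of_nonneg_right a3 hR.le
  have hm0 : ∀ s, 0 ≤ m s := fun s => by rw [hm]; exact integral_nonneg fun x => (Real.exp_pos _).le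
  have hint : ∀ s : ℝ, Integrable (fun x => Real.exp (s * x)) (ρ : Measure ℝ) := by
    intro s
    refine te_lim (C := m s + (m (2 * s) + 1)) fun R hR => ?_
    rcases le_or_gt 1 R with h1 | h1
    · have h2 := (abs_le.mp (key s R hR)).2
      have h3 : (m (2 * s) + 1) / R ≤ m (2 * s) + 1 := div_le_self (by have := hm0 (2 * s); linarith) h1
      linarith
    · have h2 := (abs_le.mp (key s 1 one_pos)).2
      have h4 : ∫ x, te s R hR.le x ∂(ρ : Measure ℝ) ≤ ∫ x, te s 1 zero_le_one x ∂(ρ : Measure ℝ) := by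
        refine integral_mono ((te s R hR.le).integrable _) ((te s 1 zero_le_one).integrable _) fun x => ?_
        show te s R hR.le x ≤ te s 1 zero_le_one x
        rw [te_apply, te_apply]
        exact min_le_min le_rfl h1.le
      rw [div_one] at h2
      linarith
  have heq : ∀ s : ℝ, ∫ x, Real.exp (s * x) ∂(ρ : Measure ℝ) = m s := by
    intro s
    have h1 : ∀ R : ℝ, 0 < R → |∫ x, Real.exp (s * x) ∂(ρ : Measure ℝ) - m s| ≤
        ((∫ x, Real.exp (2 * s * x) ∂(ρ : Measure ℝ)) + (m (2 * s) + 1)) / R := by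
      intro R hR
      have h2 := te_near hR (hint s) (hint (2 * s))
      have h3 := key s R hR
      rw [abs_sub_comm] at h2
      have h4 := abs_add_le (∫ x, Real.exp (s * x) ∂(ρ : Measure ℝ) - ∫ x, te s R hR.le x ∂(ρ : Measure ℝ))
        (∫ x, te s R hR.le x ∂(ρ : Measure ℝ) - m s)
      rw [sub_add_sub_cancel] at h4
      rw [add_div]
      linarith
    have h5 : Tendsto (fun R : ℝ => ((∫ x, Real.exp (2 * s * x) ∂(ρ : Measure ℝ)) + (m (2 * s) + 1)) / R) atTop (𝓝 0) :=
      tendsto_const_nhds.div_atTop tendsto_id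
    have h6 : |∫ x, Real.exp (s * x) ∂(ρ : Measure ℝ) - m s| ≤ 0 :=
      ge_of_tendsto h5 ((eventually_gt_atTop 0).mono fun R hR => h1 R hR)
    exact sub_eq_zero.mp (abs_eq_zero.mp (le_antisymm h6 (abs_nonneg _)))
  have hmgf : mgf id (ρ : Measure ℝ) = mgf id (ν : Measure ℝ) := by
    funext s
    show ∫ x, Real.exp (s * id x) ∂(ρ : Measure ℝ) = ∫ x, Real.exp (s * id x) ∂(ν : Measure ℝ)
    simp only [id]
    rw [heq, hm]
  have huniv : integrableExpSet id (ρ : Measure ℝ) = Set.univ := by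
    ext s
    simp only [Set.mem_univ, iff_true]
    exact hint s
  have hcm : complexMGF id (ρ : Measure ℝ) = complexMGF id (ν : Measure ℝ) := by
    funext z
    refine eqOn_complexMGF_of_mgf hmgf ?_
    show z.re ∈ interior (integrableExpSet id (ρ : Measure ℝ))
    rw [huniv, interior_univ]
    trivial
  have hfin' : (ρ : Measure ℝ) = (ν : Measure ℝ) := Measure.ext_of_complexMGF_id_eq hcm
  have hfin : ρ = ν := Subtype.ext hfin'
  rw [hfin] at hT
  exact hT

end Pool.Agent.Y753.NL
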