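import Pool.Agent.Y753.NL.Uni3

set_option autoImplicit false

/-! Locally uniform asymptotics over a window. -/

namespace Pool.Agent.Y753.NL

open Finset Filter MeasureTheory MonoidAlgebra Topology
open Pool.Agent.Y755
open Pool.Agent.W184.NZ
open Pool.Agent.W184 (zn zn_nonneg zn_cont zn_le')

lemma eta_ex {ηm η0 R : ℝ} (hηm : 0 < ηm) (hη0 : 0 < η0) (hR : 0 ≤ R) : ∃ η : ℝ, 0 < η ∧
    η * (R + 1) ≤ min ηm (1 / 4) / 4000 ∧ η * (R + 1) ≤ η0 ∧ η * (R + 1) ≤ 1 / 16000 ∧ η ≤ 1 / 16 := by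
  have hRp : 0 < R + 1 := by linarith
  have hq0 : 0 < min ηm (1 / 4) := lt_min hηm (by norm_num)
  have hq1 : min ηm (1 / 4) ≤ 1 / 4 := min_le_right _ _
  have h3 : min (min ηm (1 / 4) / 4000) η0 ≤ 1 / 16000 := (min_le_left _ _).trans (by linarith)
  have h0 : 0 < min (min ηm (1 / 4) / 4000) η0 := by positivity
  refine ⟨min (min ηm (1 / 4) / 4000) η0 / (R + 1), by positivity, ?_, ?_, ?_, ?_⟩
  · rw [div_mul_cancel₀ _ hRp.ne']; exact min_le_left _ _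
  · rw [div_mul_cancel₀ _ hRp.ne']; exact min_le_right _ _
  · rw [div_mul_cancel₀ _ hRp.ne']; exact h3
  · have := div_le_self h0.le (by linarith : 1 ≤ R + 1)
    linarith

/-- the choice of the polynomial over the small primes -/
lemma A0_ex {α0 : ℝ} (h0 : 0 < α0) {h k : ℕ} (hh : h ≠ 0) (hk : k ≠ 0) (hc : h.Coprime k) {ε : ℝ}
    (hε : 0 < ε) (hε1 : ε ≤ 1 / 10) {z : ℕ} (hpz : ∀ p, p.Prime → p ∣ h * k → p < z) :
    ∃ (A0 : P1) (m ρ δr : ℝ), Bd1 m A0 ∧ 0 ≤ m ∧ A0 ∈ SA1 (M1 (S0 z)) ∧ 0 < ρ ∧ 0 < δr ∧ (∀ δ, 1 ≤ ip δ A0 A0) ∧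
      (∀ δ : ℝ, 0 ≤ δ → δ < δr → |((h * k : ℕ) : ℝ) ^ (1 / 2 + δ) * ip δ (single h 1 * A0) (single k 1 * A0) /
        ip δ A0 A0 - Nu α0 h k| ≤ ε) ∧
      ∀ α : ℝ, |α - α0| ≤ ρ → ∀ s : ℂ, 1 / 2 ≤ s.re →
        1 - ε ≤ ‖es s (Pz z)‖ ^ (2 * α) * ‖es s A0‖ ^ 2 ∧
        ‖es s (Pz z)‖ ^ (2 * α) * ‖es s A0‖ ^ 2 ≤ 1 + ε := by
  obtain ⟨K1, hK1⟩ := near_size h0 (z := z) hε hε1
  have hrat := (Metric.tendsto_nhds.mp (ratio_lim h0 hh hk hc hpz) ε hε).curry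
  obtain ⟨Kz, hKz1, hKz2⟩ := (hrat.and (eventually_ge_atTop K1)).exists
  rw [eventually_nhdsWithin_iff, Metric.eventually_nhds_iff] at hKz1
  obtain ⟨δr, hδr, hKr⟩ := hKz1
  obtain ⟨ρ, hρ, hsize⟩ := hK1 Kz hKz2
  obtain ⟨m0, hA'⟩ := Az_Bd α0 Kz z
  refine ⟨Az α0 Kz z, max m0 1, ρ, δr, hA'.mono (le_max_left _ _), le_trans zero_le_one (le_max_right _ _),
    Az_mem α0 Kz z, hρ, hδr, fun δ => Az_ip_ge h0 Kz z, fun δ hd1 hd2 => ?_, hsize⟩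
  have h1 := hKr (by rw [Real.dist_eq, sub_zero, abs_of_nonneg hd1]; exact hd2 : dist δ 0 < δr) hd1
  rw [Real.dist_eq] at h1
  exact h1.le

/-- locally uniform asymptotics over a window -/
theorem unif {α0 : ℝ} (h0 : 0 < α0) (h2 : α0 < 2) {h k : ℕ} (hh : h ≠ 0) (hk : k ≠ 0) (hc : h.Coprime k) {ε : ℝ}
    (hε : 0 < ε) (hε1 : ε ≤ 1 / 10) :
    ∃ ρ lam δ0 C0 : ℝ, 0 < ρ ∧ 1 ≤ lam ∧ 0 < δ0 ∧ 0 ≤ C0 ∧ ∀ᶠ T : ℝ in atTop, ∀ δ : ℝ, lam / Real.log T ≤ δ → δ ≤ δ0 →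
      ∃ V B : ℝ, 1 ≤ B ∧ 0 ≤ V ∧ |V - Real.log (1 / δ)| ≤ C0 ∧ ∀ α : ℝ, |α - α0| ≤ ρ →
        |(∫ t in (T ^ ((4:ℝ)/5))..(T / 2), zn (1 / 2 + δ) t ^ (2 * α)) - T / 2 * (B * Real.exp (α ^ 2 * V))| ≤
          200 * ε * (T / 2 * (B * Real.exp (α ^ 2 * V))) ∧
        ‖(∫ t in (T ^ ((4:ℝ)/5))..(T / 2), ((zn (1 / 2 + δ) t ^ (2 * α) : ℝ) : ℂ) * tw h k t) -
          ((T / 2 * (B * Real.exp (α ^ 2 * V)) * Nu α0 h k : ℝ) : ℂ)‖ ≤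
          200 * ε * (1 + |Nu α0 h k|) * (T / 2 * (B * Real.exp (α ^ 2 * V))) := by
  obtain ⟨e, he⟩ : ∃ e, e = ε ^ 2 := ⟨_, rfl⟩
  have he0 : 0 < e := by rw [he]; positivity
  have he1 : e ≤ 1 := by rw [he]; nlinarith
  obtain ⟨c, hc0, hpar⟩ := par_ex
  obtain ⟨z1, R1, hET⟩ := ET_small hc0 he0
  obtain ⟨z1', R1', hET4⟩ := ET4_small hc0 he0
  obtain ⟨z2, x0, hx0, hcmp⟩ := cmp h0 hε
  obtain ⟨z, hz1000, hzz1, hzz1', hzz2, hzhk⟩ : ∃ z : ℕ, 1000 ≤ z ∧ z1 ≤ z ∧ z1' ≤ z ∧ z2 ≤ z ∧ h * k < z :=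
    ⟨1000 + z1 + z1' + z2 + h * k + 1, by omega, by omega, by omega, by omega, by omega⟩
  have hpz : ∀ p, p.Prime → p ∣ h * k → p < z := fun p _ hd =>
    lt_of_le_of_lt (Nat.le_of_dvd (Nat.pos_of_ne_zero (mul_ne_zero hh hk)) hd) hzhk
  obtain ⟨Rs, hRok, hR, h4, h14⟩ := Rs_exists (c := c) hε (max R1 R1')
  have hR1 : R1 ≤ Rs := (le_max_left _ _).trans hR
  have hR1' : R1' ≤ Rs := (le_max_right _ _).trans hR
  have hRs1 : 1 ≤ Rs := hRok.1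
  obtain ⟨A0, m, ρ, δr, hA, hm0, hAm, hρ, hδr, hBge, hKr, hsize⟩ := A0_ex h0 hh hk hc hε hε1 hpz
  obtain ⟨δv, Cv, hδv, hδv2, hCv, hVn⟩ := V_near h0 hε z
  obtain ⟨ηm, hηm, hmono⟩ := mono_moment
  obtain ⟨η0, hη0, hQ4⟩ := hpa4 (z := z) (by omega)
  obtain ⟨η, hη, hη1, hη1', hη2, hη16⟩ := eta_ex (R := (Rs:ℝ)) hηm hη0 (Nat.cast_nonneg _)
  obtain ⟨d, hd, hpar2⟩ := hpar z Rs hz1000 hRs1 η hη hη16
  obtain ⟨C1, hC1, hQ1⟩ := hpa (z := z) hc0 hηm hmono hη hη1 hRok hd hA hAm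
  obtain ⟨C2, hC2, hQ2⟩ := hQ4 c d η m Rs A0 hc0 hd hRs1 hη hη1' hη2 hA hAm
  obtain ⟨l1, hl1⟩ := lam_ex (s := 4) (b := 2 / 9) (C := (C1 + C2) / Real.exp (-(4 * Cv))) (e := e) (by norm_num) he0
  obtain ⟨l2, hl2⟩ := exp_ex (C := 15 * d) hη he0
  obtain ⟨lam, hlam1, hlaml1, hlaml2, hlamx⟩ : ∃ lam : ℝ, 1 ≤ lam ∧ l1 ≤ lam ∧ l2 ≤ lam ∧ x0 / η ≤ lam :=
    ⟨max 1 (max l1 (max l2 (x0 / η))), le_max_left _ _, (le_max_left _ _).trans (le_max_right _ _),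
      (le_max_left _ _).trans ((le_max_right _ _).trans (le_max_right _ _)),
      (le_max_right _ _).trans ((le_max_right _ _).trans (le_max_right _ _))⟩
  obtain ⟨δ0, hδ00, hδ016, hδ0v, hδ0r⟩ : ∃ δ0 : ℝ, 0 < δ0 ∧ δ0 ≤ 1 / 16 ∧ δ0 ≤ δv ∧ δ0 < δr :=
    ⟨min (1 / 16) (min δv (δr / 2)), by positivity, min_le_left _ _, (min_le_right _ _).trans (min_le_left _ _),
      lt_of_le_of_lt ((min_le_right _ _).trans (min_le_right _ _)) (by linarith only [hδr])⟩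
  refine ⟨min ρ (min (α0 / 2) ((2 - α0) / 2)), lam, δ0, Cv, lt_min hρ (lt_min (by linarith only [h0]) (by linarith only [h2])),
    hlam1, hδ00, hCv, ?_⟩
  obtain ⟨K0, hK0⟩ : ∃ K0 : ℝ, K0 = 8 * (l1' (Pz z * A0) ^ 2 + l1' A0 ^ 2) + 4 * m * l1' A0 ^ 2 +
    4 * l1' (Pz z ^ 2 * A0) ^ 2 + 2 * ((h * k : ℕ) : ℝ) ^ 2 * m * l1' A0 ^ 2 := ⟨_, rfl⟩
  have hK00 : 0 ≤ K0 := by rw [hK0]; positivity
  obtain ⟨sz, hsz⟩ : ∃ sz : ℝ, sz = (4 ^ (S0 z).card * l1' A0) ^ 2 := ⟨_, rfl⟩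
  have hsz0 : 0 ≤ sz := by rw [hsz]; positivity
  filter_upwards [hpar2, hQ1, hQ2, windows_ev, eventually_ge_atTop (10 ^ 10), NT_ev (max 1 (max m (sz / e))),
    rpow_ev (p := 1 / 50) (q := 1 / 9) (by norm_num) m,
    rpow_ev (p := 2 / 3) (q := 1) (by norm_num) (2 * K0 / e),
    rpow_ev (p := 4 / 5) (q := 1) (by norm_num) (2 / ε),
    Real.tendsto_log_atTop.eventually_ge_atTop 1] with T t1 t2 t2' t3 t4 t5 t6 t7 t8 t9 δ hδ1 hδ2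
  clear hpar hpar2 hQ1 hQ2 hQ4 hmono
  obtain ⟨J, hS, hV, hWd⟩ := t1
  have hT0 : 0 < T := by linarith only [t4]
  have hT1 : 1 ≤ T := by linarith only [t4]
  have hT1' : 1 < T := by linarith only [t4]
  have hL0 : 0 < Real.log T := by linarith only [t9]
  have hx : lam ≤ δ * Real.log T := by rwa [div_le_iff₀ hL0] at hδ1
  have hδ0 : 0 < δ := lt_of_lt_of_le (div_pos (lt_of_lt_of_le one_pos hlam1) hL0) hδ1
  have hδ16 : δ ≤ 1 / 16 := hδ2.trans hδ016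
  have hδL : 1 / Real.log T ≤ δ := le_trans (div_le_div_of_nonneg_right hlam1 hL0.le) hδ1
  have hly : Real.log (yT η T) = η * Real.log T := Real.log_exp _
  obtain ⟨y, hy⟩ : ∃ y, y = yT η T := ⟨_, rfl⟩
  obtain ⟨N, hN⟩ : ∃ N, N = NT T := ⟨_, rfl⟩
  obtain ⟨K, hK⟩ : ∃ K, K = KT T := ⟨_, rfl⟩
  have hW : Real.exp (Real.log (yT η T) * (180 * ((Rs:ℝ) + 1))) ≤ T ^ ((1:ℝ) / 50) := ly_exp hT1 hη2
  rw [← hy] at hS hV hWd hly t2 t2' hW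
  rw [← hN] at hS hWd t5 t2 t2'
  rw [← hK] at hS t2 t2'
  have hE := hET z hzz1 Rs hR1 y J hS.rg
  have hE0 := ET_nonneg c z y J Rs
  have hE4 := hET4 z hzz1' Rs hR1' y J hS.rg
  have hE40 := ET4_nonneg c z y J Rs
  have hcm := hcmp z hzz2 hz1000 y δ hS.zy hδ0 (by
    rw [hly]
    have h1 : x0 ≤ lam * η := by rwa [div_le_iff₀ hη] at hlamx
    calc x0 ≤ lam * η := h1
      _ ≤ (δ * Real.log T) * η := mul_le_mul_of_nonneg_right hx hη.le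
      _ = _ := by ring) J hS.J1
  have hVc := hVn δ (Vd δ z y J) hδ0 (hδ2.trans hδ0v) hcm.1 hcm.2
  have hNr : (1:ℝ) ≤ N := (le_max_left _ _).trans t5.1
  have hmN : m ≤ N := ((le_max_left _ _).trans (le_max_right _ _)).trans t5.1
  have hszN : sz / e ≤ N := ((le_max_right _ _).trans (le_max_right _ _)).trans t5.1
  have hNK : (N:ℝ) < 2 ^ (K + 1) := by
    have : ((N : ℕ) : ℝ) < ((2 ^ (K + 1) : ℕ) : ℝ) := by exact_mod_cast hS.NK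
    push_cast at this
    exact this
  have hmK : m < 2 ^ (K + 1) := lt_of_le_of_lt hmN hNK
  have hB1 := hBge δ
  have hrt := hKr δ hδ0.le (lt_of_le_of_lt hδ2 hδ0r)
  have hVd0 : 0 ≤ Vd δ z y J := sum_nonneg fun _ _ => vd_nonneg _ _
  have hv : 15 * vd δ (Rst N y) ≤ e := by
    have h1 := vd_rst hδ0.le hS.y1 (P := Rst N y) fun p hp => ⟨Rst_prime p hp, (mem_Rst.mp hp).2⟩
    rw [hly] at h1
    have h2 := hl2 (δ * Real.log T) (hlaml2.trans hx)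
    have h3 : Real.exp (-(2 * (δ * (η * Real.log T)))) * vd 0 (Rst N y) ≤ Real.exp (-(2 * (δ * (η * Real.log T)))) * d :=
      mul_le_mul_of_nonneg_left hWd (Real.exp_pos _).le
    have e1 : δ * (η * Real.log T) = δ * Real.log T * η := by ring
    rw [e1] at h1 h3
    linarith only [h1, h2, h3]
  have hsm4 : sz / 2 ^ (K + 1) ≤ e * ip δ A0 A0 := sm_small hsz0 he0 hB1 hNr hszN hNK
  have hlx := hl1 (δ * Real.log T) (hlaml1.trans hx)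
  have hmW : m * T ^ ((1:ℝ) / 50) ≤ N := t6.trans t5.2
  have hX12 : (1 - ε) * (T / 2) ≤ T / 2 - T ^ ((4:ℝ)/5) := by
    rw [Real.rpow_one] at t8
    have h8 := mul_le_mul_of_nonneg_left t8 (by positivity : 0 ≤ ε / 2)
    have e8 : ε / 2 * (2 / ε * T ^ ((4:ℝ) / 5)) = T ^ ((4:ℝ) / 5) := by field_simp
    rw [e8] at h8
    linarith only [h8]
  have hK0T0 : K0 * T ^ ((2:ℝ) / 3) ≤ e * (T / 2) := by
    rw [Real.rpow_one] at t7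
    have h2 := mul_le_mul_of_nonneg_left t7 (by positivity : 0 ≤ e / 2)
    calc K0 * T ^ ((2:ℝ) / 3) = e / 2 * (2 * K0 / e * T ^ ((2:ℝ) / 3)) := by field_simp
      _ ≤ e / 2 * T := h2
      _ = e * (T / 2) := by ring
  refine ⟨Vd δ z y J, ip δ A0 A0, hB1, hVd0, hVc, fun α hα => ?_⟩
  have hαρ : |α - α0| ≤ ρ := hα.trans (min_le_left _ _)
  have hαa := abs_le.mp (hα.trans ((min_le_right _ _).trans (min_le_left _ _)))
  have hαb := abs_le.mp (hα.trans ((min_le_right _ _).trans (min_le_right _ _)))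
  have hα0 : 0 < α := by linarith only [hαa.1, h0]
  have hα2 : α ≤ 2 := by linarith only [hαb.2, h2]
  have hEV1 : 1 ≤ Real.exp (α ^ 2 * Vd δ z y J) := Real.one_le_exp (mul_nonneg (sq_nonneg _) hVd0)
  have hM1 : 1 ≤ ip δ A0 A0 * Real.exp (α ^ 2 * Vd δ z y J) := one_le_mul_of_one_le_of_one_le hB1 hEV1
  have hQs1 := Q_small (C' := C1) hC1.le (by linarith only [hC2]) hT1' hδ0 (hlam1.trans hx) he0.le hlx t5.2 hα0.le hα2 hCv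
    hVc hB1
  have hQs2 := Q_small (C' := C2) hC2.le (by linarith only [hC1]) hT1' hδ0 (hlam1.trans hx) he0.le hlx t5.2 hα0.le hα2 hCv
    hVc hB1
  have hQ1 := t2 J hS hV hWd (hE.trans he1) (α - 1)
    (abs_le.mpr ⟨by linarith only [hα0], by linarith only [hα2]⟩) δ hδL hδ16
  have e0 : 1 + (α - 1) = α := by ring
  rw [e0] at hQ1
  have hQ2 : 1 ≤ α → _ := fun hα1 => t2' J hS hV hWd (hE4.trans he1) (α - 2)
    (abs_le.mpr ⟨by linarith only [hα1], by linarith only [hα2]⟩) (by linarith only [hα2]) δ hδL hδ16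
  have e02 : 2 + (α - 2) = α := by ring
  rw [e02] at hQ2
  have hK0T : K0 * T ^ ((2:ℝ) / 3) ≤ e * (T / 2 * (ip δ A0 A0 * Real.exp (α ^ 2 * Vd δ z y J))) := by
    have h3 : e * (T / 2) ≤ e * (T / 2) * (ip δ A0 A0 * Real.exp (α ^ 2 * Vd δ z y J)) :=
      le_mul_of_one_le_right (by positivity) hM1
    exact hK0T0.trans (h3.trans (le_of_eq (by ring)))
  rw [hK0] at hK0T
  obtain ⟨f1, f2, f4, f5, f6, f7⟩ := errs_all hT1 hm0 hK0T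
  rw [← hN, he] at f1 f4 f6
  rw [he] at f2 f5 f7 hE hE4 hsm4 hv hQs1 hQs2
  rw [hsz] at hsm4
  have H : Cf c y δ α ε (T ^ ((4:ℝ)/5)) (T / 2) (T ^ ((1:ℝ) / 50)) m
      (T / 2 * (ip δ A0 A0 * Real.exp (α ^ 2 * Vd δ z y J))) (ip δ A0 A0) (Vd δ z y J)
      (C1 * (T * Real.log T ^ (α ^ 2)) * (N : ℝ) ^ (-(2 * δ))) (C2 * (T * Real.log T ^ (α ^ 2)) * (N : ℝ) ^ (-(2 * δ)))
      z J Rs N K A0 :=
    { iS := hS, iA := hA, iAm := hAm, im0 := hm0, imK := hmK, imW := hmW, id0 := hδ0.le, id1 := hδ16, ia0 := hα0,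
      ia2 := hα2, ie0 := hε, ie1 := hε1, iPA := hsize α hαρ, iE := hE, iE4 := hE4, iX1 := Real.rpow_nonneg hT0.le _,
      iX12 := t3.1, iX := hX12, iW := hW, ih4 := h4, ih14 := h14, iB := rfl, iV := rfl, iB1 := hB1, iY := rfl,
      ism := hsm4, iv := hv, iQ1 := hQ1, iQ1s := hQs1, iQ2 := hQ2, iQ2s := hQs2, if1 := f1, if2 := f2, if4 := f4,
      if5 := f5, if6 := f6 }
  exact ⟨H.fa, H.fb hh hk hpz hrt f7⟩

end Pool.Agent.Y753.NL
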