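import Pool.Agent.Y755.Fin4
import Pool.Agent.Y753.NL.Uni4

set_option autoImplicit false

/-! Locally uniform asymptotics over the full range. -/

namespace Pool.Agent.Y753.NL

open Finset Filter MeasureTheory MonoidAlgebra Topology
open Pool.Agent.Y755
open Pool.Agent.W184.NZ
open Pool.Agent.W184 (zn zn_nonneg zn_cont zn_le')

/-- the contribution of the low heights -/
lemma low_piece : ∃ lam δ0 : ℝ, 1 ≤ lam ∧ 0 < δ0 ∧ δ0 ≤ 1 / 16 ∧ ∀ e : ℝ, 0 < e → ∀ᶠ X : ℝ in atTop, ∀ δ : ℝ,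
    lam / Real.log X ≤ δ → δ ≤ δ0 → ∀ α : ℝ, 0 < α → α ≤ 2 →
    ∫ t in (0:ℝ)..((2 * X) ^ ((4:ℝ)/5)), zn (1 / 2 + δ) t ^ (2 * α) ≤ e * X := by
  obtain ⟨lam, hl1, hw⟩ := full_up4 (α := 2) (by norm_num) le_rfl one_pos
  obtain ⟨δ1, C, hδ1, hC, hD⟩ := DD_up (α := 2) (by norm_num)
  refine ⟨2 * lam, min δ1 (1 / 16), by linarith, lt_min hδ1 (by norm_num), min_le_right _ _, fun e he => ?_⟩
  have ht : Tendsto (fun X : ℝ => (2 * X) ^ ((4:ℝ)/5)) atTop atTop :=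
    (tendsto_rpow_atTop (by norm_num)).comp two_mul_tendsto
  obtain ⟨D, hDd⟩ : ∃ D : ℝ, D = 2 * (1 + 4 * C * 40 ^ 4) := ⟨_, rfl⟩
  filter_upwards [ht.eventually hw, rpow_ev (p := 9 / 10) (q := 1) (by norm_num) (D / e), eventually_ge_atTop 3]
    with X h1 h2 h3 δ hd1 hd2 α hα hα2
  have hX0 : 0 < X := by linarith
  have hX1 : 1 ≤ X := by linarith
  have hL0 : 0 < Real.log X := Real.log_pos (by linarith)
  have hL1 : 1 ≤ Real.log X := by
    rw [Real.le_log_iff_exp_le hX0]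
    have := Real.exp_one_lt_d9
    linarith
  have hδ0 : 0 < δ := lt_of_lt_of_le (div_pos (by linarith) hL0) hd1
  have hδ16 : δ ≤ 1 / 16 := hd2.trans (min_le_right _ _)
  obtain ⟨Y, hY⟩ : ∃ Y, Y = (2 * X) ^ ((4:ℝ)/5) := ⟨_, rfl⟩
  rw [← hY] at h1 ⊢
  have hY0 : 0 < Y := by rw [hY]; positivity
  have hlY : Real.log X / 2 ≤ Real.log Y := by
    rw [hY, Real.log_rpow (by linarith), Real.log_mul (by norm_num) hX0.ne']
    have := Real.log_pos one_lt_two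
    linarith
  have h4 := h1 δ (by
    refine le_trans ?_ hd1
    rw [div_le_div_iff₀ (by linarith) hL0]
    nlinarith) hδ16
  have h5 := hD δ hδ0 (hd2.trans (min_le_left _ _))
  have h6 : δ ^ (-((2:ℝ) ^ 2)) ≤ Real.log X ^ 4 := by
    have h7 : 1 / Real.log X ≤ δ := le_trans (div_le_div_of_nonneg_right (by linarith) hL0.le) hd1
    have h8 : δ ^ (-((2:ℝ) ^ 2)) ≤ (1 / Real.log X) ^ (-((2:ℝ) ^ 2)) :=
      Real.rpow_le_rpow_of_nonpos (by positivity) h7 (by norm_num)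
    refine h8.trans (le_of_eq ?_)
    rw [one_div, Real.inv_rpow hL0.le, Real.rpow_neg hL0.le, inv_inv, ← Real.rpow_natCast]
    norm_num
  have h7 : Real.log X ^ 4 ≤ 40 ^ 4 * X ^ ((1:ℝ) / 10) := by
    have h8 := Real.log_le_rpow_div hX0.le (show (0:ℝ) < 1 / 40 by norm_num)
    have h9 : Real.log X ≤ 40 * X ^ ((1:ℝ) / 40) := by
      have e1 : X ^ ((1:ℝ) / 40) / (1 / 40) = 40 * X ^ ((1:ℝ) / 40) := by ring
      rwa [e1] at h8
    calc Real.log X ^ 4 ≤ (40 * X ^ ((1:ℝ) / 40)) ^ 4 := pow_le_pow_left₀ hL0.le h9 4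
      _ = 40 ^ 4 * X ^ ((1:ℝ) / 10) := by
          rw [mul_pow, ← Real.rpow_natCast (X ^ ((1:ℝ) / 40)), ← Real.rpow_mul hX0.le]
          norm_num
  have hi4 : Continuous fun t => zn (1 / 2 + δ) t ^ (2 * (2:ℝ)) := znp_cont (by linarith) (by norm_num)
  have hi : Continuous fun t => zn (1 / 2 + δ) t ^ (2 * α) := znp_cont (by linarith) (by linarith)
  have g1 : ∫ t in (0:ℝ)..Y, zn (1 / 2 + δ) t ^ (2 * α) ≤ ∫ t in (0:ℝ)..Y, (1 + zn (1 / 2 + δ) t ^ (2 * (2:ℝ))) := by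
    refine intervalIntegral.integral_mono_on hY0.le (hi.intervalIntegrable _ _)
      ((continuous_const.add hi4).intervalIntegrable _ _) fun t _ => ?_
    rcases le_total (zn (1 / 2 + δ) t) 1 with h | h
    · have a1 := Real.rpow_le_one (zn_nonneg (1 / 2 + δ) t) h (by linarith : 0 ≤ 2 * α)
      have a2 := Real.rpow_nonneg (zn_nonneg (1 / 2 + δ) t) (2 * (2:ℝ))
      linarith
    · have a1 := Real.rpow_le_rpow_of_exponent_le h (by linarith : 2 * α ≤ 2 * 2)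
      linarith
  rw [intervalIntegral.integral_add intervalIntegrable_const (hi4.intervalIntegrable _ _), intervalIntegral.integral_const,
    sub_zero, smul_eq_mul, mul_one] at g1
  refine g1.trans ?_
  have hX45 : Y ≤ 2 * X ^ ((4:ℝ) / 5) := by
    rw [hY, Real.mul_rpow (by norm_num) hX0.le]
    have h5 : (2:ℝ) ^ ((4:ℝ)/5) ≤ 2 := by
      have := Real.rpow_le_rpow_of_exponent_le (show (1:ℝ) ≤ 2 by norm_num) (show (4:ℝ)/5 ≤ 1 by norm_num)
      rwa [Real.rpow_one] at this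
    exact mul_le_mul_of_nonneg_right h5 (by positivity)
  have hX10 : 1 ≤ X ^ ((1:ℝ) / 10) := Real.one_le_rpow hX1 (by norm_num)
  have g2 : ∫ t in (0:ℝ)..Y, zn (1 / 2 + δ) t ^ (2 * (2:ℝ)) ≤ 2 * (Y * (C * (40 ^ 4 * X ^ ((1:ℝ) / 10)))) := by
    refine h4.trans ?_
    have a1 : DD 2 δ ≤ C * (40 ^ 4 * X ^ ((1:ℝ) / 10)) :=
      h5.trans (mul_le_mul_of_nonneg_left (h6.trans h7) hC.le)
    have a2 := mul_le_mul_of_nonneg_left a1 hY0.le
    linarith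
  have g3 : Y + 2 * (Y * (C * (40 ^ 4 * X ^ ((1:ℝ) / 10)))) ≤ D * X ^ ((9:ℝ) / 10) := by
    have e1 : X ^ ((9:ℝ) / 10) = X ^ ((4:ℝ) / 5) * X ^ ((1:ℝ) / 10) := by rw [← Real.rpow_add hX0]; norm_num
    rw [e1, hDd]
    set P := X ^ ((4:ℝ) / 5) with hP
    set Q := X ^ ((1:ℝ) / 10) with hQ
    have hP0 : 0 < P := by positivity
    have b1 : Y ≤ 2 * P * Q := by nlinarith
    have b2 : Y * (C * (40 ^ 4 * Q)) ≤ 2 * P * (C * (40 ^ 4 * Q)) := mul_le_mul_of_nonneg_right hX45 (by positivity)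
    nlinarith
  rw [Real.rpow_one] at h2
  have h8 := mul_le_mul_of_nonneg_left h2 he.le
  have e8 : e * (D / e * X ^ ((9:ℝ) / 10)) = D * X ^ ((9:ℝ) / 10) := by field_simp
  rw [e8] at h8
  linarith

/-- locally uniform asymptotics -/
theorem full {α0 : ℝ} (h0 : 0 < α0) (h2 : α0 < 2) {h k : ℕ} (hh : h ≠ 0) (hk : k ≠ 0) (hc : h.Coprime k) {ε : ℝ}
    (hε : 0 < ε) (hε1 : ε ≤ 1 / 10) :
    ∃ ρ lam δ0 C0 : ℝ, 0 < ρ ∧ 1 ≤ lam ∧ 0 < δ0 ∧ δ0 ≤ 1 / 16 ∧ 0 ≤ C0 ∧ ∀ᶠ X : ℝ in atTop, ∀ δ : ℝ,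
      lam / Real.log X ≤ δ → δ ≤ δ0 →
      ∃ V B : ℝ, 1 ≤ B ∧ |V - Real.log (1 / δ)| ≤ C0 ∧ ∀ α : ℝ, |α - α0| ≤ ρ →
        |(∫ t in (0:ℝ)..X, zn (1 / 2 + δ) t ^ (2 * α)) - X * (B * Real.exp (α ^ 2 * V))| ≤
          300 * ε * (X * (B * Real.exp (α ^ 2 * V))) ∧
        ‖(∫ t in (0:ℝ)..X, ((zn (1 / 2 + δ) t ^ (2 * α) : ℝ) : ℂ) * tw h k t) -
          ((X * (B * Real.exp (α ^ 2 * V)) * Nu α0 h k : ℝ) : ℂ)‖ ≤
          300 * ε * (1 + |Nu α0 h k|) * (X * (B * Real.exp (α ^ 2 * V))) := by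
  obtain ⟨ρ, lam, δ0, C0, hρ, hlam, hδ0, hC0, hev⟩ := unif h0 h2 hh hk hc hε hε1
  obtain ⟨lam', δ0', hlam', hδ0', hδ16, hlow⟩ := low_piece
  refine ⟨min ρ (min (α0 / 2) ((2 - α0) / 2)), max lam lam', min δ0 δ0', C0,
    lt_min hρ (lt_min (by linarith) (by linarith)), hlam.trans (le_max_left _ _),
    lt_min hδ0 hδ0', (min_le_right _ _).trans hδ16, hC0, ?_⟩
  filter_upwards [two_mul_tendsto.eventually hev, hlow ε hε, two_mul_tendsto.eventually windows_ev,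
    eventually_ge_atTop 3] with X h3 h4 h5 h6 δ hd1 hd2
  have hX0 : 0 < X := by linarith
  have hL0 : 0 < Real.log X := Real.log_pos (by linarith)
  have hL2 : Real.log X ≤ Real.log (2 * X) := Real.log_le_log hX0 (by linarith)
  have hd3 : lam / Real.log (2 * X) ≤ δ := by
    refine le_trans (div_le_div_of_nonneg_left (by linarith) hL0 hL2) (le_trans ?_ hd1)
    exact div_le_div_of_nonneg_right (le_max_left _ _) hL0.le
  obtain ⟨V, B, hB, hV0, hV, hall⟩ := h3 δ hd3 (hd2.trans (min_le_left _ _))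
  have e1 : 2 * X / 2 = X := by ring
  rw [e1] at hall h5
  have hd4 : lam' / Real.log X ≤ δ := le_trans (div_le_div_of_nonneg_right (le_max_right _ _) hL0.le) hd1
  have hδ : 0 < δ := lt_of_lt_of_le (div_pos (by linarith) hL0) hd4
  have hδ16' : δ ≤ 1 / 16 := hd2.trans ((min_le_right _ _).trans hδ16)
  refine ⟨V, B, hB, hV, fun α hα => ?_⟩
  obtain ⟨g1, g2⟩ := hall α (hα.trans (min_le_left _ _))
  have hαa := abs_le.mp (hα.trans ((min_le_right _ _).trans (min_le_left _ _)))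
  have hαb := abs_le.mp (hα.trans ((min_le_right _ _).trans (min_le_right _ _)))
  have hα0 : 0 < α := by linarith only [hαa.1, h0]
  have hα2 : α ≤ 2 := by linarith only [hαb.2, h2]
  have g3 := h4 δ hd4 (hd2.trans (min_le_right _ _)) α hα0 hα2
  have hM1 : 1 ≤ B * Real.exp (α ^ 2 * V) :=
    one_le_mul_of_one_le_of_one_le hB (Real.one_le_exp (by positivity))
  obtain ⟨Y, hY⟩ : ∃ Y, Y = X * (B * Real.exp (α ^ 2 * V)) := ⟨_, rfl⟩
  rw [← hY] at g1 g2 ⊢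
  have hXY : X ≤ Y := by rw [hY]; exact le_mul_of_one_le_right hX0.le hM1
  have hi : Continuous fun t => zn (1 / 2 + δ) t ^ (2 * α) := znp_cont (by linarith) (by linarith)
  have hi2 : Continuous fun t => ((zn (1 / 2 + δ) t ^ (2 * α) : ℝ) : ℂ) * tw h k t :=
    (Complex.continuous_ofReal.comp hi).mul (tw_cont h k)
  have hZ0 : 0 ≤ (2 * X) ^ ((4:ℝ)/5) := by positivity
  have g4 : ε * X ≤ ε * Y := mul_le_mul_of_nonneg_left hXY hε.le
  have hεY : 0 ≤ ε * Y := mul_nonneg hε.le (hX0.le.trans hXY)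
  have g5 : 0 ≤ ∫ t in (0:ℝ)..((2 * X) ^ ((4:ℝ)/5)), zn (1 / 2 + δ) t ^ (2 * α) :=
    intervalIntegral.integral_nonneg hZ0 fun _ _ => Real.rpow_nonneg (zn_nonneg _ _) _
  constructor
  · rw [← intervalIntegral.integral_add_adjacent_intervals (hi.intervalIntegrable 0 ((2 * X) ^ ((4:ℝ)/5)))
      (hi.intervalIntegrable _ _)]
    rw [abs_le] at g1 ⊢
    constructor <;> linarith
  · rw [← intervalIntegral.integral_add_adjacent_intervals (hi2.intervalIntegrable 0 ((2 * X) ^ ((4:ℝ)/5)))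
      (hi2.intervalIntegrable _ _)]
    have g6 : ‖∫ t in (0:ℝ)..((2 * X) ^ ((4:ℝ)/5)), ((zn (1 / 2 + δ) t ^ (2 * α) : ℝ) : ℂ) * tw h k t‖ ≤ ε * Y := by
      refine (intervalIntegral.norm_integral_le_integral_norm hZ0).trans (le_trans (le_of_eq ?_) (g3.trans g4))
      refine intervalIntegral.integral_congr fun t _ => ?_
      show ‖((zn (1 / 2 + δ) t ^ (2 * α) : ℝ) : ℂ) * tw h k t‖ = _
      rw [norm_mul, tw_norm, mul_one, Complex.norm_real, Real.norm_of_nonneg (Real.rpow_nonneg (zn_nonneg _ _) _)]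
    rw [add_sub_assoc]
    refine (norm_add_le _ _).trans ((add_le_add g6 g2).trans ?_)
    have h7 : 0 ≤ |Nu α0 h k| * (ε * Y) := mul_nonneg (abs_nonneg _) hεY
    nlinarith

end Pool.Agent.Y753.NL
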