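import Pool.Agent.Y755.MV1

set_option autoImplicit false

/-! Complex valued mean values of products of Dirichlet polynomials. -/

namespace Pool.Agent.Y753.NL

open Finset Filter MeasureTheory MonoidAlgebra
open Pool.Agent.Y755
open Pool.Agent.W184.NZ

lemma mh_exp (t : ℝ) {m n : ℕ} (hm : m ≠ 0) (hn : n ≠ 0) :
    mh t (m, n) = ((((m:ℝ) * n) ^ (-(1 / 2 : ℝ)) : ℝ) : ℂ) *
      Complex.exp (((Real.log n - Real.log m : ℝ) : ℂ) * Complex.I * t) := by
  have m0 : (0:ℝ) < m := by exact_mod_cast Nat.pos_of_ne_zero hm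
  have n0 : (0:ℝ) < n := by exact_mod_cast Nat.pos_of_ne_zero hn
  have e0 : mh t (m, n) = (m : ℂ) ^ (-(1 / 2 + t * Complex.I)) * (n : ℂ) ^ (-(1 / 2 - t * Complex.I)) := rfl
  have mc : (m:ℂ) ≠ 0 := by exact_mod_cast hm
  have nc : (n:ℂ) ≠ 0 := by exact_mod_cast hn
  have e1 : ((m:ℝ) * n) ^ (-(1 / 2 : ℝ)) = Real.exp (-(Real.log m + Real.log n) / 2) := by
    rw [Real.rpow_def_of_pos (by positivity), Real.log_mul m0.ne' n0.ne']
    congr 1; ring
  rw [e0, e1, Complex.cpow_def_of_ne_zero mc, Complex.cpow_def_of_ne_zero nc, ← Complex.exp_add,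
      Complex.ofReal_exp, ← Complex.exp_add, ← Complex.natCast_log, ← Complex.natCast_log]
  congr 1
  push_cast
  ring

lemma int_exp_le {θ : ℝ} (hθ : θ ≠ 0) (a b : ℝ) :
    ‖∫ t in a..b, Complex.exp ((θ:ℂ) * Complex.I * (t:ℂ))‖ ≤ 2 / |θ| := by
  have h0 : (θ:ℂ) * Complex.I ≠ 0 := mul_ne_zero (by exact_mod_cast hθ) Complex.I_ne_zero
  rw [integral_exp_mul_complex h0, norm_div, norm_mul, Complex.norm_I, mul_one, Complex.norm_real, Real.norm_eq_abs]
  refine div_le_div_of_nonneg_right ?_ (abs_nonneg _)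
  refine (norm_sub_le _ _).trans ?_
  have h1 : ∀ x : ℝ, ‖Complex.exp ((θ:ℂ) * Complex.I * (x:ℂ))‖ = 1 := by
    intro x
    have : (θ:ℂ) * Complex.I * (x:ℂ) = ((θ * x : ℝ) : ℂ) * Complex.I := by push_cast; ring
    rw [this, Complex.norm_exp_ofReal_mul_I]
  rw [h1, h1]
  norm_num

lemma int_mhc {N : ℝ} {m n : ℕ} (hm : m ≠ 0) (hn : n ≠ 0) (hmN : (m:ℝ) ≤ N) (hnN : (n:ℝ) ≤ N) (a b : ℝ) :
    ‖(∫ t in a..b, mh t (m, n)) - (((b - a) * w0 (m, n) : ℝ) : ℂ)‖ ≤ 2 * N := by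
  have m0 : (0:ℝ) < m := by exact_mod_cast Nat.pos_of_ne_zero hm
  have n0 : (0:ℝ) < n := by exact_mod_cast Nat.pos_of_ne_zero hn
  have hN : 0 ≤ N := m0.le.trans hmN
  simp_rw [mh_exp _ hm hn]
  rw [intervalIntegral.integral_const_mul]
  unfold w0
  by_cases h : m = n
  · subst h
    simp only [sub_self, Complex.ofReal_zero, zero_mul, Complex.exp_zero, intervalIntegral.integral_const,
      if_true]
    have e : ((m:ℝ) * m) ^ (-(1 / 2 : ℝ)) = 1 / m := by
      rw [← pow_two, ← Real.rpow_natCast, ← Real.rpow_mul m0.le]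
      norm_num
      rw [Real.rpow_neg_one]
    rw [e]
    have : ((1 / (m:ℝ) : ℝ) : ℂ) * (b - a) • (1:ℂ) - (((b - a) * (1 / (m:ℝ)) : ℝ) : ℂ) = 0 := by
      rw [Complex.real_smul]; push_cast; ring
    rw [this, norm_zero]
    positivity
  · simp only [h, if_false, mul_zero, Complex.ofReal_zero, sub_zero]
    rw [norm_mul, Complex.norm_real]
    have h1 : ‖((m:ℝ) * n) ^ (-(1 / 2 : ℝ))‖ ≤ 1 := by
      rw [Real.norm_of_nonneg (by positivity)]
      refine Real.rpow_le_one_of_one_le_of_nonpos ?_ (by norm_num)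
      have a1 : (1:ℝ) ≤ m := by exact_mod_cast Nat.pos_of_ne_zero hm
      have a2 : (1:ℝ) ≤ n := by exact_mod_cast Nat.pos_of_ne_zero hn
      nlinarith
    have key : ∀ a b : ℕ, a ≠ 0 → a < b → (b:ℝ) ≤ N → 1 / N ≤ Real.log b - Real.log a := by
      intro a b ha hab hb
      have h2 := Pool.Agent.W184.log_gap (Nat.pos_of_ne_zero ha) hab
      refine le_trans ?_ h2
      have b0 : (0:ℝ) < b := by exact_mod_cast (by omega : 0 < b)
      have h3 : (1:ℝ) ≤ (b:ℝ) - a := by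
        have : (a:ℝ) + 1 ≤ b := by exact_mod_cast hab
        linarith
      exact div_le_div₀ (by linarith) h3 b0 hb
    have hN1 : 0 < N := m0.trans_le hmN
    have h4 : 1 / N ≤ |Real.log n - Real.log m| := by
      rcases lt_or_gt_of_ne h with h5 | h5
      · exact (key m n hm h5 hnN).trans (le_abs_self _)
      · rw [abs_sub_comm]
        exact (key n m hn h5 hmN).trans (le_abs_self _)
    have h0 : Real.log n - Real.log m ≠ 0 := by
      intro h5
      rw [h5, abs_zero] at h4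
      have : 0 < 1 / N := by positivity
      linarith
    have h6 := int_exp_le h0 a b
    have h7 : 2 / |Real.log n - Real.log m| ≤ 2 * N := by
      rw [div_le_iff₀ (by positivity)]
      calc (2:ℝ) = 2 * N * (1 / N) := by field_simp
        _ ≤ _ := mul_le_mul_of_nonneg_left h4 (by positivity)
    calc _ ≤ 1 * (2 * N) := mul_le_mul h1 (h6.trans h7) (norm_nonneg _) zero_le_one
      _ = 2 * N := one_mul _

theorem avgc {N : ℝ} {f : DA} (hf : Bd N f) (a b : ℝ) :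
    ‖(∫ t in a..b, ev t f) - (((b - a) * lam w0 f : ℝ) : ℂ)‖ ≤ 2 * N * l1 f := by
  have h1 : ∫ t in a..b, ev t f = ∑ x ∈ f.coeff.support, (f.coeff x : ℂ) * ∫ t in a..b, mh t x := by
    simp_rw [ev_apply]
    rw [intervalIntegral.integral_finsetSum]
    · refine sum_congr rfl fun x _ => ?_
      rw [intervalIntegral.integral_const_mul]
    · intro x hx
      exact (continuous_const.mul (mh_cont (hf x hx).1.1 (hf x hx).1.2)).intervalIntegrable _ _
  have h2 : (((b - a) * lam w0 f : ℝ) : ℂ) = ∑ x ∈ f.coeff.support, (f.coeff x : ℂ) * (((b - a) * w0 x : ℝ) : ℂ) := by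
    rw [lam_apply, Finsupp.sum, mul_sum]
    push_cast
    exact sum_congr rfl fun x _ => by ring
  rw [h1, h2, ← sum_sub_distrib, l1, mul_sum]
  refine (norm_sum_le _ _).trans (sum_le_sum fun x hx => ?_)
  rw [← mul_sub, norm_mul, Complex.norm_real, Real.norm_eq_abs, mul_comm]
  obtain ⟨m, n⟩ := x
  exact mul_le_mul_of_nonneg_right (int_mhc (hf _ hx).1.1 (hf _ hx).1.2 (hf _ hx).2.1 (hf _ hx).2.2 a b) (abs_nonneg _)

/-- the bilinear mean value theorem -/
theorem mvt2 {δ N : ℝ} (hδ : 0 ≤ δ) {f g : P1} (hN : 0 ≤ N) (hf : Bd1 N f) (hg : Bd1 N g) (a b : ℝ) :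
    ‖(∫ t in a..b, es (1 / 2 + δ + t * Complex.I) f * starRingEnd ℂ (es (1 / 2 + δ + t * Complex.I) g)) -
      (((b - a) * ip δ f g : ℝ) : ℂ)‖ ≤ 2 * N * (l1' f * l1' g) := by
  have h1 := avgc (XY_Bd (δ := δ) hf hg) a b
  have e : ∀ t : ℝ, ev t (Xh δ f * Yh δ g) = es (1 / 2 + δ + t * Complex.I) f *
      starRingEnd ℂ (es (1 / 2 + δ + t * Complex.I) g) := fun t => by rw [map_mul, ev_Xh hδ, ev_Yh hδ]
  simp_rw [e] at h1
  refine h1.trans ?_
  have h2 : l1 (Xh δ f * Yh δ g) ≤ l1' f * l1' g :=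
    (l1_mul _ _).trans (mul_le_mul (Xh_l1 hδ hf) (Yh_l1 hδ hg) (l1_nonneg _) (l1'_nonneg _))
  exact mul_le_mul_of_nonneg_left h2 (by positivity)

/-- the twist -/
noncomputable def tw (h k : ℕ) (t : ℝ) : ℂ := Complex.exp (((Real.log k - Real.log h : ℝ) : ℂ) * Complex.I * t)

lemma tw_norm (h k : ℕ) (t : ℝ) : ‖tw h k t‖ = 1 := by
  unfold tw
  have : ((Real.log k - Real.log h : ℝ) : ℂ) * Complex.I * (t:ℂ) = (((Real.log k - Real.log h) * t : ℝ) : ℂ) * Complex.I := by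
    push_cast; ring
  rw [this, Complex.norm_exp_ofReal_mul_I]

lemma tw_cont (h k : ℕ) : Continuous (tw h k) := by unfold tw; fun_prop

/-- the twist as a product of two monomials -/
lemma tw_eq {δ : ℝ} {h k : ℕ} (h0 : h ≠ 0) (k0 : k ≠ 0) (t : ℝ) (w : P1) :
    ((‖es (1 / 2 + δ + t * Complex.I) w‖ ^ 2 : ℝ) : ℂ) * tw h k t =
      ((((h * k : ℕ) : ℝ) ^ (1 / 2 + δ) : ℝ) : ℂ) * (es (1 / 2 + δ + t * Complex.I) (single h 1 * w) *
        starRingEnd ℂ (es (1 / 2 + δ + t * Complex.I) (single k 1 * w))) := by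
  have hh0 : (0:ℝ) < h := by exact_mod_cast Nat.pos_of_ne_zero h0
  have hk0 : (0:ℝ) < k := by exact_mod_cast Nat.pos_of_ne_zero k0
  have hc : (h:ℂ) ≠ 0 := by exact_mod_cast h0
  have kc : (k:ℂ) ≠ 0 := by exact_mod_cast k0
  rw [map_mul, map_mul, map_mul, es_single, es_single, Complex.ofReal_one, one_mul, one_mul]
  set S := es (1 / 2 + δ + t * Complex.I) w
  have e1 : ((‖S‖ ^ 2 : ℝ) : ℂ) = S * starRingEnd ℂ S := by
    rw [Complex.mul_conj, Complex.normSq_eq_norm_sq]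
  have e2 : starRingEnd ℂ ((k:ℂ) ^ (-(1 / 2 + (δ:ℂ) + t * Complex.I))) = (k:ℂ) ^ (-(1 / 2 + (δ:ℂ) - t * Complex.I)) := by
    rw [← natCast_cpow_conj k k0]
    congr 1
    simp only [map_neg, map_add, map_mul, Complex.conj_ofReal, Complex.conj_I, map_div₀, map_one, map_ofNat]
    ring
  have e3 : ((((h * k : ℕ) : ℝ) ^ (1 / 2 + δ) : ℝ) : ℂ) * ((h:ℂ) ^ (-(1 / 2 + (δ:ℂ) + t * Complex.I)) *
      (k:ℂ) ^ (-(1 / 2 + (δ:ℂ) - t * Complex.I))) = tw h k t := by
    unfold tw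
    rw [Complex.cpow_def_of_ne_zero hc, Complex.cpow_def_of_ne_zero kc, ← Complex.exp_add,
      Real.rpow_def_of_pos (by push_cast; positivity), Complex.ofReal_exp, ← Complex.exp_add,
      ← Complex.natCast_log, ← Complex.natCast_log]
    congr 1
    push_cast
    rw [Complex.ofReal_log (by positivity), Complex.ofReal_mul]
    rw [← Complex.ofReal_mul, ← Complex.ofReal_log (by positivity), Real.log_mul hh0.ne' hk0.ne']
    push_cast
    ring
  rw [e1, e2, ← e3]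
  ring

end Pool.Agent.Y753.NL
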