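import Pool.Agent.Y753.NL.All3

set_option autoImplicit false

/-! Powers of zeta: complex closeness. -/

namespace Pool.Agent.Y753.NL

open Finset Filter MeasureTheory MonoidAlgebra Topology
open Pool.Agent.Y755
open Pool.Agent.W184.NZ
open Pool.Agent.W184 (zn zn_nonneg zn_cont zn_le')
open Pool.Agent.H306R2 (lc lc_zero lc_nonneg lc_pos lc_summable)

/-- uniform local approximation, complex -/
lemma loc_unif_c {k : ℕ} (hk : 1 ≤ k) {r : ℝ} (hr : 0 < r) (hr1 : r < 1) {η : ℝ} (hη : 0 < η) :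
    ∃ K0 : ℕ, ∀ K : ℕ, K0 ≤ K → ∀ x : ℂ, ‖x‖ ≤ r →
      ‖(1 - x) ^ k * ∑ j ∈ range (K + 1), (lc (k:ℝ) j : ℂ) * x ^ j - 1‖ ≤ η := by
  have hα : (0:ℝ) < k := by exact_mod_cast hk
  have hs := lc_summable hα hr hr1
  have ht := hs.hasSum.tendsto_sum_nat
  have h2 : (0:ℝ) < η / 2 ^ k := by positivity
  have h3 := ht.eventually (lt_mem_nhds (sub_lt_self _ h2))
  obtain ⟨K0, hK0⟩ := eventually_atTop.mp h3
  refine ⟨K0, fun K hK x hx => ?_⟩
  have hx1 : ‖x‖ < 1 := lt_of_le_of_lt hx hr1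
  have hsum := lc_hasSum (k:ℝ) hx1
  have hK := hK0 (K + 1) (by omega)
  have h4 := tail_close (f := fun j => lc (k:ℝ) j * r ^ j) (g := fun j => (lc (k:ℝ) j : ℂ) * x ^ j) hs (fun j => by
    rw [norm_mul, norm_pow, Complex.norm_real, Real.norm_of_nonneg (lc_nonneg hα.le j)]
    exact mul_le_mul_of_nonneg_left (pow_le_pow_left₀ (norm_nonneg _) hx j) (lc_nonneg hα.le j))
    (F := range (K + 1)) (e := η / 2 ^ k) (by linarith)
  rw [hsum.tsum_eq] at h4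
  have hne : (1:ℂ) - x ≠ 0 := by
    intro h
    have : x = 1 := by linear_combination -h
    rw [this, norm_one] at hx1
    exact lt_irrefl _ hx1
  have e1 : (((k:ℝ) : ℝ) : ℂ) = (k:ℂ) := by push_cast; rfl
  rw [e1, Complex.cpow_natCast] at h4
  set S := ∑ j ∈ range (K + 1), (lc (k:ℝ) j : ℂ) * x ^ j with hS
  have hle : ‖1 - x‖ ≤ 2 := by
    refine (norm_sub_le _ _).trans ?_
    rw [norm_one]; linarith
  have h7 : (1 - x) ^ k * S - 1 = (1 - x) ^ k * (S - 1 / (1 - x) ^ k) := by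
    have := pow_ne_zero k hne
    field_simp
  rw [h7, norm_mul, norm_pow, norm_sub_rev S]
  calc ‖1 - x‖ ^ k * ‖1 / (1 - x) ^ k - S‖ ≤ 2 ^ k * (η / 2 ^ k) :=
        mul_le_mul (pow_le_pow_left₀ (norm_nonneg _) hle k) h4 (norm_nonneg _) (by positivity)
    _ = η := by field_simp

lemma prod_close_c (P : Finset ℕ) {η : ℝ} (hη : 0 < η) : ∃ e : ℝ, 0 < e ∧ ∀ f : ℕ → ℂ, (∀ p ∈ P, ‖f p - 1‖ ≤ e) →
    ‖∏ p ∈ P, f p - 1‖ ≤ η := by
  classical
  induction P using Finset.induction_on generalizing η with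
  | empty => exact ⟨1, one_pos, fun f _ => by simpa using hη.le⟩
  | insert a P ha ih =>
    obtain ⟨e, he, h⟩ := ih (η := min (η / 3) 1) (lt_min (by positivity) one_pos)
    refine ⟨min e (min (η / 3) 1), lt_min he (lt_min (by positivity) one_pos), fun f hf => ?_⟩
    rw [prod_insert ha]
    have h1 := h f fun p hp => (hf p (mem_insert_of_mem hp)).trans (min_le_left _ _)
    have h2 := (hf a (mem_insert_self _ _)).trans (min_le_right _ _)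
    set x := f a
    set y := ∏ p ∈ P, f p
    have h3 : ‖y - 1‖ ≤ η / 3 := h1.trans (min_le_left _ _)
    have h4 : ‖y - 1‖ ≤ 1 := h1.trans (min_le_right _ _)
    have h5 : ‖x - 1‖ ≤ η / 3 := h2.trans (min_le_left _ _)
    have e1 : x * y - 1 = (x - 1) * (y - 1) + (x - 1) + (y - 1) := by ring
    rw [e1]
    refine (norm_add_le _ _).trans ?_
    refine (add_le_add (norm_add_le _ _) le_rfl).trans ?_
    rw [norm_mul]
    have h6 : ‖x - 1‖ * ‖y - 1‖ ≤ η / 3 * 1 := mul_le_mul h5 h4 (norm_nonneg _) (by positivity)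
    linarith

/-- the small primes -/
theorem Az_close {k : ℕ} (hk : 1 ≤ k) {ε : ℝ} (z : ℕ) (hε : 0 < ε) : ∃ K0 : ℕ, ∀ K : ℕ, K0 ≤ K → ∀ s : ℂ, 1 / 2 ≤ s.re →
    ‖es s (Pz z) ^ k * es s (Az k K z) - 1‖ ≤ ε := by
  obtain ⟨e, he, hp⟩ := prod_close_c (S0 z) hε
  have hr0 : (0:ℝ) < (2:ℝ) ^ (-(1 / 2 : ℝ)) := by positivity
  have hr1 : (2:ℝ) ^ (-(1 / 2 : ℝ)) < 1 := Real.rpow_lt_one_of_one_lt_of_neg (by norm_num) (by norm_num)
  obtain ⟨K0, hK0⟩ := loc_unif_c hk hr0 hr1 he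
  refine ⟨K0, fun K hK s hs => ?_⟩
  have h1 := hp (fun p => (1 - (p:ℂ) ^ (-s)) ^ k * ∑ j ∈ range (K + 1), (lc (k:ℝ) j : ℂ) * ((p:ℂ) ^ (-s)) ^ j)
    (fun p hpp => by
      have hpr := (mem_S0.mp hpp).2
      refine hK0 K hK _ ((norm_p_le hpr.two_le hs).trans ?_)
      exact Real.rpow_le_rpow_of_nonpos (by norm_num) (by exact_mod_cast hpr.two_le) (by norm_num))
  refine le_trans (le_of_eq ?_) h1
  congr 2
  rw [prod_mul_distrib]
  congr 1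
  · rw [es_Pz, ← prod_pow]
    rfl
  · unfold Az
    rw [map_prod]
    exact prod_congr rfl fun p hpp => by rw [es_Lp s (mem_S0.mp hpp).2]

/-- the inner product over the small primes -/
theorem Az_ip {α ε : ℝ} (z : ℕ) (hε : 0 < ε) : ∃ K0 : ℕ, ∀ K : ℕ, K0 ≤ K → ∀ δ : ℝ, 0 ≤ δ →
    (1 - ε) * ∏ p ∈ S0 z, Ed α δ p ≤ ip δ (Az α K z) (Az α K z) ∧
      ip δ (Az α K z) (Az α K z) ≤ ∏ p ∈ S0 z, Ed α δ p := by
  obtain ⟨e, he, hp⟩ := prod_close (S0 z) hε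
  have hloc : ∀ p ∈ S0 z, ∃ K0 : ℕ, ∀ K : ℕ, K0 ≤ K → ∀ δ : ℝ, 0 ≤ δ →
      Ed α δ p - ∑ i ∈ range (K + 1), lc α i ^ 2 * (rp δ p ^ 2) ^ i ≤ e := by
    intro p hpp
    have hpr := (mem_S0.mp hpp).2
    have hs := Ed_summable (α := α) (δ := 0) le_rfl hpr
    have ht := hs.hasSum.tendsto_sum_nat
    obtain ⟨K0, hK0⟩ := eventually_atTop.mp (ht.eventually (lt_mem_nhds (sub_lt_self _ he)))
    refine ⟨K0, fun K hK δ hδ => ?_⟩
    have h1 := hK0 (K + 1) (by omega)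
    have hsδ := Ed_summable (α := α) hδ hpr
    have h2 := hs.sum_add_tsum_compl (s := range (K + 1))
    have h3 := hsδ.sum_add_tsum_compl (s := range (K + 1))
    have h4 : ∑' i : ((range (K + 1) : Finset ℕ) : Set ℕ)ᶜ.Elem, lc α i ^ 2 * (rp δ p ^ 2) ^ (i:ℕ) ≤
        ∑' i : ((range (K + 1) : Finset ℕ) : Set ℕ)ᶜ.Elem, lc α i ^ 2 * (rp 0 p ^ 2) ^ (i:ℕ) := by
      refine (hsδ.subtype _).tsum_le_tsum (fun i => ?_) (hs.subtype _)
      have h8 := rp_sq_le hδ hpr.one_lt.le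
      rw [rp_zero_sq hpr]
      exact mul_le_mul_of_nonneg_left (pow_le_pow_left₀ (sq_nonneg _) h8 _) (sq_nonneg _)
    have h5 : Ed α δ p = ∑' i : ℕ, lc α i ^ 2 * (rp δ p ^ 2) ^ i := rfl
    rw [h5, ← h3]
    linarith
  choose! Kf hKf using hloc
  refine ⟨(S0 z).sup Kf, fun K hK δ hδ => ?_⟩
  have e1 : ip δ (Az α K z) (Az α K z) = ∏ p ∈ S0 z, ∑ i ∈ range (K + 1), lc α i ^ 2 * (rp δ p ^ 2) ^ i := by
    unfold Az
    rw [ip_prodP (S0 z) (fun p hpp => Lp_mem (mem_S0.mp hpp).2 α K) fun p hpp => Lp_mem (mem_S0.mp hpp).2 α K]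
    refine prod_congr rfl fun p hpp => ?_
    have h := ip_Lp δ α K (mem_S0.mp hpp).2 0
    rw [pow_zero] at h
    have e2 : (single 1 1 : P1) = 1 := rfl
    rw [e2, one_mul] at h
    rw [h]
    refine sum_congr rfl fun i _ => ?_
    rw [add_zero]; ring
  have hEd1 : ∀ p ∈ S0 z, 1 ≤ Ed α δ p := fun p hpp => Ed_ge_one hδ (mem_S0.mp hpp).2
  have hle : ∀ p ∈ S0 z, ∑ i ∈ range (K + 1), lc α i ^ 2 * (rp δ p ^ 2) ^ i ≤ Ed α δ p := fun p hpp =>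
    (Ed_summable (α := α) hδ (mem_S0.mp hpp).2).sum_le_tsum _ fun i _ => by positivity
  rw [e1]
  refine ⟨?_, prod_le_prod (fun p _ => sum_nonneg fun i _ => by positivity) hle⟩
  have hP0 : 0 < ∏ p ∈ S0 z, Ed α δ p := prod_pos fun p hpp => lt_of_lt_of_le one_pos (hEd1 p hpp)
  have h1 := hp (fun p => (∑ i ∈ range (K + 1), lc α i ^ 2 * (rp δ p ^ 2) ^ i) / Ed α δ p) fun p hpp => by
    have hE := hEd1 p hpp
    have hE0 : 0 < Ed α δ p := by linarith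
    have h2 := hKf p hpp K ((le_sup hpp).trans hK) δ hδ
    have h3 := hle p hpp
    rw [abs_le]
    constructor
    · rw [neg_le_sub_iff_le_add, ← sub_le_iff_le_add, le_div_iff₀ hE0]
      nlinarith
    · rw [sub_le_iff_le_add, div_le_iff₀ hE0]
      nlinarith
  rw [prod_div_distrib, abs_le] at h1
  have h2 := h1.1
  rw [neg_le_sub_iff_le_add, ← sub_le_iff_le_add, le_div_iff₀ hP0] at h2
  exact h2

/-- closeness on the good set, complex -/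
theorem on_good_c {J Rs : ℕ} {K : ℕ → ℕ} {k M : ℕ} {e1 ε : ℝ} (hkM : k ≤ M)
    (he1 : 0 < e1) (hε : 0 < ε) (hε1 : ε ≤ 1 / 10)
    (h1 : (1 + e1) ^ (2 * (M:ℝ)) ≤ 1 + ε)
    (hcl : ∀ i, Cl (K i) (k:ℝ) (RR Rs i))
    (h4 : 4 * Real.exp (-(2 * (Rs:ℝ))) ≤ ε / 4) (ζ P A : ℂ) (X : ℕ → ℂ) (hG : Gd J Rs e1 (ζ * P) X)
    (hPA : ‖P ^ k * A - 1‖ ≤ ε) :
    ‖ζ ^ k - A * ∏ i ∈ range J, NK (K i) (k:ℝ) (X i)‖ ≤ 5 * ε * ‖A * ∏ i ∈ range J, NK (K i) (k:ℝ) (X i)‖ := by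
  obtain ⟨hX, hv⟩ := hG
  obtain ⟨θ, hθ, hθe⟩ := prod_Cl hcl hX (h4.trans (by linarith))
  rw [hθe]
  have hθ4 := hθ.trans h4
  obtain ⟨S, hS⟩ : ∃ S, S = ∑ i ∈ range J, X i := ⟨_, rfl⟩
  rw [← hS] at hv ⊢
  obtain ⟨φ, hφ⟩ : ∃ φ, φ = P ^ k * A - 1 := ⟨_, rfl⟩
  rw [← hφ] at hPA
  obtain ⟨u, hu⟩ : ∃ u, u = ζ * P * Complex.exp (-S) - 1 := ⟨_, rfl⟩
  rw [← hu] at hv
  -- the power of `1 + u`
  have hu1 : ‖(1 + u) ^ k - 1‖ ≤ ε := by
    have h2 : ∀ m : ℕ, ‖(1 + u) ^ m - 1‖ ≤ (1 + e1) ^ m - 1 := by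
      intro m
      induction m with
      | zero => simp
      | succ m ih =>
        have e2 : (1 + u) ^ (m + 1) - 1 = ((1 + u) ^ m - 1) * (1 + u) + u := by ring
        rw [e2]
        refine (norm_add_le _ _).trans ?_
        rw [norm_mul]
        have h3 : ‖1 + u‖ ≤ 1 + e1 := (norm_add_le _ _).trans (by rw [norm_one]; linarith)
        have h5 : 0 ≤ (1 + e1) ^ m - 1 := by
          have : 1 ≤ (1 + e1) ^ m := one_le_pow₀ (by linarith)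
          linarith
        calc ‖(1 + u) ^ m - 1‖ * ‖1 + u‖ + ‖u‖ ≤ ((1 + e1) ^ m - 1) * (1 + e1) + e1 :=
              add_le_add (mul_le_mul ih h3 (norm_nonneg _) h5) hv
          _ = (1 + e1) ^ (m + 1) - 1 := by ring
    refine (h2 k).trans ?_
    have h3 : (1 + e1) ^ k ≤ (1 + e1) ^ (2 * (M:ℝ)) := by
      rw [← Real.rpow_natCast]
      refine Real.rpow_le_rpow_of_exponent_le (by linarith) ?_
      have : (k:ℝ) ≤ M := by exact_mod_cast hkM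
      have : (0:ℝ) ≤ M := Nat.cast_nonneg _
      linarith
    linarith
  have hexp : Complex.exp (-S) * Complex.exp S = 1 := by rw [← Complex.exp_add]; simp
  have hz : ζ * P = Complex.exp S * (1 + u) := by
    rw [hu]
    linear_combination (-(ζ * P)) * hexp
  have hPk : P ^ k ≠ 0 := by
    intro h
    rw [h, zero_mul, zero_sub] at hφ
    rw [hφ, norm_neg, norm_one] at hPA
    linarith
  have hA : A = (1 + φ) / P ^ k := by rw [hφ]; field_simp; ring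
  have hzk : ζ ^ k = Complex.exp S ^ k * (1 + u) ^ k / P ^ k := by
    rw [eq_div_iff hPk, ← mul_pow, hz, mul_pow]
  have he : Complex.exp (((k:ℝ):ℂ) * S) = Complex.exp S ^ k := by
    rw [← Complex.exp_nat_mul]; push_cast; rfl
  rw [he, hzk, hA]
  obtain ⟨E, hE⟩ : ∃ E, E = Complex.exp S ^ k / P ^ k := ⟨_, rfl⟩
  have e3 : Complex.exp S ^ k * (1 + u) ^ k / P ^ k - (1 + φ) / P ^ k * (Complex.exp S ^ k * (1 + θ)) =
      E * (((1 + u) ^ k - 1) - (φ + θ + φ * θ)) := by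
    rw [hE]; field_simp; ring
  have e4 : (1 + φ) / P ^ k * (Complex.exp S ^ k * (1 + θ)) = E * ((1 + φ) * (1 + θ)) := by
    rw [hE]; field_simp
  rw [e3, e4, norm_mul, norm_mul, norm_mul]
  have a1 : 1 - ε ≤ ‖1 + φ‖ := by
    have := norm_sub_norm_le (1:ℂ) (-φ)
    rw [norm_one, norm_neg, sub_neg_eq_add] at this
    linarith
  have a2 : 1 - ε / 4 ≤ ‖1 + θ‖ := by
    have := norm_sub_norm_le (1:ℂ) (-θ)
    rw [norm_one, norm_neg, sub_neg_eq_add] at this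
    linarith
  have a3 : ‖((1 + u) ^ k - 1) - (φ + θ + φ * θ)‖ ≤ ε + (ε + ε / 4 + ε * (ε / 4)) := by
    refine (norm_sub_le _ _).trans (add_le_add hu1 ?_)
    refine (norm_add_le _ _).trans (add_le_add ((norm_add_le _ _).trans (add_le_add hPA hθ4)) ?_)
    rw [norm_mul]
    exact mul_le_mul hPA hθ4 (norm_nonneg _) hε.le
  have a4 : (1 - ε) * (1 - ε / 4) ≤ ‖1 + φ‖ * ‖1 + θ‖ := mul_le_mul a1 a2 (by linarith) (norm_nonneg _)
  have a5 : ε + (ε + ε / 4 + ε * (ε / 4)) ≤ 5 * ε * ((1 - ε) * (1 - ε / 4)) := by nlinarith [mul_pos hε hε, mul_pos (mul_pos hε hε) hε]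
  calc ‖E‖ * ‖((1 + u) ^ k - 1) - (φ + θ + φ * θ)‖ ≤ ‖E‖ * (5 * ε * (‖1 + φ‖ * ‖1 + θ‖)) := by
        refine mul_le_mul_of_nonneg_left (a3.trans (a5.trans ?_)) (norm_nonneg _)
        exact mul_le_mul_of_nonneg_left a4 (by positivity)
    _ = 5 * ε * (‖E‖ * (‖1 + φ‖ * ‖1 + θ‖)) := by ring

end Pool.Agent.Y753.NL
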