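import Pool.Agent.Y753.NL.Pw1

set_option autoImplicit false

/-! Domination of coefficients and the Dirichlet polynomials of the powers. -/

namespace Pool.Agent.Y753.NL

open Finset Filter MeasureTheory MonoidAlgebra Topology
open Pool.Agent.Y755
open Pool.Agent.W184.NZ
open Pool.Agent.W184 (zn zn_nonneg zn_cont zn_le')
open Pool.Agent.H306R2 (lc lc_zero lc_nonneg lc_pos lc_summable dv dv_nonneg dv_prime_pow dv_one)

/-- the coefficient of a product -/
lemma coeff_mul_eq {f g : P1} {S S' : Finset ℕ} (hf : f.coeff.support ⊆ S) (hg : g.coeff.support ⊆ S') (n : ℕ) :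
    (f * g).coeff n = ∑ a ∈ S, ∑ b ∈ S', if a * b = n then f.coeff a * g.coeff b else 0 := by
  classical
  have e1 : f = ∑ a ∈ S, single a (f.coeff a) := by
    conv_lhs => rw [P1_sum f]
    refine sum_subset hf fun n _ hn => ?_
    rw [Finsupp.notMem_support_iff.mp hn, single_zero]
  have e2 : g = ∑ b ∈ S', single b (g.coeff b) := by
    conv_lhs => rw [P1_sum g]
    refine sum_subset hg fun n _ hn => ?_
    rw [Finsupp.notMem_support_iff.mp hn, single_zero]
  have e3 : f * g = ∑ a ∈ S, ∑ b ∈ S', single (a * b) (f.coeff a * g.coeff b) := by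
    conv_lhs => rw [e1, e2]
    rw [sum_mul]
    refine sum_congr rfl fun a _ => ?_
    rw [mul_sum]
    refine sum_congr rfl fun b _ => ?_
    rw [single_mul_single]
  rw [e3, coeff_sum, Finsupp.finsetSum_apply]
  refine sum_congr rfl fun a _ => ?_
  rw [coeff_sum, Finsupp.finsetSum_apply]
  refine sum_congr rfl fun b _ => ?_
  rw [coeff_single, Finsupp.single_apply]

/-- coefficientwise order -/
def Le (f g : P1) : Prop := ∀ n, 0 ≤ f.coeff n ∧ f.coeff n ≤ g.coeff n

lemma Le.nn {f g : P1} (h : Le f g) : Le g g := fun n => ⟨(h n).1.trans (h n).2, le_rfl⟩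

lemma Le.nl {f g : P1} (h : Le f g) : Le f f := fun n => ⟨(h n).1, le_rfl⟩

lemma Le.trans {f g h : P1} (h1 : Le f g) (h2 : Le g h) : Le f h := fun n => ⟨(h1 n).1, (h1 n).2.trans (h2 n).2⟩

lemma Le.mul {f g f' g' : P1} (h1 : Le f g) (h2 : Le f' g') : Le (f * f') (g * g') := by
  classical
  intro n
  have hS := coeff_mul_eq (f := f) (g := f') (S := f.coeff.support ∪ g.coeff.support)
    (S' := f'.coeff.support ∪ g'.coeff.support) subset_union_left subset_union_left n
  have hS2 := coeff_mul_eq (f := g) (g := g') (S := f.coeff.support ∪ g.coeff.support)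
    (S' := f'.coeff.support ∪ g'.coeff.support) subset_union_right subset_union_right n
  rw [hS, hS2]
  refine ⟨sum_nonneg fun a _ => sum_nonneg fun b _ => ?_, sum_le_sum fun a _ => sum_le_sum fun b _ => ?_⟩
  · split_ifs
    · exact mul_nonneg (h1 a).1 (h2 b).1
    · exact le_rfl
  · split_ifs
    · exact mul_le_mul (h1 a).2 (h2 b).2 (h2 b).1 ((h1 a).1.trans (h1 a).2)
    · exact le_rfl

lemma Le.add {f g f' g' : P1} (h1 : Le f g) (h2 : Le f' g') : Le (f + f') (g + g') := by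
  intro n
  rw [coeff_add, coeff_add, Finsupp.add_apply, Finsupp.add_apply]
  exact ⟨add_nonneg (h1 n).1 (h2 n).1, add_le_add (h1 n).2 (h2 n).2⟩

lemma Le.smul {f g : P1} (h : Le f g) {c : ℝ} (hc : 0 ≤ c) : Le (c • f) (c • g) := by
  intro n
  rw [coeff_smul, coeff_smul, Finsupp.smul_apply, Finsupp.smul_apply, smul_eq_mul, smul_eq_mul]
  exact ⟨mul_nonneg hc (h n).1, mul_le_mul_of_nonneg_left (h n).2 hc⟩

lemma Le.one : Le 1 1 := by
  intro n
  refine ⟨?_, le_rfl⟩
  rw [MonoidAlgebra.one_def, coeff_single, Finsupp.single_apply]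
  split_ifs <;> norm_num

lemma Le.zero {f : P1} (h : Le f f) : Le 0 f := by
  intro n
  refine ⟨by simp, ?_⟩
  simpa using (h n).1

lemma Le.pow {f g : P1} (h : Le f g) (m : ℕ) : Le (f ^ m) (g ^ m) := by
  induction m with
  | zero => rw [pow_zero, pow_zero]; exact Le.one
  | succ m ih => rw [pow_succ, pow_succ]; exact ih.mul h

lemma Le.sum {ι : Type*} {s : Finset ι} {f g : ι → P1} (h : ∀ i ∈ s, Le (f i) (g i)) : Le (∑ i ∈ s, f i) (∑ i ∈ s, g i) := by
  classical
  induction s using Finset.induction_on with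
  | empty =>
    intro n
    simp
  | insert a s ha ih =>
    rw [sum_insert ha, sum_insert ha]
    exact (h a (mem_insert_self _ _)).add (ih fun i hi => h i (mem_insert_of_mem hi))

lemma Le.prod {ι : Type*} {s : Finset ι} {f g : ι → P1} (h : ∀ i ∈ s, Le (f i) (g i)) : Le (∏ i ∈ s, f i) (∏ i ∈ s, g i) := by
  classical
  induction s using Finset.induction_on with
  | empty => simp only [prod_empty]; exact Le.one
  | insert a s ha ih =>
    rw [prod_insert ha, prod_insert ha]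
    exact (h a (mem_insert_self _ _)).mul (ih fun i hi => h i (mem_insert_of_mem hi))

lemma Le.single {n : ℕ} {c d : ℝ} (hc : 0 ≤ c) (h : c ≤ d) : Le (single n c) (single n d) := by
  intro m
  rw [coeff_single, coeff_single, Finsupp.single_apply, Finsupp.single_apply]
  split_ifs
  · exact ⟨hc, h⟩
  · exact ⟨le_rfl, le_rfl⟩

/-- the truncated exponential of a sum -/
lemma NK_add_le (K : ℕ) {a : ℝ} (ha : 0 ≤ a) {x y : P1} (hx : Le x x) (hy : Le y y) :
    Le (NK K a (x + y)) (NK K a x * NK K a y) := by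
  classical
  obtain ⟨t, ht⟩ : ∃ t : ℕ × ℕ → P1, ∀ q, t q = (a ^ q.1 / (q.1.factorial : ℝ) * (a ^ q.2 / (q.2.factorial : ℝ))) • (x ^ q.1 * y ^ q.2) :=
    ⟨_, fun _ => rfl⟩
  have ht0 : ∀ q, Le (t q) (t q) := fun q => by
    rw [ht]
    exact ((hx.pow _).mul (hy.pow _)).smul (by positivity)
  have e1 : NK K a x * NK K a y = ∑ q ∈ range (K + 1) ×ˢ range (K + 1), t q := by
    unfold NK
    rw [sum_mul_sum, ← sum_product']
    refine sum_congr rfl fun q _ => ?_
    rw [ht, smul_mul_smul_comm]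
  have e2 : NK K a (x + y) = ∑ q ∈ (range (K + 1) ×ˢ range (K + 1)).filter (fun q => q.1 + q.2 ≤ K), t q := by
    rw [← sum_fiberwise_of_maps_to (g := fun q : ℕ × ℕ => q.1 + q.2) (t := range (K + 1)) (fun q hq => by
      rw [mem_filter] at hq
      rw [mem_range]; omega)]
    unfold NK
    refine sum_congr rfl fun m hm => ?_
    rw [mem_range] at hm
    have e3 : ((range (K + 1) ×ˢ range (K + 1)).filter (fun q => q.1 + q.2 ≤ K)).filter (fun q => q.1 + q.2 = m) =
        antidiagonal m := by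
      ext q
      simp only [mem_filter, mem_product, mem_range, HasAntidiagonal.mem_antidiagonal]
      omega
    rw [e3, (Commute.all x y).add_pow', smul_sum]
    refine sum_congr rfl fun q hq => ?_
    rw [HasAntidiagonal.mem_antidiagonal] at hq
    rw [ht, ← Nat.cast_smul_eq_nsmul ℝ, smul_smul]
    congr 1
    have h1 : (m.choose q.1 : ℝ) * (q.1.factorial : ℝ) * (q.2.factorial : ℝ) = (m.factorial : ℝ) := by
      have := Nat.choose_mul_factorial_mul_factorial (n := m) (k := q.1) (by omega)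
      have h2 : m - q.1 = q.2 := by omega
      rw [h2] at this
      exact_mod_cast this
    have h3 : (m.factorial : ℝ) ≠ 0 := by positivity
    have h4 : (q.1.factorial : ℝ) ≠ 0 := by positivity
    have h5 : (q.2.factorial : ℝ) ≠ 0 := by positivity
    rw [← hq, pow_add]
    rw [← hq] at h1 h3
    field_simp
    rw [← h1]
    ring
  rw [e1, e2, ← sum_filter_add_sum_filter_not (range (K + 1) ×ˢ range (K + 1)) (fun q => q.1 + q.2 ≤ K)]
  have h1 : Le (∑ q ∈ (range (K + 1) ×ˢ range (K + 1)).filter (fun q => q.1 + q.2 ≤ K), t q + 0)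
      (∑ q ∈ (range (K + 1) ×ˢ range (K + 1)).filter (fun q => q.1 + q.2 ≤ K), t q +
        ∑ q ∈ (range (K + 1) ×ˢ range (K + 1)).filter (fun q => ¬ (q.1 + q.2 ≤ K)), t q) :=
    (Le.sum fun q _ => ht0 q).add (Le.zero (Le.sum fun q _ => ht0 q))
  rwa [add_zero] at h1

lemma pow_le_lc {a : ℝ} (ha : 0 ≤ a) (j : ℕ) : a ^ j / (j.factorial : ℝ) ≤ lc a j := by
  unfold lc
  rw [← Finset.prod_range_add_one_eq_factorial]
  push_cast
  have e1 : a ^ j / ∏ i ∈ range j, ((i:ℝ) + 1) = ∏ i ∈ range j, (a / ((i:ℝ) + 1)) := by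
    rw [prod_div_distrib, prod_const, card_range]
  rw [e1]
  refine prod_le_prod (fun i _ => by positivity) fun i _ => ?_
  gcongr
  have : (0:ℝ) ≤ i := Nat.cast_nonneg i
  linarith

lemma NK_single_le (K : ℕ) {a : ℝ} (ha : 0 ≤ a) (p : ℕ) : Le (NK K a (single p 1 : P1)) (Lp a K p) := by
  unfold NK Lp
  refine Le.sum fun j _ => ?_
  rw [single_pow, one_pow, smul_single, smul_eq_mul, mul_one]
  exact Le.single (by positivity) (pow_le_lc ha j)

lemma x1_nn (I : Finset ℕ) : Le (x1 I) (x1 I) := by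
  unfold x1
  exact Le.sum fun p _ => Le.single zero_le_one le_rfl

lemma NK_x1_le (K : ℕ) {a : ℝ} (ha : 0 ≤ a) (I : Finset ℕ) : Le (NK K a (x1 I)) (∏ p ∈ I, Lp a K p) := by
  classical
  induction I using Finset.induction_on with
  | empty =>
    have h1 : NK K a (x1 ∅) = 1 := by
      unfold NK x1
      rw [sum_empty, sum_range_succ', sum_eq_zero]
      · simp
      · intro k _
        rw [zero_pow (by omega), smul_zero]
    rw [h1, prod_empty]
    exact Le.one
  | insert p I hp ih =>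
    have e1 : x1 (insert p I) = single p 1 + x1 I := by
      unfold x1
      rw [sum_insert hp]
    rw [e1, prod_insert hp]
    exact (NK_add_le K ha (Le.single zero_le_one le_rfl) (x1_nn I)).trans ((NK_single_le K ha p).mul ih)

/-- domination by the coefficients of the power -/
def Dom (a : ℝ) (S : Finset ℕ) (f : P1) : Prop := f ∈ SA1 (M1 S) ∧ ∀ n, 0 ≤ f.coeff n ∧ f.coeff n ≤ dv a n

lemma cop_of {S S' : Finset ℕ} (h : Disjoint S S') {a b : ℕ} (ha : a ∈ M1 S) (hb : b ∈ M1 S') : a.Coprime b :=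
  Nat.Coprime.symm (Nat.coprime_of_dvd fun p hp h1 h2 => disjoint_left.mp h (ha.2 p hp h2) (hb.2 p hp h1))

lemma Dom.mul {a : ℝ} (ha : 0 ≤ a) {S S' : Finset ℕ} (hS : Disjoint S S') {f g : P1} (hf : Dom a S f) (hg : Dom a S' g) :
    Dom a (S ∪ S') (f * g) := by
  classical
  refine ⟨Subalgebra.mul_mem _ (SA1_mono subset_union_left hf.1) (SA1_mono subset_union_right hg.1), fun n => ?_⟩
  rw [coeff_mul_eq (subset_refl _) (subset_refl _) n]
  rw [← sum_product']
  refine ⟨sum_nonneg fun q _ => ?_, ?_⟩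
  · split_ifs
    · exact mul_nonneg (hf.2 _).1 (hg.2 _).1
    · exact le_rfl
  · rw [← sum_filter]
    have hcard : ((f.coeff.support ×ˢ g.coeff.support).filter (fun q => q.1 * q.2 = n)).card ≤ 1 := by
      rw [card_le_one]
      intro q hq q' hq'
      simp only [mem_filter, mem_product] at hq hq'
      have a1 := hf.1 _ hq.1.1
      have a2 := hg.1 _ hq.1.2
      have b1 := hf.1 _ hq'.1.1
      have b2 := hg.1 _ hq'.1.2
      have e1 : q.1 * q.2 = q'.1 * q'.2 := by rw [hq.2, hq'.2]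
      have c1 : q.1 ∣ q'.1 := (cop_of hS a1 b2).dvd_of_dvd_mul_right (e1 ▸ dvd_mul_right _ _)
      have c2 : q'.1 ∣ q.1 := (cop_of hS b1 a2).dvd_of_dvd_mul_right (e1 ▸ dvd_mul_right _ _)
      have h1 : q.1 = q'.1 := Nat.dvd_antisymm c1 c2
      have h2 : q.2 = q'.2 := by
        rw [h1] at e1
        exact Nat.eq_of_mul_eq_mul_left (Nat.pos_of_ne_zero b1.1) e1
      exact Prod.ext h1 h2
    rw [card_le_one_iff_subset_singleton] at hcard
    obtain ⟨q, hq⟩ := hcard
    rcases subset_singleton_iff.mp hq with h | h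
    · rw [h, sum_empty]; exact dv_nonneg ha n
    · have hqm : q ∈ (f.coeff.support ×ˢ g.coeff.support).filter (fun q => q.1 * q.2 = n) := by rw [h]; exact mem_singleton_self _
      rw [h, sum_singleton]
      simp only [mem_filter, mem_product] at hqm
      rw [← hqm.2, dv_mul_cop a (cop_of hS (hf.1 _ hqm.1.1) (hg.1 _ hqm.1.2))]
      exact mul_le_mul (hf.2 _).2 (hg.2 _).2 (hg.2 _).1 (dv_nonneg ha _)

lemma Dom.one {a : ℝ} (ha : 0 ≤ a) : Dom a ∅ 1 := by
  refine ⟨Subalgebra.one_mem _, fun n => ?_⟩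
  rw [MonoidAlgebra.one_def, coeff_single, Finsupp.single_apply]
  split_ifs with h
  · rw [← h, dv_one]; norm_num
  · exact ⟨le_rfl, dv_nonneg ha n⟩

lemma Dom.Lp {a : ℝ} (ha : 0 ≤ a) (K : ℕ) {p : ℕ} (hp : p.Prime) : Dom a {p} (NL.Lp a K p) := by
  classical
  refine ⟨Lp_mem hp a K, fun n => ?_⟩
  unfold NL.Lp
  rw [coeff_sum, Finsupp.finsetSum_apply]
  simp_rw [coeff_single, Finsupp.single_apply]
  by_cases h : ∃ j ∈ range (K + 1), p ^ j = n
  · obtain ⟨j, hj, hjn⟩ := h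
    rw [sum_eq_single j (fun i _ hij => if_neg fun h1 => hij (Nat.pow_right_injective hp.two_le (h1.trans hjn.symm)))
      (fun h1 => absurd hj h1), if_pos hjn, ← hjn, dv_prime_pow a hp]
    exact ⟨lc_nonneg ha j, le_rfl⟩
  · rw [sum_eq_zero fun i hi => if_neg fun h1 => h ⟨i, hi, h1⟩]
    exact ⟨le_rfl, dv_nonneg ha n⟩

lemma Dom.prodLp {a : ℝ} (ha : 0 ≤ a) (K : ℕ) (S : Finset ℕ) (hS : ∀ p ∈ S, p.Prime) : Dom a S (∏ p ∈ S, NL.Lp a K p) := by
  classical
  induction S using Finset.induction_on with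
  | empty => rw [prod_empty]; exact Dom.one ha
  | insert p S hp ih =>
    rw [prod_insert hp, insert_eq]
    exact (Dom.Lp ha K (hS p (mem_insert_self _ _))).mul ha (disjoint_singleton_left.mpr hp)
      (ih fun q hq => hS q (mem_insert_of_mem hq))

lemma Dom.of_le {a : ℝ} {S : Finset ℕ} {f g : P1} (hf : f ∈ SA1 (M1 S)) (h : Le f g) (hg : Dom a S g) : Dom a S f :=
  ⟨hf, fun n => ⟨(h n).1, (h n).2.trans (hg.2 n).2⟩⟩

/-- the comparison polynomial is dominated -/
theorem ABm_dom {M : ℕ} {c y : ℝ} {z J Rs N K : ℕ} (h : Sy c z y J Rs N K) {a : ℝ} (ha : 0 ≤ a) (K0 : ℕ) (n : ℕ) :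
    0 ≤ (Az a K0 z * Bm M a z y J Rs).coeff n ∧ (Az a K0 z * Bm M a z y J Rs).coeff n ≤ dv a n := by
  classical
  have h1 : Dom a (S0 z) (Az a K0 z) := Dom.prodLp ha K0 _ fun p hp => (mem_S0.mp hp).2
  have h2 : ∀ J' : ℕ, Dom a ((range J').biUnion (IZ z y)) (Bm M a z y J' Rs) := by
    intro J'
    induction J' with
    | zero =>
      have e1 : Bm M a z y 0 Rs = 1 := by unfold Bm; simp
      rw [e1, range_zero, biUnion_empty]
      exact Dom.one ha
    | succ J' ih =>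
      have e1 : Bm M a z y (J' + 1) Rs = Bm M a z y J' Rs * NK (20 * (M * RR Rs J')) a (x1 (IZ z y J')) := by
        unfold Bm; rw [prod_range_succ]
      have e2 : (range (J' + 1)).biUnion (IZ z y) = (range J').biUnion (IZ z y) ∪ IZ z y J' := by
        rw [range_add_one, biUnion_insert, union_comm]
      rw [e1, e2]
      refine ih.mul ha ?_ (Dom.of_le (NK_mem1 (x1_mem (IZ_prime J')) _ _) (NK_x1_le _ ha _)
        (Dom.prodLp ha _ _ fun p hp => IZ_prime J' p hp))
      rw [disjoint_biUnion_left]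
      intro i hi
      exact IZ_dj h i J' (mem_range.mp hi)
  have h3 : Disjoint (S0 z) ((range J).biUnion (IZ z y)) := by
    rw [disjoint_biUnion_right]
    intro i _
    rw [disjoint_left]
    intro p hp hp2
    have h4 := (mem_S0.mp hp).1
    unfold IZ at hp2
    rw [mem_filter] at hp2
    omega
  exact (h1.mul ha h3 (h2 J)).2 n

/-- the Dirichlet polynomial of the power -/
noncomputable def DN (a : ℝ) (N : ℕ) : P1 := ∑ n ∈ Icc 1 N, single n (dv a n)

lemma DN_coeff (a : ℝ) (N n : ℕ) : (DN a N).coeff n = if n ∈ Icc 1 N then dv a n else 0 := by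
  classical
  unfold DN
  rw [coeff_sum, Finsupp.finsetSum_apply]
  simp_rw [coeff_single, Finsupp.single_apply]
  rw [sum_ite_eq' (Icc 1 N) n (fun m => dv a m)]

lemma DN_supp (a : ℝ) (N : ℕ) : (DN a N).coeff.support ⊆ Icc 1 N := by
  intro n hn
  rw [Finsupp.mem_support_iff, DN_coeff] at hn
  by_contra h
  rw [if_neg h] at hn
  exact hn rfl

lemma DN_Bd (a : ℝ) (N : ℕ) : Bd1 N (DN a N) := by
  intro n hn
  have := mem_Icc.mp (DN_supp a N hn)
  exact ⟨by omega, by exact_mod_cast this.2⟩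

lemma es_DN (s : ℂ) (a : ℝ) (N : ℕ) : es s (DN a N) = ∑ n ∈ Icc 1 N, (dv a n : ℂ) * (n:ℂ) ^ (-s) := by
  unfold DN
  rw [map_sum]
  exact sum_congr rfl fun n _ => es_single s n _

lemma ip_DN (a δ : ℝ) (N : ℕ) : ip δ (DN a N) (DN a N) = ∑ n ∈ Icc 1 N, dv a n ^ 2 * wδ δ n := by
  rw [ip_eq δ _ _ (DN_supp a N)]
  refine sum_congr rfl fun n hn => ?_
  rw [DN_coeff, if_pos hn]; ring

lemma ip_DN_le {a δ : ℝ} (ha : 0 < a) (hδ : 0 < δ) (N : ℕ) : ip δ (DN a N) (DN a N) ≤ DD a δ := by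
  rw [ip_DN]
  exact (g2_summable ha hδ).sum_le_tsum _ fun n _ => g2_nonneg a δ n

lemma ip_f_DN {a δ : ℝ} {N : ℕ} {f : P1} (hf : Bd1 N f) (hd : ∀ n, 0 ≤ f.coeff n ∧ f.coeff n ≤ dv a n) :
    ip δ f f ≤ ip δ f (DN a N) := by
  have hs : f.coeff.support ⊆ Icc 1 N := by
    intro n hn
    have := hf n hn
    rw [mem_Icc]
    exact ⟨Nat.pos_of_ne_zero this.1, by exact_mod_cast this.2⟩
  rw [ip_eq δ f f hs, ip_eq δ f (DN a N) hs]
  refine sum_le_sum fun n hn => ?_
  rw [DN_coeff, if_pos hn]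
  have h1 := hd n
  have h2 := wδ_nonneg δ n
  exact mul_le_mul_of_nonneg_right (mul_le_mul_of_nonneg_left h1.2 h1.1) h2

lemma DN_l1 {a δ : ℝ} (ha : 0 < a) (hδ : 0 < δ) (hδ1 : δ ≤ 1 / 2) (N : ℕ) : l1' (DN a N) ^ 2 ≤ DD a δ * (N:ℝ) ^ 3 := by
  have e1 : l1' (DN a N) = ∑ n ∈ Icc 1 N, dv a n := by
    rw [l1'_eq (DN_supp a N)]
    refine sum_congr rfl fun n hn => ?_
    rw [DN_coeff, if_pos hn, abs_of_nonneg (dv_nonneg ha.le n)]
  rw [e1]
  have h1 := sum_mul_sq_le_sq_mul_sq (Icc 1 N) (fun n => dv a n * √(wδ δ n)) (fun n => (√(wδ δ n))⁻¹)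
  have hw : ∀ n ∈ Icc 1 N, 0 < wδ δ n := fun n hn => by
    unfold wδ
    have : (0:ℝ) < n := by exact_mod_cast (mem_Icc.mp hn).1
    positivity
  have e2 : ∑ n ∈ Icc 1 N, (dv a n * √(wδ δ n)) * (√(wδ δ n))⁻¹ = ∑ n ∈ Icc 1 N, dv a n := by
    refine sum_congr rfl fun n hn => ?_
    have := (Real.sqrt_pos.mpr (hw n hn)).ne'
    field_simp
  have e3 : ∑ n ∈ Icc 1 N, (dv a n * √(wδ δ n)) ^ 2 = ip δ (DN a N) (DN a N) := by
    rw [ip_DN]
    refine sum_congr rfl fun n hn => ?_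
    rw [mul_pow, Real.sq_sqrt (hw n hn).le]
  have e4 : ∑ n ∈ Icc 1 N, ((√(wδ δ n))⁻¹) ^ 2 ≤ (N:ℝ) ^ 3 := by
    have h2 : ∀ n ∈ Icc 1 N, ((√(wδ δ n))⁻¹) ^ 2 ≤ (N:ℝ) ^ 2 := by
      intro n hn
      rw [inv_pow, Real.sq_sqrt (hw n hn).le]
      have hn1 := mem_Icc.mp hn
      have hn0 : (1:ℝ) ≤ n := by exact_mod_cast hn1.1
      have hn2 : (n:ℝ) ≤ N := by exact_mod_cast hn1.2
      unfold wδ
      rw [mul_inv, ← Real.rpow_neg (by linarith), neg_neg, one_div, inv_inv]
      have h3 : (n:ℝ) ^ (2 * δ) ≤ n := by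
        calc (n:ℝ) ^ (2 * δ) ≤ (n:ℝ) ^ (1:ℝ) := Real.rpow_le_rpow_of_exponent_le hn0 (by linarith)
          _ = n := Real.rpow_one _
      calc (n:ℝ) ^ (2 * δ) * n ≤ n * n := mul_le_mul_of_nonneg_right h3 (by linarith)
        _ ≤ N * N := mul_le_mul hn2 hn2 (by linarith) (by linarith)
        _ = (N:ℝ) ^ 2 := by ring
    refine (sum_le_sum h2).trans (le_of_eq ?_)
    rw [sum_const, Nat.card_Icc, nsmul_eq_mul]
    push_cast
    ring
  rw [e2, e3] at h1
  refine h1.trans ?_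
  have h5 := ip_DN_le ha hδ N
  have h6 := ip_self_nonneg δ (DN a N)
  exact mul_le_mul h5 e4 (sum_nonneg fun n _ => sq_nonneg _) (h6.trans h5)

end Pool.Agent.Y753.NL
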