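import Pool.Agent.Y753.NL.Pw2

set_option autoImplicit false

/-! Powers of zeta and their Dirichlet polynomials over a window. -/

namespace Pool.Agent.Y753.NL

open Finset Filter MeasureTheory MonoidAlgebra Topology
open Pool.Agent.Y755
open Pool.Agent.W184.NZ
open Pool.Agent.W184 (zn zn_nonneg zn_cont zn_le')

lemma zl_cont {δ : ℝ} (hδ : δ < 1 / 2) : Continuous fun t : ℝ => riemannZeta (1 / 2 + δ + t * Complex.I) := by
  rw [continuous_iff_continuousAt]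
  intro t
  have h1 : (1 / 2 + (δ:ℂ) + t * Complex.I) ≠ 1 := by
    intro h
    have h2 := congrArg Complex.re h
    rw [half_re, Complex.one_re] at h2
    linarith
  have h2 : ContinuousAt (fun t : ℝ => (1 / 2 + (δ:ℂ) + t * Complex.I)) t := by fun_prop
  exact ContinuousAt.comp (f := fun t : ℝ => (1 / 2 + (δ:ℂ) + t * Complex.I)) (differentiableAt_riemannZeta h1).continuousAt h2

lemma es_lc (δ : ℝ) {N : ℝ} {f : P1} (hf : Bd1 N f) : Continuous fun t : ℝ => es (1 / 2 + δ + t * Complex.I) f := by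
  simp_rw [es_apply]
  refine continuous_finsetSum _ fun n hn => continuous_const.mul ?_
  have hn0 : (n:ℂ) ≠ 0 := by exact_mod_cast (hf n hn).1
  exact Continuous.const_cpow (by fun_prop) (Or.inl hn0)

lemma sq_two (a b : ℂ) : ‖a + b‖ ^ 2 ≤ 2 * ‖a‖ ^ 2 + 2 * ‖b‖ ^ 2 := by
  have h1 := norm_add_le a b
  have h2 : ‖a + b‖ ^ 2 ≤ (‖a‖ + ‖b‖) ^ 2 := pow_le_pow_left₀ (norm_nonneg _) h1 2
  nlinarith [sq_nonneg (‖a‖ - ‖b‖)]

/-- the arithmetic of the proof -/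
lemma arith_pw {ε e X1 X2 M0 D ff fD DD' FF EF Ef IF If et : ℝ} (hε : 0 < ε) (hε1 : ε ≤ 1 / 10) (he : e ≤ ε / 100)
    (he0 : 0 ≤ et) (het : et ≤ e) (hX1 : 0 ≤ X1) (hX12 : X1 ≤ X2) (hD : 1 ≤ D) (hM0 : 0 ≤ M0)
    (h1 : M0 ≤ (1 + 2 * ε) * D) (h2 : (1 - 2 * ε) * D ≤ M0) (h3 : (1 - et) * M0 ≤ ff) (h4 : ff ≤ Real.exp et * M0)
    (h5 : FF = ff - 2 * fD + DD') (h6 : ff ≤ fD) (h7 : DD' ≤ D) (h8 : 0 ≤ FF)
    (h9 : |IF - (X2 - X1) * FF| ≤ EF) (h10 : EF ≤ ε * (X2 * D)) (h11 : |If - (X2 - X1) * ff| ≤ Ef)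
    (h12 : Ef ≤ ε * (X2 * D)) : IF ≤ 4 * ε * (X2 * D) ∧ If ≤ 2 * (X2 * D) := by
  have hX2 : 0 ≤ X2 := hX1.trans hX12
  have hexp : Real.exp et ≤ 1 + 2 * et := exp_le_two he0 (by linarith)
  have hXD : 0 ≤ X2 * D := by positivity
  have a1 : (1 - ε / 100) * ((1 - 2 * ε) * D) ≤ ff := by
    calc (1 - ε / 100) * ((1 - 2 * ε) * D) ≤ (1 - et) * M0 :=
          mul_le_mul (by linarith) h2 (mul_nonneg (by linarith) (by linarith)) (by linarith)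
      _ ≤ ff := h3
  have a2 : (1 - 3 * ε) * D ≤ ff := by
    refine le_trans ?_ a1
    have : (1 - 3 * ε) ≤ (1 - ε / 100) * (1 - 2 * ε) := by nlinarith
    calc (1 - 3 * ε) * D ≤ ((1 - ε / 100) * (1 - 2 * ε)) * D := mul_le_mul_of_nonneg_right this (by linarith)
      _ = _ := by ring
  have a3 : FF ≤ 3 * ε * D := by linarith
  have a4 : (X2 - X1) * FF ≤ X2 * (3 * ε * D) :=
    mul_le_mul (by linarith) a3 h8 hX2
  constructor
  · have := (abs_le.mp h9).2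
    linarith
  · have b1 : ff ≤ 3 / 2 * D := by
      calc ff ≤ Real.exp et * M0 := h4
        _ ≤ (1 + 2 * et) * ((1 + 2 * ε) * D) := mul_le_mul hexp h1 hM0 (by linarith)
        _ = ((1 + 2 * et) * (1 + 2 * ε)) * D := by ring
        _ ≤ 3 / 2 * D := mul_le_mul_of_nonneg_right (by nlinarith) (by linarith)
    have hff : 0 ≤ ff := le_trans (mul_nonneg (by linarith) (by linarith)) a2
    have b2 : (X2 - X1) * ff ≤ X2 * (3 / 2 * D) := mul_le_mul (by linarith) b1 hff hX2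
    have := (abs_le.mp h11).2
    nlinarith

/-- the window -/
theorem win3 {M z Rs : ℕ} {ε e1 c η d x0 : ℝ} (P : Pk M z Rs ε e1 c η d x0) {k : ℕ} (hk : 1 ≤ k) (hkM : k ≤ M) :
    ∃ lam : ℝ, 1 ≤ lam ∧ ∀ᶠ T : ℝ in atTop, ∀ δ : ℝ, lam / Real.log T ≤ δ → δ ≤ 1 / 16 →
      ∀ J : ℕ, PJ c z η Rs d T J →
      ∫ t in Set.Ioc (T ^ ((4:ℝ)/5)) (T / 2) ∩ Gh z (yT η T) J Rs e1 δ,
        ‖riemannZeta (1 / 2 + δ + t * Complex.I) ^ k - es (1 / 2 + δ + t * Complex.I) (DN k ⌊T ^ ((1:ℝ)/10)⌋₊)‖ ^ 2 ≤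
          18 * ε * (T / 2 * DD k δ) := by
  have hM1 : (1:ℝ) ≤ M := by exact_mod_cast P.M1
  have hε := P.e0
  have hε1 := P.e01
  have he1 := P.e10
  have he11 := P.e11
  have hη := P.η0
  have hk0 : (0:ℝ) < k := by exact_mod_cast hk
  have hk1 : (1:ℝ) ≤ k := by exact_mod_cast hk
  have hkM' : (k:ℝ) ≤ M := by exact_mod_cast hkM
  obtain ⟨K1, hK1⟩ := Az_close hk z hε
  obtain ⟨K2, hK2⟩ := Az_ip (α := (k:ℝ)) z hε
  obtain ⟨K0, hK01, hK02⟩ : ∃ K0 : ℕ, K1 ≤ K0 ∧ K2 ≤ K0 := ⟨max K1 K2, le_max_left _ _, le_max_right _ _⟩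
  obtain ⟨m', hA'⟩ := Az_Bd (k:ℝ) K0 z
  obtain ⟨m, hm, hm'⟩ : ∃ m : ℝ, 1 ≤ m ∧ m' ≤ m := ⟨max m' 1, le_max_right _ _, le_max_left _ _⟩
  obtain ⟨A0, hA0⟩ : ∃ A0, A0 = Az k K0 z := ⟨_, rfl⟩
  have hA : Bd1 m A0 := by rw [hA0]; exact hA'.mono hm'
  have hAm : A0 ∈ SA1 (M1 (S0 z)) := by rw [hA0]; exact Az_mem _ _ _
  obtain ⟨lam, hlam1, hlamx⟩ : ∃ lam : ℝ, 1 ≤ lam ∧ x0 / η ≤ lam := ⟨max 1 (x0 / η), le_max_left _ _, le_max_right _ _⟩
  refine ⟨lam, hlam1, ?_⟩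
  filter_upwards [windows_ev, eventually_ge_atTop (10 ^ 10),
    rpow_ev (p := 1 / 50) (q := 1 / 10) (by norm_num) (2 * m),
    rpow_ev (p := 3 / 25) (q := 1) (by norm_num) (32 * l1' A0 ^ 2 / ε),
    rpow_ev (p := 2 / 5) (q := 1) (by norm_num) (32 / ε),
    rpow_ev (p := 1 / 25) (q := 1) (by norm_num) (8 * m * l1' A0 ^ 2 / ε),
    Real.tendsto_log_atTop.eventually_ge_atTop 1,
    ((tendsto_rpow_atTop (show (0:ℝ) < 1 / 10 by norm_num))).eventually_ge_atTop 2] with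
    T t3 t4 t5 t6 t7 t8 t9 t10 δ hδ1 hδ2 J hPJ
  have hT0 : 0 < T := by linarith
  have hT1 : 1 ≤ T := by linarith
  have hL0 : 0 < Real.log T := by linarith
  have hx : lam ≤ δ * Real.log T := by rwa [div_le_iff₀ hL0] at hδ1
  have hδ0 : 0 < δ := lt_of_lt_of_le (div_pos (lt_of_lt_of_le one_pos hlam1) hL0) hδ1
  have hS := hPJ.1
  have hly : Real.log (yT η T) = η * Real.log T := Real.log_exp _
  obtain ⟨y, hy⟩ : ∃ y, y = yT η T := ⟨_, rfl⟩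
  rw [← hy] at hly hS
  rw [← hy]
  have hX2 : (0:ℝ) ≤ T / 2 := by linarith only [hT0]
  have hX1 : 0 ≤ T ^ ((4:ℝ)/5) := by positivity
  obtain ⟨hi1, hi2⟩ := hK2 K0 hK02 δ hδ0.le
  rw [← hA0] at hi1 hi2
  obtain ⟨ip0, hip0⟩ : ∃ ip0, ip0 = ip δ A0 A0 := ⟨_, rfl⟩
  rw [← hip0] at hi1 hi2
  set P0 := ∏ p ∈ S0 z, Ed k δ p with hP0
  have hcm := P.cm k hk0 hkM' y δ hS.zy hδ0 (by
    rw [hly]
    have h1 : x0 ≤ lam * η := by rwa [div_le_iff₀ hη] at hlamx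
    calc x0 ≤ lam * η := h1
      _ ≤ (δ * Real.log T) * η := mul_le_mul_of_nonneg_right hx hη.le
      _ = _ := by ring) J hS.J1
  obtain ⟨EV, hEV⟩ : ∃ EV, EV = Real.exp ((k:ℝ) ^ 2 * Vd δ z y J) := ⟨_, rfl⟩
  have hEV0 : 0 < EV := by rw [hEV]; exact Real.exp_pos _
  have hDD1 : 1 ≤ DD k δ := DD_ge_one hk0 hδ0
  have hcm1 := hcm.1
  have hcm2 := hcm.2
  rw [← hEV] at hcm1 hcm2
  obtain ⟨D, hD⟩ : ∃ D, D = DD k δ := ⟨_, rfl⟩
  rw [← hD] at hDD1 hcm1 hcm2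
  rw [← hD]
  have hMup : ip0 * EV ≤ (1 + 2 * ε) * D := by
    calc ip0 * EV ≤ P0 * EV := mul_le_mul_of_nonneg_right hi2 hEV0.le
      _ ≤ Real.exp ε * D := hcm2
      _ ≤ (1 + 2 * ε) * D := mul_le_mul_of_nonneg_right (exp_le_two hε.le (hε1.trans (by norm_num)))
          (zero_le_one.trans hDD1)
  have hMlo : (1 - 2 * ε) * D ≤ ip0 * EV := by
    have h1 : (1 - ε) * (Real.exp (-ε) * D) ≤ ip0 * EV := by
      calc (1 - ε) * (Real.exp (-ε) * D) ≤ (1 - ε) * (P0 * EV) := mul_le_mul_of_nonneg_left hcm1 (by linarith)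
        _ = ((1 - ε) * P0) * EV := by ring
        _ ≤ ip0 * EV := mul_le_mul_of_nonneg_right hi1 hEV0.le
    exact (low_two hε.le (hε1.trans (by norm_num)) (zero_le_one.trans hDD1)).trans h1
  have hκ1 : |(k:ℝ) - 1| ≤ M := by rw [abs_of_nonneg (by linarith)]; linarith
  have hET := P.ET1 y J hS.rg
  have he600 : ε * e1 ^ 2 / 600 ≤ ε / 100 := by
    have h1 : e1 ^ 2 ≤ 1 := pow_le_one₀ he1.le he11.le
    have : ε * e1 ^ 2 ≤ ε * 1 := mul_le_mul_of_nonneg_left h1 hε.le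
    linarith
  have n45 := N45M (c := c) P.M1 P.zM hS hδ0.le hκ1 hAm (hET.trans (by linarith))
  have e0 : 1 + ((k:ℝ) - 1) = k := by ring
  rw [e0, Real.exp_add, ← hip0, ← hEV] at n45
  obtain ⟨W, hW⟩ : ∃ W, W = T ^ ((1:ℝ) / 50) := ⟨_, rfl⟩
  have hW0 : 0 < W := by rw [hW]; positivity
  have hWM : Real.exp (Real.log y * (180 * (M * ((Rs:ℝ) + 1)))) ≤ W := by
    rw [hly, hW, Real.rpow_def_of_pos hT0]
    refine Real.exp_le_exp.mpr ?_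
    have e : η * Real.log T * (180 * (M * ((Rs:ℝ) + 1))) = 180 * (η * (M * ((Rs:ℝ) + 1))) * Real.log T := by ring
    rw [e, mul_comm (Real.log T)]
    exact mul_le_mul_of_nonneg_right (by linarith only [P.η1]) hL0.le
  have ha2 : |(k:ℝ)| ≤ 2 * M := by rw [abs_of_pos hk0]; linarith
  obtain ⟨f, hf⟩ : ∃ f, f = A0 * Bm M k z y J Rs := ⟨_, rfl⟩
  rw [← hf] at n45
  have hfB : Bd1 (m * W) f := by rw [hf]; exact ABm_Bd (a := (k:ℝ)) hS hA (by linarith) hWM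
  obtain ⟨N, hN⟩ : ∃ N : ℕ, N = ⌊T ^ ((1:ℝ) / 10)⌋₊ := ⟨_, rfl⟩
  rw [← hN]
  have hNle : (N:ℝ) ≤ T ^ ((1:ℝ)/10) := by rw [hN]; exact Nat.floor_le (by positivity)
  have hNge : T ^ ((1:ℝ)/10) / 2 ≤ N := by
    have h1 := Nat.lt_floor_add_one (T ^ ((1:ℝ)/10))
    rw [← hN] at h1
    linarith only [h1, t10]
  have hmN : m * W ≤ N := by
    rw [← hW] at t5
    linarith only [hNge, t5]
  have hfN : Bd1 N f := hfB.mono hmN
  have hdom : ∀ n, 0 ≤ f.coeff n ∧ f.coeff n ≤ Pool.Agent.H306R2.dv k n := fun n => by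
    rw [hf, hA0]; exact ABm_dom hS hk0.le K0 n
  have hFB : Bd1 N (f - DN k N) := hfN.sub (DN_Bd _ _)
  have hmF := mvt_win (X1 := T ^ ((4:ℝ)/5)) (X2 := T / 2) hδ0.le hFB
  have hmf := mvt_win (X1 := T ^ ((4:ℝ)/5)) (X2 := T / 2) hδ0.le hfB
  have hfl : l1' f ^ 2 ≤ l1' A0 ^ 2 * W := by rw [hf]; exact ABm_l1 (A0 := A0) hS ha2 hWM
  have hFl : l1' (f - DN k N) ^ 2 ≤ 2 * (l1' A0 ^ 2 * W) + 2 * (D * (N:ℝ) ^ 3) := by
    have h1 : l1' (f - DN k N) ≤ l1' f + l1' (DN k N) := by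
      have e1 : f - DN k N = f + (-1 : ℝ) • DN k N := by rw [neg_one_smul]; abel
      rw [e1]
      refine (l1'_add _ _).trans (add_le_add le_rfl ((l1'_smul _ _).trans ?_))
      rw [abs_neg, abs_one, one_mul]
    have h2 := pow_le_pow_left₀ (l1'_nonneg _) h1 2
    have h3 := DN_l1 (a := (k:ℝ)) hk0 hδ0 (by linarith) N
    rw [← hD] at h3
    nlinarith [sq_nonneg (l1' f - l1' (DN k N))]
  have hXD : 0 ≤ T / 2 * D := mul_nonneg hX2 (by linarith)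
  have hEF : 4 * (N:ℝ) * l1' (f - DN k N) ^ 2 ≤ ε * (T / 2 * D) := by
    have h1 : 4 * (N:ℝ) * l1' (f - DN k N) ^ 2 ≤ 4 * T ^ ((1:ℝ)/10) * (2 * (l1' A0 ^ 2 * W) + 2 * (D * (T ^ ((1:ℝ)/10)) ^ 3)) := by
      refine mul_le_mul (mul_le_mul_of_nonneg_left hNle (by norm_num)) (hFl.trans ?_) (sq_nonneg _) (by positivity)
      have : (N:ℝ) ^ 3 ≤ (T ^ ((1:ℝ)/10)) ^ 3 := pow_le_pow_left₀ (Nat.cast_nonneg _) hNle 3
      have hD0 : 0 ≤ D := by linarith only [hDD1]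
      gcongr
    have e2 : T ^ ((1:ℝ)/10) * W = T ^ ((3:ℝ)/25) := by rw [hW, ← Real.rpow_add hT0]; norm_num
    have e3 : T ^ ((1:ℝ)/10) * (T ^ ((1:ℝ)/10)) ^ 3 = T ^ ((2:ℝ)/5) := by
      rw [← pow_succ', ← Real.rpow_natCast, ← Real.rpow_mul hT0.le]; norm_num
    have h2 : 4 * T ^ ((1:ℝ)/10) * (2 * (l1' A0 ^ 2 * W) + 2 * (D * (T ^ ((1:ℝ)/10)) ^ 3)) =
        8 * l1' A0 ^ 2 * T ^ ((3:ℝ)/25) + 8 * D * T ^ ((2:ℝ)/5) := by
      rw [← e2, ← e3]; ring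
    rw [h2] at h1
    rw [Real.rpow_one] at t6 t7
    have h3 : 8 * l1' A0 ^ 2 * T ^ ((3:ℝ)/25) ≤ ε / 2 * (T / 2) := by
      have := mul_le_mul_of_nonneg_left t6 (by positivity : 0 ≤ ε / 4)
      have e4 : ε / 4 * (32 * l1' A0 ^ 2 / ε * T ^ ((3:ℝ)/25)) = 8 * l1' A0 ^ 2 * T ^ ((3:ℝ)/25) := by field_simp; ring
      rw [e4] at this
      linarith only [this]
    have h4 : 8 * T ^ ((2:ℝ)/5) ≤ ε / 2 * (T / 2) := by
      have := mul_le_mul_of_nonneg_left t7 (by positivity : 0 ≤ ε / 4)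
      have e4 : ε / 4 * (32 / ε * T ^ ((2:ℝ)/5)) = 8 * T ^ ((2:ℝ)/5) := by field_simp; ring
      rw [e4] at this
      linarith only [this]
    have h5 : ε / 2 * (T / 2) ≤ ε / 2 * (T / 2) * D := le_mul_of_one_le_right (by positivity) hDD1
    have h6 : 8 * D * T ^ ((2:ℝ)/5) ≤ ε / 2 * (T / 2) * D := by
      have := mul_le_mul_of_nonneg_right h4 (show 0 ≤ D by linarith)
      linarith only [this]
    have h7 : ε * (T / 2 * D) = ε / 2 * (T / 2) * D + ε / 2 * (T / 2) * D := by ring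
    rw [h7]
    linarith only [h1, h3, h5, h6]
  have hEf : 4 * (m * W) * l1' f ^ 2 ≤ ε * (T / 2 * D) := by
    have h1 : 4 * (m * W) * l1' f ^ 2 ≤ 4 * (m * W) * (l1' A0 ^ 2 * W) := mul_le_mul_of_nonneg_left hfl (by positivity)
    have e2 : W * W = T ^ ((1:ℝ)/25) := by rw [hW, ← Real.rpow_add hT0]; norm_num
    have h2 : 4 * (m * W) * (l1' A0 ^ 2 * W) = 4 * m * l1' A0 ^ 2 * T ^ ((1:ℝ)/25) := by rw [← e2]; ring
    rw [h2] at h1
    rw [Real.rpow_one] at t8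
    have h3 : 4 * m * l1' A0 ^ 2 * T ^ ((1:ℝ)/25) ≤ ε * (T / 2) := by
      have := mul_le_mul_of_nonneg_left t8 (by positivity : 0 ≤ ε / 2)
      have e4 : ε / 2 * (8 * m * l1' A0 ^ 2 / ε * T ^ ((1:ℝ)/25)) = 4 * m * l1' A0 ^ 2 * T ^ ((1:ℝ)/25) := by field_simp; ring
      rw [e4] at this
      linarith only [this]
    have h5 : ε * (T / 2) ≤ ε * (T / 2) * D := le_mul_of_one_le_right (by positivity) hDD1
    have h7 : ε * (T / 2 * D) = ε * (T / 2) * D := by ring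
    rw [h7]
    linarith only [h1, h3, h5]
  have hfD := ip_f_DN (a := (k:ℝ)) (δ := δ) hfN hdom
  have hDN := ip_DN_le (a := (k:ℝ)) hk0 hδ0 N
  rw [← hD] at hDN
  have n45' : ip δ f f ≤ Real.exp (ETM M c z y J Rs) * (ip0 * EV) := by
    refine n45.2.trans (le_of_eq ?_)
    ring
  have hip00 : 0 ≤ ip0 * EV := mul_nonneg (by rw [hip0]; exact ip_self_nonneg _ _) hEV0.le
  obtain ⟨hIF, hIf⟩ := arith_pw hε hε1 he600 (ETM_nonneg M c z y J Rs) hET hX1 t3.1 hDD1 hip00 hMup hMlo n45.1 n45'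
    (ip_sub_self δ f (DN k N)) hfD hDN (ip_self_nonneg δ _) hmF hEF hmf hEf
  -- integration over the good set
  have hGm : MeasurableSet (Gh z y J Rs e1 δ) := Gh_meas hS hδ2
  set I := Set.Ioc (T ^ ((4:ℝ)/5)) (T / 2) with hI
  have hsub : I ∩ Gh z y J Rs e1 δ ⊆ I := Set.inter_subset_left
  have hfc : Continuous fun t : ℝ => ‖es (1 / 2 + δ + t * Complex.I) f‖ ^ 2 := (es_lc δ hfB).norm.pow 2
  have hFc : Continuous fun t : ℝ => ‖es (1 / 2 + δ + t * Complex.I) (f - DN k N)‖ ^ 2 := (es_lc δ hFB).norm.pow 2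
  have hzc : Continuous fun t : ℝ => ‖riemannZeta (1 / 2 + δ + t * Complex.I) ^ k -
      es (1 / 2 + δ + t * Complex.I) (DN k N)‖ ^ 2 :=
    (((zl_cont (by linarith only [hδ2])).pow k).sub (es_lc δ (DN_Bd _ _))).norm.pow 2
  have hii : ∀ g : ℝ → ℝ, Continuous g → IntegrableOn g I := fun g hg => by
    rw [hI, ← intervalIntegrable_iff_integrableOn_Ioc_of_le t3.1]; exact hg.intervalIntegrable _ _
  have hpt : ∀ t ∈ I ∩ Gh z y J Rs e1 δ, ‖riemannZeta (1 / 2 + δ + t * Complex.I) ^ k -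
      es (1 / 2 + δ + t * Complex.I) (DN k N)‖ ^ 2 ≤ 50 * ε ^ 2 * ‖es (1 / 2 + δ + t * Complex.I) f‖ ^ 2 +
        2 * ‖es (1 / 2 + δ + t * Complex.I) (f - DN k N)‖ ^ 2 := by
    intro t ht
    have hre : (1:ℝ) / 2 ≤ (1 / 2 + (δ:ℂ) + t * Complex.I).re := by
      rw [half_re]; linarith only [hδ0]
    have hPAt := hK1 K0 hK01 _ hre
    rw [← hA0] at hPAt
    have h1 := on_good_c (J := J) (Rs := Rs) (K := fun i => 20 * (M * RR Rs i)) hkM he1 hε hε1 P.p1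
      (fun i => cl_M P.M1 (hRR hS i) ha2) P.h4a (riemannZeta (1 / 2 + δ + t * Complex.I))
      (es (1 / 2 + δ + t * Complex.I) (Pz z)) (es (1 / 2 + δ + t * Complex.I) A0)
      (fun i => PI (IZ z y i) (1 / 2 + δ + t * Complex.I)) ht.2 hPAt
    rw [← es_Bm, ← map_mul, ← hf] at h1
    have e5 : riemannZeta (1 / 2 + δ + t * Complex.I) ^ k - es (1 / 2 + δ + t * Complex.I) (DN k N) =
        (riemannZeta (1 / 2 + δ + t * Complex.I) ^ k - es (1 / 2 + δ + t * Complex.I) f) +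
          es (1 / 2 + δ + t * Complex.I) (f - DN k N) := by rw [map_sub]; ring
    rw [e5]
    refine (sq_two _ _).trans (add_le_add ?_ le_rfl)
    have h2 := pow_le_pow_left₀ (norm_nonneg _) h1 2
    rw [mul_pow, mul_pow] at h2
    linarith
  have hadd : IntegrableOn (fun t : ℝ => 50 * ε ^ 2 * ‖es (1 / 2 + δ + t * Complex.I) f‖ ^ 2 +
      2 * ‖es (1 / 2 + δ + t * Complex.I) (f - DN k N)‖ ^ 2) I :=
    ((hii _ hfc).const_mul _).add ((hii _ hFc).const_mul _)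
  have h1 : ∫ t in I ∩ Gh z y J Rs e1 δ, ‖riemannZeta (1 / 2 + δ + t * Complex.I) ^ k -
      es (1 / 2 + δ + t * Complex.I) (DN k N)‖ ^ 2 ≤ ∫ t in I ∩ Gh z y J Rs e1 δ,
        (50 * ε ^ 2 * ‖es (1 / 2 + δ + t * Complex.I) f‖ ^ 2 + 2 * ‖es (1 / 2 + δ + t * Complex.I) (f - DN k N)‖ ^ 2) :=
    setIntegral_mono_on ((hii _ hzc).mono_set hsub) (hadd.mono_set hsub)
      (measurableSet_Ioc.inter hGm) hpt
  have h2 : ∫ t in I ∩ Gh z y J Rs e1 δ,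
        (50 * ε ^ 2 * ‖es (1 / 2 + δ + t * Complex.I) f‖ ^ 2 + 2 * ‖es (1 / 2 + δ + t * Complex.I) (f - DN k N)‖ ^ 2) ≤
      ∫ t in I, (50 * ε ^ 2 * ‖es (1 / 2 + δ + t * Complex.I) f‖ ^ 2 + 2 * ‖es (1 / 2 + δ + t * Complex.I) (f - DN k N)‖ ^ 2) :=
    setIntegral_mono_set hadd
      (Eventually.of_forall fun t => by positivity) (Eventually.of_forall fun t ht => hsub ht)
  rw [integral_add ((hii _ hfc).const_mul _) ((hii _ hFc).const_mul _), integral_const_mul, integral_const_mul] at h2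
  rw [intervalIntegral.integral_of_le t3.1] at hIF hIf
  have h3 : 50 * ε ^ 2 * (∫ t in I, ‖es (1 / 2 + δ + t * Complex.I) f‖ ^ 2) ≤ 50 * ε ^ 2 * (2 * (T / 2 * D)) :=
    mul_le_mul_of_nonneg_left hIf (by positivity)
  have h4 : 50 * ε ^ 2 * (2 * (T / 2 * D)) ≤ 10 * ε * (T / 2 * D) := by
    have : ε ^ 2 ≤ ε / 10 := by nlinarith
    nlinarith
  linarith only [h1, h2, h3, h4, hIF]

end Pool.Agent.Y753.NL
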