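import Pool.Agent.Y753.NL.Pw3
import Pool.Agent.Y753.NL.All5

set_option autoImplicit false

/-! One stage of the construction, with the Dirichlet polynomials. -/

namespace Pool.Agent.Y753.NL

open Finset Filter MeasureTheory MonoidAlgebra Topology
open Pool.Agent.Y755
open Pool.Agent.W184.NZ
open Pool.Agent.W184 (zn zn_nonneg zn_cont zn_le')

/-- a stage with Dirichlet polynomials -/
def Stg2 (n : ℕ) (X δ : ℝ) (U : Set ℝ) : Prop :=
  (MeasurableSet U ∧ U ⊆ Set.Icc 0 X ∧ volume.real (Set.Icc 0 X \ U) ≤ X / (n + 1)) ∧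
  (∀ α : ℝ, 0 < α → α ≤ n + 1 → |(∫ t in U, zn (1 / 2 + δ) t ^ (2 * α)) - X * DD α δ| ≤ 1 / (n + 1) * (X * DD α δ)) ∧
  ∀ k : ℕ, 1 ≤ k → k ≤ n + 1 → ∫ t in U, ‖riemannZeta (1 / 2 + δ + t * Complex.I) ^ k -
    es (1 / 2 + δ + t * Complex.I) (DN k ⌊(2 * X) ^ ((1:ℝ)/10)⌋₊)‖ ^ 2 ≤ 1 / (n + 1) * (X * DD k δ)

/-- the stages exist -/
theorem stage2 {δ : ℝ → ℝ} (hδ0 : Tendsto δ atTop (𝓝 0)) (hδL : Tendsto (fun T => δ T * Real.log T) atTop atTop) (n : ℕ) :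
    ∀ᶠ X : ℝ in atTop, ∃ U : Set ℝ, Stg2 n X (δ X) U := by
  have hpos : ∀ᶠ T in atTop, 0 < δ T := by
    filter_upwards [hδL.eventually_gt_atTop 0, eventually_gt_atTop 1] with T hT hT1
    exact (pos_iff_pos_of_mul_pos hT).mpr (Real.log_pos hT1)
  have hn0 : (0:ℝ) < (n:ℝ) + 1 := by positivity
  have hn1 : (1:ℝ) ≤ (n:ℝ) + 1 := by have : (0:ℝ) ≤ n := Nat.cast_nonneg n; linarith
  obtain ⟨ε, hεd⟩ : ∃ ε : ℝ, ε = 1 / (600 * ((n:ℝ) + 1)) := ⟨_, rfl⟩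
  have hε : 0 < ε := by rw [hεd]; positivity
  have hεn : ε * (600 * ((n:ℝ) + 1)) = 1 := by rw [hεd]; field_simp
  have hε1 : ε ≤ 1 / 600 := by nlinarith
  obtain ⟨z, Rs, e1, c, η, d, x0, hz, P⟩ := Pk_ex (M := n + 1) (by omega) hε (by linarith) (n + 2)
  obtain ⟨lam, hlam, hw1⟩ := win1 P
  obtain ⟨Q, hQ⟩ : ∃ Q : ℝ → ℕ → Prop, ∀ X k, Q X k ↔ (∀ J : ℕ, PJ c z η Rs d (2 * X) J →
      ∫ t in Set.Ioc ((2 * X) ^ ((4:ℝ)/5)) X ∩ Gh z (yT η (2 * X)) J Rs e1 (δ X),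
        ‖riemannZeta (1 / 2 + δ X + t * Complex.I) ^ k - es (1 / 2 + δ X + t * Complex.I)
          (DN k ⌊(2 * X) ^ ((1:ℝ)/10)⌋₊)‖ ^ 2 ≤ 18 * ε * (X * DD k (δ X))) := ⟨_, fun _ _ => Iff.rfl⟩
  have hall : ∀ᶠ X : ℝ in atTop, ∀ k ∈ Icc 1 (n + 1), Q X k := by
    rw [eventually_all_finset]
    intro k hk
    rw [mem_Icc] at hk
    obtain ⟨l3, hl3, hw3⟩ := win3 P hk.1 hk.2
    filter_upwards [two_mul_tendsto.eventually hw3, hδL.eventually_ge_atTop l3, hpos,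
      hδ0.eventually (gt_mem_nhds (show (0:ℝ) < 1 / 16 by norm_num)), eventually_gt_atTop 1] with X t2 t5 t6 t7 t8
    rw [hQ]
    intro J hJ
    have hLg := Real.log_pos t8
    have hX0 : 0 < X := by linarith
    have hLL : Real.log X ≤ Real.log (2 * X) := Real.log_le_log hX0 (by linarith)
    have h1 := t2 (δ X) (by
      rw [div_le_iff₀ (hLg.trans_le hLL)]
      exact t5.trans (mul_le_mul_of_nonneg_left hLL t6.le)) t7.le J hJ
    have e2 : 2 * X / 2 = X := by ring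
    rw [e2] at h1
    exact h1
  filter_upwards [hall, two_mul_tendsto.eventually hw1, two_mul_tendsto.eventually P.par,
    two_mul_tendsto.eventually windows_ev, hδL.eventually_ge_atTop lam, hpos,
    hδ0.eventually (gt_mem_nhds (show (0:ℝ) < 1 / 16 by norm_num)), eventually_gt_atTop 1,
    (two_mul_tendsto.eventually (rpow_ev (p := 4 / 5) (q := 1) (by norm_num) (1 / ε)))] with
    X t1 t2 t3 t4 t5 t6 t7 t8 t11
  obtain ⟨J, hJ⟩ := t3
  have hLg := Real.log_pos t8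
  have hX0 : 0 < X := by linarith
  have hLL : Real.log X ≤ Real.log (2 * X) := Real.log_le_log hX0 (by linarith)
  obtain ⟨hGm, hvol, hmass⟩ := t2 (δ X) (by
    rw [div_le_iff₀ (hLg.trans_le hLL)]
    exact t5.trans (mul_le_mul_of_nonneg_left hLL t6.le)) t7.le J hJ
  have e2 : 2 * X / 2 = X := by ring
  rw [e2] at hvol hmass
  have hw := t4.1
  rw [e2] at hw
  set G := Gh z (yT η (2 * X)) J Rs e1 (δ X) with hG
  set w := (2 * X) ^ ((4:ℝ)/5) with hwd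
  have hw0 : 0 ≤ w := by rw [hwd]; positivity
  have hwX : w ≤ 2 * ε * X := by
    rw [Real.rpow_one] at t11
    have := mul_le_mul_of_nonneg_left t11 hε.le
    have e3 : ε * (1 / ε * w) = w := by field_simp
    rw [e3] at this
    linarith
  have hUm : MeasurableSet (Set.Ioc w X ∩ G) := measurableSet_Ioc.inter hGm
  have hUX : Set.Ioc w X ∩ G ⊆ Set.Icc 0 X := fun t ht => ⟨hw0.trans ht.1.1.le, ht.1.2⟩
  refine ⟨Set.Ioc w X ∩ G, ⟨hUm, hUX, ?_⟩, ?_, ?_⟩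
  · have h1 : Set.Icc 0 X \ (Set.Ioc w X ∩ G) ⊆ Set.Icc 0 w ∪ (Set.Ioc w X \ G) := by
      intro t ht
      by_cases h2 : t ≤ w
      · exact Or.inl ⟨ht.1.1, h2⟩
      · exact Or.inr ⟨⟨not_le.mp h2, ht.1.2⟩, fun h3 => ht.2 ⟨⟨not_le.mp h2, ht.1.2⟩, h3⟩⟩
    have h2 : volume.real (Set.Icc 0 w ∪ (Set.Ioc w X \ G)) ≤ w + ε * (2 * X) := by
      refine (measureReal_union_le _ _).trans (add_le_add ?_ hvol)
      rw [Real.volume_real_Icc_of_le hw0, sub_zero]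
    have h3 : volume.real (Set.Icc 0 X \ (Set.Ioc w X ∩ G)) ≤ volume.real (Set.Icc 0 w ∪ (Set.Ioc w X \ G)) :=
      measureReal_mono h1 (by
        refine ((measure_union_le _ _).trans_lt ?_).ne
        refine ENNReal.add_lt_top.mpr ⟨by simp, (measure_mono Set.sdiff_subset).trans_lt (by simp)⟩)
    refine h3.trans (h2.trans ?_)
    rw [le_div_iff₀ hn0]
    have h4 : w + ε * (2 * X) ≤ 4 * ε * X := by linarith
    calc (w + ε * (2 * X)) * (n + 1) ≤ 4 * ε * X * (n + 1) := mul_le_mul_of_nonneg_right h4 hn0.le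
      _ = (4 / 600) * X * (ε * (600 * ((n:ℝ) + 1))) := by ring
      _ ≤ X := by rw [hεn]; linarith
  · intro α hα hα1
    have hD := DD_ge_one hα t6
    refine (hmass α hα (by push_cast; exact hα1)).trans (mul_le_mul_of_nonneg_right ?_ (by positivity))
    rw [le_div_iff₀ hn0]
    nlinarith
  · intro k hk1 hk2
    have hq := t1 k (mem_Icc.mpr ⟨hk1, hk2⟩)
    rw [hQ] at hq
    have hD := DD_ge_one (show (0:ℝ) < k by exact_mod_cast hk1) t6
    refine (hq J hJ).trans (mul_le_mul_of_nonneg_right ?_ (by positivity))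
    rw [le_div_iff₀ hn0]
    nlinarith

/-- the sets along a path -/
theorem path_V {δ : ℝ → ℝ} (hδ0 : Tendsto δ atTop (𝓝 0)) (hδL : Tendsto (fun T => δ T * Real.log T) atTop atTop) :
    ∃ (U : ℝ → Set ℝ) (N : ℝ → ℕ), Tendsto N atTop atTop ∧ (∀ T, MeasurableSet (U T)) ∧
      ∀ᶠ T in atTop, Stg2 (N T) T (δ T) (U T) := by
  have h : ∀ n : ℕ, ∀ᶠ T in atTop, ∃ U : {U : Set ℝ // MeasurableSet U}, Stg2 n T (δ T) (U : Set ℝ) := by
    intro n
    filter_upwards [stage2 hδ0 hδL n] with T hT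
    obtain ⟨U, hU⟩ := hT
    exact ⟨⟨U, hU.1.1⟩, hU⟩
  have : Nonempty {U : Set ℝ // MeasurableSet U} := ⟨⟨∅, MeasurableSet.empty⟩⟩
  obtain ⟨U, N, hN, hU⟩ := diag h
  exact ⟨fun T => U T, N, hN, fun T => (U T).2, hU⟩

end Pool.Agent.Y753.NL
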