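import Pool.Agent.Y753.NL.Pw4
import Pool.Agent.TH928.GS.MV

set_option autoImplicit false

/-! Changing the length of the Dirichlet polynomial. -/

namespace Pool.Agent.Y753.NL

open Finset Filter MeasureTheory MonoidAlgebra Topology
open Pool.Agent.Y755
open Pool.Agent.W184.NZ
open Pool.Agent.W184 (zn zn_nonneg zn_cont zn_le')
open Pool.Agent.H306R2 (dv dv_nonneg dv_one aF)

lemma es_DN' (δ a : ℝ) (N : ℕ) (t : ℝ) : es (1 / 2 + δ + t * Complex.I) (DN a N) =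
    ∑ n ∈ Icc 1 N, ((dv a n * (n:ℝ) ^ (-(1 / 2 + δ)) : ℝ) : ℂ) * (n:ℂ) ^ (-(Complex.I * (t:ℂ))) := by
  rw [es_DN]
  refine sum_congr rfl fun n hn => ?_
  rw [mem_Icc] at hn
  have hn0 : (n:ℂ) ≠ 0 := by
    have : n ≠ 0 := by omega
    exact_mod_cast this
  have e1 : -(1 / 2 + (δ:ℂ) + t * Complex.I) = ((-(1 / 2 + δ) : ℝ) : ℂ) + -(Complex.I * (t:ℂ)) := by push_cast; ring
  rw [e1, Complex.cpow_add _ _ hn0, Complex.ofReal_mul, Complex.ofReal_cpow (Nat.cast_nonneg n)]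
  push_cast
  ring

/-- the tail -/
theorem tail_mv : ∃ C : ℝ, 0 < C ∧ ∀ (a δ T : ℝ) (m M : ℕ), 0 < a → 0 < δ → 1 ≤ T → 1 ≤ m → m ≤ M → (M:ℝ) ≤ T →
    ∫ t in (0:ℝ)..(2 * T), ‖es (1 / 2 + δ + t * Complex.I) (DN a M) - es (1 / 2 + δ + t * Complex.I) (DN a m)‖ ^ 2 ≤
      C * (T * ((m:ℝ) ^ (-δ) * DD a (δ / 2))) := by
  obtain ⟨C, hC, hmv⟩ := Pool.Agent.TH928.GS.t_MV
  refine ⟨2 * C, by positivity, fun a δ T m M ha hδ hT hm hmM hMT => ?_⟩
  have hT0 : 0 < T := by linarith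
  obtain ⟨c, hc⟩ : ∃ c : ℕ → ℝ, ∀ n, c n = if m < n then dv a n * (n:ℝ) ^ (-(1 / 2 + δ)) else 0 := ⟨_, fun _ => rfl⟩
  have h1 := hmv T M (fun n => ((c n : ℝ) : ℂ)) hT (by nlinarith)
  have e1 : ∀ t : ℝ, es (1 / 2 + δ + t * Complex.I) (DN a M) - es (1 / 2 + δ + t * Complex.I) (DN a m) =
      ∑ n ∈ Icc 1 M, ((c n : ℝ) : ℂ) * (n:ℂ) ^ (-(Complex.I * (t:ℂ))) := by
    intro t
    rw [es_DN', es_DN']
    have hsub : Icc 1 m ⊆ Icc 1 M := Icc_subset_Icc_right hmM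
    rw [← sum_sdiff hsub, add_sub_cancel_right, ← sum_sdiff hsub]
    have e2 : ∑ n ∈ Icc 1 m, ((c n : ℝ) : ℂ) * (n:ℂ) ^ (-(Complex.I * (t:ℂ))) = 0 := by
      refine sum_eq_zero fun n hn => ?_
      rw [mem_Icc] at hn
      rw [hc, if_neg (by omega)]
      simp
    rw [e2, add_zero]
    refine sum_congr rfl fun n hn => ?_
    rw [Finset.mem_sdiff, mem_Icc, mem_Icc] at hn
    rw [hc, if_pos (by omega)]
  simp_rw [e1]
  refine h1.trans ?_
  have h2 : ∑ n ∈ Icc 1 M, (T + n) * ‖((c n : ℝ) : ℂ)‖ ^ 2 ≤ 2 * T * ((m:ℝ) ^ (-δ) * DD a (δ / 2)) := by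
    have h3 : ∀ n ∈ Icc 1 M, (T + n) * ‖((c n : ℝ) : ℂ)‖ ^ 2 ≤ 2 * T * ((m:ℝ) ^ (-δ) * g2 a (δ / 2) n) := by
      intro n hn
      rw [mem_Icc] at hn
      have hn0 : (0:ℝ) < n := by exact_mod_cast hn.1
      have hm0 : (0:ℝ) < m := by exact_mod_cast hm
      have hg := g2_nonneg a (δ / 2) n
      rw [Complex.norm_real, Real.norm_eq_abs, sq_abs, hc]
      split_ifs with h
      · have hnT : (n:ℝ) ≤ T := le_trans (by exact_mod_cast hn.2) hMT
        have hmn : (m:ℝ) ≤ n := by exact_mod_cast h.le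
        have e3 : (dv a n * (n:ℝ) ^ (-(1 / 2 + δ))) ^ 2 = (n:ℝ) ^ (-δ) * g2 a (δ / 2) n := by
          unfold g2 wδ
          rw [mul_pow, ← Real.rpow_natCast ((n:ℝ) ^ (-(1 / 2 + δ))), ← Real.rpow_mul hn0.le, one_div (n:ℝ), ← Real.rpow_neg_one (n:ℝ)]
          have e4 : (n:ℝ) ^ (-δ) * (dv a n ^ 2 * ((n:ℝ) ^ (-(2 * (δ / 2))) * (n:ℝ) ^ (-1:ℝ))) =
              dv a n ^ 2 * ((n:ℝ) ^ (-δ) * ((n:ℝ) ^ (-(2 * (δ / 2))) * (n:ℝ) ^ (-1:ℝ))) := by ring
          rw [e4, ← Real.rpow_add hn0, ← Real.rpow_add hn0]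
          congr 2
          push_cast; ring
        rw [e3]
        have h5 : (n:ℝ) ^ (-δ) ≤ (m:ℝ) ^ (-δ) := Real.rpow_le_rpow_of_nonpos hm0 hmn (by linarith)
        have h6 : (n:ℝ) ^ (-δ) * g2 a (δ / 2) n ≤ (m:ℝ) ^ (-δ) * g2 a (δ / 2) n := mul_le_mul_of_nonneg_right h5 hg
        exact mul_le_mul (by linarith) h6 (by positivity) (by positivity)
      · have : 0 ≤ (m:ℝ) ^ (-δ) := by positivity
        have h7 : 0 ≤ 2 * T * ((m:ℝ) ^ (-δ) * g2 a (δ / 2) n) := by positivity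
        simpa using h7
    refine (sum_le_sum h3).trans ?_
    rw [← mul_sum, ← mul_sum]
    refine mul_le_mul_of_nonneg_left (mul_le_mul_of_nonneg_left ?_ (by positivity)) (by positivity)
    exact (g2_summable ha (by positivity)).sum_le_tsum _ fun n _ => g2_nonneg a _ n
  calc C * ∑ n ∈ Icc 1 M, (T + n) * ‖((c n : ℝ) : ℂ)‖ ^ 2 ≤ C * (2 * T * ((m:ℝ) ^ (-δ) * DD a (δ / 2))) :=
        mul_le_mul_of_nonneg_left h2 hC.le
    _ = _ := by ring

/-- two lengths, along a path -/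
theorem len_path {δ : ℝ → ℝ} (hδ0 : Tendsto δ atTop (𝓝 0)) (hpos : ∀ᶠ T in atTop, 0 < δ T) {a : ℝ} (ha : 0 < a)
    {N1 N2 : ℝ → ℕ} (h1 : ∀ᶠ T in atTop, (N1 T : ℝ) ≤ T) (h2 : ∀ᶠ T in atTop, (N2 T : ℝ) ≤ T)
    (h1' : Tendsto (fun T => δ T * Real.log (N1 T)) atTop atTop) (h2' : Tendsto (fun T => δ T * Real.log (N2 T)) atTop atTop) :
    Tendsto (fun T => (2 * δ T) ^ (a ^ 2) * ((∫ t in (0:ℝ)..(2 * T), ‖es (1 / 2 + δ T + t * Complex.I) (DN a (N1 T)) -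
      es (1 / 2 + δ T + t * Complex.I) (DN a (N2 T))‖ ^ 2) / T)) atTop (𝓝 0) := by
  obtain ⟨C, hC, hmv⟩ := tail_mv
  have hD : Tendsto (fun T => (2 * (δ T / 2)) ^ (a ^ 2) * DD a (δ T / 2)) atTop (𝓝 (aF a)) :=
    DD_asym ha (hpos.mono fun T hT => by positivity) (by simpa using hδ0.div_const 2)
  have hmin : Tendsto (fun T => min (δ T * Real.log (N1 T)) (δ T * Real.log (N2 T))) atTop atTop := by
    rw [tendsto_atTop]
    intro b
    filter_upwards [h1'.eventually_ge_atTop b, h2'.eventually_ge_atTop b] with T hT1 hT2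
    exact le_min hT1 hT2
  have he : Tendsto (fun T => Real.exp (-(min (δ T * Real.log (N1 T)) (δ T * Real.log (N2 T))))) atTop (𝓝 0) :=
    Real.tendsto_exp_neg_atTop_nhds_zero.comp hmin
  have hub : Tendsto (fun T => C * ((2:ℝ) ^ (a ^ 2) * (Real.exp (-(min (δ T * Real.log (N1 T)) (δ T * Real.log (N2 T)))) *
      ((2 * (δ T / 2)) ^ (a ^ 2) * DD a (δ T / 2))))) atTop (𝓝 0) := by
    have := ((he.mul hD).const_mul ((2:ℝ) ^ (a ^ 2))).const_mul C
    simpa using this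
  refine squeeze_zero' ?_ ?_ hub
  · filter_upwards [eventually_gt_atTop 0, hpos] with T hT hT'
    have : 0 ≤ ∫ t in (0:ℝ)..(2 * T), ‖es (1 / 2 + δ T + t * Complex.I) (DN a (N1 T)) -
      es (1 / 2 + δ T + t * Complex.I) (DN a (N2 T))‖ ^ 2 :=
      intervalIntegral.integral_nonneg (by linarith) fun t _ => by positivity
    positivity
  · filter_upwards [h1, h2, h1'.eventually_gt_atTop 0, h2'.eventually_gt_atTop 0, hpos, eventually_ge_atTop 1] with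
      T t1 t2 t3 t4 t5 t6
    have hT0 : 0 < T := by linarith
    have n1 : 1 ≤ N1 T := by
      rcases Nat.eq_zero_or_pos (N1 T) with h | h
      · rw [h] at t3; simp at t3
      · exact h
    have n2 : 1 ≤ N2 T := by
      rcases Nat.eq_zero_or_pos (N2 T) with h | h
      · rw [h] at t4; simp at t4
      · exact h
    have key : ∫ t in (0:ℝ)..(2 * T), ‖es (1 / 2 + δ T + t * Complex.I) (DN a (N1 T)) -
        es (1 / 2 + δ T + t * Complex.I) (DN a (N2 T))‖ ^ 2 ≤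
        C * (T * (Real.exp (-(min (δ T * Real.log (N1 T)) (δ T * Real.log (N2 T)))) * DD a (δ T / 2))) := by
      rcases le_total (N1 T) (N2 T) with h | h
      · have h3 := hmv a (δ T) T (N1 T) (N2 T) ha t5 t6 n1 h t2
        simp_rw [norm_sub_rev (es _ (DN a (N2 T)))] at h3
        refine h3.trans (le_of_eq ?_)
        congr 3
        have hn0 : (0:ℝ) < N1 T := by exact_mod_cast n1
        have hlog : Real.log (N1 T) ≤ Real.log (N2 T) := Real.log_le_log hn0 (by exact_mod_cast h)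
        rw [min_eq_left (mul_le_mul_of_nonneg_left hlog t5.le), Real.rpow_def_of_pos hn0]
        congr 1; ring
      · have h3 := hmv a (δ T) T (N2 T) (N1 T) ha t5 t6 n2 h t1
        refine h3.trans (le_of_eq ?_)
        congr 3
        have hn0 : (0:ℝ) < N2 T := by exact_mod_cast n2
        have hlog : Real.log (N2 T) ≤ Real.log (N1 T) := Real.log_le_log hn0 (by exact_mod_cast h)
        rw [min_eq_right (mul_le_mul_of_nonneg_left hlog t5.le), Real.rpow_def_of_pos hn0]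
        congr 1; ring
    have e1 : (2 * δ T) ^ (a ^ 2) = (2:ℝ) ^ (a ^ 2) * (2 * (δ T / 2)) ^ (a ^ 2) := by
      rw [← Real.mul_rpow (by norm_num) (by positivity)]; congr 1; ring
    rw [e1]
    have h5 : 0 ≤ (2:ℝ) ^ (a ^ 2) * (2 * (δ T / 2)) ^ (a ^ 2) := by positivity
    refine (mul_le_mul_of_nonneg_left (div_le_div_of_nonneg_right key hT0.le) h5).trans (le_of_eq ?_)
    field_simp

end Pool.Agent.Y753.NL
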