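import Pool.Agent.Y753.NL.Pw5

set_option autoImplicit false

/-! Powers of zeta and their Dirichlet polynomials. -/

namespace Pool.Agent.Y753.NL

open Finset Filter MeasureTheory MonoidAlgebra Topology
open Pool.Agent.Y755
open Pool.Agent.W184.NZ
open Pool.Agent.W184 (zn zn_nonneg zn_cont zn_le')
open Pool.Agent.H306R2 (dv dv_nonneg dv_one aF)

lemma N0_le : ∀ᶠ T : ℝ in atTop, (⌊(2 * T) ^ ((1:ℝ)/10)⌋₊ : ℝ) ≤ T := by
  filter_upwards [eventually_ge_atTop 2] with T hT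
  have h1 : (⌊(2 * T) ^ ((1:ℝ)/10)⌋₊ : ℝ) ≤ (2 * T) ^ ((1:ℝ)/10) := Nat.floor_le (by positivity)
  refine h1.trans ?_
  have h2 : (2 * T) ^ ((1:ℝ)/10) ≤ (T ^ (2:ℝ)) ^ ((1:ℝ)/10) := by
    refine Real.rpow_le_rpow (by linarith) ?_ (by norm_num)
    rw [Real.rpow_two]; nlinarith
  refine h2.trans ?_
  rw [← Real.rpow_mul (by linarith)]
  calc T ^ ((2:ℝ) * (1 / 10)) ≤ T ^ (1:ℝ) := Real.rpow_le_rpow_of_exponent_le (by linarith) (by norm_num)
    _ = T := Real.rpow_one T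

lemma N0_log {δ : ℝ → ℝ} (hpos : ∀ᶠ T in atTop, 0 < δ T) (hδL : Tendsto (fun T => δ T * Real.log T) atTop atTop) :
    Tendsto (fun T : ℝ => δ T * Real.log ((⌊(2 * T) ^ ((1:ℝ)/10)⌋₊ : ℕ) : ℝ)) atTop atTop := by
  have h1 : Tendsto (fun T => δ T * Real.log T * (1 / 20)) atTop atTop := hδL.atTop_mul_const (by norm_num)
  refine tendsto_atTop_mono' _ ?_ h1
  filter_upwards [hpos, eventually_ge_atTop 1, Real.tendsto_log_atTop.eventually_ge_atTop (20 * Real.log 2),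
    (tendsto_rpow_atTop (show (0:ℝ) < 1 / 10 by norm_num)).eventually_ge_atTop 2] with T h2 h3 h4 h5
  have hT0 : 0 < T := by linarith
  rw [mul_assoc]
  refine mul_le_mul_of_nonneg_left ?_ h2.le
  have h6 : T ^ ((1:ℝ)/10) ≤ (2 * T) ^ ((1:ℝ)/10) := Real.rpow_le_rpow hT0.le (by linarith) (by norm_num)
  have h7 : T ^ ((1:ℝ)/10) / 2 ≤ (⌊(2 * T) ^ ((1:ℝ)/10)⌋₊ : ℝ) := by
    have := Nat.lt_floor_add_one ((2 * T) ^ ((1:ℝ)/10))
    linarith
  have h8 : Real.log (T ^ ((1:ℝ)/10) / 2) ≤ Real.log (⌊(2 * T) ^ ((1:ℝ)/10)⌋₊ : ℝ) :=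
    Real.log_le_log (by positivity) h7
  refine le_trans ?_ h8
  rw [Real.log_div (by positivity) (by norm_num), Real.log_rpow hT0]
  linarith

/-- powers of zeta and Dirichlet polynomials -/
theorem appr {δ : ℝ → ℝ} (hδ0 : Tendsto δ atTop (𝓝 0)) (hδL : Tendsto (fun T => δ T * Real.log T) atTop atTop)
    {U : ℝ → Set ℝ} {S : ℝ → ℕ} (hS : Tendsto S atTop atTop) (hU : ∀ᶠ T in atTop, Stg2 (S T) T (δ T) (U T))
    {k : ℕ} (hk : 1 ≤ k) {N : ℝ → ℕ} (hN : ∀ᶠ T in atTop, (N T : ℝ) ≤ T)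
    (hN' : Tendsto (fun T => δ T * Real.log (N T)) atTop atTop) :
    Tendsto (fun T => (2 * δ T) ^ ((k:ℝ) ^ 2) * ((∫ t in U T, ‖riemannZeta (1 / 2 + δ T + t * Complex.I) ^ k -
      es (1 / 2 + δ T + t * Complex.I) (DN k (N T))‖ ^ 2) / T)) atTop (𝓝 0) := by
  have hpos : ∀ᶠ T in atTop, 0 < δ T := by
    filter_upwards [hδL.eventually_gt_atTop 0, eventually_gt_atTop 1] with T hT hT1
    exact (pos_iff_pos_of_mul_pos hT).mpr (Real.log_pos hT1)
  have hk0 : (0:ℝ) < k := by exact_mod_cast hk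
  have hD := DD_asym hk0 hpos hδ0
  have hL := len_path hδ0 hpos hk0 (N1 := fun T => ⌊(2 * T) ^ ((1:ℝ)/10)⌋₊) (N2 := N) N0_le hN (N0_log hpos hδL) hN'
  have hi := inv_N (N := S) hS
  have hub := ((hi.mul hD).const_mul 2).add (hL.const_mul 2)
  simp only [zero_mul, mul_zero, add_zero] at hub
  refine squeeze_zero' ?_ ?_ hub
  · filter_upwards [eventually_gt_atTop 0, hpos] with T hT hT'
    have : 0 ≤ ∫ t in U T, ‖riemannZeta (1 / 2 + δ T + t * Complex.I) ^ k -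
      es (1 / 2 + δ T + t * Complex.I) (DN k (N T))‖ ^ 2 := integral_nonneg fun t => by positivity
    positivity
  · filter_upwards [hU, hpos, hS.eventually_ge_atTop k, eventually_gt_atTop 0,
      hδ0.eventually (gt_mem_nhds (show (0:ℝ) < 1 / 16 by norm_num))] with T hT hT0 hSk hTp hδ16
    set N0 := ⌊(2 * T) ^ ((1:ℝ)/10)⌋₊ with hN0
    have hsub : U T ⊆ Set.Icc 0 T := hT.1.2.1
    have hUm := hT.1.1
    have hzc : Continuous fun t : ℝ => riemannZeta (1 / 2 + δ T + t * Complex.I) ^ k := (zl_cont (by linarith)).pow k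
    have hc1 : Continuous fun t : ℝ => es (1 / 2 + δ T + t * Complex.I) (DN k N0) := es_lc _ (DN_Bd _ _)
    have hc2 : Continuous fun t : ℝ => es (1 / 2 + δ T + t * Complex.I) (DN k (N T)) := es_lc _ (DN_Bd _ _)
    have hint : ∀ g : ℝ → ℝ, Continuous g → IntegrableOn g (U T) := fun g hg =>
      (hg.continuousOn.integrableOn_compact isCompact_Icc).mono_set hsub
    have g1 := hT.2.2 k hk (by omega)
    have q1 : Continuous fun t : ℝ => 2 * ‖riemannZeta (1 / 2 + δ T + t * Complex.I) ^ k -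
      es (1 / 2 + δ T + t * Complex.I) (DN k N0)‖ ^ 2 := ((hzc.sub hc1).norm.pow 2).const_mul 2
    have q2 : Continuous fun t : ℝ => 2 * ‖es (1 / 2 + δ T + t * Complex.I) (DN k N0) -
      es (1 / 2 + δ T + t * Complex.I) (DN k (N T))‖ ^ 2 := ((hc1.sub hc2).norm.pow 2).const_mul 2
    have hp1 : ∀ t : ℝ, ‖riemannZeta (1 / 2 + δ T + t * Complex.I) ^ k - es (1 / 2 + δ T + t * Complex.I) (DN k (N T))‖ ^ 2 ≤
        2 * ‖riemannZeta (1 / 2 + δ T + t * Complex.I) ^ k - es (1 / 2 + δ T + t * Complex.I) (DN k N0)‖ ^ 2 +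
        2 * ‖es (1 / 2 + δ T + t * Complex.I) (DN k N0) - es (1 / 2 + δ T + t * Complex.I) (DN k (N T))‖ ^ 2 := by
      intro t
      have e1 : riemannZeta (1 / 2 + δ T + t * Complex.I) ^ k - es (1 / 2 + δ T + t * Complex.I) (DN k (N T)) =
        (riemannZeta (1 / 2 + δ T + t * Complex.I) ^ k - es (1 / 2 + δ T + t * Complex.I) (DN k N0)) +
        (es (1 / 2 + δ T + t * Complex.I) (DN k N0) - es (1 / 2 + δ T + t * Complex.I) (DN k (N T))) := by ring
      rw [e1]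
      exact sq_two _ _
    have h1 : ∫ t in U T, ‖riemannZeta (1 / 2 + δ T + t * Complex.I) ^ k - es (1 / 2 + δ T + t * Complex.I) (DN k (N T))‖ ^ 2 ≤
        ∫ t in U T, (2 * ‖riemannZeta (1 / 2 + δ T + t * Complex.I) ^ k - es (1 / 2 + δ T + t * Complex.I) (DN k N0)‖ ^ 2 +
        2 * ‖es (1 / 2 + δ T + t * Complex.I) (DN k N0) - es (1 / 2 + δ T + t * Complex.I) (DN k (N T))‖ ^ 2) :=
      setIntegral_mono_on (hint _ ((hzc.sub hc2).norm.pow 2))
        (hint _ (q1.add q2)) hUm fun t _ => hp1 t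
    rw [integral_add (hint _ q1) (hint _ q2), integral_const_mul, integral_const_mul] at h1
    have h2 : ∫ t in U T, ‖es (1 / 2 + δ T + t * Complex.I) (DN k N0) - es (1 / 2 + δ T + t * Complex.I) (DN k (N T))‖ ^ 2 ≤
        ∫ t in (0:ℝ)..(2 * T), ‖es (1 / 2 + δ T + t * Complex.I) (DN k N0) - es (1 / 2 + δ T + t * Complex.I) (DN k (N T))‖ ^ 2 := by
      rw [intervalIntegral.integral_of_le (by linarith), ← integral_Icc_eq_integral_Ioc]
      refine setIntegral_mono_set (((hc1.sub hc2).norm.pow 2).continuousOn.integrableOn_compact isCompact_Icc)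
        (Eventually.of_forall fun t => by positivity) (Eventually.of_forall fun t ht => ?_)
      have := hsub ht
      exact ⟨this.1, this.2.trans (by linarith)⟩
    have hc0 : 0 ≤ (2 * δ T) ^ ((k:ℝ) ^ 2) := by positivity
    set A := ∫ t in U T, ‖riemannZeta (1 / 2 + δ T + t * Complex.I) ^ k - es (1 / 2 + δ T + t * Complex.I) (DN k (N T))‖ ^ 2
    set B := ∫ t in (0:ℝ)..(2 * T), ‖es (1 / 2 + δ T + t * Complex.I) (DN k N0) - es (1 / 2 + δ T + t * Complex.I) (DN k (N T))‖ ^ 2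
    have h3 : A / T ≤ 2 * (1 / ((S T : ℝ) + 1) * DD k (δ T)) + 2 * (B / T) := by
      rw [div_le_iff₀ hTp]
      have e2 : (2 * (1 / ((S T : ℝ) + 1) * DD k (δ T)) + 2 * (B / T)) * T =
          2 * (1 / ((S T : ℝ) + 1) * (T * DD k (δ T))) + 2 * B := by field_simp
      rw [e2]
      linarith
    calc (2 * δ T) ^ ((k:ℝ) ^ 2) * (A / T) ≤ (2 * δ T) ^ ((k:ℝ) ^ 2) * (2 * (1 / ((S T : ℝ) + 1) * DD k (δ T)) + 2 * (B / T)) :=
          mul_le_mul_of_nonneg_left h3 hc0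
      _ = 2 * (1 / ((S T : ℝ) + 1) * ((2 * δ T) ^ ((k:ℝ) ^ 2) * DD k (δ T))) + 2 * ((2 * δ T) ^ ((k:ℝ) ^ 2) * (B / T)) := by ring

/-- the coefficients -/
lemma dv_nat (k n : ℕ) : dv (k:ℝ) n = ((ArithmeticFunction.zeta ^ k) n : ℝ) := by
  rw [← Pool.Agent.H306R2.dA_apply, Pool.Agent.H306R2.dA_nat]
  unfold Pool.Agent.H306R2.zR
  rw [← ArithmeticFunction.natCoe_apply]
  congr 1
  induction k with
  | zero => rw [pow_zero, pow_zero, ArithmeticFunction.natCoe_one]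
  | succ k ih => rw [pow_succ, pow_succ, ArithmeticFunction.natCoe_mul, ih]

end Pool.Agent.Y753.NL
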