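import Pool.Agent.Y755.Sml
import Pool.Agent.H306R2.Loc

set_option autoImplicit false

/-! Local polynomials over the small primes. -/

namespace Pool.Agent.Y753.NL

open Finset Filter MonoidAlgebra
open Pool.Agent.Y755
open Pool.Agent.H306R2 (lc lc_zero lc_nonneg lc_pos lc_summable)

/-- the local polynomial -/
noncomputable def Lp (α : ℝ) (K p : ℕ) : P1 := ∑ j ∈ range (K + 1), single (p ^ j) (lc α j)

/-- the polynomial over the small primes -/
noncomputable def Az (α : ℝ) (K z : ℕ) : P1 := ∏ p ∈ S0 z, Lp α K p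

lemma pow_mem_M1 {p : ℕ} (hp : p.Prime) (j : ℕ) : p ^ j ∈ M1 {p} := by
  refine mem_M1.mpr ⟨pow_ne_zero _ hp.ne_zero, fun q hq hd => ?_⟩
  rw [mem_singleton]
  exact (Nat.prime_dvd_prime_iff_eq hq hp).mp (hq.dvd_of_dvd_pow hd)

lemma Lp_mem {p : ℕ} (hp : p.Prime) (α : ℝ) (K : ℕ) : Lp α K p ∈ SA1 (M1 {p}) :=
  Subalgebra.sum_mem _ fun j _ => single_mem_SA1 (pow_mem_M1 hp j) _

lemma Az_mem (α : ℝ) (K z : ℕ) : Az α K z ∈ SA1 (M1 (S0 z)) :=
  Subalgebra.prod_mem _ fun p hp =>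
    SA1_mono (singleton_subset_iff.mpr hp) (Lp_mem (mem_S0.mp hp).2 α K)

lemma Bd1_of {f : P1} (h : ∀ x ∈ f.coeff.support, x ≠ 0) : ∃ m : ℝ, Bd1 m f := by
  refine ⟨((f.coeff.support.sup id : ℕ) : ℝ), fun x hx => ⟨h x hx, ?_⟩⟩
  exact_mod_cast Finset.le_sup (f := id) hx

lemma Az_Bd (α : ℝ) (K z : ℕ) : ∃ m : ℝ, Bd1 m (Az α K z) := Bd1_of fun x hx => (Az_mem α K z x hx).1

lemma es_Lp (s : ℂ) {p : ℕ} (hp : p.Prime) (α : ℝ) (K : ℕ) :
    es s (Lp α K p) = ∑ j ∈ range (K + 1), (lc α j : ℂ) * ((p:ℂ) ^ (-s)) ^ j := by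
  unfold Lp
  rw [map_sum]
  refine sum_congr rfl fun j _ => ?_
  rw [es_single, Nat.cast_pow, ← Complex.natCast_cpow_natCast_mul, mul_comm (j:ℂ), Complex.cpow_mul_nat]

lemma norm_one_sub_cpow {x : ℂ} (α : ℝ) (hx : ‖x‖ < 1) : ‖(1:ℂ) / (1 - x) ^ (α:ℂ)‖ = (‖1 - x‖ ^ α)⁻¹ := by
  have h1 : (1:ℂ) - x ≠ 0 := by
    intro h
    have : x = 1 := by linear_combination -h
    rw [this, norm_one] at hx
    exact lt_irrefl _ hx
  rw [norm_div, norm_one, Complex.norm_cpow_of_ne_zero h1, Complex.ofReal_re, Complex.ofReal_im, mul_zero,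
    Real.exp_zero, div_one, one_div]

/-- uniform local approximation -/
lemma loc_unif {α : ℝ} (hα : 0 < α) {r : ℝ} (hr : 0 < r) (hr1 : r < 1) {η : ℝ} (hη : 0 < η) :
    ∃ K0 : ℕ, ∀ K : ℕ, K0 ≤ K → ∀ x : ℂ, ‖x‖ ≤ r →
      |‖1 - x‖ ^ α * ‖∑ j ∈ range (K + 1), (lc α j : ℂ) * x ^ j‖ - 1| ≤ η := by
  have hs := lc_summable hα hr hr1
  have ht := hs.hasSum.tendsto_sum_nat
  have h2 : (0:ℝ) < η / 2 ^ α := by positivity
  have h3 := ht.eventually (lt_mem_nhds (sub_lt_self _ h2))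
  obtain ⟨K0, hK0⟩ := eventually_atTop.mp h3
  refine ⟨K0, fun K hK x hx => ?_⟩
  have hx1 : ‖x‖ < 1 := lt_of_le_of_lt hx hr1
  have hsum := lc_hasSum α hx1
  have hK := hK0 (K + 1) (by omega)
  have h4 := tail_close (f := fun j => lc α j * r ^ j) (g := fun j => (lc α j : ℂ) * x ^ j) hs (fun j => by
    rw [norm_mul, norm_pow, Complex.norm_real, Real.norm_of_nonneg (lc_nonneg hα.le j)]
    exact mul_le_mul_of_nonneg_left (pow_le_pow_left₀ (norm_nonneg _) hx j) (lc_nonneg hα.le j))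
    (F := range (K + 1)) (e := η / 2 ^ α) (by linarith)
  rw [hsum.tsum_eq] at h4
  set H := (1:ℂ) / (1 - x) ^ (α:ℂ) with hH
  set S := ∑ j ∈ range (K + 1), (lc α j : ℂ) * x ^ j with hS
  have hn := norm_one_sub_cpow α hx1
  rw [← hH] at hn
  have hpos : 0 < ‖1 - x‖ := by
    rw [norm_pos_iff]
    intro h
    have : x = 1 := by linear_combination -h
    rw [this, norm_one] at hx1
    exact lt_irrefl _ hx1
  have hle : ‖1 - x‖ ≤ 2 := by
    refine (norm_sub_le _ _).trans ?_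
    rw [norm_one]; linarith
  have hp : 0 < ‖1 - x‖ ^ α := by positivity
  have hp2 : ‖1 - x‖ ^ α ≤ 2 ^ α := Real.rpow_le_rpow hpos.le hle hα.le
  have h5 : ‖1 - x‖ ^ α * ‖H‖ = 1 := by rw [hn]; exact mul_inv_cancel₀ hp.ne'
  have h6 : |‖S‖ - ‖H‖| ≤ η / 2 ^ α := by
    rw [abs_sub_comm]
    exact (abs_norm_sub_norm_le _ _).trans h4
  have h7 : ‖1 - x‖ ^ α * ‖S‖ - 1 = ‖1 - x‖ ^ α * (‖S‖ - ‖H‖) := by rw [mul_sub, h5]
  rw [h7, abs_mul, abs_of_pos hp]
  calc ‖1 - x‖ ^ α * |‖S‖ - ‖H‖| ≤ 2 ^ α * (η / 2 ^ α) := mul_le_mul hp2 h6 (abs_nonneg _) (by positivity)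
    _ = η := by field_simp

lemma prod_close (P : Finset ℕ) {η : ℝ} (hη : 0 < η) : ∃ e : ℝ, 0 < e ∧ ∀ f : ℕ → ℝ, (∀ p ∈ P, |f p - 1| ≤ e) →
    |∏ p ∈ P, f p - 1| ≤ η := by
  classical
  induction P using Finset.induction_on generalizing η with
  | empty => exact ⟨1, one_pos, fun f _ => by simpa using hη.le⟩
  | insert a P ha ih =>
    obtain ⟨e, he, h⟩ := ih (η := min (η / 3) 1) (lt_min (by positivity) one_pos)
    refine ⟨min e (min (η / 3) 1), lt_min he (lt_min (by positivity) one_pos), fun f hf => ?_⟩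
    rw [prod_insert ha]
    have h1 := h f fun p hp => (hf p (mem_insert_of_mem hp)).trans (min_le_left _ _)
    have h2 := (hf a (mem_insert_self _ _)).trans (min_le_right _ _)
    set x := f a
    set y := ∏ p ∈ P, f p
    have h3 : |y - 1| ≤ η / 3 := h1.trans (min_le_left _ _)
    have h4 : |y - 1| ≤ 1 := h1.trans (min_le_right _ _)
    have h5 : |x - 1| ≤ η / 3 := h2.trans (min_le_left _ _)
    have e1 : x * y - 1 = (x - 1) * (y - 1) + (x - 1) + (y - 1) := by ring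
    rw [e1]
    refine (abs_add_le _ _).trans ?_
    refine (add_le_add (abs_add_le _ _) le_rfl).trans ?_
    rw [abs_mul]
    have h6 : |x - 1| * |y - 1| ≤ η / 3 * 1 := mul_le_mul h5 h4 (abs_nonneg _) (by positivity)
    linarith

/-- the size on the half plane -/
theorem Az_size {α ε : ℝ} (hα : 0 < α) (z : ℕ) (hε : 0 < ε) : ∃ K0 : ℕ, ∀ K : ℕ, K0 ≤ K → ∀ s : ℂ, 1 / 2 ≤ s.re →
    |‖es s (Pz z)‖ ^ α * ‖es s (Az α K z)‖ - 1| ≤ ε := by
  obtain ⟨e, he, hp⟩ := prod_close (S0 z) hε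
  have hr0 : (0:ℝ) < (2:ℝ) ^ (-(1 / 2 : ℝ)) := by positivity
  have hr1 : (2:ℝ) ^ (-(1 / 2 : ℝ)) < 1 := Real.rpow_lt_one_of_one_lt_of_neg (by norm_num) (by norm_num)
  obtain ⟨K0, hK0⟩ := loc_unif hα hr0 hr1 he
  refine ⟨K0, fun K hK s hs => ?_⟩
  have h1 := hp (fun p => ‖1 - (p:ℂ) ^ (-s)‖ ^ α * ‖∑ j ∈ range (K + 1), (lc α j : ℂ) * ((p:ℂ) ^ (-s)) ^ j‖)
    (fun p hpp => by
      have hpr := (mem_S0.mp hpp).2
      refine hK0 K hK _ ((norm_p_le hpr.two_le hs).trans ?_)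
      exact Real.rpow_le_rpow_of_nonpos (by norm_num) (by exact_mod_cast hpr.two_le) (by norm_num))
  refine le_trans (le_of_eq ?_) h1
  congr 2
  rw [prod_mul_distrib]
  congr 1
  · rw [es_Pz, norm_prod, ← Real.finset_prod_rpow _ _ fun _ _ => norm_nonneg _]
    rfl
  · unfold Az
    rw [map_prod, norm_prod]
    exact prod_congr rfl fun p hpp => by rw [es_Lp s (mem_S0.mp hpp).2]

/-! inner products -/

lemma ip_prodP {δ : ℝ} (P : Finset ℕ) {f g : ℕ → P1} (hf : ∀ p ∈ P, f p ∈ SA1 (M1 {p}))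
    (hg : ∀ p ∈ P, g p ∈ SA1 (M1 {p})) : ip δ (∏ p ∈ P, f p) (∏ p ∈ P, g p) = ∏ p ∈ P, ip δ (f p) (g p) := by
  classical
  induction P using Finset.induction_on with
  | empty => simp only [prod_empty]; exact ip_one δ
  | insert a P ha ih =>
    rw [prod_insert ha, prod_insert ha, prod_insert ha]
    have hd : Disjoint ({a} : Finset ℕ) P := disjoint_singleton_left.mpr ha
    have hm : ∀ f : ℕ → P1, (∀ p ∈ insert a P, f p ∈ SA1 (M1 {p})) → ∏ p ∈ P, f p ∈ SA1 (M1 P) := fun f hf =>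
      Subalgebra.prod_mem _ fun p hp => SA1_mono (singleton_subset_iff.mpr hp) (hf p (mem_insert_of_mem hp))
    rw [ip_mul hd (hf a (mem_insert_self _ _)) (hg a (mem_insert_self _ _)) (hm f hf) (hm g hg),
      ih (fun p hp => hf p (mem_insert_of_mem hp)) fun p hp => hg p (mem_insert_of_mem hp)]

/-- the local inner product -/
lemma ip_Lp (δ α : ℝ) (K : ℕ) {p : ℕ} (hp : p.Prime) (a : ℕ) :
    ip δ (single (p ^ a) 1 * Lp α K p) (Lp α K p) =
      ∑ i ∈ range (K + 1 - a), lc α i * lc α (i + a) * (rp δ p ^ 2) ^ (i + a) := by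
  unfold Lp
  rw [mul_sum, ip_sum_left]
  have h1 : ∀ i ∈ range (K + 1), ip δ (single (p ^ a) 1 * single (p ^ i) (lc α i))
      (∑ j ∈ range (K + 1), single (p ^ j) (lc α j)) =
      if i ∈ range (K + 1 - a) then lc α i * lc α (i + a) * (rp δ p ^ 2) ^ (i + a) else 0 := by
    intro i hi
    rw [single_mul_single, one_mul, ← pow_add, ip_sum_right]
    have h2 : ∀ j ∈ range (K + 1), ip δ (single (p ^ (a + i)) (lc α i)) (single (p ^ j) (lc α j)) =
        if j = i + a then lc α i * lc α (i + a) * (rp δ p ^ 2) ^ (i + a) else 0 := by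
      intro j _
      rw [ip_single]
      have h3 : p ^ (a + i) = p ^ j ↔ j = i + a := by
        rw [Nat.pow_right_inj hp.one_lt]; omega
      by_cases h4 : j = i + a
      · rw [if_pos (h3.mpr h4), if_pos h4, h4]
        have h5 := wδ_pow δ hp (i + a)
        unfold wδ at h5
        rw [add_comm a i, h5]
      · rw [if_neg (fun h => h4 (h3.mp h)), if_neg h4]
    rw [sum_congr rfl h2, sum_ite_eq']
    simp only [mem_range]
    congr 1
    rw [eq_iff_iff]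
    omega
  rw [sum_congr rfl h1, ← sum_filter]
  refine sum_congr ?_ fun _ _ => rfl
  ext i
  simp only [mem_filter, mem_range]
  omega

end Pool.Agent.Y753.NL
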