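import Pool.Agent.Y753.NL.Small

set_option autoImplicit false

/-! The twisted inner products over the small primes. -/

namespace Pool.Agent.Y753.NL

open Finset Filter MonoidAlgebra Topology
open Pool.Agent.Y755
open Pool.Agent.H306R2 (lc lc_zero lc_nonneg lc_pos lc_summable)

/-- the Fourier coefficient of the local law -/
noncomputable def nu (α : ℝ) (p c : ℕ) : ℝ :=
  Real.sqrt p ^ c * (∑' i : ℕ, lc α i * lc α (i + c) * (1 / (p:ℝ)) ^ (i + c)) /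
    ∑' i : ℕ, lc α i ^ 2 * (1 / (p:ℝ)) ^ i

lemma loc_bound {α : ℝ} (hα : 0 < α) {p : ℕ} (hp : p.Prime) (c : ℕ) :
    Summable fun i : ℕ => lc α i * lc α (i + c) * (1 / (p:ℝ)) ^ (i + c) := by
  have hp1 : (1:ℝ) < p := by exact_mod_cast hp.one_lt
  have hp0 : (0:ℝ) < p := by linarith
  set r : ℝ := (p:ℝ) ^ (-(1 / 2 : ℝ)) with hr
  have hr0 : 0 < r := by positivity
  have hr1 : r < 1 := half_lt_one hp.two_le
  have hs := lc_summable hα hr0 hr1
  have h2 : r ^ 2 = 1 / (p:ℝ) := half_sq hp.one_lt.le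
  have hC : ∀ i, lc α i * r ^ i ≤ ∑' j, lc α j * r ^ j := fun i =>
    hs.le_tsum i fun j _ => mul_nonneg (lc_nonneg hα.le j) (by positivity)
  set C := ∑' j, lc α j * r ^ j
  refine Summable.of_nonneg_of_le (fun i => by have := lc_nonneg hα.le i; have := lc_nonneg hα.le (i + c); positivity)
    (fun i => ?_) (hs.mul_left C)
  have h3 : (1 / (p:ℝ)) ^ (i + c) = r ^ (i + c) * (r ^ i * r ^ c) := by
    rw [← h2, ← pow_mul, ← pow_add, ← pow_add]; congr 1; ring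
  rw [h3]
  have h4 : r ^ c ≤ 1 := pow_le_one₀ hr0.le hr1.le
  have h5 := lc_nonneg hα.le i
  have h6 := lc_nonneg hα.le (i + c)
  calc lc α i * lc α (i + c) * (r ^ (i + c) * (r ^ i * r ^ c)) = (lc α (i + c) * r ^ (i + c)) * ((lc α i * r ^ i) * r ^ c) := by ring
    _ ≤ C * ((lc α i * r ^ i) * 1) := by
        refine mul_le_mul (hC _) (mul_le_mul_of_nonneg_left h4 (by positivity)) (by positivity) ?_
        exact le_trans (mul_nonneg (lc_nonneg hα.le 0) (by positivity)) (hC 0)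
    _ = _ := by ring

lemma rp_cont (p : ℕ) (hp : p.Prime) : Continuous fun δ : ℝ => rp δ p := by
  unfold rp
  have : (p:ℝ) ≠ 0 := by exact_mod_cast hp.ne_zero
  exact Continuous.rpow continuous_const (by fun_prop) fun _ => Or.inl this

lemma rp_zero_sq {p : ℕ} (hp : p.Prime) : rp 0 p ^ 2 = 1 / (p:ℝ) := by
  unfold rp; rw [add_zero]; exact half_sq hp.one_lt.le

lemma loc_lim {α : ℝ} (hα : 0 < α) {p : ℕ} (hp : p.Prime) (c : ℕ) :
    Tendsto (fun q : ℕ × ℝ => ip q.2 (single (p ^ c) 1 * Lp α q.1 p) (Lp α q.1 p)) (atTop ×ˢ 𝓝[≥] (0:ℝ))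
      (𝓝 (∑' i : ℕ, lc α i * lc α (i + c) * (1 / (p:ℝ)) ^ (i + c))) := by
  have e1 : ∀ q : ℕ × ℝ, ip q.2 (single (p ^ c) 1 * Lp α q.1 p) (Lp α q.1 p) =
      ∑' i : ℕ, if i < q.1 + 1 - c then lc α i * lc α (i + c) * (rp q.2 p ^ 2) ^ (i + c) else 0 := by
    intro q
    rw [ip_Lp _ _ _ hp, tsum_eq_sum (s := range (q.1 + 1 - c))]
    · exact sum_congr rfl fun i hi => by rw [if_pos (mem_range.mp hi)]
    · intro i hi
      rw [if_neg (by simpa using hi)]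
  simp_rw [e1]
  refine tendsto_tsum_of_dominated_convergence (loc_bound hα hp c) (fun i => ?_) ?_
  · have h1 : Tendsto (fun q : ℕ × ℝ => lc α i * lc α (i + c) * (rp q.2 p ^ 2) ^ (i + c)) (atTop ×ˢ 𝓝[≥] (0:ℝ))
        (𝓝 (lc α i * lc α (i + c) * (1 / (p:ℝ)) ^ (i + c))) := by
      have h2 : Tendsto (fun q : ℕ × ℝ => q.2) (atTop ×ˢ 𝓝[≥] (0:ℝ)) (𝓝 0) :=
        (tendsto_snd (f := (atTop : Filter ℕ)) (g := 𝓝[≥] (0:ℝ))).mono_right nhdsWithin_le_nhds
      have h3 := ((rp_cont p hp).tendsto 0).comp h2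
      have h4 := ((h3.pow 2).pow (i + c)).const_mul (lc α i * lc α (i + c))
      rw [rp_zero_sq hp] at h4
      exact h4
    refine h1.congr' ?_
    have h5 : ∀ᶠ q : ℕ × ℝ in atTop ×ˢ 𝓝[≥] (0:ℝ), i + c ≤ q.1 :=
      (tendsto_fst (f := (atTop : Filter ℕ)) (g := 𝓝[≥] (0:ℝ))).eventually (eventually_ge_atTop (i + c))
    filter_upwards [h5] with q hq
    rw [if_pos (by omega)]
  · have h5 : ∀ᶠ q : ℕ × ℝ in atTop ×ˢ 𝓝[≥] (0:ℝ), 0 ≤ q.2 :=
      (tendsto_snd (f := (atTop : Filter ℕ)) (g := 𝓝[≥] (0:ℝ))).eventually eventually_mem_nhdsWithin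
    filter_upwards [h5] with q hq i
    have h6 := lc_nonneg hα.le i
    have h7 := lc_nonneg hα.le (i + c)
    have h8 := rp_sq_le hq hp.one_lt.le
    have h9 : (0:ℝ) ≤ rp q.2 p ^ 2 := sq_nonneg _
    split_ifs
    · rw [Real.norm_of_nonneg (by positivity)]
      exact mul_le_mul_of_nonneg_left (pow_le_pow_left₀ h9 h8 _) (by positivity)
    · rw [norm_zero]; positivity

lemma den_pos {α : ℝ} (hα : 0 < α) {p : ℕ} (hp : p.Prime) : 1 ≤ ∑' i : ℕ, lc α i ^ 2 * (1 / (p:ℝ)) ^ i := by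
  have h := (loc_bound hα hp 0)
  have e : (fun i : ℕ => lc α i * lc α (i + 0) * (1 / (p:ℝ)) ^ (i + 0)) = fun i => lc α i ^ 2 * (1 / (p:ℝ)) ^ i := by
    funext i; rw [add_zero]; ring
  rw [e] at h
  have h1 := h.le_tsum 0 fun j _ => by positivity
  simpa [lc_zero] using h1

lemma nu_zero {α : ℝ} (hα : 0 < α) {p : ℕ} (hp : p.Prime) : nu α p 0 = 1 := by
  unfold nu
  have e : (fun i : ℕ => lc α i * lc α (i + 0) * (1 / (p:ℝ)) ^ (i + 0)) = fun i => lc α i ^ 2 * (1 / (p:ℝ)) ^ i := by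
    funext i; rw [add_zero]; ring
  rw [e, pow_zero, one_mul, div_self]
  have := den_pos hα hp
  linarith

/-- the local ratio -/
lemma loc_ratio {α : ℝ} (hα : 0 < α) {p : ℕ} (hp : p.Prime) (c : ℕ) :
    Tendsto (fun q : ℕ × ℝ => ((rp q.2 p)⁻¹) ^ c * ip q.2 (single (p ^ c) 1 * Lp α q.1 p) (Lp α q.1 p) /
      ip q.2 (Lp α q.1 p) (Lp α q.1 p)) (atTop ×ˢ 𝓝[≥] (0:ℝ)) (𝓝 (nu α p c)) := by
  have h1 := loc_lim hα hp c
  have h2 := loc_lim hα hp 0
  have e0 : ∀ K : ℕ, (single (p ^ 0) 1 * Lp α K p : P1) = Lp α K p := by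
    intro K; rw [pow_zero, ← MonoidAlgebra.one_def, one_mul]
  simp_rw [e0] at h2
  have e : (fun i : ℕ => lc α i * lc α (i + 0) * (1 / (p:ℝ)) ^ (i + 0)) = fun i => lc α i ^ 2 * (1 / (p:ℝ)) ^ i := by
    funext i; rw [add_zero]; ring
  rw [e] at h2
  have hd := den_pos hα hp
  have h3 : Tendsto (fun q : ℕ × ℝ => q.2) (atTop ×ˢ 𝓝[≥] (0:ℝ)) (𝓝 0) :=
    (tendsto_snd (f := (atTop : Filter ℕ)) (g := 𝓝[≥] (0:ℝ))).mono_right nhdsWithin_le_nhds
  have h4 := ((rp_cont p hp).tendsto 0).comp h3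
  have h5 : rp 0 p ≠ 0 := (rp_pos 0 hp).ne'
  have h6 := (h4.inv₀ h5).pow c
  have h7 := (h6.mul h1).div h2 (by linarith)
  have e2 : (rp 0 p)⁻¹ = Real.sqrt p := by
    unfold rp
    rw [add_zero, Real.rpow_neg (Nat.cast_nonneg p), inv_inv, ← Real.sqrt_eq_rpow]
  rw [e2] at h7
  exact h7

lemma Lp_ip_pos {δ α : ℝ} (hα : 0 < α) (K : ℕ) {p : ℕ} (hp : p.Prime) : 1 ≤ ip δ (Lp α K p) (Lp α K p) := by
  have h := ip_Lp δ α K hp 0
  have e0 : (single (p ^ 0) 1 * Lp α K p : P1) = Lp α K p := by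
    rw [pow_zero, ← MonoidAlgebra.one_def, one_mul]
  rw [e0] at h
  rw [h, Nat.sub_zero, sum_range_succ']
  have h2 : 0 ≤ ∑ k ∈ range K, lc α (k + 1) * lc α (k + 1 + 0) * (rp δ p ^ 2) ^ (k + 1 + 0) :=
    sum_nonneg fun i _ => by
      have h6 := lc_nonneg hα.le (i + 1)
      rw [add_zero]
      positivity
  simp [lc_zero] at h2 ⊢
  linarith

lemma Az_ip_ge {δ α : ℝ} (hα : 0 < α) (K z : ℕ) : 1 ≤ ip δ (Az α K z) (Az α K z) := by
  unfold Az
  rw [ip_prodP (S0 z) (fun p hp => Lp_mem (mem_S0.mp hp).2 α K) fun p hp => Lp_mem (mem_S0.mp hp).2 α K]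
  have := prod_le_prod (s := S0 z) (f := fun _ => (1:ℝ)) (g := fun p => ip δ (Lp α K p) (Lp α K p)) (fun _ _ => zero_le_one)
      (fun p hp => Lp_ip_pos hα K (mem_S0.mp hp).2)
  simpa using this

lemma single_prod {h z : ℕ} (h0 : h ≠ 0) (hz : ∀ p, p.Prime → p ∣ h → p < z) :
    (single h 1 : P1) = ∏ p ∈ S0 z, single (p ^ (h.factorization p)) 1 := by
  have e1 : h = ∏ p ∈ S0 z, p ^ (h.factorization p) := by
    conv_lhs => rw [← Nat.prod_factorization_pow_eq_self h0]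
    refine Finsupp.prod_of_support_subset _ ?_ _ (fun i _ => pow_zero i)
    intro p hp
    rw [Nat.support_factorization, Nat.mem_primeFactors] at hp
    exact mem_S0.mpr ⟨hz p hp.1 hp.2.1, hp.1⟩
  have e2 : ∀ n : ℕ, (single n 1 : P1) = MonoidAlgebra.of ℝ ℕ n := fun n => rfl
  simp_rw [e2]
  rw [← map_prod, ← e1]

/-- the product of the local coefficients -/
noncomputable def Nu (α : ℝ) (h k : ℕ) : ℝ := ∏ p ∈ (h * k).primeFactors, nu α p ((h * k).factorization p)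

lemma pow_fac {n z : ℕ} (n0 : n ≠ 0) (hz : ∀ p, p.Prime → p ∣ n → p < z) (δ : ℝ) :
    (n:ℝ) ^ (1 / 2 + δ) = ∏ p ∈ S0 z, ((rp δ p)⁻¹) ^ (n.factorization p) := by
  have e1 : n = ∏ p ∈ S0 z, p ^ (n.factorization p) := by
    conv_lhs => rw [← Nat.prod_factorization_pow_eq_self n0]
    refine Finsupp.prod_of_support_subset _ ?_ _ (fun i _ => pow_zero i)
    intro p hp
    rw [Nat.support_factorization, Nat.mem_primeFactors] at hp
    exact mem_S0.mpr ⟨hz p hp.1 hp.2.1, hp.1⟩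
  have e2 : (n:ℝ) = ∏ p ∈ S0 z, (p:ℝ) ^ (n.factorization p) := by
    conv_lhs => rw [e1]
    push_cast
    rfl
  rw [e2, ← Real.finsetProd_rpow _ _ fun _ _ => by positivity]
  refine prod_congr rfl fun p _ => ?_
  have hp0 : (0:ℝ) ≤ p := Nat.cast_nonneg p
  unfold rp
  rw [Real.rpow_neg hp0, inv_inv, ← Real.rpow_natCast, ← Real.rpow_natCast, ← Real.rpow_mul hp0,
    ← Real.rpow_mul hp0, mul_comm]

lemma ip_fac {α δ : ℝ} {K h k z : ℕ} (h0 : h ≠ 0) (k0 : k ≠ 0) (hc : h.Coprime k)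
    (hz : ∀ p, p.Prime → p ∣ h * k → p < z) :
    ip δ (single h 1 * Az α K z) (single k 1 * Az α K z) =
      ∏ p ∈ S0 z, ip δ (single (p ^ ((h * k).factorization p)) 1 * Lp α K p) (Lp α K p) := by
  have hzh : ∀ p, p.Prime → p ∣ h → p < z := fun p hp hd => hz p hp (hd.mul_right k)
  have hzk : ∀ p, p.Prime → p ∣ k → p < z := fun p hp hd => hz p hp (hd.mul_left h)
  have m1 : ∀ (n : ℕ) (p : ℕ), p ∈ S0 z → (single (p ^ n) 1 * Lp α K p : P1) ∈ SA1 (M1 {p}) := fun n p hp =>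
    Subalgebra.mul_mem _ (single_mem_SA1 (pow_mem_M1 (mem_S0.mp hp).2 n) 1) (Lp_mem (mem_S0.mp hp).2 α K)
  have e1 : (single h 1 * Az α K z : P1) = ∏ p ∈ S0 z, (single (p ^ (h.factorization p)) 1 * Lp α K p) := by
    rw [prod_mul_distrib, ← single_prod h0 hzh]; rfl
  have e2 : (single k 1 * Az α K z : P1) = ∏ p ∈ S0 z, (single (p ^ (k.factorization p)) 1 * Lp α K p) := by
    rw [prod_mul_distrib, ← single_prod k0 hzk]; rfl
  rw [e1, e2, ip_prodP (S0 z) (fun p hp => m1 _ p hp) (fun p hp => m1 _ p hp)]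
  refine prod_congr rfl fun p hp => ?_
  have hpp := (mem_S0.mp hp).2
  rw [Nat.factorization_mul h0 k0, Finsupp.add_apply]
  have h3 : h.factorization p = 0 ∨ k.factorization p = 0 := by
    by_contra hcon
    push Not at hcon
    have h4 : p ∣ h := Nat.dvd_of_factorization_pos hcon.1
    have h5 : p ∣ k := Nat.dvd_of_factorization_pos hcon.2
    exact hpp.one_lt.ne' (Nat.eq_one_of_dvd_coprimes hc h4 h5)
  have e0 : (single (p ^ 0) 1 * Lp α K p : P1) = Lp α K p := by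
    rw [pow_zero, ← MonoidAlgebra.one_def, one_mul]
  rcases h3 with h3 | h3
  · rw [h3, e0, zero_add, ip_comm]
  · rw [h3, e0, add_zero]

theorem ratio_lim {α : ℝ} (hα : 0 < α) {h k z : ℕ} (h0 : h ≠ 0) (k0 : k ≠ 0) (hc : h.Coprime k)
    (hz : ∀ p, p.Prime → p ∣ h * k → p < z) :
    Tendsto (fun q : ℕ × ℝ => ((h * k : ℕ) : ℝ) ^ (1 / 2 + q.2) * ip q.2 (single h 1 * Az α q.1 z) (single k 1 * Az α q.1 z) /
      ip q.2 (Az α q.1 z) (Az α q.1 z)) (atTop ×ˢ 𝓝[≥] (0:ℝ)) (𝓝 (Nu α h k)) := by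
  have hk0 : h * k ≠ 0 := mul_ne_zero h0 k0
  have h2 := tendsto_finsetProd (S0 z) fun p hp => loc_ratio hα (mem_S0.mp hp).2 ((h * k).factorization p)
  have e3 : ∏ p ∈ S0 z, nu α p ((h * k).factorization p) = Nu α h k := by
    unfold Nu
    symm
    refine prod_subset (fun p hp => ?_) fun p hp hn => ?_
    · rw [Nat.mem_primeFactors] at hp
      exact mem_S0.mpr ⟨hz p hp.1 hp.2.1, hp.1⟩
    · rw [← Nat.support_factorization, Finsupp.notMem_support_iff] at hn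
      rw [hn, nu_zero hα (mem_S0.mp hp).2]
  rw [e3] at h2
  refine h2.congr fun q => ?_
  rw [pow_fac hk0 hz, ip_fac h0 k0 hc hz]
  unfold Az
  rw [ip_prodP (S0 z) (fun p hp => Lp_mem (mem_S0.mp hp).2 α q.1) (fun p hp => Lp_mem (mem_S0.mp hp).2 α q.1),
      ← prod_mul_distrib, ← prod_div_distrib]

end Pool.Agent.Y753.NL
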