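import Pool.Agent.Y753.NL.Uni0

set_option autoImplicit false

/-! Locally uniform asymptotics over a window. -/

namespace Pool.Agent.Y753.NL

open Finset Filter MeasureTheory MonoidAlgebra Topology
open Pool.Agent.Y755
open Pool.Agent.W184.NZ
open Pool.Agent.W184 (zn zn_nonneg zn_cont zn_le')

section

variable {c y δ α ε W X1 X2 : ℝ} {z J Rs N K : ℕ} {A0 : P1} {m : ℝ}

/-- the mean of the comparison function -/
lemma wf_mean (h : Sy c z y J Rs N K) (hA : Bd1 m A0) (hAm : A0 ∈ SA1 (M1 (S0 z))) (hm0 : 0 ≤ m) (hδ : 0 ≤ δ)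
    (hα : 0 < α) (hα2 : α ≤ 2) (hE : ET c z y J Rs ≤ 1)
    (hW : Real.exp (Real.log y * (180 * ((Rs:ℝ) + 1))) ≤ W) :
    ∃ b : ℝ, (1 - ET c z y J Rs) * (ip δ A0 A0 * Real.exp (α ^ 2 * Vd δ z y J)) ≤ b ∧
      b ≤ ip δ A0 A0 * Real.exp (α ^ 2 * Vd δ z y J + ET c z y J Rs) ∧
      |(∫ t in X1..X2, wf δ α z y J Rs A0 t) - (X2 - X1) * b| ≤ 4 * (m * W) * (l1' A0 ^ 2 * W) := by
  have ha : |α - 1| ≤ 1 := by rw [abs_le]; constructor <;> linarith
  have hα22 : |α| ≤ 2 := by rw [abs_le]; constructor <;> linarith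
  have e0 : 1 + (α - 1) = α := by ring
  have n45 := N45 h hδ ha hAm hE
  rw [e0] at n45
  refine ⟨ip δ (A0 * Bz α z y J Rs ∅) (A0 * Bz α z y J Rs ∅), n45.1, ?_, ?_⟩
  · refine le_trans ?_ n45.2
    exact single_le_sum (f := fun S => ip δ (A0 * Bz α z y J Rs S) (A0 * Bz α z y J Rs S))
      (fun _ _ => ip_self_nonneg _ _) (empty_mem_powerset (range J))
  · have h1 := mvt_win (X1 := X1) (X2 := X2) hδ (AB_Bd (a := α) h hA hm0 hW ∅)
    have hW1 := one_le_W h hW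
    have h4 := mul_le_mul_of_nonneg_left (AB_l1_one (A0 := A0) h hα22 hW) (by positivity : (0:ℝ) ≤ 4 * (m * W))
    exact h1.trans h4

lemma l1'_single_mul (n : ℕ) (w : P1) : l1' (single n 1 * w) ≤ l1' w := by
  refine (l1'_mul _ _).trans ?_
  rw [l1'_single, abs_one, one_mul]

/-- the twisted mean of the comparison function -/
lemma wf_twist (h : Sy c z y J Rs N K) (hA : Bd1 m A0) (hAm : A0 ∈ SA1 (M1 (S0 z))) (hm0 : 0 ≤ m) (hδ : 0 ≤ δ)
    (hδ1 : δ ≤ 1 / 2) (hα : 0 < α) (hα2 : α ≤ 2) (hE : ET c z y J Rs ≤ 1)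
    (hW : Real.exp (Real.log y * (180 * ((Rs:ℝ) + 1))) ≤ W) {u v : ℕ} (u0 : u ≠ 0) (v0 : v ≠ 0)
    (huv : ∀ p, p.Prime → p ∣ u * v → p < z) :
    ∃ b : ℝ, (1 - ET c z y J Rs) * Real.exp (α ^ 2 * Vd δ z y J) ≤ b ∧
      b ≤ Real.exp (α ^ 2 * Vd δ z y J + ET c z y J Rs) ∧
      ‖(∫ t in X1..X2, ((wf δ α z y J Rs A0 t : ℝ) : ℂ) * tw u v t) - (((X2 - X1) *
        (((u * v : ℕ) : ℝ) ^ (1 / 2 + δ) * ip δ (single u 1 * A0) (single v 1 * A0) * b) : ℝ) : ℂ)‖ ≤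
        2 * ((u * v : ℕ) : ℝ) ^ 2 * (m * W) * (l1' A0 ^ 2 * W) := by
  have ha : |α - 1| ≤ 1 := by rw [abs_le]; constructor <;> linarith
  have hα22 : |α| ≤ 2 := by rw [abs_le]; constructor <;> linarith
  have e0 : 1 + (α - 1) = α := by ring
  have n45 := N45 (A0 := 1) h hδ ha (Subalgebra.one_mem _) hE
  rw [e0, ip_one, one_mul, one_mul] at n45
  have hW1 := one_le_W h hW
  set w := A0 * Bz α z y J Rs ∅ with hw
  have huv0 : u * v ≠ 0 := mul_ne_zero u0 v0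
  have huz : ∀ p, p.Prime → p ∣ u → p < z := fun p hp hd => huv p hp (hd.mul_right v)
  have hvz : ∀ p, p.Prime → p ∣ v → p < z := fun p hp hd => huv p hp (hd.mul_left u)
  have hu1 : u ∈ M1 (S0 z) := mem_M1.mpr ⟨u0, fun p hp hd => mem_S0.mpr ⟨huz p hp hd, hp⟩⟩
  have hv1 : v ∈ M1 (S0 z) := mem_M1.mpr ⟨v0, fun p hp hd => mem_S0.mpr ⟨hvz p hp hd, hp⟩⟩
  set q : ℝ := ((u * v : ℕ) : ℝ) with hq
  have hq1 : 1 ≤ q := by rw [hq]; exact_mod_cast Nat.pos_of_ne_zero huv0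
  have huq : (u:ℝ) ≤ q := by rw [hq]; exact_mod_cast Nat.le_mul_of_pos_right u (Nat.pos_of_ne_zero v0)
  have hvq : (v:ℝ) ≤ q := by rw [hq]; exact_mod_cast Nat.le_mul_of_pos_left v (Nat.pos_of_ne_zero u0)
  refine ⟨ip δ (Bz α z y J Rs ∅) (Bz α z y J Rs ∅), ?_, ?_, ?_⟩
  · simpa using n45.1
  · have n2 := n45.2
    rw [one_mul] at n2
    refine le_trans ?_ n2
    have := single_le_sum (f := fun S => ip δ (1 * Bz α z y J Rs S) (1 * Bz α z y J Rs S))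
      (fun _ _ => ip_self_nonneg _ _) (empty_mem_powerset (range J))
    simpa using this
  · have hwB : Bd1 (m * W) w := AB_Bd (a := α) h hA hm0 hW ∅
    have hf : Bd1 (q * (m * W)) (single u 1 * w) := (Bd1.single ⟨u0, huq⟩ 1).mul hwB
    have hg : Bd1 (q * (m * W)) (single v 1 * w) := (Bd1.single ⟨v0, hvq⟩ 1).mul hwB
    have h1 := mvt2 (δ := δ) hδ (by positivity) hf hg X1 X2
    have e1 : ip δ (single u 1 * w) (single v 1 * w) =
        ip δ (single u 1 * A0) (single v 1 * A0) * ip δ (Bz α z y J Rs ∅) (Bz α z y J Rs ∅) := by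
      rw [hw, ← mul_assoc, ← mul_assoc]
      exact ip2 (Subalgebra.mul_mem _ (single_mem_SA1 hu1 1) hAm) (Bz_mem ∅)
        (Subalgebra.mul_mem _ (single_mem_SA1 hv1 1) hAm) (Bz_mem ∅)
    have e2 : ∫ t in X1..X2, ((wf δ α z y J Rs A0 t : ℝ) : ℂ) * tw u v t =
        ((q ^ (1 / 2 + δ) : ℝ) : ℂ) * ∫ t in X1..X2, (es (1 / 2 + δ + t * Complex.I) (single u 1 * w) *
          starRingEnd ℂ (es (1 / 2 + δ + t * Complex.I) (single v 1 * w))) := by
      rw [← intervalIntegral.integral_const_mul]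
      refine intervalIntegral.integral_congr fun t _ => ?_
      exact tw_eq u0 v0 t w
    rw [e2]
    have e3 : (((X2 - X1) * (q ^ (1 / 2 + δ) * ip δ (single u 1 * A0) (single v 1 * A0) *
        ip δ (Bz α z y J Rs ∅) (Bz α z y J Rs ∅)) : ℝ) : ℂ) =
        ((q ^ (1 / 2 + δ) : ℝ) : ℂ) * (((X2 - X1) * ip δ (single u 1 * w) (single v 1 * w) : ℝ) : ℂ) := by
      rw [e1]; push_cast; ring
    rw [e3, ← mul_sub, norm_mul, Complex.norm_real, Real.norm_of_nonneg (by positivity)]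
    have h2 : q ^ (1 / 2 + δ) ≤ q := by
      calc q ^ (1 / 2 + δ) ≤ q ^ (1:ℝ) := Real.rpow_le_rpow_of_exponent_le hq1 (by linarith)
        _ = q := Real.rpow_one q
    have h3 : l1' (single u 1 * w) * l1' (single v 1 * w) ≤ l1' A0 ^ 2 * W := by
      calc l1' (single u 1 * w) * l1' (single v 1 * w) ≤ l1' w * l1' w :=
            mul_le_mul (l1'_single_mul u w) (l1'_single_mul v w) (l1'_nonneg _) (l1'_nonneg _)
        _ = l1' w ^ 2 := by ring
        _ ≤ _ := AB_l1_one (A0 := A0) h hα22 hW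
    calc q ^ (1 / 2 + δ) * _ ≤ q * (2 * (q * (m * W)) * (l1' A0 ^ 2 * W)) := by
          refine mul_le_mul h2 (h1.trans (mul_le_mul_of_nonneg_left h3 (by positivity))) (norm_nonneg _) (by positivity)
      _ = _ := by ring

end

end Pool.Agent.Y753.NL
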