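import Pool.Agent.Y753.NL.Win
import Pool.Agent.Y753.NL.Small2
import Pool.Agent.Y755.Res

set_option autoImplicit false

/-! Auxiliary facts for the locally uniform asymptotics. -/

namespace Pool.Agent.Y753.NL

open Finset Filter MeasureTheory MonoidAlgebra Topology
open Pool.Agent.Y755
open Pool.Agent.W184.NZ
open Pool.Agent.W184 (zn zn_nonneg zn_cont zn_le')
open Pool.Agent.H306R2 (aF aF_pos)

lemma arith_cl {ε X1 X2 M Y I x5 et A2 A3 E2 E4 E5 Q : ℝ} (hε : 0 < ε) (hε1 : ε ≤ 1 / 10)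
    (hX : 0 ≤ X2) (hY : 0 ≤ Y) (hI : 0 ≤ I) (hx5 : x5 ≤ 1 + ε) (hX12 : (1 - ε) * X2 ≤ X2 - X1)
    (hM0 : 0 ≤ M) (het : et ≤ ε ^ 2) (hA2 : A2 ≤ 8 * ε ^ 2 * M) (hA3 : A3 ≤ 2 * ε ^ 2 * M)
    (hM : X2 * M = Y) (hIY : I ≤ (1 + 13 * ε) * Y) (hE2 : E2 ≤ ε ^ 2 * Y) (hE4 : E4 ≤ ε ^ 2 * Y)
    (hE5 : E5 ≤ ε ^ 2 * Y) (hQ : Q ≤ 2 * ε ^ 2 * Y) :
    (2 * ((1 + ε) * x5) - 1) * I - (1 - 4 * ε) * ((X2 - X1) * ((1 - et) * M) - E2) +
      2 * (4 * (1 + 1 / ε) * (Q + (X2 * A2 + E4)) + (X2 * A3 + E5)) ≤ 140 * ε * Y := by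
  have a1 : (1 - ε) * (1 - ε ^ 2) * Y ≤ (X2 - X1) * ((1 - et) * M) := by
    calc (1 - ε) * (1 - ε ^ 2) * Y = (1 - ε) * X2 * ((1 - ε ^ 2) * M) := by rw [← hM]; ring
      _ ≤ (X2 - X1) * ((1 - ε ^ 2) * M) := mul_le_mul_of_nonneg_right hX12 (mul_nonneg (by nlinarith) hM0)
      _ ≤ (X2 - X1) * ((1 - et) * M) := by
          refine mul_le_mul_of_nonneg_left (mul_le_mul_of_nonneg_right (by linarith) hM0) ?_
          exact le_trans (mul_nonneg (by linarith) hX) hX12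
  have a2 : X2 * A2 ≤ 8 * ε ^ 2 * Y := by
    calc X2 * A2 ≤ X2 * (8 * ε ^ 2 * M) := mul_le_mul_of_nonneg_left hA2 hX
      _ = 8 * ε ^ 2 * (X2 * M) := by ring
      _ = _ := by rw [hM]
  have a3 : X2 * A3 ≤ 2 * ε ^ 2 * Y := by
    calc X2 * A3 ≤ X2 * (2 * ε ^ 2 * M) := mul_le_mul_of_nonneg_left hA3 hX
      _ = 2 * ε ^ 2 * (X2 * M) := by ring
      _ = _ := by rw [hM]
  have a4 : 4 * (1 + 1 / ε) * (Q + (X2 * A2 + E4)) ≤ 44 * (ε ^ 2 + ε) * Y := by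
    have h1 : Q + (X2 * A2 + E4) ≤ 11 * ε ^ 2 * Y := by nlinarith
    calc 4 * (1 + 1 / ε) * (Q + (X2 * A2 + E4)) ≤ 4 * (1 + 1 / ε) * (11 * ε ^ 2 * Y) :=
          mul_le_mul_of_nonneg_left h1 (by positivity)
      _ = _ := by field_simp; ring
  have a5 : (2 * ((1 + ε) * x5) - 1) * I ≤ (1 + 25 * ε) * Y := by
    have h1 : (1 + ε) * x5 ≤ (1 + ε) * (1 + ε) := mul_le_mul_of_nonneg_left hx5 (by positivity)
    have h2 : (2 * ((1 + ε) * x5) - 1) * I ≤ (2 * ((1 + ε) * (1 + ε)) - 1) * I :=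
      mul_le_mul_of_nonneg_right (by linarith) hI
    have h3 : (2 * ((1 + ε) * (1 + ε)) - 1) * I ≤ (2 * ((1 + ε) * (1 + ε)) - 1) * ((1 + 13 * ε) * Y) :=
      mul_le_mul_of_nonneg_left hIY (by nlinarith)
    have h4 : (2 * ((1 + ε) * (1 + ε)) - 1) * (1 + 13 * ε) ≤ 1 + 25 * ε := by
      have e2 : ε ^ 2 ≤ ε / 10 := by nlinarith
      have e3 : ε ^ 3 ≤ ε / 100 := by nlinarith
      nlinarith
    have h5 := mul_le_mul_of_nonneg_right h4 hY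
    linarith
  have a6 : (1 - 7 * ε) * Y ≤ (1 - 4 * ε) * ((X2 - X1) * ((1 - et) * M) - E2) := by
    have h1 : (1 - ε) * (1 - ε ^ 2) * Y - ε ^ 2 * Y ≤ (X2 - X1) * ((1 - et) * M) - E2 := by linarith
    have h2 := mul_le_mul_of_nonneg_left h1 (by linarith : 0 ≤ 1 - 4 * ε)
    refine le_trans ?_ h2
    have h3 : (1 - 7 * ε) ≤ (1 - 4 * ε) * ((1 - ε) * (1 - ε ^ 2) - ε ^ 2) := by
      have e2 : ε ^ 2 ≤ ε / 10 := by nlinarith
      have e3 : ε ^ 3 ≤ ε / 100 := by nlinarith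
      nlinarith [pow_pos hε 4]
    have h4 := mul_le_mul_of_nonneg_right h3 hY
    linarith
  have a7 : ε ^ 2 * Y ≤ ε / 10 * Y := mul_le_mul_of_nonneg_right (by nlinarith) hY
  have a8 : 44 * (ε ^ 2 + ε) * Y ≤ 48.4 * ε * Y := mul_le_mul_of_nonneg_right (by nlinarith) hY
  have a9 : 0 ≤ ε * Y := by positivity
  nlinarith

/-- the range of the sizes of the small Euler product -/
lemma Pz_range {z : ℕ} : ∃ M0 : ℝ, 0 ≤ M0 ∧ ∀ s : ℂ, 1 / 2 ≤ s.re → |Real.log ‖es s (Pz z)‖| ≤ M0 := by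
  obtain ⟨K0, hK0⟩ := Az_size (α := 1) (ε := 1 / 2) one_pos z (by norm_num)
  obtain ⟨m, hm⟩ := Az_Bd 1 K0 z
  set a := l1' (Az 1 K0 z) with ha
  set b := l1' (Pz z) with hb
  have ha0 : 0 ≤ a := l1'_nonneg _
  have hb0 : 0 ≤ b := l1'_nonneg _
  refine ⟨2 * (a + 1) + b, by positivity, fun s hs => ?_⟩
  have h1 := hK0 K0 le_rfl s hs
  rw [Real.rpow_one] at h1
  have hP := es_Pz_pos z hs
  have hPb : ‖es s (Pz z)‖ ≤ b := es_norm_le (by linarith) (Pz_Bd z)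
  have hAa : ‖es s (Az 1 K0 z)‖ ≤ a := es_norm_le (by linarith) hm
  set P := ‖es s (Pz z)‖
  set A := ‖es s (Az 1 K0 z)‖
  have h2 : 1 / 2 ≤ P * A := by have := (abs_le.mp h1).1; linarith
  have h3 : 1 / 2 ≤ P * (a + 1) := h2.trans (mul_le_mul_of_nonneg_left (by linarith) hP.le)
  have h4 : Real.log P ≤ b := by
    have := Real.log_le_sub_one_of_pos hP
    linarith
  have h5 : -(2 * (a + 1)) ≤ Real.log P := by
    have h6 : 0 < 1 / P := by positivity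
    have h7 := Real.log_le_sub_one_of_pos h6
    rw [one_div, Real.log_inv] at h7
    have h8 : P⁻¹ ≤ 2 * (a + 1) := by
      rw [inv_le_iff_one_le_mul₀ hP]
      linarith
    linarith
  rw [abs_le]
  constructor <;> linarith

lemma exp_near {x : ℝ} (hx : |x| ≤ 1) : |Real.exp x - 1| ≤ 2 * |x| := by
  have h := Real.abs_exp_sub_one_sub_id_le hx
  have h1 : |Real.exp x - 1| ≤ |Real.exp x - 1 - x| + |x| := by
    have := abs_add_le (Real.exp x - 1 - x) x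
    rwa [sub_add_cancel] at this
  have h2 : x ^ 2 ≤ |x| := by
    rw [← sq_abs]
    nlinarith [abs_nonneg x]
  linarith

/-- the size of the polynomial over the small primes, for nearby exponents -/
lemma near_size {α0 ε : ℝ} (h0 : 0 < α0) {z : ℕ} (hε : 0 < ε) (hε1 : ε ≤ 1 / 10) :
    ∃ K0 : ℕ, ∀ K : ℕ, K0 ≤ K → ∃ ρ : ℝ, 0 < ρ ∧ ∀ α : ℝ, |α - α0| ≤ ρ → ∀ s : ℂ, 1 / 2 ≤ s.re →
      1 - ε ≤ ‖es s (Pz z)‖ ^ (2 * α) * ‖es s (Az α0 K z)‖ ^ 2 ∧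
      ‖es s (Pz z)‖ ^ (2 * α) * ‖es s (Az α0 K z)‖ ^ 2 ≤ 1 + ε := by
  obtain ⟨K0, hK0⟩ := Az_size (ε := ε / 4) h0 z (by positivity)
  obtain ⟨M0, hM0, hM⟩ := Pz_range (z := z)
  refine ⟨K0, fun K hK => ⟨ε / (16 * (M0 + 1)), by positivity, fun α hα s hs => ?_⟩⟩
  have h1 := hK0 K hK s hs
  have h2 := hM s hs
  have hP := es_Pz_pos z hs
  set P := ‖es s (Pz z)‖
  set A := ‖es s (Az α0 K z)‖
  have e1 : P ^ (2 * α) * A ^ 2 = Real.exp (2 * (α - α0) * Real.log P) * (P ^ α0 * A) ^ 2 := by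
    have : Real.exp (2 * (α - α0) * Real.log P) = P ^ (2 * (α - α0)) := by
      rw [Real.rpow_def_of_pos hP]; congr 1; ring
    rw [this, mul_pow, ← Real.rpow_natCast (P ^ α0), ← Real.rpow_mul hP.le, ← mul_assoc, ← Real.rpow_add hP]
    congr 2
    push_cast; ring
  rw [e1]
  have h3 : |2 * (α - α0) * Real.log P| ≤ ε / 8 := by
    rw [abs_mul, abs_mul, abs_two]
    calc 2 * |α - α0| * |Real.log P| ≤ 2 * (ε / (16 * (M0 + 1))) * (M0 + 1) := by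
          gcongr
          linarith
      _ = ε / 8 := by field_simp; ring
  have h4 := exp_near (h3.trans (by linarith))
  set X := Real.exp (2 * (α - α0) * Real.log P)
  have h5 : |X - 1| ≤ ε / 4 := by linarith
  set u := P ^ α0 * A
  obtain ⟨a1, a2⟩ := abs_le.mp h5
  obtain ⟨b1, b2⟩ := abs_le.mp h1
  have hu : (1 - ε / 4) ^ 2 ≤ u ^ 2 := pow_le_pow_left₀ (by linarith) (by linarith) 2
  have hu2 : u ^ 2 ≤ (1 + ε / 4) ^ 2 := pow_le_pow_left₀ (by linarith) (by linarith) 2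
  constructor
  · have h6 : (1 - ε / 4) * (1 - ε / 4) ^ 2 ≤ X * u ^ 2 := mul_le_mul (by linarith) hu (by positivity) (by linarith)
    nlinarith [sq_nonneg ε]
  · have h6 : X * u ^ 2 ≤ (1 + ε / 4) * (1 + ε / 4) ^ 2 := mul_le_mul (by linarith) hu2 (by positivity) (by linarith)
    have e2 : ε ^ 2 ≤ ε / 10 := by nlinarith
    have e3 : ε ^ 3 ≤ ε / 100 := by nlinarith
    nlinarith

/-- the Dirichlet series from above -/
lemma DD_up {α : ℝ} (hα : 0 < α) : ∃ δ0 C : ℝ, 0 < δ0 ∧ 0 < C ∧ ∀ δ : ℝ, 0 < δ → δ ≤ δ0 → DD α δ ≤ C * δ ^ (-(α ^ 2)) := by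
  have h1 : Tendsto (fun T : ℝ => T⁻¹) atTop (𝓝 0) := tendsto_inv_atTop_zero
  have h := DD_asym hα (δ := fun T : ℝ => T⁻¹) (by
    filter_upwards [eventually_gt_atTop (0:ℝ)] with T hT
    positivity) h1
  have h2 := h.eventually (gt_mem_nhds (show aF α < aF α + 1 by linarith))
  obtain ⟨T0, hT0⟩ := eventually_atTop.mp h2
  have hF := aF_pos hα
  refine ⟨1 / (max T0 1), aF α + 1, by positivity, by positivity, fun δ hδ hδ1 => ?_⟩
  have h3 : max T0 1 ≤ δ⁻¹ := by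
    rw [le_inv_comm₀ (by positivity) hδ, ← one_div]
    exact hδ1
  have h4 := hT0 δ⁻¹ ((le_max_left _ _).trans h3)
  simp only [inv_inv] at h4
  have h5 : (2 * δ) ^ (α ^ 2) = 2 ^ (α ^ 2) * δ ^ (α ^ 2) := Real.mul_rpow (by norm_num) hδ.le
  have h6 : (1:ℝ) ≤ 2 ^ (α ^ 2) := Real.one_le_rpow (by norm_num) (sq_nonneg _)
  have h7 := DD_ge_one hα hδ
  have h8 : 0 < δ ^ (α ^ 2) := by positivity
  rw [Real.rpow_neg hδ.le]
  rw [h5] at h4
  rw [← div_eq_mul_inv, le_div_iff₀ h8]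
  have h9 : δ ^ (α ^ 2) * DD α δ ≤ 2 ^ (α ^ 2) * δ ^ (α ^ 2) * DD α δ := by
    have : 0 ≤ δ ^ (α ^ 2) * DD α δ := by positivity
    nlinarith
  linarith

lemma Ed_le {α δ : ℝ} (hδ : 0 ≤ δ) {p : ℕ} (hp : p.Prime) : Ed α δ p ≤ Ed α 0 p := by
  unfold Ed
  refine (Ed_summable (α := α) hδ hp).tsum_le_tsum (fun k => ?_) (Ed_summable (α := α) le_rfl hp)
  have h8 := rp_sq_le hδ hp.one_lt.le
  rw [rp_zero_sq hp]
  exact mul_le_mul_of_nonneg_left (pow_le_pow_left₀ (sq_nonneg _) h8 _) (sq_nonneg _)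

/-- the exponent is close to the logarithm -/
lemma V_near {α0 ε : ℝ} (h0 : 0 < α0) (hε : 0 < ε) (z : ℕ) :
    ∃ δ0 C : ℝ, 0 < δ0 ∧ δ0 ≤ 1 / 2 ∧ 0 ≤ C ∧ ∀ δ V : ℝ, 0 < δ → δ ≤ δ0 →
      Real.exp (-ε) * DD α0 δ ≤ (∏ p ∈ S0 z, Ed α0 δ p) * Real.exp (α0 ^ 2 * V) →
      (∏ p ∈ S0 z, Ed α0 δ p) * Real.exp (α0 ^ 2 * V) ≤ Real.exp ε * DD α0 δ →
      |V - Real.log (1 / δ)| ≤ C := by
  obtain ⟨δ1, C3, hδ1, hC3, hup⟩ := DD_up h0
  obtain ⟨c2, hc2, hlow⟩ := DD_low h0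
  set P00 := ∏ p ∈ S0 z, Ed α0 0 p with hP00
  have hP1 : 1 ≤ P00 := by
    have := prod_le_prod (s := S0 z) (f := fun _ => (1:ℝ)) (g := fun p => Ed α0 0 p) (fun _ _ => zero_le_one)
      (fun p hp => Ed_ge_one le_rfl (mem_S0.mp hp).2)
    simpa using this
  have hs : 0 < α0 ^ 2 := by positivity
  refine ⟨min δ1 (1 / 2), (ε + |Real.log C3| + |Real.log (c2 / P00)|) / α0 ^ 2, lt_min hδ1 (by norm_num),
    min_le_right _ _, by positivity, fun δ V hδ hδ2 g1 g2 => ?_⟩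
  have hd1 := hup δ hδ (hδ2.trans (min_le_left _ _))
  have hd2 := hlow δ hδ (hδ2.trans (min_le_right _ _))
  set P0 := ∏ p ∈ S0 z, Ed α0 δ p
  have hP0 : 1 ≤ P0 := by
    have := prod_le_prod (s := S0 z) (f := fun _ => (1:ℝ)) (g := fun p => Ed α0 δ p) (fun _ _ => zero_le_one)
      (fun p hp => Ed_ge_one hδ.le (mem_S0.mp hp).2)
    simpa using this
  have hP01 : P0 ≤ P00 := prod_le_prod (fun p hp => le_trans zero_le_one (Ed_ge_one hδ.le (mem_S0.mp hp).2))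
    fun p hp => Ed_le hδ.le (mem_S0.mp hp).2
  have hDp : 0 < DD α0 δ := lt_of_lt_of_le one_pos (DD_ge_one h0 hδ)
  have hdl : Real.log (δ ^ (-(α0 ^ 2))) = α0 ^ 2 * Real.log (1 / δ) := by
    rw [Real.log_rpow hδ, one_div, Real.log_inv]; ring
  have hdp : 0 < δ ^ (-(α0 ^ 2)) := by positivity
  have k1 : α0 ^ 2 * V ≤ ε + Real.log C3 + α0 ^ 2 * Real.log (1 / δ) := by
    have h1 : Real.exp (α0 ^ 2 * V) ≤ Real.exp ε * (C3 * δ ^ (-(α0 ^ 2))) := by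
      refine le_trans ?_ (g2.trans (mul_le_mul_of_nonneg_left hd1 (Real.exp_pos _).le))
      exact le_mul_of_one_le_left (Real.exp_pos _).le hP0
    have h2 := Real.log_le_log (Real.exp_pos _) h1
    rw [Real.log_exp, Real.log_mul (Real.exp_pos _).ne' (by positivity), Real.log_exp,
      Real.log_mul hC3.ne' hdp.ne', hdl] at h2
    linarith
  have k2 : -ε + Real.log (c2 / P00) + α0 ^ 2 * Real.log (1 / δ) ≤ α0 ^ 2 * V := by
    have h1 : Real.exp (-ε) * (c2 / P00 * δ ^ (-(α0 ^ 2))) ≤ Real.exp (α0 ^ 2 * V) := by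
      have h3 : Real.exp (-ε) * (c2 * δ ^ (-(α0 ^ 2))) ≤ P00 * Real.exp (α0 ^ 2 * V) :=
        (mul_le_mul_of_nonneg_left hd2 (Real.exp_pos _).le).trans (g1.trans
          (mul_le_mul_of_nonneg_right hP01 (Real.exp_pos _).le))
      have h4 : Real.exp (-ε) * (c2 / P00 * δ ^ (-(α0 ^ 2))) = (Real.exp (-ε) * (c2 * δ ^ (-(α0 ^ 2)))) / P00 := by ring
      rw [h4, div_le_iff₀ (by linarith)]
      linarith
    have h2 := Real.log_le_log (by positivity) h1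
    rw [Real.log_exp, Real.log_mul (Real.exp_pos _).ne' (by positivity), Real.log_exp,
      Real.log_mul (by positivity) hdp.ne', hdl] at h2
    linarith
  have k3 := le_abs_self (Real.log C3)
  have k4 := neg_abs_le (Real.log (c2 / P00))
  have k5 := abs_nonneg (Real.log C3)
  have k6 := abs_nonneg (Real.log (c2 / P00))
  rw [le_div_iff₀ hs, ← abs_of_pos hs, ← abs_mul, abs_le]
  constructor <;> nlinarith

end Pool.Agent.Y753.NL
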