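import Pool.Agent.Y753.NL.Uni

set_option autoImplicit false

/-! Arithmetic of the errors. -/

namespace Pool.Agent.Y753.NL

open Finset Filter MeasureTheory MonoidAlgebra Topology
open Pool.Agent.Y755
open Pool.Agent.W184.NZ
open Pool.Agent.W184 (zn zn_nonneg zn_cont zn_le')

lemma main_near {ε Y Xd X2 B EV b et : ℝ} (hε : 0 < ε) (hε1 : ε ≤ 1 / 10) (hB : 0 < B) (hEV : 0 < EV)
    (hX12 : (1 - ε) * X2 ≤ Xd) (hXd : Xd ≤ X2) (hX2 : 0 ≤ X2) (hY : X2 * (B * EV) = Y) (het : et ≤ ε ^ 2)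
    (hb1 : (1 - et) * EV ≤ b) (hb2 : b ≤ (1 + 2 * ε ^ 2) * EV) : |Xd * (B * b) - Y| ≤ 2 * ε * Y := by
  have hM0 : 0 < B * EV := by positivity
  have hXd0 : 0 ≤ Xd := le_trans (mul_nonneg (by linarith) hX2) hX12
  have hY0 : 0 ≤ Y := by rw [← hY]; positivity
  have e2 : ε ^ 2 ≤ ε / 10 := by nlinarith
  have hb0 : 0 ≤ b := le_trans (mul_nonneg (by linarith) hEV.le) hb1
  have hBb : 0 ≤ B * b := mul_nonneg hB.le hb0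
  have h1 : Xd * (B * b) ≤ (1 + 2 * ε ^ 2) * Y := by
    calc Xd * (B * b) ≤ X2 * (B * ((1 + 2 * ε ^ 2) * EV)) := by gcongr
      _ = (1 + 2 * ε ^ 2) * (X2 * (B * EV)) := by ring
      _ = _ := by rw [hY]
  have h2 : (1 - ε) * (1 - ε ^ 2) * Y ≤ Xd * (B * b) := by
    have h3 : (1 - ε ^ 2) * EV ≤ b := le_trans (mul_le_mul_of_nonneg_right (by linarith) hEV.le) hb1
    calc (1 - ε) * (1 - ε ^ 2) * Y = (1 - ε) * X2 * (B * ((1 - ε ^ 2) * EV)) := by rw [← hY]; ring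
      _ ≤ Xd * (B * b) := by
          refine mul_le_mul hX12 (mul_le_mul_of_nonneg_left h3 hB.le) ?_ hXd0
          exact mul_nonneg hB.le (mul_nonneg (by linarith) hEV.le)
  have h4 : (1 - 2 * ε) ≤ (1 - ε) * (1 - ε ^ 2) := by nlinarith [pow_pos hε 3]
  have h5 := mul_le_mul_of_nonneg_right h4 hY0
  have h6 : 2 * ε ^ 2 * Y ≤ 2 * ε * Y := mul_le_mul_of_nonneg_right (by linarith) hY0
  rw [abs_le]
  constructor <;> linarith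

lemma last1 {ε Y I S t E : ℝ} (hε : 0 < ε) (hε1 : ε ≤ 1 / 10) (hY : 0 ≤ Y) (h1 : |I - S| ≤ 140 * ε * Y)
    (h2 : |S - t| ≤ E) (hE : E ≤ ε ^ 2 * Y) (h3 : |t - Y| ≤ 2 * ε * Y) : |I - Y| ≤ 200 * ε * Y := by
  have e2 : ε ^ 2 * Y ≤ ε * Y := mul_le_mul_of_nonneg_right (by nlinarith) hY
  have e3 : 0 ≤ ε * Y := by positivity
  have h4 : |I - Y| ≤ |I - S| + |S - t| + |t - Y| := by
    have e : I - Y = (I - S) + (S - t) + (t - Y) := by ring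
    rw [e]
    exact (abs_add_le _ _).trans (add_le_add (abs_add_le _ _) le_rfl)
  linarith

lemma twist_near {ε Y Xd X2 B EV b et R ν : ℝ} (hε : 0 < ε) (hε1 : ε ≤ 1 / 10) (hB : 0 < B) (hEV : 0 < EV)
    (hX12 : (1 - ε) * X2 ≤ Xd) (hXd : Xd ≤ X2) (hX2 : 0 ≤ X2) (hY : X2 * (B * EV) = Y) (het : et ≤ ε ^ 2)
    (hb1 : (1 - et) * EV ≤ b) (hb2 : b ≤ (1 + 2 * ε ^ 2) * EV) (hR : |R / B - ν| ≤ ε) :
    |Xd * (R * b) - Y * ν| ≤ 3 * ε * (1 + |ν|) * Y := by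
  have h1 := main_near hε hε1 hB hEV hX12 hXd hX2 hY het hb1 hb2
  have hY0 : 0 ≤ Y := by rw [← hY]; positivity
  obtain ⟨x, hx⟩ : ∃ x, x = Xd * (B * b) := ⟨_, rfl⟩
  rw [← hx] at h1
  have e1 : Xd * (R * b) = R / B * x := by rw [hx]; field_simp
  have hx2 : |x| ≤ 2 * Y := by
    have := abs_le.mp h1
    have h3 : 2 * ε * Y ≤ Y := by nlinarith
    rw [abs_le]; constructor <;> linarith
  have e2 : Xd * (R * b) - Y * ν = (R / B - ν) * x + ν * (x - Y) := by rw [e1]; ring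
  rw [e2]
  refine (abs_add_le _ _).trans ?_
  rw [abs_mul, abs_mul]
  have h4 : |R / B - ν| * |x| ≤ ε * (2 * Y) := mul_le_mul hR hx2 (abs_nonneg _) hε.le
  have h5 : |ν| * |x - Y| ≤ |ν| * (2 * ε * Y) := mul_le_mul_of_nonneg_left h1 (abs_nonneg _)
  have h6 : 0 ≤ ε * Y := by positivity
  have h7 : 0 ≤ |ν| * (ε * Y) := by positivity
  nlinarith

lemma last2 {ε Y t E ν : ℝ} {I S : ℂ} (hε : 0 < ε) (hε1 : ε ≤ 1 / 10) (hY : 0 ≤ Y) (h1 : ‖I - S‖ ≤ 140 * ε * Y)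
    (h2 : ‖S - (t:ℂ)‖ ≤ E) (hE : E ≤ ε ^ 2 * Y) (h3 : |t - Y * ν| ≤ 3 * ε * (1 + |ν|) * Y) :
    ‖I - ((Y * ν : ℝ) : ℂ)‖ ≤ 200 * ε * (1 + |ν|) * Y := by
  have e2 : ε ^ 2 * Y ≤ ε * Y := mul_le_mul_of_nonneg_right (by nlinarith) hY
  have e3 : 0 ≤ ε * Y := by positivity
  have e4 : 0 ≤ |ν| * (ε * Y) := by positivity
  have h4 : ‖I - ((Y * ν : ℝ) : ℂ)‖ ≤ ‖I - S‖ + ‖S - (t:ℂ)‖ + |t - Y * ν| := by
    have e : I - ((Y * ν : ℝ) : ℂ) = (I - S) + (S - (t:ℂ)) + ((t - Y * ν : ℝ) : ℂ) := by push_cast; ring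
    rw [e]
    refine (norm_add_le _ _).trans (add_le_add (norm_add_le _ _) ?_)
    rw [Complex.norm_real, Real.norm_eq_abs]
  nlinarith

/-- all the error terms -/
lemma errs_all {T m l LP LP4 q B : ℝ} (hT1 : 1 ≤ T) (hm : 0 ≤ m)
    (hK : (8 * (LP ^ 2 + l ^ 2) + 4 * m * l ^ 2 + 4 * LP4 ^ 2 + 2 * q ^ 2 * m * l ^ 2) * T ^ ((2:ℝ) / 3) ≤ B) :
    4 * (NT T : ℝ) ^ 3 * (LP ^ 2 * T ^ ((1:ℝ) / 50)) ≤ B ∧
    4 * (m * T ^ ((1:ℝ) / 50)) * (l ^ 2 * T ^ ((1:ℝ) / 50)) ≤ B ∧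
    8 * (NT T : ℝ) * ((NT T : ℝ) ^ 2 * (LP ^ 2 * T ^ ((1:ℝ) / 50)) + l ^ 2 * T ^ ((1:ℝ) / 50)) ≤ B ∧
    4 * m * l ^ 2 * (T ^ ((1:ℝ) / 50)) ^ 6 ≤ B ∧
    4 * (NT T : ℝ) ^ 5 * (LP4 ^ 2 * T ^ ((1:ℝ) / 50)) ≤ B ∧
    2 * q ^ 2 * (m * T ^ ((1:ℝ) / 50)) * (l ^ 2 * T ^ ((1:ℝ) / 50)) ≤ B := by
  have hT0 : 0 < T := by linarith
  have hp : T ^ ((1:ℝ) / 2) ≤ T ^ ((2:ℝ) / 3) := Real.rpow_le_rpow_of_exponent_le hT1 (by norm_num)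
  have hT2 : 0 ≤ T ^ ((1:ℝ) / 2) := by positivity
  have hT3 : 0 ≤ T ^ ((2:ℝ) / 3) := by positivity
  have a1 : (8 * (LP ^ 2 + l ^ 2) + 4 * m * l ^ 2) * T ^ ((1:ℝ) / 2) ≤ B := by
    refine le_trans ?_ hK
    refine mul_le_mul ?_ hp hT2 (by positivity)
    have : 0 ≤ 4 * LP4 ^ 2 + 2 * q ^ 2 * m * l ^ 2 := by positivity
    linarith
  have a2 : (4 * LP4 ^ 2 + 4 * m * l ^ 2) * T ^ ((2:ℝ) / 3) ≤ B := by
    refine le_trans (mul_le_mul_of_nonneg_right ?_ hT3) hK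
    have : 0 ≤ 8 * (LP ^ 2 + l ^ 2) + 2 * q ^ 2 * m * l ^ 2 := by positivity
    linarith
  have a3 : (2 * q ^ 2 * m * l ^ 2) * T ^ ((1:ℝ) / 2) ≤ B := by
    refine le_trans ?_ hK
    refine mul_le_mul ?_ hp hT2 (by positivity)
    have : 0 ≤ 8 * (LP ^ 2 + l ^ 2) + 4 * m * l ^ 2 + 4 * LP4 ^ 2 := by positivity
    linarith
  obtain ⟨f1, f2, f4, f5⟩ := errs (LP := LP) (l := l) hT1 hm a1
  obtain ⟨f6, -⟩ := errs4 (LP := LP4) (l := l) hT1 hm a2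
  refine ⟨f1, f2, f4, f5, f6, ?_⟩
  have w2 : T ^ ((1:ℝ) / 50) * T ^ ((1:ℝ) / 50) ≤ T ^ ((1:ℝ) / 2) := by
    rw [← Real.rpow_add hT0]
    exact Real.rpow_le_rpow_of_exponent_le hT1 (by norm_num)
  have h1 := mul_le_mul_of_nonneg_left w2 (by positivity : 0 ≤ 2 * q ^ 2 * m * l ^ 2)
  calc _ = 2 * q ^ 2 * m * l ^ 2 * (T ^ ((1:ℝ) / 50) * T ^ ((1:ℝ) / 50)) := by ring
    _ ≤ _ := h1.trans a3

end Pool.Agent.Y753.NL
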