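import Pool.Agent.Y753.NL.Uni2

set_option autoImplicit false

/-! The asymptotics over a window, for one set of parameters. -/

namespace Pool.Agent.Y753.NL

open Finset Filter MeasureTheory MonoidAlgebra Topology
open Pool.Agent.Y755
open Pool.Agent.W184.NZ
open Pool.Agent.W184 (zn zn_nonneg zn_cont zn_le')

lemma Q_small {C C' T δ α e V Cv B : ℝ} {N : ℕ} (hC0 : 0 ≤ C') (hCC : C' ≤ C) (hT : 1 < T) (hδ : 0 < δ)
    (hx : 1 ≤ δ * Real.log T) (he : 0 ≤ e)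
    (hl : C / Real.exp (-(4 * Cv)) * ((δ * Real.log T) ^ (4:ℝ) * Real.exp (-(2 / 9) * (δ * Real.log T))) ≤ e)
    (hN : T ^ ((1:ℝ) / 9) ≤ N) (hα : 0 ≤ α) (hα2 : α ≤ 2) (hCv : 0 ≤ Cv) (hV : |V - Real.log (1 / δ)| ≤ Cv) (hB : 1 ≤ B) :
    C' * (T * Real.log T ^ (α ^ 2)) * (N:ℝ) ^ (-(2 * δ)) ≤ 2 * e * (T / 2 * (B * Real.exp (α ^ 2 * V))) := by
  have hT0 : 0 < T := by linarith
  have hL0 : 0 < Real.log T := Real.log_pos hT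
  have h1 : (N:ℝ) ^ (-(2 * δ)) ≤ Real.exp (-(2 / 9) * (δ * Real.log T)) := by
    calc (N:ℝ) ^ (-(2 * δ)) ≤ (T ^ ((1:ℝ) / 9)) ^ (-(2 * δ)) :=
          Real.rpow_le_rpow_of_nonpos (by positivity) hN (by linarith)
      _ = Real.exp (-(2 / 9) * (δ * Real.log T)) := by
          rw [← Real.rpow_mul hT0.le, Real.rpow_def_of_pos hT0]
          congr 1; ring
  have h4 : Real.log T ^ (α ^ 2) = (δ * Real.log T) ^ (α ^ 2) * δ ^ (-(α ^ 2)) := by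
    rw [Real.mul_rpow hδ.le hL0.le, mul_right_comm, ← Real.rpow_add hδ]
    simp
  have hα4 : α ^ 2 ≤ 4 := by nlinarith
  have h5 : (δ * Real.log T) ^ (α ^ 2) ≤ (δ * Real.log T) ^ (4:ℝ) := Real.rpow_le_rpow_of_exponent_le hx hα4
  have h6 : Real.exp (-(4 * Cv)) * δ ^ (-(α ^ 2)) ≤ Real.exp (α ^ 2 * V) := by
    rw [Real.rpow_def_of_pos hδ, ← Real.exp_add]
    refine Real.exp_le_exp.mpr ?_
    have h7 := (abs_le.mp hV).1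
    rw [one_div, Real.log_inv] at h7
    have h8 : α ^ 2 * (-Real.log δ - Cv) ≤ α ^ 2 * V := mul_le_mul_of_nonneg_left (by linarith) (sq_nonneg α)
    nlinarith
  have h9 : Real.exp (-(4 * Cv)) * δ ^ (-(α ^ 2)) ≤ B * Real.exp (α ^ 2 * V) := by
    refine h6.trans (le_mul_of_one_le_left (Real.exp_pos _).le hB)
  have hδp : 0 < δ ^ (-(α ^ 2)) := by positivity
  have hxp : 0 ≤ (δ * Real.log T) ^ (α ^ 2) := by positivity
  have hE := Real.exp_pos (-(4 * Cv))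
  set E4 := Real.exp (-(4 * Cv)) with hE4
  set X := Real.exp (-(2 / 9) * (δ * Real.log T)) with hX
  have hX0 : 0 < X := Real.exp_pos _
  calc C' * (T * Real.log T ^ (α ^ 2)) * (N : ℝ) ^ (-(2 * δ)) ≤ C * (T * Real.log T ^ (α ^ 2)) * X := by
        have hLp : 0 ≤ T * Real.log T ^ (α ^ 2) := by positivity
        exact mul_le_mul (mul_le_mul_of_nonneg_right hCC hLp) h1 (by positivity) (mul_nonneg (hC0.trans hCC) hLp)
    _ = T * (C / E4 * ((δ * Real.log T) ^ (α ^ 2) * X)) * (E4 * δ ^ (-(α ^ 2))) := by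
        rw [h4]; field_simp
    _ ≤ T * (C / E4 * ((δ * Real.log T) ^ (4:ℝ) * X)) * (E4 * δ ^ (-(α ^ 2))) := by
        have hC0' : 0 ≤ C / E4 := div_nonneg (hC0.trans hCC) hE.le
        gcongr
    _ ≤ T * e * (B * Real.exp (α ^ 2 * V)) := by
        have hC0' : 0 ≤ C / E4 := div_nonneg (hC0.trans hCC) hE.le
        exact mul_le_mul (mul_le_mul_of_nonneg_left hl hT0.le) h9 (by positivity) (mul_nonneg hT0.le he)
    _ = _ := by ring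

lemma sm_small {sz e B : ℝ} {N K : ℕ} (hsz : 0 ≤ sz) (he : 0 < e) (hB : 1 ≤ B) (hN1 : (1:ℝ) ≤ N)
    (hszN : sz / e ≤ N) (hNK : (N:ℝ) < 2 ^ (K + 1)) : sz / 2 ^ (K + 1) ≤ e * B := by
  have hN0 : (0:ℝ) < N := by linarith
  have h1 : sz / 2 ^ (K + 1) ≤ sz / N := div_le_div_of_nonneg_left hsz hN0 hNK.le
  have h2 : sz / N ≤ e := by
    rw [div_le_iff₀ hN0]
    rw [div_le_iff₀ he] at hszN
    linarith
  have h3 : e * 1 ≤ e * B := mul_le_mul_of_nonneg_left hB he.le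
  linarith

/-- a choice of all parameters -/
structure Cf (c y δ α ε X1 X2 W m Y B V Q1 Q2 : ℝ) (z J Rs N K : ℕ) (A0 : P1) : Prop where
  iS : Sy c z y J Rs N K
  iA : Bd1 m A0
  iAm : A0 ∈ SA1 (M1 (S0 z))
  im0 : 0 ≤ m
  imK : m < 2 ^ (K + 1)
  imW : m * W ≤ N
  id0 : 0 ≤ δ
  id1 : δ ≤ 1 / 16
  ia0 : 0 < α
  ia2 : α ≤ 2
  ie0 : 0 < ε
  ie1 : ε ≤ 1 / 10
  iPA : ∀ s : ℂ, 1 / 2 ≤ s.re → 1 - ε ≤ ‖es s (Pz z)‖ ^ (2 * α) * ‖es s A0‖ ^ 2 ∧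
      ‖es s (Pz z)‖ ^ (2 * α) * ‖es s A0‖ ^ 2 ≤ 1 + ε
  iE : ET c z y J Rs ≤ ε ^ 2
  iE4 : ET4 c z y J Rs ≤ ε ^ 2
  iX1 : 0 ≤ X1
  iX12 : X1 ≤ X2
  iX : (1 - ε) * X2 ≤ X2 - X1
  iW : Real.exp (Real.log y * (180 * ((Rs:ℝ) + 1))) ≤ W
  ih4 : 4 * Real.exp (-(2 * (Rs:ℝ))) ≤ ε
  ih14 : Real.exp (14 * Real.exp (-(2 * (Rs:ℝ)))) ≤ 1 + ε
  iB : B = ip δ A0 A0
  iV : V = Vd δ z y J
  iB1 : 1 ≤ B
  iY : X2 * (B * Real.exp (α ^ 2 * V)) = Y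
  ism : (4 ^ (S0 z).card * l1' A0) ^ 2 / 2 ^ (K + 1) ≤ ε ^ 2 * B
  iv : 15 * vd δ (Rst N y) ≤ ε ^ 2
  iQ1 : ∑ S ∈ (range J).powerset, ∫ t in X1..X2, qd (fun s => es s (Pz z * A0 * Bz (α - 1) z y J Rs S))
          (fun s => es s (DS N (α - 1) z y J Rs A0 S)) (1 / 2 + δ) t ≤ Q1
  iQ1s : Q1 ≤ 2 * ε ^ 2 * Y
  iQ2 : 1 ≤ α → ∑ S ∈ (range J).powerset, ∫ t in X1..X2, qd2 (fun s => es s (Pz z ^ 2 * A0 * Bz (α - 2) z y J Rs S))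
          (fun s => es s (DS2 N (α - 2) z y J Rs A0 S)) (1 / 2 + δ) t ≤ Q2
  iQ2s : Q2 ≤ 2 * ε ^ 2 * Y
  if1 : 4 * (N:ℝ) ^ 3 * (l1' (Pz z * A0) ^ 2 * W) ≤ ε ^ 2 * Y
  if2 : 4 * (m * W) * (l1' A0 ^ 2 * W) ≤ ε ^ 2 * Y
  if4 : 8 * (N:ℝ) * ((N:ℝ) ^ 2 * (l1' (Pz z * A0) ^ 2 * W) + l1' A0 ^ 2 * W) ≤ ε ^ 2 * Y
  if5 : 4 * m * l1' A0 ^ 2 * W ^ 6 ≤ ε ^ 2 * Y
  if6 : 4 * (N:ℝ) ^ 5 * (l1' (Pz z ^ 2 * A0) ^ 2 * W) ≤ ε ^ 2 * Y

namespace Cf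

variable {c y δ α ε X1 X2 W m Y B V Q1 Q2 : ℝ} {z J Rs N K : ℕ} {A0 : P1}

lemma X20 (H : Cf c y δ α ε X1 X2 W m Y B V Q1 Q2 z J Rs N K A0) : 0 ≤ X2 := H.iX1.trans H.iX12

lemma Y0 (H : Cf c y δ α ε X1 X2 W m Y B V Q1 Q2 z J Rs N K A0) : 0 ≤ Y := by
  rw [← H.iY]
  exact mul_nonneg H.X20 (mul_nonneg (by have := H.iB1; linarith) (Real.exp_pos _).le)

lemma e2 (H : Cf c y δ α ε X1 X2 W m Y B V Q1 Q2 z J Rs N K A0) : 0 < ε ^ 2 ∧ ε ^ 2 ≤ 1 / 100 := by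
  have h1 := H.ie0
  have h2 := H.ie1
  constructor
  · positivity
  · nlinarith

lemma re (H : Cf c y δ α ε X1 X2 W m Y B V Q1 Q2 z J Rs N K A0) (t : ℝ) :
    (1:ℝ) / 2 ≤ (1 / 2 + (δ:ℂ) + t * Complex.I).re := by
  rw [half_re]; have := H.id0; linarith

lemma MX (H : Cf c y δ α ε X1 X2 W m Y B V Q1 Q2 z J Rs N K A0) :
    X2 * (B * Real.exp (α ^ 2 * V)) ≤ (1 + 2 * ε) * Y := by
  rw [H.iY]
  have h1 := H.ie0
  have h2 := H.Y0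
  nlinarith

lemma I0 (H : Cf c y δ α ε X1 X2 W m Y B V Q1 Q2 z J Rs N K A0) : 0 ≤ ∫ t in X1..X2, zn (1 / 2 + δ) t ^ (2 * α) :=
  intervalIntegral.integral_nonneg H.iX12 fun _ _ => Real.rpow_nonneg (zn_nonneg _ _) _

lemma k14 (H : Cf c y δ α ε X1 X2 W m Y B V Q1 Q2 z J Rs N K A0) :
    (ip δ A0 A0 + (4 ^ (S0 z).card * l1' A0) ^ 2 / 2 ^ (K + 1)) *
        Real.exp (α ^ 2 * Vd δ z y J + ET4 c z y J Rs) * Real.exp (15 * vd δ (Rst N y)) ≤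
      (1 + 4 * ε ^ 2) * (B * Real.exp (α ^ 2 * V)) := by
  have e15 : 2 * (15 / 2 * vd δ (Rst N y)) = 15 * vd δ (Rst N y) := by ring
  have hB0 : 0 ≤ B := by have := H.iB1; linarith
  obtain ⟨k14, -, -, -⟩ := coef (E := α ^ 2 * V) H.e2.1 H.e2.2 hB0
    (by positivity : 0 ≤ (4 ^ (S0 z).card * l1' A0) ^ 2 / 2 ^ (K + 1))
    H.ism (ET4_nonneg c z y J Rs) H.iE4 (mul_nonneg (by norm_num) (vd_nonneg _ _) : 0 ≤ 15 / 2 * vd δ (Rst N y))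
    (by rw [e15]; exact H.iv)
  rw [e15] at k14
  rw [← H.iB, ← H.iV]
  exact k14

lemma ks (H : Cf c y δ α ε X1 X2 W m Y B V Q1 Q2 z J Rs N K A0) :
    (ip δ A0 A0 + (2 ^ (S0 z).card * l1' A0) ^ 2 / 2 ^ (K + 1)) *
        Real.exp (α ^ 2 * Vd δ z y J + ET c z y J Rs) * Real.exp (2 * vd δ (Rst N y)) ≤
      (1 + 4 * ε ^ 2) * (B * Real.exp (α ^ 2 * V)) ∧
    ip δ A0 A0 * Real.exp (α ^ 2 * Vd δ z y J + ET c z y J Rs) ≤ (1 + 2 * ε ^ 2) * (B * Real.exp (α ^ 2 * V)) ∧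
    ((ip δ A0 A0 + (2 ^ (S0 z).card * l1' A0) ^ 2 / 2 ^ (K + 1)) *
        Real.exp (ET c z y J Rs + 2 * vd δ (Rst N y)) -
        2 * (1 - ET c z y J Rs) * ip δ A0 A0 + Real.exp (ET c z y J Rs) * ip δ A0 A0) *
        Real.exp (α ^ 2 * Vd δ z y J) ≤ 8 * ε ^ 2 * (B * Real.exp (α ^ 2 * V)) ∧
    ET c z y J Rs * Real.exp (ET c z y J Rs) * (ip δ A0 A0 * Real.exp (α ^ 2 * Vd δ z y J)) ≤
      2 * ε ^ 2 * (B * Real.exp (α ^ 2 * V)) := by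
  have hB0 : 0 ≤ B := by have := H.iB1; linarith
  have hl0 : 0 ≤ l1' A0 := l1'_nonneg _
  have hv0 := vd_nonneg δ (Rst N y)
  have hv := H.iv
  have hsz2 : (2 ^ (S0 z).card * l1' A0) ^ 2 ≤ (4 ^ (S0 z).card * l1' A0) ^ 2 := by
    gcongr
    norm_num
  have hsm2 : (2 ^ (S0 z).card * l1' A0) ^ 2 / 2 ^ (K + 1) ≤ ε ^ 2 * B :=
    (div_le_div_of_nonneg_right hsz2 (by positivity)).trans H.ism
  have := coef (E := α ^ 2 * V) H.e2.1 H.e2.2 hB0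
    (by positivity : 0 ≤ (2 ^ (S0 z).card * l1' A0) ^ 2 / 2 ^ (K + 1))
    hsm2 (ET_nonneg c z y J Rs) H.iE hv0 (by linarith)
  rw [← H.iB, ← H.iV]
  exact this

/-- the upper bound -/
lemma up (H : Cf c y δ α ε X1 X2 W m Y B V Q1 Q2 z J Rs N K A0) :
    ∫ t in X1..X2, zn (1 / 2 + δ) t ^ (2 * α) ≤ (1 + 13 * ε) * Y := by
  have hE1 : ET c z y J Rs ≤ 1 := by have := H.e2.2; have := H.iE; linarith
  have hε1 : ε ≤ 1 := by have := H.ie1; linarith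
  have h41 : 4 * Real.exp (-(2 * (Rs:ℝ))) ≤ 1 := by have := H.ih4; linarith
  obtain ⟨k1, k2, -, -⟩ := H.ks
  rcases le_total α 1 with hα1 | hα1
  · have hw := win_up (Q := Q1) (ε := ε) (τ := ε) H.iS H.iA H.iAm H.im0 H.imK
      H.id0 H.id1 H.ia0 hα1 H.ie0 (fun t => (H.iPA _ (H.re t)).1) hε1 h41 hE1 H.iX1 H.iX12 H.iW H.iQ1
    exact arith_up H.ie0 H.ie1 H.ia0.le hα1 H.X20 H.Y0 H.I0 H.ih4 k1 k2 H.MX H.if1 H.if2 H.iQ1s hw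
  · have hw := win_up4 (Q := Q2) (ε := ε) (τ := ε) H.iS H.iA H.iAm H.im0 H.imK
      H.id0 H.id1 hα1 H.ia2 H.ie0 (fun t => (H.iPA _ (H.re t)).1) hε1 h41 hE1 H.iX1 H.iX12 H.iW (H.iQ2 hα1)
    exact arith_up H.ie0 H.ie1 (by linarith : 0 ≤ α / 2) (by have := H.ia2; linarith) H.X20 H.Y0 H.I0 H.ih4 H.k14 k2
      H.MX H.if6 H.if2 H.iQ2s hw

/-- closeness -/
lemma cl (H : Cf c y δ α ε X1 X2 W m Y B V Q1 Q2 z J Rs N K A0) :
    ∫ t in X1..X2, |zn (1 / 2 + δ) t ^ (2 * α) - wf δ α z y J Rs A0 t| ≤ 140 * ε * Y := by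
  have hE1 : ET c z y J Rs ≤ 1 := by have := H.e2.2; have := H.iE; linarith
  obtain ⟨-, -, k3, k4⟩ := H.ks
  have hcl := win_cl (Q := Q1) (ε := ε) (τ := ε) H.iS H.iA H.iAm H.im0 H.imK H.imW
      H.id0 H.id1 H.ia0 H.ia2 H.ie0 (by have := H.ie1; linarith) H.ie0.le (fun t => by
        have h1 := (H.iPA _ (H.re t)).1
        by_contra hcon
        have h2 : ‖es (1 / 2 + δ + t * Complex.I) A0‖ = 0 := le_antisymm (not_lt.mp hcon) (norm_nonneg _)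
        rw [h2] at h1
        have := H.ie1
        norm_num at h1
        linarith) (fun t => (H.iPA _ (H.re t)).2) hE1 H.iX1 H.iX12 H.iW H.iQ1
  refine hcl.trans ?_
  have e1 : ip δ A0 A0 * Real.exp (α ^ 2 * Vd δ z y J) = B * Real.exp (α ^ 2 * V) := by rw [H.iB, H.iV]
  have hM0 : 0 ≤ ip δ A0 A0 * Real.exp (α ^ 2 * Vd δ z y J) := by
    rw [← H.iB]; exact mul_nonneg (by have := H.iB1; linarith) (Real.exp_pos _).le
  rw [← e1] at k3 k4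
  exact arith_cl H.ie0 H.ie1 H.X20 H.Y0 H.I0 H.ih14 H.iX hM0 H.iE k3 k4 (by rw [e1]; exact H.iY) H.up H.if2 H.if4 H.if5 H.iQ1s

lemma Ee (H : Cf c y δ α ε X1 X2 W m Y B V Q1 Q2 z J Rs N K A0) : Real.exp (ET c z y J Rs) ≤ 1 + 2 * ε ^ 2 := by
  have h1 := H.e2
  have h2 := H.iE
  have h3 := ET_nonneg c z y J Rs
  have h4 := exp_two h3 (by linarith)
  nlinarith

lemma c1 (H : Cf c y δ α ε X1 X2 W m Y B V Q1 Q2 z J Rs N K A0) : Continuous (wf δ α z y J Rs A0) :=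
  wf_cont H.iS H.iA H.im0 H.iW

lemma c0 (H : Cf c y δ α ε X1 X2 W m Y B V Q1 Q2 z J Rs N K A0) : Continuous fun t => zn (1 / 2 + δ) t ^ (2 * α) :=
  znp_cont (by have := H.id1; linarith) (by have := H.ia0; linarith)

/-- the moment -/
lemma fa (H : Cf c y δ α ε X1 X2 W m Y B V Q1 Q2 z J Rs N K A0) :
    |(∫ t in X1..X2, zn (1 / 2 + δ) t ^ (2 * α)) - Y| ≤ 200 * ε * Y := by
  have hE1 : ET c z y J Rs ≤ 1 := by have := H.e2.2; have := H.iE; linarith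
  obtain ⟨b, hb1, hb2, hb3⟩ := wf_mean (X1 := X1) (X2 := X2) H.iS H.iA H.iAm H.im0 H.id0 H.ia0 H.ia2 hE1 H.iW
  have hB0 : 0 < B := by have := H.iB1; linarith
  have hEV0 : 0 < Real.exp (α ^ 2 * V) := Real.exp_pos _
  rw [← H.iB, ← H.iV] at hb1 hb2
  rw [Real.exp_add] at hb2
  have hd1 : |(∫ t in X1..X2, zn (1 / 2 + δ) t ^ (2 * α)) - ∫ t in X1..X2, wf δ α z y J Rs A0 t| ≤ 140 * ε * Y := by
    rw [← intervalIntegral.integral_sub (H.c0.intervalIntegrable _ _) (H.c1.intervalIntegrable _ _)]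
    exact (intervalIntegral.abs_integral_le_integral_abs H.iX12).trans H.cl
  set EV := Real.exp (α ^ 2 * V) with hEV
  have hbe : b = B * (b / B) := by field_simp
  have hb1' : (1 - ET c z y J Rs) * EV ≤ b / B := by
    rw [le_div_iff₀ hB0]; linarith only [hb1]
  have hb2' : b / B ≤ (1 + 2 * ε ^ 2) * EV := by
    rw [div_le_iff₀ hB0]
    have := mul_le_mul_of_nonneg_left H.Ee (by positivity : 0 ≤ B * EV)
    linarith only [this, hb2]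
  have hmn := main_near H.ie0 H.ie1 hB0 hEV0 H.iX (by have := H.iX1; linarith only [this]) H.X20 H.iY H.iE hb1' hb2'
  rw [← hbe] at hmn
  exact last1 H.ie0 H.ie1 H.Y0 hd1 hb3 H.if2 hmn

/-- the twisted moment -/
lemma fb {h k : ℕ} {ν : ℝ} (H : Cf c y δ α ε X1 X2 W m Y B V Q1 Q2 z J Rs N K A0) (hh : h ≠ 0) (hk : k ≠ 0)
    (hpz : ∀ p, p.Prime → p ∣ h * k → p < z)
    (hrt : |((h * k : ℕ) : ℝ) ^ (1 / 2 + δ) * ip δ (single h 1 * A0) (single k 1 * A0) / B - ν| ≤ ε)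
    (f7 : 2 * ((h * k : ℕ) : ℝ) ^ 2 * (m * W) * (l1' A0 ^ 2 * W) ≤ ε ^ 2 * Y) :
    ‖(∫ t in X1..X2, ((zn (1 / 2 + δ) t ^ (2 * α) : ℝ) : ℂ) * tw h k t) - ((Y * ν : ℝ) : ℂ)‖ ≤
      200 * ε * (1 + |ν|) * Y := by
  have hE1 : ET c z y J Rs ≤ 1 := by have := H.e2.2; have := H.iE; linarith
  obtain ⟨b, hb1, hb2, hb3⟩ := wf_twist (X1 := X1) (X2 := X2) H.iS H.iA H.iAm H.im0 H.id0 (by have := H.id1; linarith)
    H.ia0 H.ia2 hE1 H.iW hh hk hpz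
  have hB0 : 0 < B := by have := H.iB1; linarith
  have hEV0 : 0 < Real.exp (α ^ 2 * V) := Real.exp_pos _
  rw [← H.iV] at hb1 hb2
  rw [Real.exp_add] at hb2
  have hct := tw_cont h k
  have hd1 : ‖(∫ t in X1..X2, ((zn (1 / 2 + δ) t ^ (2 * α) : ℝ) : ℂ) * tw h k t) -
      ∫ t in X1..X2, ((wf δ α z y J Rs A0 t : ℝ) : ℂ) * tw h k t‖ ≤ 140 * ε * Y := by
    have g0 : Continuous fun t => ((zn (1 / 2 + δ) t ^ (2 * α) : ℝ) : ℂ) * tw h k t :=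
      (Complex.continuous_ofReal.comp H.c0).mul hct
    have g1 : Continuous fun t => ((wf δ α z y J Rs A0 t : ℝ) : ℂ) * tw h k t :=
      (Complex.continuous_ofReal.comp H.c1).mul hct
    rw [← intervalIntegral.integral_sub (g0.intervalIntegrable _ _) (g1.intervalIntegrable _ _)]
    refine (intervalIntegral.norm_integral_le_integral_norm H.iX12).trans (le_trans (le_of_eq ?_) H.cl)
    refine intervalIntegral.integral_congr fun t _ => ?_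
    show ‖((zn (1 / 2 + δ) t ^ (2 * α) : ℝ) : ℂ) * tw h k t - ((wf δ α z y J Rs A0 t : ℝ) : ℂ) * tw h k t‖ = _
    rw [← sub_mul, norm_mul, tw_norm, mul_one, ← Complex.ofReal_sub, Complex.norm_real, Real.norm_eq_abs]
  set EV := Real.exp (α ^ 2 * V) with hEV
  have hb2' : b ≤ (1 + 2 * ε ^ 2) * EV := by
    have := mul_le_mul_of_nonneg_left H.Ee hEV0.le
    linarith only [this, hb2]
  have htn := twist_near H.ie0 H.ie1 hB0 hEV0 H.iX (by have := H.iX1; linarith only [this]) H.X20 H.iY H.iE hb1 hb2' hrt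
  exact last2 H.ie0 H.ie1 H.Y0 hd1 hb3 f7 htn

end Cf

end Pool.Agent.Y753.NL
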