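import Pool.Agent.Y755.Wi6
import Pool.Agent.Y753.NL.MV2

set_option autoImplicit false

/-! The distance, in the mean, between a power of zeta and the square of a Dirichlet polynomial. -/

namespace Pool.Agent.Y753.NL

open Finset Filter MeasureTheory
open Pool.Agent.Y755
open Pool.Agent.W184.NZ
open Pool.Agent.W184 (zn zn_nonneg zn_cont zn_le')

/-- the comparison function -/
noncomputable def wf (δ α : ℝ) (z : ℕ) (y : ℝ) (J Rs : ℕ) (A0 : P1) (t : ℝ) : ℝ :=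
  ‖es (1 / 2 + δ + t * Complex.I) (A0 * Bz α z y J Rs ∅)‖ ^ 2

lemma wf_nonneg (δ α : ℝ) (z : ℕ) (y : ℝ) (J Rs : ℕ) (A0 : P1) (t : ℝ) : 0 ≤ wf δ α z y J Rs A0 t := by
  unfold wf; positivity

section

variable {c y δ α ε τ W X1 X2 Q : ℝ} {z J Rs N K : ℕ} {A0 : P1} {m : ℝ}

lemma wf_cont (h : Sy c z y J Rs N K) (hA : Bd1 m A0) (hm : 0 ≤ m)
    (hW : Real.exp (Real.log y * (180 * ((Rs:ℝ) + 1))) ≤ W) : Continuous (wf δ α z y J Rs A0) :=
  es_cont0 δ (AB_Bd (a := α) h hA hm hW ∅)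

lemma abs_split {a b κ τ E : ℝ} (ha : 0 ≤ a) (hb : 0 ≤ b) (hκ : 1 ≤ κ) (hτ : 0 ≤ τ) (hE : 0 ≤ E)
    (h : (1 - 2 * τ) * b - E ≤ κ * a) : |a - b| ≤ (2 * κ - 1) * a - (1 - 4 * τ) * b + 2 * E := by
  have h1 : 0 ≤ (κ - 1) * a := mul_nonneg (by linarith) ha
  have h2 : 0 ≤ τ * b := mul_nonneg hτ hb
  rw [abs_le]
  constructor <;> nlinarith

/-- closeness over a window -/
theorem win_cl (h : Sy c z y J Rs N K) (hA : Bd1 m A0) (hAm : A0 ∈ SA1 (M1 (S0 z))) (hm0 : 0 ≤ m)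
    (hmK : m < 2 ^ (K + 1)) (hmN : m * W ≤ N) (hδ : 0 ≤ δ) (hδ1 : δ ≤ 1 / 16) (hα : 0 < α) (hα2 : α ≤ 2) (hτ : 0 < τ)
    (hτ1 : τ ≤ 1 / 4) (hε : 0 ≤ ε)
    (hA0 : ∀ t : ℝ, 0 < ‖es (1 / 2 + δ + t * Complex.I) A0‖)
    (hPA : ∀ t : ℝ, ‖es (1 / 2 + δ + t * Complex.I) (Pz z)‖ ^ (2 * α) * ‖es (1 / 2 + δ + t * Complex.I) A0‖ ^ 2 ≤ 1 + ε)
    (hE : ET c z y J Rs ≤ 1) (hX1 : 0 ≤ X1) (hX12 : X1 ≤ X2)
    (hW : Real.exp (Real.log y * (180 * ((Rs:ℝ) + 1))) ≤ W)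
    (hQ : ∑ S ∈ (range J).powerset, ∫ t in X1..X2, qd (fun s => es s (Pz z * A0 * Bz (α - 1) z y J Rs S))
          (fun s => es s (DS N (α - 1) z y J Rs A0 S)) (1 / 2 + δ) t ≤ Q) :
    ∫ t in X1..X2, |zn (1 / 2 + δ) t ^ (2 * α) - wf δ α z y J Rs A0 t| ≤
      (2 * ((1 + ε) * Real.exp (14 * Real.exp (-(2 * (Rs:ℝ))))) - 1) * (∫ t in X1..X2, zn (1 / 2 + δ) t ^ (2 * α)) -
      (1 - 4 * τ) * ((X2 - X1) * ((1 - ET c z y J Rs) * (ip δ A0 A0 * Real.exp (α ^ 2 * Vd δ z y J))) -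
        4 * (m * W) * (l1' A0 ^ 2 * W)) +
      2 * (4 * (1 + 1 / τ) * (Q + (X2 * (((ip δ A0 A0 + (2 ^ (S0 z).card * l1' A0) ^ 2 / 2 ^ (K + 1)) *
        Real.exp (ET c z y J Rs + 2 * vd δ (Rst N y)) -
        2 * (1 - ET c z y J Rs) * ip δ A0 A0 + Real.exp (ET c z y J Rs) * ip δ A0 A0) *
        Real.exp (α ^ 2 * Vd δ z y J)) +
        8 * N * ((N:ℝ) ^ 2 * (l1' (Pz z * A0) ^ 2 * W) + l1' A0 ^ 2 * W))) +
      (X2 * (ET c z y J Rs * Real.exp (ET c z y J Rs) * (ip δ A0 A0 * Real.exp (α ^ 2 * Vd δ z y J))) +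
        4 * m * l1' A0 ^ 2 * W ^ 6)) := by
  have ha : |α - 1| ≤ 1 := by rw [abs_le]; constructor <;> linarith
  have ha2 : |α - 1| ≤ 2 := ha.trans (by norm_num)
  have hα22 : |α| ≤ 2 := by rw [abs_le]; constructor <;> linarith
  have hX2 : 0 ≤ X2 := hX1.trans hX12
  have hXd : 0 ≤ X2 - X1 := by linarith
  have e0 : 1 + (α - 1) = α := by ring
  have hWm : ∀ S, Bd1 (m * W) (A0 * Bz α z y J Rs S) := fun S => AB_Bd h hA hm0 hW S
  have hQB : ∀ j, Bd1 W (Qe (RR Rs j) (IZ z y j)) := fun j => (Qe_Bd (rg_b h.rg j) _).mono (bbR_le h hW j)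
  have c1 : Continuous (wf δ α z y J Rs A0) := wf_cont h hA hm0 hW
  have c0 : Continuous fun t => zn (1 / 2 + δ) t ^ (2 * α) := znp_cont (by linarith) (by linarith)
  have c2 := qdS_cont (δ := δ) h hA hδ1 (α - 1) ∅
  have c3 : Continuous fun t : ℝ => ‖es (1 / 2 + δ + t * Complex.I) (DS N (α - 1) z y J Rs A0 ∅ - A0 * Bz α z y J Rs ∅)‖ ^ 2 :=
    es_cont0 δ ((DS_Bd h hA ∅).sub ((hWm ∅).mono hmN))
  have c4 : ∀ j, Continuous fun t : ℝ => ‖es (1 / 2 + δ + t * Complex.I) (A0 * Bz α z y J Rs ∅ * Qe (RR Rs j) (IZ z y j))‖ ^ 2 :=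
    fun j => es_cont0 δ ((hWm ∅).mul (hQB j))
  obtain ⟨κ, hκ⟩ : ∃ κ : ℝ, κ = (1 + ε) * Real.exp (14 * Real.exp (-(2 * (Rs:ℝ)))) := ⟨_, rfl⟩
  rw [← hκ]
  have hκ1 : 1 ≤ κ := by
    have : 1 ≤ Real.exp (14 * Real.exp (-(2 * (Rs:ℝ)))) := Real.one_le_exp (by positivity)
    rw [hκ]
    nlinarith
  obtain ⟨q, hq⟩ : ∃ q : ℝ → ℝ, ∀ t, q t = qd (fun s => es s (Pz z * A0 * Bz (α - 1) z y J Rs ∅))
          (fun s => es s (DS N (α - 1) z y J Rs A0 ∅)) (1 / 2 + δ) t := ⟨_, fun _ => rfl⟩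
  obtain ⟨d, hd⟩ : ∃ d : ℝ → ℝ, ∀ t, d t = ‖es (1 / 2 + δ + t * Complex.I) (DS N (α - 1) z y J Rs A0 ∅ - A0 * Bz α z y J Rs ∅)‖ ^ 2 :=
    ⟨_, fun _ => rfl⟩
  obtain ⟨r, hr⟩ : ∃ r : ℕ → ℝ → ℝ, ∀ j t, r j t = ‖es (1 / 2 + δ + t * Complex.I) (A0 * Bz α z y J Rs ∅ * Qe (RR Rs j) (IZ z y j))‖ ^ 2 :=
    ⟨_, fun _ _ => rfl⟩
  obtain ⟨G, hG⟩ : ∃ G : ℝ, G = 4 * (1 + 1 / τ) := ⟨_, rfl⟩
  rw [← hG]
  have hG0 : 0 ≤ G := by rw [hG]; positivity
  simp_rw [← hq] at c2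
  simp_rw [← hd] at c3
  simp_rw [← hr] at c4
  have hpw : ∀ t : ℝ, |zn (1 / 2 + δ) t ^ (2 * α) - wf δ α z y J Rs A0 t| ≤
      (2 * κ - 1) * zn (1 / 2 + δ) t ^ (2 * α) - (1 - 4 * τ) * wf δ α z y J Rs A0 t +
        2 * (G * (q t + d t) + ∑ j ∈ range J, r j t) := by
    intro t
    refine abs_split (Real.rpow_nonneg (zn_nonneg _ _) _) (wf_nonneg _ _ _ _ _ _ _ _) hκ1 hτ.le ?_ ?_
    · have h1 : 0 ≤ q t := by rw [hq]; exact qd_nonneg _ _ _ _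
      have h2 : 0 ≤ d t := by rw [hd]; positivity
      have h3 : 0 ≤ ∑ j ∈ range J, r j t := sum_nonneg fun j _ => by rw [hr]; positivity
      exact add_nonneg (mul_nonneg hG0 (add_nonneg h1 h2)) h3
    · have h1 := low_pw2 (J := J) (N := N) (y := y) h.R1 hα hα2 t hτ (hA0 t) (hPA t)
      rw [← hq, ← hd, ← hG, ← hκ] at h1
      simp_rw [← hr] at h1
      have e1 : (1 - 2 * τ) * wf δ α z y J Rs A0 t - (G * (q t + d t) + ∑ j ∈ range J, r j t) =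
          (1 - 2 * τ) * ‖es (1 / 2 + δ + t * Complex.I) (A0 * Bz α z y J Rs ∅)‖ ^ 2 - G * (q t + d t) - ∑ j ∈ range J, r j t := by
        unfold wf; ring
      rw [e1]
      exact h1
  have i0 : IntervalIntegrable (fun t => zn (1 / 2 + δ) t ^ (2 * α)) volume X1 X2 := c0.intervalIntegrable _ _
  have i1 : IntervalIntegrable (wf δ α z y J Rs A0) volume X1 X2 := c1.intervalIntegrable _ _
  have i2 : IntervalIntegrable q volume X1 X2 := c2.intervalIntegrable _ _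
  have i3 : IntervalIntegrable d volume X1 X2 := c3.intervalIntegrable _ _
  have i4 : ∀ j, IntervalIntegrable (r j) volume X1 X2 := fun j => (c4 j).intervalIntegrable _ _
  have i5 : IntervalIntegrable (fun t => ∑ j ∈ range J, r j t) volume X1 X2 :=
    (continuous_finsetSum _ fun j _ => c4 j).intervalIntegrable _ _
  have h1 : ∫ t in X1..X2, |zn (1 / 2 + δ) t ^ (2 * α) - wf δ α z y J Rs A0 t| ≤
      ∫ t in X1..X2, ((2 * κ - 1) * zn (1 / 2 + δ) t ^ (2 * α) - (1 - 4 * τ) * wf δ α z y J Rs A0 t +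
        2 * (G * (q t + d t) + ∑ j ∈ range J, r j t)) := by
    refine intervalIntegral.integral_mono_on hX12 ((c0.sub c1).abs.intervalIntegrable _ _) ?_ fun t _ => hpw t
    exact ((i0.const_mul _).sub (i1.const_mul _)).add ((((i2.add i3).const_mul _).add i5).const_mul _)
  have h2 : ∫ t in X1..X2, ((2 * κ - 1) * zn (1 / 2 + δ) t ^ (2 * α) - (1 - 4 * τ) * wf δ α z y J Rs A0 t +
        2 * (G * (q t + d t) + ∑ j ∈ range J, r j t)) =
      (2 * κ - 1) * (∫ t in X1..X2, zn (1 / 2 + δ) t ^ (2 * α)) - (1 - 4 * τ) * (∫ t in X1..X2, wf δ α z y J Rs A0 t) +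
        2 * (G * ((∫ t in X1..X2, q t) + ∫ t in X1..X2, d t) + ∑ j ∈ range J, ∫ t in X1..X2, r j t) := by
    rw [intervalIntegral.integral_add ((i0.const_mul _).sub (i1.const_mul _)) ((((i2.add i3).const_mul _).add i5).const_mul _),
      intervalIntegral.integral_sub (i0.const_mul _) (i1.const_mul _), intervalIntegral.integral_const_mul,
      intervalIntegral.integral_const_mul, intervalIntegral.integral_const_mul,
      intervalIntegral.integral_add ((i2.add i3).const_mul _) i5, intervalIntegral.integral_const_mul,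
      intervalIntegral.integral_add i2 i3, intervalIntegral.integral_finsetSum fun j _ => i4 j]
  rw [h2] at h1
  refine h1.trans ?_
  have g1 := I3 (a := α) (X1 := X1) (X2 := X2) h hA hm0 hα22 hδ hW
  have n45 := (N45 h hδ ha hAm hE).1
  rw [e0] at n45
  have g2 := mul_le_mul_of_nonneg_left n45 hXd
  have g3 : ∫ t in X1..X2, q t ≤ Q := by
    refine le_trans ?_ hQ
    simp_rw [hq]
    exact single_le_sum (f := fun S => ∫ t in X1..X2, qd (fun s => es s (Pz z * A0 * Bz (α - 1) z y J Rs S))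
          (fun s => es s (DS N (α - 1) z y J Rs A0 S)) (1 / 2 + δ) t)
      (fun S _ => intervalIntegral.integral_nonneg hX12 fun t _ => qd_nonneg _ _ _ _) (empty_mem_powerset (range J))
  have g4 := I4 (X2 := X2) h hA hm0 ha2 hα22 hδ hX1 hW hmN
  simp_rw [← hd] at g4
  have n2 := N2 h hδ ha hA hAm hmK (by rw [e0]; exact (hWm ∅).mono hmN) hE
  rw [e0] at n2
  have g5 := mul_le_mul_of_nonneg_left n2 hX2
  have g6 := I5 (X2 := X2) h hA hm0 hα22 hδ hX1 hW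
  simp_rw [← hr] at g6
  have n3 := N3 h hδ ha hAm
  rw [e0] at n3
  have g7 := mul_le_mul_of_nonneg_left n3 hX2
  have k1 : (1 - 4 * τ) * ((X2 - X1) * ((1 - ET c z y J Rs) * (ip δ A0 A0 * Real.exp (α ^ 2 * Vd δ z y J))) -
        4 * (m * W) * (l1' A0 ^ 2 * W)) ≤ (1 - 4 * τ) * (∫ t in X1..X2, wf δ α z y J Rs A0 t) :=
    mul_le_mul_of_nonneg_left (le_trans (sub_le_sub_right g2 _) g1) (by linarith : 0 ≤ 1 - 4 * τ)
  have k2 := mul_le_mul_of_nonneg_left (add_le_add g3 (g4.trans (add_le_add g5 le_rfl))) hG0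
  have k3 := g6.trans (add_le_add g7 le_rfl)
  have k4 := mul_le_mul_of_nonneg_left (add_le_add k2 k3) (by norm_num : (0:ℝ) ≤ 2)
  linarith

end

end Pool.Agent.Y753.NL
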